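import Pool.Agent.W_eea520_G.N3

/-!
# Every law occurs (MP_eea520_nt, edge theorem)
-/

set_option autoImplicit false

namespace Pool.Agent.EEA520

open Filter Topology

/-- The Riemann zeta function has a simple pole at `1`. -/
theorem zeta_pole : MeromorphicAt riemannZeta 1 ∧
    meromorphicOrderAt riemannZeta 1 = ((-1 : ℤ) : WithTop ℤ) := by
  classical
  set f : ℂ → ℂ := Function.update (fun s => (s - 1) * riemannZeta s) 1 1 with hf
  have hne : ∀ s : ℂ, s ≠ 1 → f s = (s - 1) * riemannZeta s := fun s hs =>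
    Function.update_of_ne hs _ _
  have han : AnalyticAt ℂ f 1 := by
    refine Complex.analyticAt_of_differentiable_on_punctured_nhds_of_continuousAt ?_ ?_
    · filter_upwards [self_mem_nhdsWithin] with s hs
      have hs' : s ≠ 1 := hs
      have h1 : DifferentiableAt ℂ (fun s => (s - 1) * riemannZeta s) s :=
        (differentiableAt_id.sub_const 1).mul (differentiableAt_riemannZeta hs')
      refine h1.congr_of_eventuallyEq ?_
      filter_upwards [isOpen_compl_singleton.mem_nhds hs'] with z hz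
      exact hne z hz
    · rw [hf, continuousAt_update_same]
      exact riemannZeta_residue_one
  have hf1 : f 1 = 1 := Function.update_self _ _ _
  have heq : riemannZeta =ᶠ[𝓝[≠] 1] fun s => (s - 1) ^ (-1 : ℤ) • f s := by
    filter_upwards [self_mem_nhdsWithin] with s hs
    have hs' : s ≠ 1 := hs
    rw [hne s hs', zpow_neg_one, smul_eq_mul, inv_mul_cancel_left₀ (sub_ne_zero.2 hs')]
  have hmero : MeromorphicAt riemannZeta 1 := by
    refine MeromorphicAt.congr ?_ heq.symm
    exact (((MeromorphicAt.id (1 : ℂ)).sub (MeromorphicAt.const (1 : ℂ) (1 : ℂ))).zpow (-1)).smul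
      han.meromorphicAt
  exact ⟨hmero, (meromorphicOrderAt_eq_int_iff hmero).2
    ⟨f, han, by rw [hf1]; exact one_ne_zero, heq⟩⟩

end Pool.Agent.EEA520

namespace Pool.Agent.EEA520

open Finset

/-- The state of the greedy algorithm. -/
noncomputable def gst (F : ℕ → ℝ → ℝ) (sel : (ℕ → ℝ) → ℕ → ℝ) : ℕ → ℕ → ℝ
  | 0 => fun _ => 0
  | n + 1 => fun k => gst F sel n k + F k (sel (fun k => (1 / 4) ^ k * gst F sel n k) (n + 1))

theorem gst_eq (F : ℕ → ℝ → ℝ) (sel : (ℕ → ℝ) → ℕ → ℝ) (n k : ℕ) :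
    gst F sel n k =
      ∑ i ∈ range n, F k (sel (fun k => (1 / 4) ^ k * gst F sel i k) (i + 1)) := by
  induction n with
  | zero => rfl
  | succ n ih =>
    rw [sum_range_succ, ← ih]
    rfl

theorem gst_le {F : ℕ → ℝ → ℝ} (hF : ∀ k x, |F k x| ≤ 4) (sel : (ℕ → ℝ) → ℕ → ℝ) (n k : ℕ) :
    |gst F sel n k| ≤ 4 * n := by
  rw [gst_eq]
  refine (abs_sum_le_sum_abs _ _).trans ((sum_le_card_nsmul _ _ 4 fun i _ => hF _ _).trans ?_)
  rw [card_range, nsmul_eq_mul, mul_comm]

theorem geom_le (n : ℕ) : ∑ k ∈ range n, ((1 : ℝ) / 4) ^ k ≤ 2 := by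
  have h := geom_sum_eq (show (1 / 4 : ℝ) ≠ 1 by norm_num) n
  rw [h, div_le_iff_of_neg (by norm_num)]
  have : (0 : ℝ) ≤ (1 / 4) ^ n := by positivity
  linarith

theorem sq_le_four_pow (n : ℕ) : ((1 : ℝ) / 4) ^ n * (n : ℝ) ^ 2 ≤ 1 := by
  have h1 : (n : ℝ) ≤ 2 ^ n := by exact_mod_cast Nat.lt_two_pow_self.le
  have h2 : (n : ℝ) ^ 2 ≤ (2 ^ n) ^ 2 := pow_le_pow_left₀ (Nat.cast_nonneg n) h1 2
  have h3 : ((2 : ℝ) ^ n) ^ 2 = 4 ^ n := by
    rw [← pow_mul, mul_comm, pow_mul]
    norm_num
  rw [h3] at h2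
  calc ((1 : ℝ) / 4) ^ n * (n : ℝ) ^ 2 ≤ (1 / 4) ^ n * 4 ^ n :=
        mul_le_mul_of_nonneg_left h2 (by positivity)
    _ = 1 := by rw [← mul_pow]; norm_num

theorem gst_pot {F : ℕ → ℝ → ℝ} (hF : ∀ k x, |F k x| ≤ 4) {sel : (ℕ → ℝ) → ℕ → ℝ}
    (hsel : ∀ b n, ∑ k ∈ range n, b k * F k (sel b n) ≤ 0) (n : ℕ) :
    (∑ k ∈ range n, ((1 : ℝ) / 4) ^ k * gst F sel n k ^ 2) ≤ (48 : ℝ) * (n : ℝ) := by
  induction n with
  | zero => simp
  | succ n ih =>
    set x := sel (fun k => (1 / 4) ^ k * gst F sel n k) (n + 1) with hx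
    have h1 := hsel (fun k => (1 / 4) ^ k * gst F sel n k) (n + 1)
    rw [← hx] at h1
    have h2 : ∀ k, gst F sel (n + 1) k = gst F sel n k + F k x := fun k => rfl
    have h3 : ∑ k ∈ range (n + 1), ((1 : ℝ) / 4) ^ k * gst F sel (n + 1) k ^ 2 =
        ∑ k ∈ range (n + 1), ((1 : ℝ) / 4) ^ k * gst F sel n k ^ 2 +
        2 * ∑ k ∈ range (n + 1), ((1 / 4) ^ k * gst F sel n k) * F k x +
        ∑ k ∈ range (n + 1), ((1 : ℝ) / 4) ^ k * F k x ^ 2 := by
      rw [mul_sum, ← sum_add_distrib, ← sum_add_distrib]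
      refine sum_congr rfl fun k _ => ?_
      rw [h2]
      ring
    have h4 : ∑ k ∈ range (n + 1), ((1 : ℝ) / 4) ^ k * F k x ^ 2 ≤ 32 := by
      have h5 : ∑ k ∈ range (n + 1), ((1 : ℝ) / 4) ^ k * F k x ^ 2 ≤
          ∑ k ∈ range (n + 1), ((1 : ℝ) / 4) ^ k * 16 := by
        refine sum_le_sum fun k _ => mul_le_mul_of_nonneg_left ?_ (by positivity)
        have := sq_le_sq.2 ((hF k x).trans (le_abs_self 4))
        linarith
      rw [← sum_mul] at h5
      have h6 := geom_le (n + 1)
      linarith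
    have h5 : ((1 : ℝ) / 4) ^ n * gst F sel n n ^ 2 ≤ 16 := by
      have h6 := gst_le hF sel n n
      have h7 : gst F sel n n ^ 2 ≤ (4 * (n : ℝ)) ^ 2 :=
        sq_le_sq.2 (h6.trans (le_abs_self _))
      have h8 := sq_le_four_pow n
      have h9 := mul_le_mul_of_nonneg_left h7 (by positivity : (0 : ℝ) ≤ (1 / 4) ^ n)
      have h10 : ((1 : ℝ) / 4) ^ n * (4 * (n : ℝ)) ^ 2 = 16 * ((1 / 4) ^ n * (n : ℝ) ^ 2) := by ring
      rw [h10] at h9
      linarith
    rw [h3, sum_range_succ (fun k => ((1 : ℝ) / 4) ^ k * gst F sel n k ^ 2)]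
    push_cast
    linarith

/-- Bounded functions `F k` such that no linear combination is positive everywhere have a sequence of
arguments with sums of order `√n`. -/
theorem greedy {F : ℕ → ℝ → ℝ} (hF : ∀ k x, |F k x| ≤ 4)
    (h : ∀ (b : ℕ → ℝ) (n : ℕ), ∃ x, ∑ k ∈ range n, b k * F k x ≤ 0) :
    ∃ θ : ℕ → ℝ, ∀ k, ∃ C : ℝ, ∀ n : ℕ, |∑ i ∈ range n, F k (θ i)| ≤ C * Real.sqrt n := by
  choose sel hsel using h
  refine ⟨fun i => sel (fun k => (1 / 4) ^ k * gst F sel i k) (i + 1), fun k => ?_⟩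
  refine ⟨Real.sqrt (48 * 4 ^ k) + 4 * Real.sqrt k, fun n => ?_⟩
  rw [← gst_eq F sel n k, add_mul]
  have h0 : 0 ≤ 4 * Real.sqrt k * Real.sqrt n := by positivity
  have h0' : 0 ≤ Real.sqrt (48 * 4 ^ k) * Real.sqrt n := by positivity
  by_cases hk : k < n
  · have h1 := gst_pot hF hsel n
    have h2 : ((1 : ℝ) / 4) ^ k * gst F sel n k ^ 2 ≤ 48 * n :=
      (single_le_sum (f := fun k => ((1 : ℝ) / 4) ^ k * gst F sel n k ^ 2)
        (fun i _ => by positivity) (mem_range.2 hk)).trans h1
    have h3 : gst F sel n k ^ 2 ≤ 48 * 4 ^ k * n := by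
      have h4 : (4 : ℝ) ^ k * ((1 / 4) ^ k * gst F sel n k ^ 2) = gst F sel n k ^ 2 := by
        rw [← mul_assoc, ← mul_pow]
        norm_num
      have h5 := mul_le_mul_of_nonneg_left h2 (by positivity : (0 : ℝ) ≤ 4 ^ k)
      rw [h4] at h5
      linarith
    have h4 := Real.abs_le_sqrt h3
    rw [Real.sqrt_mul (by positivity)] at h4
    linarith
  · have h1 := gst_le hF sel n k
    have h2 : (n : ℝ) ≤ k := by exact_mod_cast not_lt.1 hk
    have h3 : (n : ℝ) = Real.sqrt n * Real.sqrt n := (Real.mul_self_sqrt (Nat.cast_nonneg n)).symm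
    have h4 : Real.sqrt n ≤ Real.sqrt k := Real.sqrt_le_sqrt h2
    have h5 : (n : ℝ) ≤ Real.sqrt k * Real.sqrt n := by
      nth_rewrite 1 [h3]
      exact mul_le_mul_of_nonneg_right h4 (Real.sqrt_nonneg _)
    linarith

end Pool.Agent.EEA520

namespace Pool.Agent.EEA520

open Filter Topology Asymptotics MeasureTheory Set

/-- The summatory function on `(1, ∞)`. -/
noncomputable def sfA (f : ℕ → ℂ) (t : ℝ) : ℂ :=
  Set.indicator (Ioi 1) (fun t : ℝ => ∑ k ∈ Finset.Icc 1 ⌊t⌋₊, f k) t

theorem sfA_bound {f : ℕ → ℂ} {C : ℝ}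
    (hC : ∀ n : ℕ, ‖∑ k ∈ Finset.Icc 1 n, f k‖ ≤ C * Real.sqrt n) (t : ℝ) (ht : 0 ≤ t) :
    ‖sfA f t‖ ≤ C * Real.sqrt t := by
  have hC0 : 0 ≤ C := by
    have := (norm_nonneg _).trans (hC 1)
    simpa using this
  unfold sfA
  by_cases h : t ∈ Ioi (1 : ℝ)
  · rw [indicator_of_mem h]
    refine (hC _).trans (mul_le_mul_of_nonneg_left ?_ hC0)
    exact Real.sqrt_le_sqrt (Nat.floor_le ht)
  · rw [indicator_of_notMem h, norm_zero]
    positivity

theorem sfA_measurable (f : ℕ → ℂ) : Measurable (sfA f) := by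
  unfold sfA
  refine Measurable.indicator ?_ measurableSet_Ioi
  exact (measurable_from_nat (f := fun n : ℕ => ∑ k ∈ Finset.Icc 1 n, f k)).comp
    Nat.measurable_floor

theorem sfA_locint {f : ℕ → ℂ} {C : ℝ}
    (hC : ∀ n : ℕ, ‖∑ k ∈ Finset.Icc 1 n, f k‖ ≤ C * Real.sqrt n) :
    LocallyIntegrableOn (sfA f) (Ioi 0) := by
  have hC0 : 0 ≤ C := by
    have := (norm_nonneg _).trans (hC 1)
    simpa using this
  have h1 : LocallyIntegrable (fun t : ℝ => C * Real.sqrt |t|) :=
    Continuous.locallyIntegrable (by fun_prop)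
  refine (h1.mono (sfA_measurable f).aestronglyMeasurable
    (Eventually.of_forall fun t => ?_)).locallyIntegrableOn _
  rw [Real.norm_of_nonneg (by positivity)]
  by_cases ht : 0 ≤ t
  · rw [abs_of_nonneg ht]
    exact sfA_bound hC t ht
  · have h2 : t ∉ Ioi (1 : ℝ) := fun h => ht (one_pos.trans h).le
    unfold sfA
    rw [indicator_of_notMem h2, norm_zero]
    positivity

/-- A Dirichlet series with partial sums `O(√n)` extends holomorphically to `Re s > 1/2`. -/
theorem dir_ext {f : ℕ → ℂ} {B C : ℝ} (hB : ∀ n, ‖f n‖ ≤ B)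
    (hC : ∀ n : ℕ, ‖∑ k ∈ Finset.Icc 1 n, f k‖ ≤ C * Real.sqrt n) :
    ∃ H : ℂ → ℂ, DifferentiableOn ℂ H {s | 1 / 2 < s.re} ∧
      ∀ s : ℂ, 1 < s.re → LSeries f s = H s := by
  refine ⟨fun s => s * mellin (sfA f) (-s), ?_, ?_⟩
  · intro s hs
    have hs' : 1 / 2 < s.re := hs
    have h1 : DifferentiableAt ℂ (mellin (sfA f)) (-s) := by
      refine mellin_differentiableAt_of_isBigO_rpow (a := -(1 / 2)) (b := -s.re - 1)
        (sfA_locint hC) ?_ ?_ ?_ ?_
      · refine IsBigO.of_bound C ?_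
        filter_upwards [eventually_ge_atTop 0] with t ht
        rw [neg_neg, ← Real.sqrt_eq_rpow, Real.norm_of_nonneg (Real.sqrt_nonneg t)]
        exact sfA_bound hC t ht
      · rw [Complex.neg_re]
        linarith
      · refine IsBigO.of_bound 0 ?_
        filter_upwards [Ioo_mem_nhdsGT one_pos] with t ht
        have h2 : t ∉ Ioi (1 : ℝ) := fun h => lt_asymm ht.2 h
        unfold sfA
        rw [indicator_of_notMem h2, norm_zero, zero_mul]
      · rw [Complex.neg_re]
        linarith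
    have h2 : DifferentiableAt ℂ (fun s => mellin (sfA f) (-s)) s :=
      h1.comp s differentiableAt_id.neg
    exact (differentiableAt_id.mul h2).differentiableWithinAt
  · intro s hs
    have h1 : LSeriesSummable f s := LSeriesSummable_of_bounded_of_one_lt_re (fun n _ => hB n) hs
    have h2 : (fun n : ℕ => ∑ k ∈ Finset.Icc 1 n, f k) =O[atTop] fun n : ℕ => (n : ℝ) ^ (1 / 2 : ℝ) := by
      refine IsBigO.of_bound C (Eventually.of_forall fun n => ?_)
      rw [← Real.sqrt_eq_rpow, Real.norm_of_nonneg (Real.sqrt_nonneg _)]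
      exact hC n
    rw [LSeries_eq_mul_integral f (by norm_num) (by linarith) h1 h2]
    congr 1
    unfold mellin sfA
    rw [← integral_indicator measurableSet_Ioi, ← integral_indicator measurableSet_Ioi]
    refine integral_congr_ae (Eventually.of_forall fun t => ?_)
    by_cases h3 : t ∈ Ioi (1 : ℝ)
    · have h4 : t ∈ Ioi (0 : ℝ) := by
        have h5 : 1 < t := h3
        show 0 < t
        linarith
      simp only [indicator_of_mem h3, indicator_of_mem h4, smul_eq_mul]
      rw [mul_comm]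
      congr 2
      ring
    · rw [indicator_of_notMem h3]
      by_cases h4 : t ∈ Ioi (0 : ℝ)
      · rw [indicator_of_mem h4, indicator_of_notMem h3, smul_zero]
      · rw [indicator_of_notMem h4]

end Pool.Agent.EEA520

namespace Pool.Agent.EEA520

open Filter Topology Pool.Agent.EEAG1 LSeries

variable {n : ℕ}

theorem hol_le2 {s : ℂ} (hs : 1 / 2 < s.re) (p : Pr) : ‖(((p : ℕ) : ℂ) ^ (-s))‖ ≤ 3 / 4 := by
  have hp2 : (2 : ℝ) ≤ ((p : ℕ) : ℝ) := by exact_mod_cast p.2.two_le
  rw [hol_norm]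
  have h1 : ((p : ℕ) : ℝ) ^ (-s.re) ≤ (2 : ℝ) ^ (-(1 / 2 : ℝ)) := by
    calc ((p : ℕ) : ℝ) ^ (-s.re) ≤ (2 : ℝ) ^ (-s.re) :=
          Real.rpow_le_rpow_of_nonpos (by norm_num) hp2 (by linarith)
      _ ≤ (2 : ℝ) ^ (-(1 / 2 : ℝ)) :=
          Real.rpow_le_rpow_of_exponent_le (by norm_num) (by linarith)
  refine h1.trans ?_
  rw [Real.rpow_neg (by norm_num), inv_le_comm₀ (by positivity) (by norm_num),
    ← Real.sqrt_eq_rpow]
  refine Real.le_sqrt_of_sq_le ?_
  norm_num

theorem hol_diff {π : GSys n} (hπ : Tempered π) (m : Wt n →₀ ℤ) :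
    DifferentiableOn ℂ (hol π m) {s : ℂ | 1 / 2 < s.re} := by
  intro s₀ hs₀
  have hs₀' : 1 / 2 < s₀.re := hs₀
  set σ : ℝ := (1 / 2 + s₀.re) / 2 with hσ
  have hσ1 : 1 / 2 < σ := by rw [hσ]; linarith
  have hσ2 : σ < s₀.re := by rw [hσ]; linarith
  have hopen : IsOpen {s : ℂ | σ < s.re} := isOpen_lt continuous_const Complex.continuous_re
  have hsum : Summable fun p : Pr => mnorm m * (2 * ((p : ℕ) : ℝ) ^ (-(2 * σ))) :=
    ((Nat.Primes.summable_rpow.2 (by linarith)).mul_left 2).mul_left _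
  have hterm : ∀ (p : Pr) (s : ℂ), s ∈ {s : ℂ | σ < s.re} →
      ‖lfac (π p) m (((p : ℕ) : ℂ) ^ (-s)) - trq (π p) m (((p : ℕ) : ℂ) ^ (-s))‖ ≤
        mnorm m * (2 * ((p : ℕ) : ℝ) ^ (-(2 * σ))) := by
    intro p s hs
    have hs' : σ < s.re := hs
    have hp1 : (1 : ℝ) ≤ ((p : ℕ) : ℝ) := by exact_mod_cast p.2.one_lt.le
    refine (lfac_bound' (fun w => norm_ev hπ p w) m (hol_le2 (by linarith) p)).trans ?_
    refine mul_le_mul_of_nonneg_left (mul_le_mul_of_nonneg_left ?_ (by norm_num))
      (mnorm_nonneg m)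
    rw [hol_norm, ← Real.rpow_natCast, ← Real.rpow_mul (by linarith)]
    refine Real.rpow_le_rpow_of_exponent_le hp1 ?_
    push_cast
    linarith
  have h1 : DifferentiableOn ℂ (hol π m) {s : ℂ | σ < s.re} := by
    refine Complex.differentiableOn_tsum_of_summable_norm hsum ?_ hopen fun p s hs => hterm p s hs
    intro p s hs
    have hs' : σ < s.re := hs
    refine DifferentiableAt.differentiableWithinAt ?_
    have hp0 : ((p : ℕ) : ℂ) ≠ 0 := by exact_mod_cast p.2.ne_zero
    have hq : DifferentiableAt ℂ (fun s : ℂ => ((p : ℕ) : ℂ) ^ (-s)) s :=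
      DifferentiableAt.const_cpow differentiableAt_id.neg (Or.inl hp0)
    refine DifferentiableAt.sub ?_ ?_
    · unfold lfac Finsupp.sum
      refine DifferentiableAt.fun_sum fun w _ => DifferentiableAt.neg ?_
      refine DifferentiableAt.const_mul ?_ _
      refine DifferentiableAt.clog (DifferentiableAt.const_sub (hq.const_mul _) 1) ?_
      rw [Complex.mem_slitPlane_iff]
      left
      have h1 : ‖((π p).ev w : ℂ) * ((p : ℕ) : ℂ) ^ (-s)‖ ≤ 3 / 4 := by
        rw [norm_mul, norm_ev hπ, one_mul]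
        exact hol_le2 (by linarith) p
      have h2 := (abs_le.1 ((Complex.abs_re_le_norm _).trans h1)).2
      rw [Complex.sub_re, Complex.one_re]
      linarith
    · unfold trq Finsupp.sum
      refine DifferentiableAt.fun_sum fun w _ => ?_
      exact (hq.const_mul _).const_mul _
  exact ((h1 s₀ hσ2).differentiableAt (hopen.mem_nhds hσ2)).differentiableWithinAt

theorem zeta_eq {π : GSys n} (hπ : Tempered π) {s : ℂ} (hs : 1 < s.re) :
    riemannZeta s = Complex.exp (LSeries (chn π (Finsupp.single 0 1)) s +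
      hol π (Finsupp.single 0 1) s) := by
  have h1 := factor_hasProd hπ (Finsupp.single 0 1) hs
  have h2 := riemannZeta_eulerProduct_hasProd (s := s) hs
  simp only [factor_one] at h1
  exact h2.unique h1

theorem zeta_mero (s : ℂ) : MeromorphicAt riemannZeta s := by
  by_cases hs : s = 1
  · subst hs
    exact zeta_pole.1
  · have han : AnalyticAt ℂ riemannZeta s := by
      refine DifferentiableOn.analyticAt (s := {1}ᶜ) ?_ (isOpen_compl_singleton.mem_nhds hs)
      intro z hz
      exact (differentiableAt_riemannZeta hz).differentiableWithinAt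
    exact han.meromorphicAt

end Pool.Agent.EEA520

namespace Pool.Agent.EEA520

open Filter Topology Pool.Agent.EEAG1 LSeries MeasureTheory

/-- The exponent of a weight at the classes `diag(y, y⁻¹)`. -/
def jw (w : Wt 1) : ℤ := w.1 - 2 * w.2 0

/-- The angle of a prime. -/
noncomputable def ang (θ : ℕ → ℝ) (k : ℕ) : ℝ := θ (Nat.count Nat.Prime k)

/-- The system of the classes `diag(y_p, y_p⁻¹)`, where `y_p = exp(i θ_j)` if `p` is the prime number with
index `j`. -/
noncomputable def angSys (θ : ℕ → ℝ) : GSys 1 := fun p =>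
  ⟨Units.mk0 (Complex.exp ((ang θ p : ℝ) * Complex.I)) (Complex.exp_ne_zero _),
   fun _ => Units.mk0 (Complex.exp (((-2 * ang θ p : ℝ) : ℂ) * Complex.I)) (Complex.exp_ne_zero _)⟩

theorem angSys_tempered (θ : ℕ → ℝ) : Tempered (angSys θ) := fun _ =>
  ⟨Complex.norm_exp_ofReal_mul_I _, fun _ => Complex.norm_exp_ofReal_mul_I _⟩

theorem angSys_nu (θ : ℕ → ℝ) (p : Pr) : (angSys θ p).nu = 1 := by
  unfold Torus.nu angSys
  apply Units.ext
  rw [Fin.prod_univ_one, Units.val_mul, Units.val_pow_eq_pow_val, Units.val_mk0, Units.val_mk0,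
    Units.val_one, ← Complex.exp_nat_mul, ← Complex.exp_add, ← Complex.exp_zero]
  congr 1
  push_cast
  ring

theorem angSys_ev (θ : ℕ → ℝ) (p : Pr) (w : Wt 1) :
    ((angSys θ p).ev w : ℂ) = Complex.exp ((((jw w : ℤ) : ℝ) * ang θ p : ℝ) * Complex.I) := by
  unfold Torus.ev angSys jw
  rw [Fin.prod_univ_one, Units.val_mul, Units.val_zpow_eq_zpow_val, Units.val_zpow_eq_zpow_val,
    Units.val_mk0, Units.val_mk0, ← Complex.exp_int_mul, ← Complex.exp_int_mul, ← Complex.exp_add]
  congr 1
  push_cast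
  ring

theorem jw_act (w : Wt 1) : jw (act (default, {0}) w) = -jw w := by
  unfold jw
  rw [act_apply]
  simp
  ring

theorem angSys_tcx (θ : ℕ → ℝ) {m : Wt 1 →₀ ℤ} (hm : IsCharacter m) (p : Pr) :
    tcx (angSys θ) m p =
      ((m.sum fun w e => (e : ℝ) * Real.cos ((jw w : ℝ) * ang θ p) : ℝ) : ℂ) := by
  have h1 : (m.sum fun w e => (e : ℝ) * Real.sin ((jw w : ℝ) * ang θ p)) = 0 := by
    have h2 := sum_act hm (default, {0}) fun w => Real.sin ((jw w : ℝ) * ang θ p)
    have h3 : (m.sum fun w e => (e : ℝ) * Real.sin ((jw (act (default, {0}) w) : ℝ) * ang θ p)) =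
        -(m.sum fun w e => (e : ℝ) * Real.sin ((jw w : ℝ) * ang θ p)) := by
      unfold Finsupp.sum
      rw [← Finset.sum_neg_distrib]
      refine Finset.sum_congr rfl fun w _ => ?_
      dsimp only
      rw [jw_act]
      push_cast
      rw [neg_mul, Real.sin_neg]
      ring
    rw [h3] at h2
    linarith
  apply Complex.ext
  · rw [Complex.ofReal_re]
    unfold tcx Finsupp.sum
    rw [Complex.re_sum]
    refine Finset.sum_congr rfl fun w _ => ?_
    dsimp only
    rw [angSys_ev, ← Complex.ofReal_intCast, Complex.re_ofReal_mul, Complex.exp_ofReal_mul_I_re]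
  · rw [Complex.ofReal_im, ← h1]
    unfold tcx Finsupp.sum
    rw [Complex.im_sum]
    refine Finset.sum_congr rfl fun w _ => ?_
    dsimp only
    rw [angSys_ev, ← Complex.ofReal_intCast, Complex.im_ofReal_mul, Complex.exp_ofReal_mul_I_im]

/-- Sums over the primes. -/
theorem sum_primes (G : ℕ → ℝ) (N : ℕ) :
    ∑ k ∈ Finset.range N, (if k.Prime then G (Nat.count Nat.Prime k) else 0) =
      ∑ i ∈ Finset.range (Nat.count Nat.Prime N), G i := by
  induction N with
  | zero => simp
  | succ N ih =>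
    rw [Finset.sum_range_succ, ih, Nat.count_succ]
    split_ifs with h
    · rw [Finset.sum_range_succ]
    · simp

/-- The integer `a`. -/
theorem exists_half {m : Wt 1 →₀ ℤ} (hm : IsCharacter m) {c : ℤ → ℤ} (hc : ∀ k, c (-k) = c k)
    (h0 : c 0 = 2) : ∃ a : ℤ, 2 * a = m.sum fun w e => e * c (jw w) := by
  have h1 : (((m.sum fun w e => e * c (jw w) : ℤ)) : ZMod 2) = 0 := by
    unfold Finsupp.sum
    push_cast
    refine Finset.sum_involution (fun w _ => act (default, {0}) w) ?_ ?_ ?_ ?_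
    · intro w _
      rw [hm.act, jw_act, hc]
      exact CharTwo.add_self_eq_zero _
    · intro w _ h2 h3
      apply h2
      have h4 : jw w = 0 := by
        have h5 := jw_act w
        rw [h3] at h5
        linarith
      rw [h4, h0]
      have : ((2 : ℤ) : ZMod 2) = 0 := rfl
      rw [this, mul_zero]
    · intro w hw
      rw [Finsupp.mem_support_iff] at hw ⊢
      rw [hm.act]
      exact hw
    · intro w _
      rw [act_apply, act_apply]
      refine Prod.ext rfl ?_
      funext i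
      have hi : i = 0 := Subsingleton.elim _ _
      subst hi
      simp
  rw [ZMod.intCast_zmod_eq_zero_iff_dvd] at h1
  obtain ⟨a, ha⟩ := h1
  exact ⟨a, ha.symm⟩

/-- The greedy choice of the angles. -/
theorem exists_angles (μ : Measure ℝ) [IsProbabilityMeasure μ] {c : ℤ → ℤ}
    (hc : ∀ k : ℤ, ∫ x, 2 * Real.cos (k * x) ∂μ = c k) :
    ∃ θ : ℕ → ℝ, ∀ k : ℤ, ∃ C : ℝ, ∀ n : ℕ,
      |∑ i ∈ Finset.range n, (2 * Real.cos (k * θ i) - c k)| ≤ C * Real.sqrt n := by
  have hcos : ∀ (k : ℤ) (x : ℝ), |2 * Real.cos (k * x)| ≤ 2 := by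
    intro k x
    rw [abs_mul, abs_two]
    have := Real.abs_cos_le_one (k * x)
    linarith
  have hint : ∀ k : ℤ, Integrable (fun x : ℝ => 2 * Real.cos (k * x)) μ := by
    intro k
    refine Integrable.of_bound (C := 2) ?_ (Eventually.of_forall fun x => ?_)
    · have : Continuous fun x : ℝ => 2 * Real.cos (k * x) := by fun_prop
      exact this.aestronglyMeasurable
    · rw [Real.norm_eq_abs]
      exact hcos k x
  have hint2 : ∀ (b : ℝ) (k : ℤ), Integrable (fun x : ℝ => b * (2 * Real.cos (k * x) - c k)) μ :=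
    fun b k => ((hint k).sub (integrable_const _)).const_mul _
  have hcb : ∀ k : ℤ, |(c k : ℝ)| ≤ 2 := by
    intro k
    rw [← hc k, ← Real.norm_eq_abs]
    have h1 := norm_integral_le_of_norm_le_const (μ := μ) (f := fun x : ℝ => 2 * Real.cos (k * x))
      (C := 2) (Eventually.of_forall fun x => by rw [Real.norm_eq_abs]; exact hcos k x)
    simpa using h1
  obtain ⟨θ, hθ⟩ := greedy (F := fun k x => 2 * Real.cos (((k : ℤ) : ℝ) * x) - c (k : ℤ))
    (fun k x => by
      refine (abs_sub _ _).trans ?_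
      have h1 := hcos (k : ℤ) x
      have h2 := hcb (k : ℤ)
      linarith)
    (fun b n => by
      have h1 : Integrable (fun x : ℝ => ∑ k ∈ Finset.range n,
          b k * (2 * Real.cos (((k : ℤ) : ℝ) * x) - c (k : ℤ))) μ :=
        integrable_finsetSum _ fun k _ => hint2 _ _
      obtain ⟨x, hx⟩ := exists_le_integral h1
      refine ⟨x, hx.trans (le_of_eq ?_)⟩
      rw [integral_finsetSum _ fun k _ => hint2 (b k) (k : ℤ)]
      refine Finset.sum_eq_zero fun k _ => ?_
      rw [integral_const_mul, integral_sub (hint k) (integrable_const _), hc k]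
      simp)
  have hceven : ∀ k : ℤ, c (-k) = c k := by
    intro k
    have h1 := hc (-k)
    have h2 : ∀ x : ℝ, Real.cos (((-k : ℤ) : ℝ) * x) = Real.cos (k * x) := by
      intro x
      push_cast
      rw [neg_mul, Real.cos_neg]
    simp only [h2] at h1
    rw [hc k] at h1
    exact_mod_cast h1.symm
  refine ⟨θ, fun k => ?_⟩
  obtain ⟨C, hC⟩ := hθ k.natAbs
  refine ⟨C, fun n => ?_⟩
  have h1 : ∀ i, 2 * Real.cos (k * θ i) - c k =
      2 * Real.cos ((((k.natAbs : ℕ) : ℤ) : ℝ) * θ i) - c ((k.natAbs : ℕ) : ℤ) := by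
    intro i
    rcases Int.natAbs_eq k with h | h
    · rw [← h]
    · have h2 : (((k.natAbs : ℕ) : ℤ)) = -k := by omega
      rw [h2, hceven]
      push_cast
      rw [neg_mul, Real.cos_neg]
  simp only [h1]
  exact hC n

/-- The partial sums. -/
theorem partial_sums {θ : ℕ → ℝ} {G : ℝ → ℝ} {C : ℝ} (hC0 : 0 ≤ C)
    (hC : ∀ n : ℕ, |∑ i ∈ Finset.range n, G (θ i)| ≤ C * Real.sqrt n) (N : ℕ) :
    |∑ k ∈ Finset.Icc 1 N, (if k.Prime then G (ang θ k) else 0)| ≤ C * Real.sqrt N := by
  have h1 : ∑ k ∈ Finset.Icc 1 N, (if k.Prime then G (ang θ k) else 0) =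
      ∑ i ∈ Finset.range (Nat.count Nat.Prime (N + 1)), G (θ i) := by
    rw [← sum_primes (fun i => G (θ i)) (N + 1), Finset.range_eq_Ico,
      Finset.sum_eq_sum_Ico_succ_bot (by omega), if_neg Nat.not_prime_zero, zero_add]
    refine Finset.sum_congr ?_ fun k _ => rfl
    ext k
    rw [Finset.mem_Icc, Finset.mem_Ico]
    omega
  rw [h1]
  refine (hC _).trans (mul_le_mul_of_nonneg_left (Real.sqrt_le_sqrt ?_) hC0)
  have h2 : ∀ N, Nat.count Nat.Prime (N + 1) ≤ N := by
    intro N
    induction N with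
    | zero => simp [Nat.count_succ, Nat.not_prime_zero]
    | succ N ih =>
      rw [Nat.count_succ]
      split_ifs <;> omega
  exact_mod_cast h2 N

end Pool.Agent.EEA520

namespace Pool.Agent.EEA520

open Filter Topology Pool.Agent.EEAG1 LSeries MeasureTheory

theorem chn_ang (θ : ℕ → ℝ) {m : Wt 1 →₀ ℤ} (hm : IsCharacter m) {k : ℕ} (hk : k.Prime) :
    chn (angSys θ) m k =
      ((m.sum fun w e => (e : ℝ) * Real.cos ((jw w : ℝ) * ang θ k) : ℝ) : ℂ) := by
  rw [chn, dif_pos hk]
  exact angSys_tcx θ hm ⟨k, hk⟩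

/-- Every probability measure `μ` with integral moments `c k = ∫ 2 cos (k θ) dμ` is the law of the classes
of a tempered system with trivial central character, all of whose Euler products are of the form
`ζ(s) ^ a * exp (H s)` with an integer `a` and a holomorphic function `H` on `Re s > 1/2`. -/
theorem realize (μ : Measure ℝ) [IsProbabilityMeasure μ] {c : ℤ → ℤ}
    (hc : ∀ k : ℤ, ∫ x, 2 * Real.cos (k * x) ∂μ = c k) :
    ∃ π : GSys 1, Tempered π ∧ (∀ p, (π p).nu = 1) ∧ ∀ m : Wt 1 →₀ ℤ, IsCharacter m →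
      ∃ (a : ℤ) (H : ℂ → ℂ), 2 * a = (m.sum fun w e => e * c (w.1 - 2 * w.2 0)) ∧
        DifferentiableOn ℂ H {s | 1 / 2 < s.re} ∧ ∀ s : ℂ, 1 < s.re →
          HasProd (fun p : Pr => (π p).factor m (((p : ℕ) : ℂ) ^ (-s)))
            (riemannZeta s ^ a * Complex.exp (H s)) := by
  classical
  have hceven : ∀ k : ℤ, c (-k) = c k := by
    intro k
    have h1 := hc (-k)
    have h2 : ∀ x : ℝ, Real.cos (((-k : ℤ) : ℝ) * x) = Real.cos (k * x) := by
      intro x
      push_cast
      rw [neg_mul, Real.cos_neg]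
    simp only [h2] at h1
    rw [hc k] at h1
    exact_mod_cast h1.symm
  have hc0 : c 0 = 2 := by
    have h1 := hc 0
    simp only [Int.cast_zero, zero_mul, Real.cos_zero, mul_one, integral_const,
      probReal_univ, one_smul] at h1
    exact_mod_cast h1.symm
  obtain ⟨θ, hθ⟩ := exists_angles μ hc
  have hπ := angSys_tempered θ
  refine ⟨angSys θ, hπ, angSys_nu θ, fun m hm => ?_⟩
  set π := angSys θ with hπdef
  obtain ⟨a, ha⟩ := exists_half hm hceven hc0
  choose C hC using hθ
  set fm : ℕ → ℂ := fun k => chn π m k - a * chn π (Finsupp.single 0 1) k with hfm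
  have hre : ∀ k, fm k = ((∑ w ∈ m.support, (m w : ℝ) / 2 *
      (if k.Prime then 2 * Real.cos ((jw w : ℝ) * ang θ k) - c (jw w) else 0) : ℝ) : ℂ) := by
    intro k
    rw [hfm]
    dsimp only
    rw [chn_one]
    by_cases hk : k.Prime
    · rw [hπdef, chn_ang θ hm hk, if_pos hk, mul_one]
      have h1 : ((a : ℤ) : ℝ) = ∑ w ∈ m.support, (m w : ℝ) / 2 * c (jw w) := by
        have h2 : (2 : ℝ) * a = ∑ w ∈ m.support, (m w : ℝ) * c (jw w) := by
          unfold Finsupp.sum at ha
          exact_mod_cast ha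
        have h3 : ∑ w ∈ m.support, (m w : ℝ) / 2 * c (jw w) =
            (∑ w ∈ m.support, (m w : ℝ) * c (jw w)) / 2 := by
          rw [Finset.sum_div]
          exact Finset.sum_congr rfl fun w _ => by ring
        rw [h3, ← h2]
        ring
      rw [← Complex.ofReal_intCast a, ← Complex.ofReal_sub, h1]
      congr 1
      unfold Finsupp.sum
      rw [← Finset.sum_sub_distrib]
      refine Finset.sum_congr rfl fun w _ => ?_
      rw [if_pos hk]
      show (m w : ℝ) * Real.cos ((jw w : ℝ) * ang θ k) - (m w : ℝ) / 2 * c (jw w) =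
        (m w : ℝ) / 2 * (2 * Real.cos ((jw w : ℝ) * ang θ k) - c (jw w))
      ring
    · rw [chn, dif_neg hk, if_neg hk, mul_zero, sub_zero]
      simp [hk]
  set D : ℝ := ∑ w ∈ m.support, |(m w : ℝ) / 2| * |C (jw w)| with hD
  have hpart : ∀ N : ℕ, ‖∑ k ∈ Finset.Icc 1 N, fm k‖ ≤ D * Real.sqrt N := by
    intro N
    simp only [hre]
    rw [← Complex.ofReal_sum, Complex.norm_real, Real.norm_eq_abs, Finset.sum_comm, hD,
      Finset.sum_mul]
    refine (Finset.abs_sum_le_sum_abs _ _).trans (Finset.sum_le_sum fun w _ => ?_)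
    rw [← Finset.mul_sum, abs_mul, mul_assoc]
    refine mul_le_mul_of_nonneg_left ?_ (abs_nonneg _)
    exact partial_sums (G := fun x => 2 * Real.cos ((jw w : ℝ) * x) - c (jw w)) (abs_nonneg _)
      (fun n => (hC (jw w) n).trans
        (mul_le_mul_of_nonneg_right (le_abs_self _) (Real.sqrt_nonneg _))) N
  have hB : ∀ k, ‖fm k‖ ≤ mnorm m + |(a : ℝ)| * mnorm (Finsupp.single (0 : Wt 1) (1 : ℤ)) := by
    intro k
    refine (norm_sub_le _ _).trans (add_le_add (chn_le hπ m k) ?_)
    rw [norm_mul, Complex.norm_intCast]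
    exact mul_le_mul_of_nonneg_left (chn_le hπ _ k) (abs_nonneg _)
  obtain ⟨H, hH1, hH2⟩ := dir_ext hB hpart
  refine ⟨a, fun s => H s + hol π m s - a * hol π (Finsupp.single 0 1) s, ha, ?_, ?_⟩
  · exact (hH1.add (hol_diff hπ m)).sub ((hol_diff hπ _).const_mul _)
  · intro s hs
    have h1 := factor_hasProd hπ m hs
    have h2 : LSeries (chn π m) s = LSeries fm s + a * LSeries (chn π (Finsupp.single 0 1)) s := by
      have h3 : LSeriesSummable fm s :=
        LSeriesSummable_of_bounded_of_one_lt_re (fun k _ => hB k) hs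
      have h4 := (chn_summable hπ (Finsupp.single 0 1) hs).smul (a : ℂ)
      rw [← LSeries_smul, ← LSeries_add h3 h4]
      congr 1
      funext k
      simp only [hfm, Pi.add_apply, Pi.smul_apply, smul_eq_mul, sub_add_cancel]
    have h5 : riemannZeta s ^ a * Complex.exp (H s + hol π m s -
        a * hol π (Finsupp.single 0 1) s) =
        Complex.exp (LSeries (chn π m) s + hol π m s) := by
      rw [zeta_eq hπ hs, ← Complex.exp_int_mul, ← Complex.exp_add, h2, hH2 s hs]
      congr 1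
      ring
    rw [h5]
    exact h1

end Pool.Agent.EEA520

namespace Pool.Agent.EEA520

open Filter Topology Pool.Agent.EEAG1 LSeries MeasureTheory

/-- The orders on the line of an Euler product of the form `ζ ^ a * exp H`. -/
theorem poleOrder_of_form {n : ℕ} {π : GSys n} {m : Wt n →₀ ℤ} {a : ℤ} {H : ℂ → ℂ}
    (hH : DifferentiableOn ℂ H {s | 1 / 2 < s.re})
    (hp : ∀ s : ℂ, 1 < s.re → HasProd (fun p : Pr => (π p).factor m (((p : ℕ) : ℂ) ^ (-s)))
      (riemannZeta s ^ a * Complex.exp (H s))) (t : ℝ) :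
    PoleOrder π m (pt t) (if t = 0 then a else 0) := by
  have hopen : IsOpen {s : ℂ | 1 / 2 < s.re} := isOpen_lt continuous_const Complex.continuous_re
  have hmem : pt t ∈ {s : ℂ | 1 / 2 < s.re} := by
    show 1 / 2 < (pt t).re
    unfold pt
    norm_num
  have hHa : AnalyticAt ℂ H (pt t) := hH.analyticAt (hopen.mem_nhds hmem)
  have hE : AnalyticAt ℂ (fun s => Complex.exp (H s)) (pt t) := hHa.cexp
  have hE0 : meromorphicOrderAt (fun s => Complex.exp (H s)) (pt t) = 0 := by
    rw [hE.meromorphicOrderAt_eq, hE.analyticOrderAt_eq_zero.2 (Complex.exp_ne_zero _)]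
    rfl
  have hz := zeta_mero (pt t)
  have hzo : meromorphicOrderAt riemannZeta (pt t) = (((if t = 0 then -1 else 0 : ℤ)) : WithTop ℤ) := by
    by_cases ht : t = 0
    · subst ht
      rw [if_pos rfl, pt_zero']
      exact zeta_pole.2
    · rw [if_neg ht]
      have han : AnalyticAt ℂ riemannZeta (pt t) := by
        refine DifferentiableOn.analyticAt (s := {1}ᶜ) ?_
          (isOpen_compl_singleton.mem_nhds (pt_ne_one ht))
        intro z hz
        exact (differentiableAt_riemannZeta hz).differentiableWithinAt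
      have hne : riemannZeta (pt t) ≠ 0 := by
        refine riemannZeta_ne_zero_of_one_le_re ?_
        unfold pt
        simp
      rw [han.meromorphicOrderAt_eq, han.analyticOrderAt_eq_zero.2 hne]
      rfl
  refine ⟨fun s => riemannZeta s ^ a * Complex.exp (H s), ?_, ?_, ?_⟩
  · exact (hz.zpow a).mul hE.meromorphicAt
  · have h1 : meromorphicOrderAt (fun s => riemannZeta s ^ a * Complex.exp (H s)) (pt t) =
        meromorphicOrderAt (riemannZeta ^ a) (pt t) +
          meromorphicOrderAt (fun s => Complex.exp (H s)) (pt t) :=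
      meromorphicOrderAt_mul (hz.zpow a) hE.meromorphicAt
    rw [h1, hE0, add_zero, meromorphicOrderAt_zpow hz, hzo]
    by_cases ht : t = 0
    · rw [if_pos ht, if_pos ht, ← WithTop.coe_mul]
      congr 1
      simp
    · rw [if_neg ht, if_neg ht, ← WithTop.coe_mul]
      congr 1
      simp
  · unfold IsL
    filter_upwards [self_mem_nhdsWithin] with s hs
    exact hp s hs

/-- The law of a random square root with a random sign. -/
theorem exists_double (μ : Measure ℝ) [IsProbabilityMeasure μ] {c : ℤ → ℤ}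
    (hc : ∀ k : ℤ, ∫ x, 2 * Real.cos (k * x) ∂μ = c k) :
    ∃ ν : Measure ℝ, IsProbabilityMeasure ν ∧
      ∀ k : ℤ, ∫ x, 2 * Real.cos (k * x) ∂ν = ((if Even k then c (k / 2) else 0 : ℤ) : ℝ) := by
  have hm1 : Measurable fun x : ℝ => x / 2 := by fun_prop
  have hm2 : Measurable fun x : ℝ => x / 2 + Real.pi := by fun_prop
  have i1 : IsProbabilityMeasure (μ.map fun x : ℝ => x / 2) :=
    Measure.isProbabilityMeasure_map hm1.aemeasurable
  have i2 : IsProbabilityMeasure (μ.map fun x : ℝ => x / 2 + Real.pi) :=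
    Measure.isProbabilityMeasure_map hm2.aemeasurable
  have hcont : ∀ k : ℤ, Continuous fun x : ℝ => 2 * Real.cos (k * x) := fun k => by fun_prop
  have hint : ∀ (ρ : Measure ℝ) [IsProbabilityMeasure ρ] (k : ℤ),
      Integrable (fun x : ℝ => 2 * Real.cos (k * x)) ρ := by
    intro ρ _ k
    refine Integrable.of_bound (C := 2) (hcont k).aestronglyMeasurable
      (Eventually.of_forall fun x => ?_)
    rw [Real.norm_eq_abs, abs_mul, abs_two]
    have := Real.abs_cos_le_one (k * x)
    linarith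
  refine ⟨(1 / 2 : ENNReal) • ((μ.map fun x : ℝ => x / 2) + (μ.map fun x : ℝ => x / 2 + Real.pi)),
    ?_, fun k => ?_⟩
  · constructor
    rw [Measure.smul_apply, Measure.add_apply, measure_univ, measure_univ, smul_eq_mul,
      one_add_one_eq_two, one_div, ENNReal.inv_mul_cancel (by norm_num) (by norm_num)]
  · rw [integral_smul_measure, integral_add_measure (hint _ k) (hint _ k),
      integral_map hm1.aemeasurable (hcont k).aestronglyMeasurable,
      integral_map hm2.aemeasurable (hcont k).aestronglyMeasurable]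
    have h1 : (1 / 2 : ENNReal).toReal = 1 / 2 := by simp
    rw [h1, smul_eq_mul]
    rcases Int.even_or_odd' k with ⟨j, rfl | rfl⟩
    · rw [if_pos (even_two_mul j), Int.mul_ediv_cancel_left _ (by norm_num), ← hc j]
      have e1 : ∀ x : ℝ, Real.cos (((2 * j : ℤ) : ℝ) * (x / 2)) = Real.cos (j * x) := by
        intro x
        congr 1
        push_cast
        ring
      have e2 : ∀ x : ℝ, Real.cos (((2 * j : ℤ) : ℝ) * (x / 2 + Real.pi)) = Real.cos (j * x) := by
        intro x
        have h2 : (((2 * j : ℤ) : ℝ) * (x / 2 + Real.pi)) = j * x + j * (2 * Real.pi) := by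
          push_cast
          ring
        rw [h2, Real.cos_add_int_mul_two_pi]
      simp only [e1, e2]
      ring
    · rw [if_neg (Int.not_even_iff_odd.2 ⟨j, rfl⟩), Int.cast_zero]
      have e2 : ∀ x : ℝ, 2 * Real.cos (((2 * j + 1 : ℤ) : ℝ) * (x / 2 + Real.pi)) =
          -(2 * Real.cos (((2 * j + 1 : ℤ) : ℝ) * (x / 2))) := by
        intro x
        have h2 : (((2 * j + 1 : ℤ) : ℝ) * (x / 2 + Real.pi)) =
            (((2 * j + 1 : ℤ) : ℝ) * (x / 2)) + Real.pi + j * (2 * Real.pi) := by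
          push_cast
          ring
        rw [h2, Real.cos_add_int_mul_two_pi, Real.cos_add_pi]
        ring
      simp only [e2]
      rw [integral_neg, add_neg_cancel, mul_zero]

/-- The version for laws of the ratio `x` of the parameters. -/
theorem realize_ratio (μ : Measure ℝ) [IsProbabilityMeasure μ] {c : ℤ → ℤ}
    (hc : ∀ k : ℤ, ∫ x, 2 * Real.cos (k * x) ∂μ = c k) :
    ∃ π : GSys 1, Tempered π ∧ (∀ p, (π p).nu = 1) ∧ (∀ m : Wt 1 →₀ ℤ, IsCharacter m →
      ∃ (a : ℤ) (H : ℂ → ℂ), DifferentiableOn ℂ H {s | 1 / 2 < s.re} ∧ ∀ s : ℂ, 1 < s.re →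
          HasProd (fun p : Pr => (π p).factor m (((p : ℕ) : ℂ) ^ (-s)))
            (riemannZeta s ^ a * Complex.exp (H s))) ∧
      IsOrd π ⊤ (fun w => if w.2 = 0 ∧ Even w.1.1 then c (w.1.1 / 2 - w.1.2 0) else 0) := by
  classical
  obtain ⟨ν, hν, hνc⟩ := exists_double μ hc
  obtain ⟨π, h1, h2, h3⟩ := realize ν hνc
  refine ⟨π, h1, h2, fun m hm => ?_, fun w t => ?_⟩
  · obtain ⟨a, H, -, hH, hp⟩ := h3 m hm
    exact ⟨a, H, hH, hp⟩
  · obtain ⟨a, H, ha, hH, hp⟩ := h3 (orb w) (orb_isCharacter w)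
    have h4 := poleOrder_of_form hH hp (t : ℝ)
    have hceven : ∀ k : ℤ, c (-k) = c k := by
      intro k
      have h1 := hc (-k)
      have h2 : ∀ x : ℝ, Real.cos (((-k : ℤ) : ℝ) * x) = Real.cos (k * x) := by
        intro x
        push_cast
        rw [neg_mul, Real.cos_neg]
      simp only [h2] at h1
      rw [hc k] at h1
      exact_mod_cast h1.symm
    have h5 : a = if Even w.1 then c (w.1 / 2 - w.2 0) else 0 := by
      have h6 : ((orb w).sum fun u e => e *
          (if Even (u.1 - 2 * u.2 0) then c ((u.1 - 2 * u.2 0) / 2) else 0)) =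
          ∑ g : WG 1, (if Even (jw (act g w)) then c ((jw (act g w)) / 2) else 0) := by
        unfold orb
        rw [← Finsupp.sum_finsetSum_index (by intro a; simp) (by intro a b c; ring)]
        refine Finset.sum_congr rfl fun g _ => ?_
        rw [Finsupp.sum_single_index (by simp), one_mul]
        rfl
      rw [h6] at ha
      have hw : w = w1 w.1 (w.2 0) := by
        refine Prod.ext rfl ?_
        funext i
        have hi : i = 0 := Subsingleton.elim _ _
        subst hi
        rfl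
      have h7 := orb_sum_one w.1 (w.2 0)
        fun u => (((if Even (jw u) then c ((jw u) / 2) else 0 : ℤ)) : ℝ)
      rw [← hw] at h7
      have h8 : ∑ g : WG 1, (if Even (jw (act g w)) then c ((jw (act g w)) / 2) else 0) =
          (if Even (jw w) then c ((jw w) / 2) else 0) +
          (if Even (jw (w1 w.1 (w.1 - w.2 0))) then c ((jw (w1 w.1 (w.1 - w.2 0))) / 2)
            else 0) := by
        exact_mod_cast h7
      rw [h8] at ha
      have e1 : Even (jw w) ↔ Even w.1 := by
        unfold jw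
        rw [Int.even_sub]
        simp
      have e2 : jw (w1 w.1 (w.1 - w.2 0)) = -jw w := by
        unfold jw w1
        ring
      rw [e2] at ha
      simp only [even_neg] at ha
      by_cases he : Even w.1
      · rw [if_pos he]
        rw [if_pos (e1.2 he), if_pos (e1.2 he)] at ha
        obtain ⟨r, hr⟩ := he
        have e3 : jw w / 2 = w.1 / 2 - w.2 0 := by
          unfold jw
          omega
        have e4 : -jw w / 2 = -(w.1 / 2 - w.2 0) := by
          unfold jw
          omega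
        rw [e3, e4, hceven] at ha
        linarith
      · rw [if_neg he]
        rw [if_neg (fun h => he (e1.1 h)), if_neg (fun h => he (e1.1 h))] at ha
        linarith
    have h6 : (if ((t : ℝ)) = 0 then a else 0) =
        if t = 0 ∧ Even w.1 then c (w.1 / 2 - w.2 0) else 0 := by
      by_cases ht : t = 0
      · have ht' : ((t : ℝ)) = 0 := by rw [ht]; rfl
        rw [if_pos ht', h5]
        by_cases he : Even w.1
        · rw [if_pos he, if_pos ⟨ht, he⟩]
        · rw [if_neg he, if_neg fun h => he h.2]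
      · have ht' : ¬ ((t : ℝ)) = 0 := fun h => ht (Subtype.ext h)
        rw [if_neg ht', if_neg fun h => ht h.1]
    show PoleOrder π (orb w) (pt t) (if t = 0 ∧ Even w.1 then c (w.1 / 2 - w.2 0) else 0)
    rw [← h6]
    exact h4

end Pool.Agent.EEA520
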