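import Pool.Agent.W_eea520_G.S2

/-!
# The sequences of the list are positive definite, 2a (MP_eea520_nt, edge theorem)
-/

set_option autoImplicit false

namespace Pool.Agent.EEA520

open Pool.Agent.EEAG1

theorem excCert_okA : ((List.range 25).all fun i =>
    gramCheck (excL.getD (0 + i) []) (excCert.getD (0 + i) (0, []))) = true := by decide +kernel

end Pool.Agent.EEA520
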