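import Pool.Agent.W_eea520_G.Z
import Pool.Agent.W_eea520_G.S1
import Pool.Agent.W_eea520_G.S3a
import Pool.Agent.W_eea520_G.S3b
import Pool.Agent.W_eea520_G.S3c

/-!
# Every law of the list occurs (MP_eea520_nt, edge theorem)
-/

set_option autoImplicit false

namespace Pool.Agent.EEA520

open Filter Topology Pool.Agent.EEAG1 MeasureTheory

theorem excL_shape : (excL.all fun l => decide (l ≠ []) && decide (l.getD 0 0 = 2)) = true := by
  decide +kernel

theorem excCert_ok {i : ℕ} (hi : i < 32) :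
    gramCheck (excL.getD i []) (excCert.getD i (0, [])) = true := by
  rcases lt_or_ge i 25 with h | h
  · have h1 := List.all_eq_true.1 excCert_okA i (List.mem_range.2 h)
    rwa [zero_add] at h1
  · rcases lt_or_ge i 29 with h' | h'
    · have h1 := List.all_eq_true.1 excCert_okB (i - 25) (List.mem_range.2 (by omega))
      rwa [Nat.add_sub_cancel' h] at h1
    · have h1 := List.all_eq_true.1 excCert_okC (i - 29) (List.mem_range.2 (by omega))
      rwa [Nat.add_sub_cancel' h'] at h1

theorem posDef_exc {l : List ℤ} (hl : l ∈ excL) : PosDef fun k => (per l k : ℝ) := by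
  obtain ⟨i, hi, rfl⟩ := List.getElem_of_mem hl
  have h1 := excCert_ok (i := i) hi
  have h2 := List.all_eq_true.1 excL_shape _ hl
  rw [List.getD_eq_getElem _ _ hi] at h1
  simp only [Bool.and_eq_true, decide_eq_true_eq] at h2
  exact posDef_of_check h2.1 h1

theorem comb_zero (N : ℕ) (η : ℤ) : comb N η 0 = 1 := by simp [comb]

theorem comb_ne {N : ℕ} (η : ℤ) {k : ℤ} (h : ¬ (N : ℤ) ∣ k) : comb N η k = 0 := by simp [comb, h]

theorem not_dvd_one {N : ℕ} (hN : 2 ≤ N) : ¬ (N : ℤ) ∣ 1 := by
  intro h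
  have := Int.le_of_dvd one_pos h
  omega

/-- The values at `0` of the finite types. -/
theorem finType_zero {c : ℤ → ℤ} (h : FinType c) : c 0 = 2 := by
  rcases h with ⟨N, η, hN, -, rfl⟩ | ⟨N, η, hN, -, rfl⟩ | ⟨l, hl, rfl⟩
  · have h1 := not_dvd_one (N := N) (by omega)
    unfold famA
    rw [comb_zero, zero_sub, zero_add, comb_ne η h1, comb_ne η (fun h => h1 (by simpa using h))]
    norm_num
  · unfold famD
    rw [comb_zero]
    norm_num
  · have h2 := List.all_eq_true.1 excL_shape _ hl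
    simp only [Bool.and_eq_true, decide_eq_true_eq] at h2
    unfold per
    simpa using h2.2

/-- The finite types are positive definite. -/
theorem finType_posDef {c : ℤ → ℤ} (h : FinType c) : PosDef fun k => (c k : ℝ) := by
  rcases h with ⟨N, η, hN, hη, rfl⟩ | ⟨N, η, hN, hη, rfl⟩ | ⟨l, hl, rfl⟩
  · exact posDef_famA (by omega) hη
  · exact posDef_famD (by omega) hη
  · exact posDef_exc hl

/-- The finite types are periodic. -/
theorem finType_per {c : ℤ → ℤ} (h : FinType c) : ∃ r : ℕ, 0 < r ∧ ∀ k, c (k + r) = c k := by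
  rcases h with ⟨N, η, hN, hη, rfl⟩ | ⟨N, η, hN, hη, rfl⟩ | ⟨l, hl, rfl⟩
  · refine ⟨2 * N, by omega, fun k => ?_⟩
    unfold famA
    have e1 : k + ((2 * N : ℕ) : ℤ) = k + 2 * N := by push_cast; ring
    have e2 : k + 2 * (N : ℤ) - 1 = k - 1 + 2 * N := by ring
    have e3 : k + 2 * (N : ℤ) + 1 = k + 1 + 2 * N := by ring
    rw [e1, e2, e3, comb_add (by omega) hη, comb_add (by omega) hη, comb_add (by omega) hη]
  · refine ⟨2 * N, by omega, fun k => ?_⟩
    unfold famD
    have e1 : k + ((2 * N : ℕ) : ℤ) = k + 2 * N := by push_cast; ring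
    rw [e1, comb_add (by omega) hη, pow_natAbs_add_even]
  · have h2 := List.all_eq_true.1 excL_shape _ hl
    simp only [Bool.and_eq_true, decide_eq_true_eq] at h2
    refine ⟨l.length, List.length_pos_iff.2 h2.1, fun k => ?_⟩
    unfold per
    rw [Int.add_emod_right]

/-- The probability measures of the list. -/
theorem exists_prob {c : ℤ → ℤ} (h : c = stSeq ∨ c = cmSeq ∨ FinType c) :
    ∃ ν : Measure ℝ, IsProbabilityMeasure ν ∧ ∀ k : ℤ, ∫ x, 2 * Real.cos (k * x) ∂ν = c k := by
  rcases h with rfl | rfl | h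
  · exact exists_prob_st
  · exact exists_prob_cm
  · obtain ⟨r, hr, hper⟩ := finType_per h
    exact exists_prob_per (finType_posDef h) hr hper (finType_zero h)

end Pool.Agent.EEA520

namespace Pool.Agent.EEA520

open Filter Topology Pool.Agent.EEAG1 MeasureTheory

theorem excL_one : (excL.all fun l => decide (l.getD (1 % l.length) 0 = -1) &&
    decide (1 < l.length)) = true := by
  decide +kernel

/-- The values at `1` of the finite types. -/
theorem finType_one {c : ℤ → ℤ} (h : FinType c) : c 1 = -1 := by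
  rcases h with ⟨N, η, hN, -, rfl⟩ | ⟨N, η, hN, -, rfl⟩ | ⟨l, hl, rfl⟩
  · have h1 := not_dvd_one (N := N) (by omega)
    have h2 : ¬ (N : ℤ) ∣ 1 + 1 := by
      intro h
      have := Int.le_of_dvd (by norm_num) h
      omega
    unfold famA
    rw [sub_self, comb_zero, comb_ne η h1, comb_ne η h2]
    norm_num
  · have h1 := not_dvd_one (N := N) (by omega)
    unfold famD
    rw [comb_ne η h1]
    norm_num
  · have h2 := List.all_eq_true.1 excL_one _ hl
    simp only [Bool.and_eq_true, decide_eq_true_eq] at h2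
    unfold per
    rw [Nat.mod_eq_of_lt h2.2] at h2
    rw [Int.emod_eq_of_lt (by norm_num) (by exact_mod_cast h2.2)]
    exact h2.1

theorem seq_one {c : ℤ → ℤ} (h : c = stSeq ∨ c = cmSeq ∨ FinType c) : c 1 = -1 := by
  rcases h with rfl | rfl | h
  · rfl
  · rfl
  · exact finType_one h

/-- Every sequence of the list is the sequence of the moments of a tempered system with trivial central
character, all of whose Euler products are of the form `ζ ^ a * exp H` with `H` holomorphic on
`Re s > 1 / 2`. -/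
theorem occurs_exp {c : ℤ → ℤ} (h : c = stSeq ∨ c = cmSeq ∨ FinType c) :
    ∃ π : GSys 1, Tempered π ∧ (∀ p, (π p).nu = 1) ∧ PoleOrder π (symdet 2 (-1)) 1 0 ∧
      Moments π c ∧ NatMoments π c ∧
      ∀ m : Wt 1 →₀ ℤ, IsCharacter m → ∃ (a : ℤ) (H : ℂ → ℂ),
        DifferentiableOn ℂ H {s | 1 / 2 < s.re} ∧ ∀ s : ℂ, 1 < s.re →
          HasProd (fun p : Pr => (π p).factor m (((p : ℕ) : ℂ) ^ (-s)))
            (riemannZeta s ^ a * Complex.exp (H s)) := by
  obtain ⟨ν, hν, hνc⟩ := exists_prob h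
  obtain ⟨π, hπ, hnu, hform, hord⟩ := realize_ratio ν hνc
  have hceven : ∀ k : ℤ, c (-k) = c k := by
    intro k
    have h1 := hνc (-k)
    have h2 : ∀ x : ℝ, Real.cos (((-k : ℤ) : ℝ) * x) = Real.cos (k * x) := by
      intro x
      push_cast
      rw [neg_mul, Real.cos_neg]
    simp only [h2] at h1
    rw [hνc k] at h1
    exact_mod_cast h1.symm
  have hmero : ∀ m : Wt 1 →₀ ℤ, IsCharacter m → ∀ t : ℝ, MeroAt π m (pt t) := by
    intro m hm t
    obtain ⟨a, H, hH, hp⟩ := hform m hm
    obtain ⟨g, h1, -, h2⟩ := poleOrder_of_form hH hp t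
    exact ⟨g, h1, h2⟩
  have hmean : ∀ k : ℤ, Mean (fun p => ((π p).x 0 : ℂ)) (fun z => 2 * (z ^ k).re) (c k) := by
    intro k
    have h1 := mean_x hπ hord k
    rw [if_pos ⟨rfl, Even.zero⟩] at h1
    have h2 : c ((w1 0 k).1 / 2 - (w1 0 k).2 0) = c k := by
      show c (0 / 2 - k) = c k
      rw [Int.zero_ediv, zero_sub, hceven]
    rw [h2] at h1
    exact h1
  have had : PoleOrder π (symdet 2 (-1)) 1 0 := by
    obtain ⟨o, ho⟩ := exists_poleOrder (t := 0) hπ (hmero (symdet (2 * 1) (-((1 : ℕ) : ℤ)))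
      (symdet_isCharacter _ _) 0)
    have h1 := order_of_moments hπ hmean ho
    have h2 : adOrder c 1 = 0 := by
      unfold adOrder
      rw [Finset.sum_range_one, Nat.cast_zero, zero_add, seq_one h]
      norm_num
    rw [h1, h2, pt_zeroF] at ho
    exact ho
  refine ⟨π, hπ, hnu, had, hmean, ?_, hform⟩
  obtain ⟨c', -, -, h1, h2, -⟩ := lineB hπ had (E := ⊤)
    (fun k j t _ => hmero _ (symdet_isCharacter k j) t)
  have h3 : c' = c := by
    funext k
    have h4 : Mean (fun p => ((π p).x 0 : ℂ)) (fun z => 2 * (z ^ k).re) (c' k) := h1 k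
    have h5 := tendsto_nhds_unique h4 (hmean k)
    exact_mod_cast h5
  rw [← h3]
  exact h2 rfl

/-- Every sequence of the list is the sequence of the moments of a tempered system with trivial central
character, all of whose Euler products are meromorphic on `Re s > 1 / 2`. -/
theorem occurs {c : ℤ → ℤ} (h : c = stSeq ∨ c = cmSeq ∨ FinType c) :
    ∃ π : GSys 1, Tempered π ∧ (∀ p, (π p).nu = 1) ∧ PoleOrder π (symdet 2 (-1)) 1 0 ∧
      Moments π c ∧ NatMoments π c ∧
      ∀ m : Wt 1 →₀ ℤ, IsCharacter m → ∃ g : ℂ → ℂ, MeromorphicOn g {s | 1 / 2 < s.re} ∧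
        ∀ s : ℂ, 1 < s.re → HasProd (fun p : Pr => (π p).factor m (((p : ℕ) : ℂ) ^ (-s))) (g s) := by
  obtain ⟨π, h1, h2, h3, h4, h5, h6⟩ := occurs_exp h
  refine ⟨π, h1, h2, h3, h4, h5, fun m hm => ?_⟩
  obtain ⟨a, H, hH, hp⟩ := h6 m hm
  refine ⟨fun s => riemannZeta s ^ a * Complex.exp (H s), fun s hs => ?_, hp⟩
  have hopen : IsOpen {s : ℂ | 1 / 2 < s.re} := isOpen_lt continuous_const Complex.continuous_re
  exact ((zeta_mero s).zpow a).mul (hH.analyticAt (hopen.mem_nhds hs)).cexp.meromorphicAt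

end Pool.Agent.EEA520
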