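import Pool.Agent.W_eea520_G.Defs

/-!
# Mean values over the primes (MP_eea520_nt, edge theorem)
-/

set_option autoImplicit false

namespace Pool.Agent.EEAG1

open Filter Topology

/-- The traces `a_p + a_p⁻¹ = 2 Re a_p` (for `|a_p| = 1`) are distributed, in the sense of the Dirichlet
density of sets of primes, according to the probability measure on `[-2, 2]` with the integral
`f ↦ Λ f`. -/
def HasLaw (a : Nat.Primes → ℂ) (Λ : (ℝ → ℝ) → ℝ) : Prop :=
  ∀ f : ℝ → ℝ, ContinuousOn f (Set.Icc (-2) 2) →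
    Tendsto (fun s : ℝ => (∑' p : Nat.Primes, f (2 * (a p).re) * ((p : ℕ) : ℝ) ^ (-s)) /
      ∑' p : Nat.Primes, ((p : ℕ) : ℝ) ^ (-s)) (𝓝[>] 1) (𝓝 (Λ f))

end Pool.Agent.EEAG1

namespace Pool.Agent.EEAG1

open Filter Topology

/-- The sum over the primes. -/
noncomputable def psum (a : Nat.Primes → ℂ) (F : ℂ → ℝ) (s : ℝ) : ℝ :=
  ∑' p : Nat.Primes, F (a p) * ((p : ℕ) : ℝ) ^ (-s)

/-- The sum of the `p ^ (-s)`. -/
noncomputable def pz (s : ℝ) : ℝ := ∑' p : Nat.Primes, ((p : ℕ) : ℝ) ^ (-s)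

/-- `L` is the mean value of the numbers `F (a_p)`. -/
def Mean (a : Nat.Primes → ℂ) (F : ℂ → ℝ) (L : ℝ) : Prop :=
  Tendsto (fun s : ℝ => psum a F s / pz s) (𝓝[>] 1) (𝓝 L)

/-- `F` is bounded on the unit circle. -/
def Bdc (F : ℂ → ℝ) : Prop := ∃ C : ℝ, ∀ z : ℂ, ‖z‖ = 1 → |F z| ≤ C

/-- `Nat.Primes.summable_rpow`. -/
theorem summable_pz {s : ℝ} (hs : 1 < s) : Summable fun p : Nat.Primes => ((p : ℕ) : ℝ) ^ (-s) :=
  Nat.Primes.summable_rpow.2 (by linarith)

theorem Mean_pow_pos (p : Nat.Primes) (s : ℝ) : 0 < ((p : ℕ) : ℝ) ^ (-s) :=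
  Real.rpow_pos_of_pos (by exact_mod_cast p.2.pos) _

/-- `p = 2` alone gives a positive term. -/
theorem pz_pos {s : ℝ} (hs : 1 < s) : 0 < pz s :=
  (summable_pz hs).tsum_pos (fun p => (Mean_pow_pos p s).le) ⟨2, Nat.prime_two⟩ (Mean_pow_pos _ s)

/-- Comparison with `C p ^ (-s)`. -/
theorem summable_psum {a : Nat.Primes → ℂ} (ha : ∀ p, ‖a p‖ = 1) {F : ℂ → ℝ} (hF : Bdc F) {s : ℝ}
    (hs : 1 < s) : Summable fun p : Nat.Primes => F (a p) * ((p : ℕ) : ℝ) ^ (-s) := by
  obtain ⟨C, hC⟩ := hF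
  refine Summable.of_norm_bounded ((summable_pz hs).mul_left C) fun p => ?_
  rw [Real.norm_eq_abs, abs_mul, abs_of_pos (Mean_pow_pos p s)]
  exact mul_le_mul_of_nonneg_right (hC _ (ha p)) (Mean_pow_pos p s).le

theorem Mean_ev : ∀ᶠ s : ℝ in 𝓝[>] 1, 1 < s := eventually_mem_nhdsWithin

theorem Mean.one {a : Nat.Primes → ℂ} : Mean a (fun _ => 1) 1 := by
  refine Tendsto.congr' ?_ tendsto_const_nhds
  filter_upwards [Mean_ev] with s hs
  have h1 : psum a (fun _ => 1) s = pz s := by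
    unfold psum pz
    simp only [one_mul]
  rw [h1, div_self (pz_pos hs).ne']

theorem Mean.congr {a : Nat.Primes → ℂ} (ha : ∀ p, ‖a p‖ = 1) {F G : ℂ → ℝ} {L : ℝ}
    (h : Mean a F L) (hFG : ∀ z : ℂ, ‖z‖ = 1 → F z = G z) : Mean a G L := by
  refine Tendsto.congr (fun s => ?_) h
  have h1 : psum a F s = psum a G s := by
    unfold psum
    exact tsum_congr fun p => by rw [hFG _ (ha p)]
  rw [h1]

theorem Mean.add {a : Nat.Primes → ℂ} (ha : ∀ p, ‖a p‖ = 1) {F G : ℂ → ℝ} (hF : Bdc F) (hG : Bdc G)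
    {L M : ℝ} (h : Mean a F L) (h' : Mean a G M) : Mean a (fun z => F z + G z) (L + M) := by
  refine Tendsto.congr' ?_ (Tendsto.add h h')
  filter_upwards [Mean_ev] with s hs
  have h1 : psum a (fun z => F z + G z) s = psum a F s + psum a G s := by
    unfold psum
    rw [← (summable_psum ha hF hs).tsum_add (summable_psum ha hG hs)]
    exact tsum_congr fun p => add_mul _ _ _
  rw [h1, add_div]

theorem Mean.const_mul {a : Nat.Primes → ℂ} {F : ℂ → ℝ} {L : ℝ} (h : Mean a F L) (r : ℝ) :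
    Mean a (fun z => r * F z) (r * L) := by
  refine Tendsto.congr (fun s => ?_) (Tendsto.const_mul r h)
  have h1 : psum a (fun z => r * F z) s = r * psum a F s := by
    unfold psum
    rw [← tsum_mul_left]
    exact tsum_congr fun p => mul_assoc _ _ _
  rw [h1, mul_div_assoc]

theorem Mean_bdc_sum {ι : Type} (t : Finset ι) {F : ι → ℂ → ℝ} (hF : ∀ i ∈ t, Bdc (F i)) :
    Bdc fun z => ∑ i ∈ t, F i z := by
  classical
  induction t using Finset.induction_on with
  | empty => exact ⟨0, fun z _ => by simp⟩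
  | insert i t hi ih =>
    obtain ⟨C, hC⟩ := hF i (Finset.mem_insert_self i t)
    obtain ⟨D, hD⟩ := ih fun j hj => hF j (Finset.mem_insert_of_mem hj)
    refine ⟨C + D, fun z hz => ?_⟩
    beta_reduce
    rw [Finset.sum_insert hi]
    exact (abs_add_le _ _).trans (add_le_add (hC z hz) (hD z hz))

/-- Finite sums. -/
theorem Mean.sum {a : Nat.Primes → ℂ} (ha : ∀ p, ‖a p‖ = 1) {ι : Type} (t : Finset ι)
    {F : ι → ℂ → ℝ} (hF : ∀ i ∈ t, Bdc (F i)) {L : ι → ℝ} (h : ∀ i ∈ t, Mean a (F i) (L i)) :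
    Mean a (fun z => ∑ i ∈ t, F i z) (∑ i ∈ t, L i) := by
  classical
  induction t using Finset.induction_on with
  | empty =>
    have h1 := (Mean.one (a := a)).const_mul 0
    simpa using h1
  | insert i t hi ih =>
    have h1 := ih (fun j hj => hF j (Finset.mem_insert_of_mem hj))
      (fun j hj => h j (Finset.mem_insert_of_mem hj))
    have h2 := Mean.add ha (hF i (Finset.mem_insert_self i t))
      (Mean_bdc_sum t fun j hj => hF j (Finset.mem_insert_of_mem hj))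
      (h i (Finset.mem_insert_self i t)) h1
    rw [Finset.sum_insert hi]
    refine h2.congr ha fun z _ => ?_
    rw [Finset.sum_insert hi]

/-- `|psum a F s| ≤ ε pz s`. -/
theorem abs_psum_le {a : Nat.Primes → ℂ} (ha : ∀ p, ‖a p‖ = 1) {F : ℂ → ℝ} {ε : ℝ}
    (hF : ∀ z : ℂ, ‖z‖ = 1 → |F z| ≤ ε) {s : ℝ} (hs : 1 < s) : |psum a F s / pz s| ≤ ε := by
  have h1 : ‖psum a F s‖ ≤ ε * pz s := by
    refine tsum_of_norm_bounded ((summable_pz hs).hasSum.mul_left ε) fun p => ?_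
    rw [Real.norm_eq_abs, abs_mul, abs_of_pos (Mean_pow_pos p s)]
    exact mul_le_mul_of_nonneg_right (hF _ (ha p)) (Mean_pow_pos p s).le
  rw [abs_div, abs_of_pos (pz_pos hs), div_le_iff₀ (pz_pos hs)]
  exact h1

/-- The limit property is closed under uniform limits: if for every `ε > 0` there are `G`, `M` with
`Mean a G M`, `|F - G| ≤ ε` on the unit circle and `|L - M| ≤ ε`, then `Mean a F L`. (`3 ε` argument with
`abs_psum_le`.) -/
theorem Mean.of_approx {a : Nat.Primes → ℂ} (ha : ∀ p, ‖a p‖ = 1) {F : ℂ → ℝ} (hF : Bdc F) {L : ℝ}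
    (h : ∀ ε > 0, ∃ (G : ℂ → ℝ) (M : ℝ), Bdc G ∧ Mean a G M ∧ (∀ z : ℂ, ‖z‖ = 1 → |F z - G z| ≤ ε) ∧
      |L - M| ≤ ε) : Mean a F L := by
  refine Metric.tendsto_nhds.2 fun ε hε => ?_
  obtain ⟨G, M, hG, hGM, hFG, hLM⟩ := h (ε / 4) (by positivity)
  filter_upwards [Mean_ev, Metric.tendsto_nhds.1 hGM (ε / 4) (by positivity)] with s hs h1
  have h2 := abs_psum_le ha hFG hs
  have h3 : psum a (fun z => F z - G z) s = psum a F s - psum a G s := by
    unfold psum
    rw [← (summable_psum ha hF hs).tsum_sub (summable_psum ha hG hs)]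
    exact tsum_congr fun p => sub_mul _ _ _
  rw [h3, sub_div] at h2
  rw [Real.dist_eq] at h1 ⊢
  have h4 : psum a F s / pz s - L = (psum a F s / pz s - psum a G s / pz s) +
      (psum a G s / pz s - M) + (M - L) := by ring
  rw [h4]
  have h5 := abs_add_three (psum a F s / pz s - psum a G s / pz s) (psum a G s / pz s - M) (M - L)
  rw [abs_sub_comm L M] at hLM
  linarith

end Pool.Agent.EEAG1

namespace Pool.Agent.EEAG1

open Filter Topology

theorem A0_x_bounds {s : ℝ} (hs : 1 < s) (p : Nat.Primes) :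
    0 < ((p : ℕ) : ℝ) ^ (-s) ∧ ((p : ℕ) : ℝ) ^ (-s) ≤ 1 / 2 ∧
      (((p : ℕ) : ℝ) ^ (-s)) ^ 2 ≤ ((p : ℕ) : ℝ) ^ (-(2 : ℝ)) := by
  have hp : (0 : ℝ) < ((p : ℕ) : ℝ) := by exact_mod_cast p.2.pos
  have h1p : (1 : ℝ) ≤ ((p : ℕ) : ℝ) := by exact_mod_cast p.2.one_lt.le
  have h2p : (2 : ℝ) ≤ ((p : ℕ) : ℝ) := by exact_mod_cast p.2.two_le
  have h1 : ((p : ℕ) : ℝ) ^ (-s) ≤ ((p : ℕ) : ℝ) ^ (-(1 : ℝ)) :=
    Real.rpow_le_rpow_of_exponent_le h1p (by linarith)
  refine ⟨by positivity, ?_, ?_⟩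
  · refine h1.trans ?_
    rw [Real.rpow_neg_one, one_div]
    exact inv_anti₀ (by norm_num) h2p
  · rw [← Real.rpow_natCast, ← Real.rpow_mul hp.le]
    exact Real.rpow_le_rpow_of_exponent_le h1p (by push_cast; linarith)

theorem A0_term {s : ℝ} (hs : 1 < s) (p : Nat.Primes) :
    ‖((p : ℕ) : ℝ) ^ (-s) + Real.log (1 - ((p : ℕ) : ℝ) ^ (-s))‖ ≤
      2 * ((p : ℕ) : ℝ) ^ (-(2 : ℝ)) := by
  obtain ⟨h0, h1, h2⟩ := A0_x_bounds hs p
  set x : ℝ := ((p : ℕ) : ℝ) ^ (-s) with hx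
  have h3 : |x| < 1 := by rw [abs_of_pos h0]; linarith
  have h4 := Real.abs_log_sub_add_sum_range_le h3 1
  rw [Finset.sum_range_one] at h4
  simp only [Nat.cast_zero, zero_add, pow_one, div_one] at h4
  rw [Real.norm_eq_abs]
  refine h4.trans ?_
  rw [abs_of_pos h0, div_le_iff₀ (by linarith)]
  have h5 : 0 ≤ ((p : ℕ) : ℝ) ^ (-(2 : ℝ)) := by positivity
  have h6 : x ^ (1 + 1) = x ^ 2 := by norm_num
  rw [h6]
  nlinarith

theorem A0_summable2 : Summable fun p : Nat.Primes => 2 * ((p : ℕ) : ℝ) ^ (-(2 : ℝ)) :=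
  (Nat.Primes.summable_rpow.2 (by norm_num)).mul_left 2

theorem A0_summable_term {s : ℝ} (hs : 1 < s) :
    Summable fun p : Nat.Primes => ((p : ℕ) : ℝ) ^ (-s) + Real.log (1 - ((p : ℕ) : ℝ) ^ (-s)) :=
  Summable.of_norm_bounded A0_summable2 fun p => A0_term hs p

/-- the sum of the logarithms of the Euler factors -/
noncomputable def A0_E (s : ℝ) : ℝ := ∑' p : Nat.Primes, -Real.log (1 - ((p : ℕ) : ℝ) ^ (-s))

theorem A0_pz_sub {s : ℝ} (hs : 1 < s) :
    |pz s - A0_E s| ≤ ∑' p : Nat.Primes, 2 * ((p : ℕ) : ℝ) ^ (-(2 : ℝ)) := by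
  have h1 := summable_pz hs
  have h2 := A0_summable_term hs
  have h3 : Summable fun p : Nat.Primes => -Real.log (1 - ((p : ℕ) : ℝ) ^ (-s)) := by
    refine (h1.sub h2).congr fun p => ?_
    ring
  unfold pz A0_E
  rw [← h1.tsum_sub h3]
  have h4 : (fun p : Nat.Primes => ((p : ℕ) : ℝ) ^ (-s) - -Real.log (1 - ((p : ℕ) : ℝ) ^ (-s))) =
      fun p : Nat.Primes => ((p : ℕ) : ℝ) ^ (-s) + Real.log (1 - ((p : ℕ) : ℝ) ^ (-s)) := by
    funext p; ring
  rw [h4, ← Real.norm_eq_abs]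
  exact tsum_of_norm_bounded A0_summable2.hasSum fun p => A0_term hs p

theorem A0_zeta {s : ℝ} (hs : 1 < s) : ‖riemannZeta (s : ℂ)‖ = Real.exp (A0_E s) := by
  have h1 := riemannZeta_eulerProduct_exp_log (s := (s : ℂ)) (by simpa using hs)
  have h2 : ∑' p : Nat.Primes, -Complex.log (1 - ((p : ℕ) : ℂ) ^ (-(s : ℂ))) =
      ((A0_E s : ℝ) : ℂ) := by
    unfold A0_E
    rw [Complex.ofReal_tsum]
    refine tsum_congr fun p => ?_
    obtain ⟨h0, h1, h2⟩ := A0_x_bounds hs p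
    rw [Complex.ofReal_neg, Complex.ofReal_log (by linarith), Complex.ofReal_sub,
      Complex.ofReal_one, Complex.ofReal_cpow (Nat.cast_nonneg _), Complex.ofReal_natCast,
      Complex.ofReal_neg]
  rw [← h1, h2, Complex.norm_exp, Complex.ofReal_re]

/-- `∑_p p ^ (-s) = -log (s - 1) + O(1)`, `s → 1+`. Proof. `log ζ(s) = ∑_p -log (1 - p ^ (-s))`
(`riemannZeta_eulerProduct_exp_log`, or `riemannZeta_eulerProduct_hasProd` and real logarithms), every term
differs from `p ^ (-s)` by at most `p ^ (-2 s) ≤ p ^ (-2)`, and `(s - 1) ζ(s) → 1`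
(`riemannZeta_residue_one`), so `log ‖ζ(s)‖ + log (s - 1) → 0`. (See also
`neg_log_le_primes` in `W_7742m_h74/ThomA.lean` for one of the two inequalities.) -/
theorem pz_asymp : ∃ C : ℝ, ∀ᶠ s : ℝ in 𝓝[>] 1, |pz s + Real.log (s - 1)| ≤ C := by
  refine ⟨(∑' p : Nat.Primes, 2 * ((p : ℕ) : ℝ) ^ (-(2 : ℝ))) + 1, ?_⟩
  have h1 : Tendsto (fun s : ℝ => ((s : ℂ) - 1) * riemannZeta (s : ℂ)) (𝓝[>] 1) (𝓝 1) := by
    refine riemannZeta_residue_one.comp ?_
    refine tendsto_nhdsWithin_iff.2 ⟨?_, ?_⟩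
    · have : Tendsto (fun s : ℝ => (s : ℂ)) (𝓝 1) (𝓝 ((1 : ℝ) : ℂ)) :=
        Complex.continuous_ofReal.tendsto 1
      rw [Complex.ofReal_one] at this
      exact this.mono_left nhdsWithin_le_nhds
    · filter_upwards [self_mem_nhdsWithin] with s hs
      have hs' : (1 : ℝ) < s := hs
      intro h
      have : (s : ℂ) = 1 := h
      have : s = 1 := by exact_mod_cast this
      linarith
  have h2 : Tendsto (fun s : ℝ => Real.log ‖((s : ℂ) - 1) * riemannZeta (s : ℂ)‖) (𝓝[>] 1)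
      (𝓝 0) := by
    have h3 := (Real.continuousAt_log (x := ‖(1 : ℂ)‖) (by simp)).tendsto.comp h1.norm
    rw [norm_one, Real.log_one] at h3
    exact h3
  have h4 : ∀ᶠ s : ℝ in 𝓝[>] 1, |Real.log ‖((s : ℂ) - 1) * riemannZeta (s : ℂ)‖| < 1 := by
    have := h2.abs
    rw [abs_zero] at this
    exact this.eventually_lt_const one_pos
  filter_upwards [h4, self_mem_nhdsWithin] with s h5 hs
  have hs' : (1 : ℝ) < s := hs
  have h6 : ‖(s : ℂ) - 1‖ = s - 1 := by
    rw [← Complex.ofReal_one, ← Complex.ofReal_sub, Complex.norm_real, Real.norm_eq_abs,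
      abs_of_pos (by linarith)]
  rw [norm_mul, h6, A0_zeta hs', Real.log_mul (by linarith) (Real.exp_pos _).ne', Real.log_exp] at h5
  have h7 := A0_pz_sub hs'
  have e : pz s + Real.log (s - 1) = (pz s - A0_E s) + (Real.log (s - 1) + A0_E s) := by ring
  rw [e]
  exact (abs_add_le _ _).trans (by linarith)

/-- `pz s → ∞`. -/
theorem pz_atTop : Tendsto pz (𝓝[>] 1) atTop := by
  obtain ⟨C, hC⟩ := pz_asymp
  have h1 : Tendsto (fun s : ℝ => s - 1) (𝓝[>] 1) (𝓝[>] 0) := by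
    refine tendsto_nhdsWithin_iff.2 ⟨?_, ?_⟩
    · have : Tendsto (fun s : ℝ => s - 1) (𝓝 1) (𝓝 (1 - 1)) :=
        (continuous_id.sub continuous_const).tendsto 1
      rw [sub_self] at this
      exact this.mono_left nhdsWithin_le_nhds
    · filter_upwards [self_mem_nhdsWithin] with s hs
      have : (1 : ℝ) < s := hs
      exact sub_pos.2 this
  have h2 : Tendsto (fun s : ℝ => -Real.log (s - 1)) (𝓝[>] 1) atTop :=
    tendsto_neg_atBot_atTop.comp (Real.tendsto_log_nhdsGT_zero.comp h1)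
  have h3 : Tendsto (fun s : ℝ => -Real.log (s - 1) + -C) (𝓝[>] 1) atTop :=
    tendsto_atTop_add_const_right _ _ h2
  refine tendsto_atTop_mono' _ ?_ h3
  filter_upwards [hC] with s hs
  have := (abs_le.1 hs).1
  linarith

end Pool.Agent.EEAG1

namespace Pool.Agent.EEAG1

open Filter Topology

/-- Proof. The order is not `⊤` as otherwise `g` would be zero on a punctured neighbourhood of `1`
(`meromorphicOrderAt_eq_top_iff`). By `meromorphicOrderAt_eq_int_iff`, `g z = (z - 1) ^ n • h z` near `1`, `h`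
analytic at `1`, `h 1 ≠ 0`; so `log ‖g s‖ = n log (s - 1) + log ‖h s‖` for `s > 1` near `1`, and the last
term has a limit. -/
theorem log_meromorphic {g : ℂ → ℂ} (hg : MeromorphicAt g 1)
    (h0 : ∀ᶠ s : ℝ in 𝓝[>] 1, g (s : ℂ) ≠ 0) : ∃ n : ℤ, meromorphicOrderAt g 1 = n ∧
      ∃ C : ℝ, ∀ᶠ s : ℝ in 𝓝[>] 1, |Real.log ‖g (s : ℂ)‖ - n * Real.log (s - 1)| ≤ C := by
  have hmap : Tendsto (fun s : ℝ => (s : ℂ)) (𝓝[>] 1) (𝓝[≠] (1 : ℂ)) := by
    apply tendsto_nhdsWithin_of_tendsto_nhds_of_eventually_within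
    · have : ContinuousAt (fun s : ℝ => (s : ℂ)) 1 := Complex.continuous_ofReal.continuousAt
      have h1 := this.tendsto
      rw [Complex.ofReal_one] at h1
      exact h1.mono_left nhdsWithin_le_nhds
    · filter_upwards [self_mem_nhdsWithin] with s hs
      have hs' : (1 : ℝ) < s := hs
      intro h
      have h2 : (s : ℂ) = ((1 : ℝ) : ℂ) := by simpa using h
      exact absurd (Complex.ofReal_injective h2) hs'.ne'
  have hmap' : Tendsto (fun s : ℝ => (s : ℂ)) (𝓝[>] 1) (𝓝 (1 : ℂ)) :=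
    hmap.mono_right nhdsWithin_le_nhds
  have hne : meromorphicOrderAt g 1 ≠ ⊤ := by
    intro h
    rw [meromorphicOrderAt_eq_top_iff] at h
    have h1 : ∀ᶠ s : ℝ in 𝓝[>] 1, g (s : ℂ) = 0 := hmap.eventually h
    obtain ⟨s, hs, hs'⟩ := (h1.and h0).exists
    exact hs' hs
  obtain ⟨n, hn⟩ := WithTop.ne_top_iff_exists.1 hne
  refine ⟨n, hn.symm, ?_⟩
  obtain ⟨h, hh, hh1, hev⟩ := (meromorphicOrderAt_eq_int_iff hg).1 hn.symm
  have hlim : Tendsto (fun s : ℝ => Real.log ‖h (s : ℂ)‖) (𝓝[>] 1) (𝓝 (Real.log ‖h 1‖)) := by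
    have h1 : Tendsto (fun s : ℝ => ‖h (s : ℂ)‖) (𝓝[>] 1) (𝓝 ‖h 1‖) :=
      (hh.continuousAt.norm.tendsto).comp hmap'
    exact h1.log (norm_ne_zero_iff.2 hh1)
  refine ⟨|Real.log ‖h 1‖| + 1, ?_⟩
  have hb : ∀ᶠ s : ℝ in 𝓝[>] 1, |Real.log ‖h (s : ℂ)‖| < |Real.log ‖h 1‖| + 1 :=
    hlim.abs.eventually_lt_const (by linarith)
  have hh0 : ∀ᶠ s : ℝ in 𝓝[>] 1, h (s : ℂ) ≠ 0 :=
    (hh.continuousAt.tendsto.comp hmap').eventually_ne hh1
  filter_upwards [hb, hh0, hmap.eventually hev, self_mem_nhdsWithin] with s hs1 hs2 hs3 hs4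
  have hs5 : (1 : ℝ) < s := hs4
  have hs6 : (0 : ℝ) < s - 1 := by linarith
  have hnorm : ‖((s : ℂ) - 1)‖ = s - 1 := by
    have : ((s : ℂ) - 1) = ((s - 1 : ℝ) : ℂ) := by push_cast; ring
    rw [this, Complex.norm_real, Real.norm_of_nonneg hs6.le]
  rw [hs3, norm_smul, norm_zpow, hnorm, Real.log_mul (zpow_ne_zero _ hs6.ne')
    (norm_ne_zero_iff.2 hs2), Real.log_zpow, add_sub_cancel_left]
  exact hs1.le

end Pool.Agent.EEAG1

namespace Pool.Agent.EEAG1

open Filter Topology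
open scoped InnerProductSpace

/-- Symmetric positive semidefinite sequences. -/
structure PosDef (c : ℤ → ℝ) : Prop where
  symm : ∀ k, c (-k) = c k
  nonneg : ∀ x : ℤ →₀ ℝ, 0 ≤ x.sum fun i a => x.sum fun j b => a * b * c (i - j)

/-- The semi inner product. -/
@[reducible] noncomputable def core (c : ℤ → ℝ) (hc : PosDef c) : PreInnerProductSpace.Core ℝ (ℤ →₀ ℝ) where
  inner x y := x.sum fun i a => y.sum fun j b => a * b * c (i - j)
  conj_inner_symm x y := by
    rw [conj_trivial, Finsupp.sum_comm]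
    refine Finsupp.sum_congr fun i _ => Finsupp.sum_congr fun j _ => ?_
    rw [← hc.symm, neg_sub]
    ring
  re_inner_nonneg x := hc.nonneg x
  add_left x y z := by
    rw [Finsupp.sum_add_index'] <;> simp [← Finsupp.sum_add, add_mul]
  smul_left x y r := by
    rw [Finsupp.sum_smul_index] <;> simp [Finsupp.mul_sum, ← mul_assoc]

/-- The Hilbert space of a positive definite sequence, with the shift. -/
theorem exists_gns {c : ℤ → ℝ} (hc : PosDef c) : ∃ (H : Type) (_ : NormedAddCommGroup H)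
    (_ : InnerProductSpace ℝ H) (_ : CompleteSpace H) (T : H ≃ₗᵢ[ℝ] H) (v : H),
    ∀ k : ℤ, ⟪(T ^ k) v, v⟫_ℝ = c k := by
  let _ : PreInnerProductSpace.Core ℝ (ℤ →₀ ℝ) := core c hc
  let _ : SeminormedAddCommGroup (ℤ →₀ ℝ) := InnerProductSpace.Core.toSeminormedAddCommGroup (𝕜 := ℝ)
  let _ : InnerProductSpace ℝ (ℤ →₀ ℝ) := .ofCore _
  have hin : ∀ x y : ℤ →₀ ℝ, ⟪x, y⟫_ℝ = x.sum fun i a => y.sum fun j b => a * b * c (i - j) :=
    fun x y => rfl
  let f : (ℤ →₀ ℝ) ≃ₗ[ℝ] (ℤ →₀ ℝ) := Finsupp.domLCongr (Equiv.addRight (1 : ℤ))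
  have hfs : ∀ (k : ℤ) (a : ℝ), f (Finsupp.single k a) = Finsupp.single (k + 1) a := by
    intro k a
    simp [f]
  have hfinner : ∀ x : ℤ →₀ ℝ, ⟪f x, f x⟫_ℝ = ⟪x, x⟫_ℝ := by
    intro x
    rw [hin, hin]
    have h1 : f x = x.equivMapDomain (Equiv.addRight (1 : ℤ)) := rfl
    rw [h1, Finsupp.sum_equivMapDomain]
    refine Finsupp.sum_congr fun i _ => ?_
    rw [Finsupp.sum_equivMapDomain]
    refine Finsupp.sum_congr fun j _ => ?_
    rw [Equiv.coe_addRight, add_sub_add_right_eq_sub]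
  have hfn : ∀ x : ℤ →₀ ℝ, ‖f x‖ = ‖x‖ := by
    intro x
    rw [norm_eq_sqrt_real_inner, norm_eq_sqrt_real_inner, hfinner]
  let e : (ℤ →₀ ℝ) →ₗ[ℝ] UniformSpace.Completion (ℤ →₀ ℝ) :=
    (UniformSpace.Completion.toComplₗᵢ (𝕜 := ℝ) (E := ℤ →₀ ℝ)).toLinearMap
  have he : ∀ x, e x = (x : UniformSpace.Completion (ℤ →₀ ℝ)) := fun x => rfl
  have hd : DenseRange e := UniformSpace.Completion.denseRange_coe
  let T : UniformSpace.Completion (ℤ →₀ ℝ) ≃ₗᵢ[ℝ] UniformSpace.Completion (ℤ →₀ ℝ) :=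
    f.extendOfIsometry e e hd hd (fun x => by
      rw [he, he, UniformSpace.Completion.norm_coe, UniformSpace.Completion.norm_coe, hfn])
  have hT : ∀ x, T (e x) = e (f x) := fun x => LinearEquiv.extendOfIsometry_eq f e e hd hd _ x
  refine ⟨UniformSpace.Completion (ℤ →₀ ℝ), inferInstance, inferInstance, inferInstance, T,
    e (Finsupp.single 0 1), fun k => ?_⟩
  have hTk : ∀ k : ℤ, (T ^ k) (e (Finsupp.single 0 1)) = e (Finsupp.single k 1) := by
    intro k
    induction k using Int.induction_on with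
    | zero =>
      rw [zpow_zero]
      rfl
    | succ k ih =>
      have h1 : (T ^ ((k : ℤ) + 1)) = T * T ^ (k : ℤ) := by rw [add_comm, zpow_add, zpow_one]
      rw [h1]
      show T ((T ^ (k : ℤ)) (e (Finsupp.single 0 1))) = _
      rw [ih, hT, hfs]
    | pred k ih =>
      have h1 : (T ^ (-(k : ℤ))) = T * T ^ (-(k : ℤ) - 1) := by
        rw [← zpow_one_add]
        congr 1
        ring
      rw [h1] at ih
      refine T.injective ?_
      rw [hT, hfs, sub_add_cancel]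
      exact ih
  rw [hTk, he, he, UniformSpace.Completion.inner_coe, hin]
  simp

end Pool.Agent.EEAG1

namespace Pool.Agent.EEAG1

open Filter Topology

theorem A5_inv {z : ℂ} (hz : ‖z‖ = 1) (k : ℤ) : z ^ (-k) = (starRingEnd ℂ) (z ^ k) := by
  rw [zpow_neg, Complex.inv_eq_conj]
  rw [norm_zpow, hz, one_zpow]

theorem A5_re {z : ℂ} (hz : ‖z‖ = 1) (k : ℤ) : (z ^ (-k)).re = (z ^ k).re := by
  rw [A5_inv hz, Complex.conj_re]

theorem A5_re_bd (k : ℤ) : Bdc (fun z => 2 * (z ^ k).re) := by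
  refine ⟨2, fun z hz => ?_⟩
  rw [abs_mul, abs_two]
  have h1 : |(z ^ k).re| ≤ 1 := by
    refine (Complex.abs_re_le_norm _).trans ?_
    rw [norm_zpow, hz, one_zpow]
  linarith

theorem A5_mul_bd {F : ℂ → ℝ} (hF : Bdc F) (r : ℝ) : Bdc (fun z => r * F z) := by
  obtain ⟨C, hC⟩ := hF
  refine ⟨|r| * C, fun z hz => ?_⟩
  rw [abs_mul]
  exact mul_le_mul_of_nonneg_left (hC z hz) (abs_nonneg r)

end Pool.Agent.EEAG1

namespace Pool.Agent.EEAG1

open Filter Topology MeasureTheory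

theorem A6_re_pow {z : ℂ} (hz : ‖z‖ = 1) (k : ℤ) : |(z ^ k).re| ≤ 1 := by
  refine (Complex.abs_re_le_norm _).trans ?_
  rw [norm_zpow, hz, one_zpow]

theorem A6_re {z : ℂ} (hz : ‖z‖ = 1) : |2 * z.re| ≤ 2 := by
  have h := (Complex.abs_re_le_norm z).trans hz.le
  rw [abs_mul, abs_two]
  linarith

theorem A6_rec {z : ℂ} (hz : ‖z‖ = 1) (k : ℤ) :
    (2 * z.re) * (2 * (z ^ k).re) = 2 * (z ^ (k + 1)).re + 2 * (z ^ (k - 1)).re := by
  have h0 : z ≠ 0 := by
    rintro rfl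
    simp at hz
  have h1 : z + z⁻¹ = ((2 * z.re : ℝ) : ℂ) := by
    rw [Complex.inv_eq_conj hz, Complex.add_conj]
  have h2 : z ^ (k + 1) + z ^ (k - 1) = z ^ k * ((2 * z.re : ℝ) : ℂ) := by
    rw [← h1, zpow_add_one₀ h0, zpow_sub_one₀ h0, mul_add]
  have h3 := congrArg Complex.re h2
  rw [Complex.add_re, Complex.re_mul_ofReal] at h3
  linarith

theorem A6_bdc (n : ℕ) (k : ℤ) : Bdc fun z => (2 * z.re) ^ n * (2 * (z ^ k).re) := by
  refine ⟨2 ^ n * 2, fun z hz => ?_⟩
  rw [abs_mul, abs_pow, abs_mul 2 (z ^ k).re, abs_two]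
  have h1 := A6_re hz
  have h2 := A6_re_pow hz k
  have h3 : |2 * z.re| ^ n ≤ 2 ^ n := pow_le_pow_left₀ (abs_nonneg _) h1 n
  exact mul_le_mul h3 (by linarith) (by positivity) (by positivity)

theorem A6_int (μ : Measure ℝ) [IsFiniteMeasure μ] (n : ℕ) (k : ℤ) :
    Integrable (fun θ : ℝ => (2 * Real.cos θ) ^ n * (2 * Real.cos (k * θ))) μ := by
  refine Integrable.of_bound (C := 2 ^ n * 2) ?_ ?_
  · have : Continuous fun θ : ℝ => (2 * Real.cos θ) ^ n * (2 * Real.cos (k * θ)) := by fun_prop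
    exact this.aestronglyMeasurable
  · refine Eventually.of_forall fun θ => ?_
    rw [Real.norm_eq_abs, abs_mul, abs_pow, abs_mul, abs_mul, abs_two]
    have h1 := Real.abs_cos_le_one θ
    have h2 := Real.abs_cos_le_one (k * θ)
    have h3 : (2 * |Real.cos θ|) ^ n ≤ 2 ^ n := pow_le_pow_left₀ (by positivity) (by linarith) n
    exact mul_le_mul h3 (by linarith) (by positivity) (by positivity)

theorem A6_aux {a : Nat.Primes → ℂ} (ha : ∀ p, ‖a p‖ = 1) {c : ℤ → ℝ}
    (h : ∀ k : ℤ, Mean a (fun z => 2 * (z ^ k).re) (c k)) (μ : Measure ℝ) [IsFiniteMeasure μ]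
    (hμ : ∀ k : ℤ, ∫ θ, 2 * Real.cos (k * θ) ∂μ = c k) (n : ℕ) :
    ∀ k : ℤ, Mean a (fun z => (2 * z.re) ^ n * (2 * (z ^ k).re))
      (∫ θ, (2 * Real.cos θ) ^ n * (2 * Real.cos (k * θ)) ∂μ) := by
  induction n with
  | zero =>
    intro k
    have h1 := h k
    rw [← hμ k] at h1
    simp only [pow_zero, one_mul]
    exact h1
  | succ n ih =>
    intro k
    have h1 := (Mean.add ha (A6_bdc n (k + 1)) (A6_bdc n (k - 1)) (ih (k + 1)) (ih (k - 1)))
    have h2 : ∫ θ, (2 * Real.cos θ) ^ (n + 1) * (2 * Real.cos (k * θ)) ∂μ =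
        ∫ θ, (2 * Real.cos θ) ^ n * (2 * Real.cos ((k + 1 : ℤ) * θ)) ∂μ +
          ∫ θ, (2 * Real.cos θ) ^ n * (2 * Real.cos ((k - 1 : ℤ) * θ)) ∂μ := by
      rw [← integral_add (A6_int μ n (k + 1)) (A6_int μ n (k - 1))]
      refine integral_congr_ae (Eventually.of_forall fun θ => ?_)
      have h3 : Real.cos ((k + 1 : ℤ) * θ) = Real.cos (k * θ + θ) := by
        congr 1
        push_cast
        ring
      have h4 : Real.cos ((k - 1 : ℤ) * θ) = Real.cos (k * θ - θ) := by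
        congr 1
        push_cast
        ring
      simp only
      rw [h3, h4, Real.cos_add, Real.cos_sub, pow_succ]
      ring
    rw [h2]
    refine Mean.congr ha h1 fun z hz => ?_
    rw [← mul_add, ← A6_rec hz k]
    ring

/-- The monomials. By induction on `n`, for all `k`: with `x = 2 Re z`, `x * 2 Re z ^ k =
2 Re z ^ (k+1) + 2 Re z ^ (k-1)` (on the unit circle) and `2 cos θ * 2 cos (k θ) = 2 cos ((k+1) θ) +
2 cos ((k-1) θ)`; `k = 0` gives the assertion for `2 x ^ n`. -/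
theorem mean_monomial {a : Nat.Primes → ℂ} (ha : ∀ p, ‖a p‖ = 1) {c : ℤ → ℝ}
    (h : ∀ k : ℤ, Mean a (fun z => 2 * (z ^ k).re) (c k)) (μ : Measure ℝ) [IsFiniteMeasure μ]
    (hμ : ∀ k : ℤ, ∫ θ, 2 * Real.cos (k * θ) ∂μ = c k) (n : ℕ) :
    Mean a (fun z => (2 * z.re) ^ n) (∫ θ, (2 * Real.cos θ) ^ n ∂μ) := by
  have h1 := (A6_aux ha h μ hμ n 0).const_mul (1 / 2)
  have h2 : (1 / 2 : ℝ) * ∫ θ, (2 * Real.cos θ) ^ n * (2 * Real.cos ((0 : ℤ) * θ)) ∂μ =
      ∫ θ, (2 * Real.cos θ) ^ n ∂μ := by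
    rw [← integral_const_mul]
    refine integral_congr_ae (Eventually.of_forall fun θ => ?_)
    simp only [Int.cast_zero, zero_mul, Real.cos_zero]
    ring
  rw [h2] at h1
  refine Mean.congr ha h1 fun z _ => ?_
  rw [zpow_zero, Complex.one_re]
  ring

/-- Weierstrass: polynomials are uniformly dense in the continuous functions on `[-2, 2]`
(`exists_polynomial_near_of_continuousOn`), `Mean.of_approx`. -/
theorem law_of_moments {a : Nat.Primes → ℂ} (ha : ∀ p, ‖a p‖ = 1) {c : ℤ → ℝ}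
    (h : ∀ k : ℤ, Mean a (fun z => 2 * (z ^ k).re) (c k)) (μ : Measure ℝ) [IsFiniteMeasure μ]
    (hμ : ∀ k : ℤ, ∫ θ, 2 * Real.cos (k * θ) ∂μ = c k) :
    HasLaw a fun f => ∫ θ, f (2 * Real.cos θ) ∂μ := by
  intro f hf
  have hcos : ∀ θ : ℝ, 2 * Real.cos θ ∈ Set.Icc (-2 : ℝ) 2 := fun θ =>
    ⟨by linarith [Real.neg_one_le_cos θ], by linarith [Real.cos_le_one θ]⟩
  have hre : ∀ z : ℂ, ‖z‖ = 1 → 2 * z.re ∈ Set.Icc (-2 : ℝ) 2 := fun z hz => by
    have h1 := abs_le.1 (A6_re hz)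
    exact ⟨h1.1, h1.2⟩
  obtain ⟨C, hC⟩ := isCompact_Icc.exists_bound_of_continuousOn hf
  have hfi : Integrable (fun θ : ℝ => f (2 * Real.cos θ)) μ := by
    refine Integrable.of_bound (C := C) ?_ ?_
    · have h1 : Continuous fun θ : ℝ => 2 * Real.cos θ := by fun_prop
      exact (hf.comp_continuous h1 hcos).aestronglyMeasurable
    · exact Eventually.of_forall fun θ => hC _ (hcos θ)
  have key : Mean a (fun z => f (2 * z.re)) (∫ θ, f (2 * Real.cos θ) ∂μ) := by
    refine Mean.of_approx ha ⟨C, fun z hz => hC _ (hre z hz)⟩ fun ε hε => ?_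
    have hm : 0 ≤ μ.real Set.univ := measureReal_nonneg
    have hε' : 0 < ε / (1 + μ.real Set.univ) := by positivity
    obtain ⟨P, hP⟩ := exists_polynomial_near_of_continuousOn (-2) 2 f hf _ hε'
    have hle : ε / (1 + μ.real Set.univ) ≤ ε := div_le_self hε.le (by linarith)
    have hPi : Integrable (fun θ : ℝ => P.eval (2 * Real.cos θ)) μ := by
      obtain ⟨D, hD⟩ := isCompact_Icc.exists_bound_of_continuousOn (s := Set.Icc (-2 : ℝ) 2)
        (f := fun x => P.eval x) P.continuous.continuousOn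
      refine Integrable.of_bound (C := D) ?_ ?_
      · have h1 : Continuous fun θ : ℝ => 2 * Real.cos θ := by fun_prop
        exact (P.continuous.comp h1).aestronglyMeasurable
      · exact Eventually.of_forall fun θ => hD _ (hcos θ)
    refine ⟨fun z => P.eval (2 * z.re), ∫ θ, P.eval (2 * Real.cos θ) ∂μ, ?_, ?_, ?_, ?_⟩
    · obtain ⟨D, hD⟩ := isCompact_Icc.exists_bound_of_continuousOn (s := Set.Icc (-2 : ℝ) 2)
        (f := fun x => P.eval x) P.continuous.continuousOn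
      exact ⟨D, fun z hz => hD _ (hre z hz)⟩
    · have h1 := Mean.sum ha (Finset.range (P.natDegree + 1))
        (F := fun i z => P.coeff i * (2 * z.re) ^ i)
        (L := fun i => P.coeff i * ∫ θ, (2 * Real.cos θ) ^ i ∂μ)
        (fun i _ => ⟨|P.coeff i| * 2 ^ i, fun z hz => by
          rw [abs_mul, abs_pow]
          exact mul_le_mul_of_nonneg_left (pow_le_pow_left₀ (abs_nonneg _) (A6_re hz) i)
            (abs_nonneg _)⟩)
        (fun i _ => (mean_monomial ha h μ hμ i).const_mul _)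
      have h2 : ∑ i ∈ Finset.range (P.natDegree + 1),
          P.coeff i * ∫ θ, (2 * Real.cos θ) ^ i ∂μ = ∫ θ, P.eval (2 * Real.cos θ) ∂μ := by
        have h3 : ∀ θ : ℝ, P.eval (2 * Real.cos θ) = ∑ i ∈ Finset.range (P.natDegree + 1),
            P.coeff i * (2 * Real.cos θ) ^ i := fun θ => Polynomial.eval_eq_sum_range _
        simp only [h3]
        rw [integral_finsetSum]
        · refine Finset.sum_congr rfl fun i _ => ?_
          rw [integral_const_mul]
        · intro i _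
          refine Integrable.const_mul ?_ _
          have h4 := (A6_int μ i 0).const_mul (1 / 2)
          refine h4.congr (Eventually.of_forall fun θ => ?_)
          simp only [Int.cast_zero, zero_mul, Real.cos_zero]
          ring
      rw [h2] at h1
      refine Mean.congr ha h1 fun z _ => ?_
      rw [Polynomial.eval_eq_sum_range]
    · intro z hz
      have h1 := (hP _ (hre z hz)).le
      rw [abs_sub_comm]
      exact h1.trans hle
    · rw [← integral_sub hfi hPi]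
      have h1 : ‖∫ θ, (f (2 * Real.cos θ) - P.eval (2 * Real.cos θ)) ∂μ‖ ≤
          ε / (1 + μ.real Set.univ) * μ.real Set.univ := by
        refine norm_integral_le_of_norm_le_const (Eventually.of_forall fun θ => ?_)
        rw [Real.norm_eq_abs, abs_sub_comm]
        exact (hP _ (hcos θ)).le
      rw [Real.norm_eq_abs] at h1
      refine h1.trans ?_
      rw [div_mul_eq_mul_div, div_le_iff₀ (by positivity)]
      nlinarith
  exact key

end Pool.Agent.EEAG1

namespace Pool.Agent.EEAG1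

open Filter Topology MeasureTheory

/-- The density. -/
noncomputable def A7a_dens (θ : ℝ) : NNReal := Real.toNNReal (2 / Real.pi * Real.sin θ ^ 2)

theorem A7a_dens_coe (θ : ℝ) : ((A7a_dens θ : NNReal) : ℝ) = 2 / Real.pi * Real.sin θ ^ 2 :=
  Real.coe_toNNReal _ (by positivity)

theorem A7a_meas : Measurable A7a_dens := by
  unfold A7a_dens
  fun_prop

/-- The measure. -/
noncomputable def A7a_mu : Measure ℝ :=
  (volume.restrict (Set.Ioc 0 Real.pi)).withDensity (fun θ => ((A7a_dens θ : NNReal) : ENNReal))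

theorem A7a_int (g : ℝ → ℝ) : ∫ θ, g θ ∂A7a_mu =
    2 / Real.pi * ∫ θ in (0 : ℝ)..Real.pi, g θ * Real.sin θ ^ 2 := by
  unfold A7a_mu
  rw [integral_withDensity_eq_integral_smul A7a_meas g,
    intervalIntegral.integral_of_le Real.pi_pos.le, ← MeasureTheory.integral_const_mul]
  refine integral_congr_ae (Filter.Eventually.of_forall fun θ => ?_)
  change A7a_dens θ • g θ = 2 / Real.pi * (g θ * Real.sin θ ^ 2)
  rw [NNReal.smul_def, A7a_dens_coe, smul_eq_mul]
  ring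

theorem A7a_fin : IsFiniteMeasure A7a_mu := by
  have h : IsFiniteMeasure ((volume.restrict (Set.Ioc 0 Real.pi)).withDensity
      (fun θ : ℝ => ENNReal.ofReal (2 / Real.pi * Real.sin θ ^ 2))) := by
    apply isFiniteMeasure_withDensity_ofReal
    have hc : Continuous (fun θ : ℝ => 2 / Real.pi * Real.sin θ ^ 2) := by fun_prop
    exact ((hc.integrableOn_Icc (a := 0) (b := Real.pi)).mono_set
      Set.Ioc_subset_Icc_self).hasFiniteIntegral
  exact h

theorem A7a_cos (n : ℤ) : ∫ θ in (0 : ℝ)..Real.pi, Real.cos (n * θ) =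
    if n = 0 then Real.pi else 0 := by
  by_cases hn : n = 0
  · rw [if_pos hn, hn]
    simp
  · rw [if_neg hn]
    have hn' : (n : ℝ) ≠ 0 := by exact_mod_cast hn
    rw [intervalIntegral.integral_comp_mul_left (fun x => Real.cos x) hn', integral_cos,
      Real.sin_int_mul_pi, mul_zero, Real.sin_zero, sub_zero, smul_zero]

theorem A7a_ptw (k : ℤ) (θ : ℝ) : 2 * Real.cos (k * θ) * Real.sin θ ^ 2 =
    Real.cos (k * θ) - Real.cos ((k + 2 : ℤ) * θ) / 2 - Real.cos ((k - 2 : ℤ) * θ) / 2 := by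
  have h1 : ((k + 2 : ℤ) : ℝ) * θ = k * θ + 2 * θ := by push_cast; ring
  have h2 : ((k - 2 : ℤ) : ℝ) * θ = k * θ - 2 * θ := by push_cast; ring
  rw [h1, h2, Real.cos_add, Real.cos_sub, Real.cos_two_mul, Real.sin_sq]
  ring

/-- The measure `(2/π) sin² θ dθ` on `[0, π]`: `withDensity` of the restriction of the Lebesgue measure. -/
theorem exists_st : ∃ μ : Measure ℝ, IsFiniteMeasure μ ∧
    (∀ f : ℝ → ℝ, ∫ θ, f (2 * Real.cos θ) ∂μ = satoTate f) ∧
    ∀ k : ℤ, ∫ θ, 2 * Real.cos (k * θ) ∂μ =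
      if k = 0 then 2 else if k = 2 ∨ k = -2 then -1 else 0 := by
  refine ⟨A7a_mu, A7a_fin, fun f => A7a_int _, fun k => ?_⟩
  rw [A7a_int]
  have hc : ∀ n : ℤ, IntervalIntegrable (fun θ : ℝ => Real.cos (n * θ)) volume 0 Real.pi :=
    fun n => Continuous.intervalIntegrable (by fun_prop) _ _
  have h1 : ∫ θ in (0 : ℝ)..Real.pi, 2 * Real.cos (k * θ) * Real.sin θ ^ 2 =
      (if k = 0 then Real.pi else 0) - (if k + 2 = 0 then Real.pi else 0) / 2 -
        (if k - 2 = 0 then Real.pi else 0) / 2 := by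
    rw [← A7a_cos k, ← A7a_cos (k + 2), ← A7a_cos (k - 2),
      ← intervalIntegral.integral_div, ← intervalIntegral.integral_div,
      ← intervalIntegral.integral_sub (hc k) ((hc (k + 2)).div_const 2),
      ← intervalIntegral.integral_sub ((hc k).sub ((hc (k + 2)).div_const 2))
        ((hc (k - 2)).div_const 2)]
    exact intervalIntegral.integral_congr (fun θ _ => A7a_ptw k θ)
  rw [h1]
  have hpi : Real.pi ≠ 0 := Real.pi_ne_zero
  by_cases h0 : k = 0
  · rw [if_pos h0, if_pos h0, if_neg (by omega), if_neg (by omega)]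
    field_simp
    ring
  · rw [if_neg h0, if_neg h0]
    by_cases h2 : k = 2
    · rw [if_neg (by omega), if_pos (by omega), if_pos (Or.inl h2)]
      field_simp
      ring
    · by_cases h3 : k = -2
      · rw [if_pos (by omega), if_neg (by omega), if_pos (Or.inr h3)]
        field_simp
        ring
      · rw [if_neg (by omega), if_neg (by omega), if_neg (by tauto)]
        ring

end Pool.Agent.EEAG1

namespace Pool.Agent.EEAG1

open Filter Topology MeasureTheory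

/-- The integral of a continuous function with respect to `δ_{π/2} / 2 + dθ / (2 π)`. -/
theorem integral_cm (F : ℝ → ℝ) (hF : Continuous F) :
    ∫ θ, F θ ∂(ENNReal.ofReal (1 / 2) • Measure.dirac (Real.pi / 2) +
      ENNReal.ofReal (1 / (2 * Real.pi)) • (volume.restrict (Set.Ioc 0 Real.pi))) =
    F (Real.pi / 2) / 2 + 1 / (2 * Real.pi) * ∫ θ in (0 : ℝ)..Real.pi, F θ := by
  have hpi := Real.pi_pos
  have h1 : Integrable F (ENNReal.ofReal (1 / 2) • Measure.dirac (Real.pi / 2)) := by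
    apply Integrable.smul_measure _ ENNReal.ofReal_ne_top
    exact integrable_dirac (by simp)
  have h2 : Integrable F (ENNReal.ofReal (1 / (2 * Real.pi)) •
      (volume.restrict (Set.Ioc 0 Real.pi))) := by
    apply Integrable.smul_measure _ ENNReal.ofReal_ne_top
    exact (hF.integrableOn_Icc (a := 0) (b := Real.pi)).mono_set Set.Ioc_subset_Icc_self
  rw [integral_add_measure h1 h2, integral_smul_measure, integral_smul_measure, integral_dirac,
    ENNReal.toReal_ofReal (by norm_num), ENNReal.toReal_ofReal (by positivity),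
    intervalIntegral.integral_of_le hpi.le, smul_eq_mul, smul_eq_mul]
  ring

/-- The integral of `cos (m θ)` over `[0, π]`. -/
theorem integral_cos_int (m : ℤ) (hm : m ≠ 0) :
    ∫ θ in (0 : ℝ)..Real.pi, 2 * Real.cos ((m : ℝ) * θ) = 0 := by
  have hm' : (m : ℝ) ≠ 0 := by exact_mod_cast hm
  rw [intervalIntegral.integral_const_mul, intervalIntegral.integral_comp_mul_left
    (fun x => Real.cos x) hm', integral_cos, mul_zero, Real.sin_zero, Real.sin_int_mul_pi]
  simp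

/-- The measure `δ_{π/2} / 2 + dθ / (2 π)` on `[0, π]`. (`f` must be continuous on `[-2, 2]` to have an
integral of the sum of two measures.) -/
theorem exists_cm : ∃ μ : Measure ℝ, IsFiniteMeasure μ ∧
    (∀ f : ℝ → ℝ, ContinuousOn f (Set.Icc (-2) 2) → ∫ θ, f (2 * Real.cos θ) ∂μ = cmLaw f) ∧
    (∀ k : ℤ, ∫ θ, 2 * Real.cos ((2 * k : ℤ) * θ) ∂μ = (if k = 0 then 1 else 0) + (-1) ^ k.natAbs) ∧
    ∀ k : ℤ, ∫ θ, 2 * Real.cos ((2 * k + 1 : ℤ) * θ) ∂μ = 0 := by
  refine ⟨ENNReal.ofReal (1 / 2) • Measure.dirac (Real.pi / 2) +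
      ENNReal.ofReal (1 / (2 * Real.pi)) • (volume.restrict (Set.Ioc 0 Real.pi)), ?_, ?_, ?_, ?_⟩
  · have h1 : IsFiniteMeasure (ENNReal.ofReal (1 / 2) • Measure.dirac (Real.pi / 2) :
        Measure ℝ) := Measure.smul_finite _ ENNReal.ofReal_ne_top
    have h2 : IsFiniteMeasure (ENNReal.ofReal (1 / (2 * Real.pi)) •
      (volume.restrict (Set.Ioc 0 Real.pi)) : Measure ℝ) :=
      Measure.smul_finite _ ENNReal.ofReal_ne_top
    infer_instance
  · intro f hf
    have hF : Continuous (fun θ : ℝ => f (2 * Real.cos θ)) := by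
      apply hf.comp_continuous (by fun_prop)
      intro θ
      constructor
      · linarith [Real.neg_one_le_cos θ]
      · linarith [Real.cos_le_one θ]
    rw [integral_cm _ hF, cmLaw, Real.cos_pi_div_two, mul_zero]
  · intro k
    rw [integral_cm _ (by fun_prop)]
    have h1 : Real.cos (((2 * k : ℤ) : ℝ) * (Real.pi / 2)) = (-1) ^ k.natAbs := by
      have : ((2 * k : ℤ) : ℝ) * (Real.pi / 2) = (k : ℝ) * Real.pi := by push_cast; ring
      rw [this, Real.cos_int_mul_pi]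
      rcases Int.even_or_odd k with hk | hk
      · rw [hk.neg_one_zpow, (Int.natAbs_even.2 hk).neg_one_pow]
      · rw [hk.neg_one_zpow, (Int.natAbs_odd.2 hk).neg_one_pow]
    rw [h1]
    by_cases hk : k = 0
    · subst hk
      simp
      field_simp
    · rw [integral_cos_int (2 * k) (by omega), if_neg hk]
      ring
  · intro k
    rw [integral_cm _ (by fun_prop), integral_cos_int (2 * k + 1) (by omega)]
    have h1 : Real.cos (((2 * k + 1 : ℤ) : ℝ) * (Real.pi / 2)) = 0 := by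
      rw [Real.cos_eq_zero_iff]
      exact ⟨k, by push_cast; ring⟩
    rw [h1]
    ring

end Pool.Agent.EEAG1
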