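import Mathlib

/-!
# Hilbert spaces with integral inner products (MP_eea520_nt, edge theorem)
-/

set_option autoImplicit false

namespace Pool.Agent.EEAG1

open Filter Topology
open scoped InnerProductSpace

variable {H : Type*} [NormedAddCommGroup H] [InnerProductSpace ℝ H] [CompleteSpace H]

/-- Weak compactness of balls, with an ultrafilter. -/
theorem exists_weak_limit {ι : Type*} (U : Ultrafilter ι) (x : ι → H) (C : ℝ) (hx : ∀ i, ‖x i‖ ≤ C) :
    ∃ w : H, ‖w‖ ≤ C ∧ ∀ y : H, Tendsto (fun i => ⟪x i, y⟫_ℝ) U (𝓝 ⟪w, y⟫_ℝ) := by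
  classical
  have hb : ∀ y : H, ∀ i, ⟪x i, y⟫_ℝ ∈ Set.Icc (-(C * ‖y‖)) (C * ‖y‖) := by
    intro y i
    have h1 := abs_real_inner_le_norm (x i) y
    have h2 : ‖x i‖ * ‖y‖ ≤ C * ‖y‖ := mul_le_mul_of_nonneg_right (hx i) (norm_nonneg _)
    exact abs_le.1 (h1.trans h2)
  have hex : ∀ y : H, ∃ l : ℝ, l ∈ Set.Icc (-(C * ‖y‖)) (C * ‖y‖) ∧
      Tendsto (fun i => ⟪x i, y⟫_ℝ) U (𝓝 l) := by
    intro y
    have hc : IsCompact (Set.Icc (-(C * ‖y‖)) (C * ‖y‖)) := isCompact_Icc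
    obtain ⟨l, hl, hl2⟩ := hc.ultrafilter_le_nhds (U.map fun i => ⟪x i, y⟫_ℝ)
      (by
        rw [le_principal_iff, Ultrafilter.mem_coe, Ultrafilter.mem_map]
        exact Filter.univ_mem' fun i => hb y i)
    exact ⟨l, hl, hl2⟩
  choose l hl hlt using hex
  have hC : (∀ y, |l y| ≤ C * ‖y‖) := fun y => abs_le.2 (hl y)
  let f : H →ₗ[ℝ] ℝ :=
    { toFun := l
      map_add' := fun y z => by
        refine tendsto_nhds_unique (hlt (y + z)) ?_
        have h := (hlt y).add (hlt z)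
        refine h.congr fun i => ?_
        rw [inner_add_right]
      map_smul' := fun r y => by
        refine tendsto_nhds_unique (hlt (r • y)) ?_
        have h := (hlt y).const_mul r
        refine h.congr fun i => ?_
        rw [inner_smul_right]
        }
  let F : H →L[ℝ] ℝ := f.mkContinuous C fun y => by
    rw [Real.norm_eq_abs]
    exact hC y
  refine ⟨(InnerProductSpace.toDual ℝ H).symm F, ?_, fun y => ?_⟩
  · rw [LinearIsometryEquiv.norm_map]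
    obtain ⟨i⟩ : Nonempty ι := Filter.nonempty_of_neBot (U : Filter ι)
    exact LinearMap.mkContinuous_norm_le _ ((norm_nonneg _).trans (hx i)) _
  · rw [InnerProductSpace.toDual_symm_apply]
    exact hlt y

/-- A limit of integers is an integer. -/
theorem int_of_tendsto {ι : Type*} {U : Filter ι} [U.NeBot] {f : ι → ℝ} {L : ℝ}
    (hf : ∀ i, ∃ n : ℤ, f i = n) (h : Tendsto f U (𝓝 L)) : ∃ n : ℤ, L = n := by
  have hc : IsClosed (Set.range ((↑) : ℤ → ℝ)) := Int.isClosedEmbedding_coe_real.isClosed_range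
  obtain ⟨n, hn⟩ := hc.mem_of_tendsto h (Filter.Eventually.of_forall fun i => by
    obtain ⟨n, hn⟩ := hf i
    exact ⟨n, hn.symm⟩)
  exact ⟨n, hn.symm⟩

/-- A convergent family of integers is eventually constant. -/
theorem eventually_eq_of_tendsto {ι : Type*} {U : Filter ι} {f : ι → ℝ} {n : ℤ}
    (hf : ∀ i, ∃ n : ℤ, f i = n) (h : Tendsto f U (𝓝 (n : ℝ))) : ∀ᶠ i in U, f i = n := by
  have h1 := h.eventually (Metric.ball_mem_nhds (n : ℝ) (show (0 : ℝ) < 1 by norm_num))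
  filter_upwards [h1] with i hi
  obtain ⟨k, hk⟩ := hf i
  rw [hk] at hi ⊢
  rw [Real.dist_eq, ← Int.cast_sub, ← Int.cast_abs] at hi
  have h2 : |k - n| < 1 := by exact_mod_cast hi
  have h3 : k = n := by
    have := abs_lt.1 h2
    omega
  rw [h3]

omit [CompleteSpace H] in
/-- Bessel: an orthonormal family has only finitely many inner products equal to a nonzero number in
absolute value at least `1` with a vector of norm square `2`. -/
theorem bessel_three {ι : Type*} {e : ι → H} (he : Orthonormal ℝ e) (v : H) (hv : ‖v‖ ^ 2 < 3)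
    (s : Finset ι) (hs : ∀ i ∈ s, 1 ≤ |⟪e i, v⟫_ℝ|) : s.card < 3 := by
  have h1 := he.sum_inner_products_le v (s := s)
  have h2 : (s.card : ℝ) ≤ ∑ i ∈ s, ‖⟪e i, v⟫_ℝ‖ ^ 2 := by
    rw [Finset.cast_card]
    refine Finset.sum_le_sum fun i hi => ?_
    rw [Real.norm_eq_abs]
    exact one_le_pow₀ (hs i hi)
  have h3 : (s.card : ℝ) < 3 := by linarith
  exact_mod_cast h3

omit [CompleteSpace H] in
/-- Bessel: an orthonormal family indexed by an infinite type with constant inner products with a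
vector is orthogonal to it. -/
theorem bessel_const {ι : Type*} [Infinite ι] {e : ι → H} (he : Orthonormal ℝ e) (v : H) (a : ℝ)
    (h : ∀ i, ⟪e i, v⟫_ℝ = a) : a = 0 := by
  by_contra ha
  have hpos : 0 < a ^ 2 := by positivity
  obtain ⟨n, hn⟩ := exists_nat_gt (‖v‖ ^ 2 / a ^ 2)
  obtain ⟨s, hs⟩ := Infinite.exists_subset_card_eq ι n
  have h1 := he.sum_inner_products_le v (s := s)
  simp only [h, Real.norm_eq_abs, sq_abs, Finset.sum_const, hs, nsmul_eq_mul] at h1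
  rw [div_lt_iff₀ hpos] at hn
  linarith

end Pool.Agent.EEAG1

namespace Pool.Agent.EEAG1

open Filter Topology
open scoped InnerProductSpace

variable {H : Type*} [NormedAddCommGroup H] [InnerProductSpace ℝ H]

/-- All `⟨T^j x, y⟩` are integers. -/
def IP (T : H ≃ₗᵢ[ℝ] H) (x y : H) : Prop := ∀ j : ℤ, ∃ n : ℤ, ⟪(T ^ j) x, y⟫_ℝ = n

theorem zpow_add_apply (T : H ≃ₗᵢ[ℝ] H) (i j : ℤ) (x : H) : (T ^ (i + j)) x = (T ^ i) ((T ^ j) x) := by
  rw [zpow_add]
  rfl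

theorem zpow_zero_apply (T : H ≃ₗᵢ[ℝ] H) (x : H) : (T ^ (0 : ℤ)) x = x := by
  rw [zpow_zero]
  rfl

theorem norm_zpow (T : H ≃ₗᵢ[ℝ] H) (i : ℤ) (x : H) : ‖(T ^ i) x‖ = ‖x‖ :=
  (T ^ i).norm_map x

theorem inner_zpow (T : H ≃ₗᵢ[ℝ] H) (i j : ℤ) (x y : H) :
    ⟪(T ^ i) x, (T ^ j) y⟫_ℝ = ⟪(T ^ (i - j)) x, y⟫_ℝ := by
  have h : (T ^ i) x = (T ^ j) ((T ^ (i - j)) x) := by
    rw [← zpow_add_apply]
    congr 2
    ring_nf
  rw [h, LinearIsometryEquiv.inner_map_map]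

theorem inner_zpow_left (T : H ≃ₗᵢ[ℝ] H) (i : ℤ) (x y : H) :
    ⟪(T ^ i) x, y⟫_ℝ = ⟪x, (T ^ (-i)) y⟫_ℝ := by
  have h := inner_zpow T 0 (-i) x y
  rw [zpow_zero_apply] at h
  rw [h]
  congr 2
  ring_nf

theorem IP.symm {T : H ≃ₗᵢ[ℝ] H} {x y : H} (h : IP T x y) : IP T y x := by
  intro j
  obtain ⟨n, hn⟩ := h (-j)
  refine ⟨n, ?_⟩
  rw [inner_zpow_left, real_inner_comm]
  exact hn

theorem IP.limit {ι : Type*} {U : Filter ι} [U.NeBot] {T : H ≃ₗᵢ[ℝ] H} {x : ι → H} {w y : H}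
    (hw : ∀ z : H, Tendsto (fun i => ⟪x i, z⟫_ℝ) U (𝓝 ⟪w, z⟫_ℝ)) (h : ∀ i, IP T (x i) y) :
    IP T w y := by
  intro j
  rw [inner_zpow_left]
  refine int_of_tendsto (fun i => ?_) (hw ((T ^ (-j)) y))
  obtain ⟨n, hn⟩ := h i j
  exact ⟨n, by rw [← hn, inner_zpow_left]⟩

theorem IP.zpow_left {T : H ≃ₗᵢ[ℝ] H} {x y : H} (h : IP T x y) (i : ℤ) : IP T ((T ^ i) x) y := by
  intro j
  obtain ⟨n, hn⟩ := h (j + i)
  exact ⟨n, by rw [← zpow_add_apply, hn]⟩

theorem IP.add {T : H ≃ₗᵢ[ℝ] H} {x y z : H} (h : IP T x z) (h' : IP T y z) : IP T (x + y) z := by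
  intro j
  obtain ⟨n, hn⟩ := h j
  obtain ⟨n', hn'⟩ := h' j
  exact ⟨n + n', by rw [map_add, inner_add_left, hn, hn']; push_cast; ring⟩

theorem IP.smul {T : H ≃ₗᵢ[ℝ] H} {x z : H} (h : IP T x z) (a : ℤ) : IP T ((a : ℝ) • x) z := by
  intro j
  obtain ⟨n, hn⟩ := h j
  exact ⟨a * n, by rw [map_smul, inner_smul_left, hn]; push_cast; simp⟩

theorem IP.zero {T : H ≃ₗᵢ[ℝ] H} (z : H) : IP T 0 z := fun j => ⟨0, by simp⟩

theorem norm_sq_int {T : H ≃ₗᵢ[ℝ] H} {x : H} (h : IP T x x) : ∃ n : ℤ, ‖x‖ ^ 2 = n := by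
  obtain ⟨n, hn⟩ := h 0
  rw [zpow_zero_apply, real_inner_self_eq_norm_sq] at hn
  exact ⟨n, hn⟩

/-- Equality in Cauchy-Schwarz. -/
theorem eq_smul_of_inner {a w : H} (ha : ‖a‖ ^ 2 = 1) (hw : ‖w‖ ^ 2 = 1) {δ : ℝ} (hδ : δ ^ 2 = 1)
    (h : ⟪a, w⟫_ℝ = δ) : a = δ • w := by
  have h1 : ‖a - δ • w‖ ^ 2 = 0 := by
    rw [norm_sub_sq_real, inner_smul_right, norm_smul, mul_pow, ha, hw, h, Real.norm_eq_abs, sq_abs]
    linear_combination (-1 : ℝ) * hδ
  rw [sq_eq_zero_iff, norm_eq_zero, sub_eq_zero] at h1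
  exact h1

/-- For a vector of norm one with integral inner products either the orbit is orthonormal or the vector is
periodic up to sign. -/
theorem orth_or_periodic {T : H ≃ₗᵢ[ℝ] H} {w : H} (hw : ‖w‖ ^ 2 = 1) (h : IP T w w) {i : ℤ}
    (hi : ⟪(T ^ i) w, w⟫_ℝ ≠ 0) :
    ∃ δ : ℤ, (δ = 1 ∨ δ = -1) ∧ ⟪(T ^ i) w, w⟫_ℝ = δ ∧ (T ^ i) w = (δ : ℝ) • w := by
  obtain ⟨n, hn⟩ := h i
  have h1 := abs_real_inner_le_norm ((T ^ i) w) w
  rw [norm_zpow, ← pow_two, hw, hn, ← Int.cast_abs] at h1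
  have h2 : |n| ≤ 1 := by exact_mod_cast h1
  have h3 : n ≠ 0 := by
    rintro rfl
    exact hi (by rw [hn]; simp)
  have h4 : n = 1 ∨ n = -1 := by
    have := abs_le.1 h2
    omega
  refine ⟨n, h4, hn, ?_⟩
  refine eq_smul_of_inner ?_ hw ?_ hn
  · rw [norm_zpow, hw]
  · rcases h4 with rfl | rfl <;> norm_num

theorem zpow_two_mul_of_smul {T : H ≃ₗᵢ[ℝ] H} {w : H} {i : ℤ} {δ : ℤ} (hδ : δ = 1 ∨ δ = -1)
    (h : (T ^ i) w = (δ : ℝ) • w) : (T ^ (2 * i)) w = w := by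
  rw [two_mul, zpow_add_apply, h, map_smul, h, smul_smul]
  rcases hδ with rfl | rfl <;> norm_num

theorem zpow_mul_of_fix {T : H ≃ₗᵢ[ℝ] H} {w : H} {i : ℤ} (h : (T ^ i) w = w) (n : ℤ) :
    (T ^ (n * i)) w = w := by
  have h1 : ∀ n : ℕ, (T ^ ((n : ℤ) * i)) w = w := by
    intro n
    induction n with
    | zero => rw [Nat.cast_zero, zero_mul, zpow_zero_apply]
    | succ n ih => rw [Nat.cast_succ, add_mul, one_mul, zpow_add_apply, h, ih]
  rcases n.eq_nat_or_neg with ⟨k, rfl | rfl⟩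
  · exact h1 k
  · have h2 := h1 k
    have h3 : (T ^ (-(k : ℤ) * i)) ((T ^ ((k : ℤ) * i)) w) = w := by
      rw [← zpow_add_apply]
      rw [show -(k : ℤ) * i + (k : ℤ) * i = 0 by ring, zpow_zero_apply]
    rw [h2] at h3
    exact h3

/-- An orbit without nonzero inner products is orthonormal. -/
theorem orthonormal_orbit {T : H ≃ₗᵢ[ℝ] H} {w : H} (hw : ‖w‖ ^ 2 = 1)
    (h : ∀ i : ℤ, i ≠ 0 → ⟪(T ^ i) w, w⟫_ℝ = 0) : Orthonormal ℝ (fun i : ℤ => (T ^ i) w) := by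
  have hw1 : ‖w‖ = 1 := by
    have h0 := norm_nonneg w
    nlinarith
  refine ⟨fun i => by rw [norm_zpow, hw1], fun i j hij => ?_⟩
  show ⟪(T ^ i) w, (T ^ j) w⟫_ℝ = 0
  rw [inner_zpow]
  exact h _ (sub_ne_zero.2 hij)

end Pool.Agent.EEAG1

namespace Pool.Agent.EEAG1

open Filter Topology
open scoped InnerProductSpace

variable {H : Type*} [NormedAddCommGroup H] [InnerProductSpace ℝ H]

theorem smul_zpow {T : H ≃ₗᵢ[ℝ] H} {w : H} {m : ℤ} {e : ℤ} (he : e = 1 ∨ e = -1)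
    (h : (T ^ m) w = (e : ℝ) • w) (k : ℤ) : (T ^ (k * m)) w = ((e : ℝ) ^ k.natAbs) • w := by
  have h1 : ∀ n : ℕ, (T ^ ((n : ℤ) * m)) w = ((e : ℝ) ^ n) • w := by
    intro n
    induction n with
    | zero => rw [Nat.cast_zero, zero_mul, zpow_zero_apply, pow_zero, one_smul]
    | succ n ih =>
      rw [Nat.cast_succ, add_mul, one_mul, zpow_add_apply, h, map_smul, ih, smul_smul, pow_succ']
  have he2 : (e : ℝ) * e = 1 := by rcases he with rfl | rfl <;> norm_num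
  rcases k.eq_nat_or_neg with ⟨n, rfl | rfl⟩
  · rw [Int.natAbs_natCast]
    exact h1 n
  · rw [Int.natAbs_neg, Int.natAbs_natCast]
    have h2 : (T ^ (-(n : ℤ) * m)) ((T ^ ((n : ℤ) * m)) w) = w := by
      rw [← zpow_add_apply, show -(n : ℤ) * m + (n : ℤ) * m = 0 by ring, zpow_zero_apply]
    rw [h1 n, map_smul] at h2
    have h3 : ((e : ℝ) ^ n) * ((e : ℝ) ^ n) = 1 := by rw [← mul_pow, he2, one_pow]
    calc (T ^ (-(n : ℤ) * m)) w = (((e : ℝ) ^ n) * ((e : ℝ) ^ n)) • (T ^ (-(n : ℤ) * m)) w := by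
          rw [h3, one_smul]
      _ = ((e : ℝ) ^ n) • w := by rw [mul_smul, h2]

/-- The inner products of the orbit of a vector of norm one which is not orthonormal. -/
theorem law_of_norm_one {T : H ≃ₗᵢ[ℝ] H} {w : H} (hw : ‖w‖ ^ 2 = 1) (h : IP T w w) {i : ℤ} (hi : i ≠ 0)
    (hi' : ⟪(T ^ i) w, w⟫_ℝ ≠ 0) :
    ∃ m : ℤ, 0 < m ∧ ∃ e : ℤ, (e = 1 ∨ e = -1) ∧
      (∀ k : ℤ, ⟪(T ^ (k * m)) w, w⟫_ℝ = (e : ℝ) ^ k.natAbs) ∧
      ∀ k : ℤ, ¬ m ∣ k → ⟪(T ^ k) w, w⟫_ℝ = 0 := by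
  classical
  have hww : ⟪w, w⟫_ℝ = 1 := by rw [real_inner_self_eq_norm_sq, hw]
  let J : AddSubgroup ℤ :=
    { carrier := {j | ⟪(T ^ j) w, w⟫_ℝ ≠ 0}
      zero_mem' := by
        show ⟪(T ^ (0 : ℤ)) w, w⟫_ℝ ≠ 0
        rw [zpow_zero_apply, hww]
        norm_num
      add_mem' := by
        intro a b ha hb
        show ⟪(T ^ (a + b)) w, w⟫_ℝ ≠ 0
        obtain ⟨d, hd, -, hd2⟩ := orth_or_periodic hw h ha
        obtain ⟨d', hd', -, hd2'⟩ := orth_or_periodic hw h hb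
        rw [zpow_add_apply, hd2', map_smul, hd2, smul_smul, inner_smul_left, hww]
        rcases hd with rfl | rfl <;> rcases hd' with rfl | rfl <;> norm_num
      neg_mem' := by
        intro a ha
        show ⟪(T ^ (-a)) w, w⟫_ℝ ≠ 0
        rw [inner_zpow_left, neg_neg, real_inner_comm]
        exact ha }
  obtain ⟨a, ha⟩ := Int.subgroup_cyclic J
  have hmem : ∀ k : ℤ, ⟪(T ^ k) w, w⟫_ℝ ≠ 0 ↔ a ∣ k := by
    intro k
    have h1 : (k ∈ J) ↔ a ∣ k := by
      rw [ha, AddSubgroup.mem_closure_singleton]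
      constructor
      · rintro ⟨n, rfl⟩
        exact ⟨n, by rw [smul_eq_mul, mul_comm]⟩
      · rintro ⟨n, rfl⟩
        exact ⟨n, by rw [smul_eq_mul, mul_comm]⟩
    exact h1
  have ha0 : a ≠ 0 := by
    rintro rfl
    exact hi (zero_dvd_iff.1 ((hmem i).1 hi'))
  have hm : ⟪(T ^ |a|) w, w⟫_ℝ ≠ 0 := (hmem _).2 ((dvd_abs a a).2 dvd_rfl)
  obtain ⟨e, he, -, he2⟩ := orth_or_periodic hw h hm
  refine ⟨|a|, abs_pos.2 ha0, e, he, fun k => ?_, fun k hk => ?_⟩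
  · rw [smul_zpow he he2, inner_smul_left, hww, mul_one]
    simp
  · by_contra hne
    exact hk ((abs_dvd a k).2 ((hmem k).1 hne))

/-- Case B, the weak limit. -/
theorem caseB_limit [CompleteSpace H] {T : H ≃ₗᵢ[ℝ] H} {v : H} (hv : ‖v‖ ^ 2 = 2) (h : IP T v v)
    (hinf : {k : ℤ | ⟪(T ^ k) v, v⟫_ℝ ≠ 0}.Infinite) :
    ∃ w : H, IP T w v ∧ IP T w w ∧ (‖w‖ ^ 2 = 1 ∨ ‖w‖ ^ 2 = 2) ∧ ⟪w, v⟫_ℝ ≠ 0 ∧
      {k : ℤ | ⟪(T ^ k) v, w⟫_ℝ = ‖w‖ ^ 2}.Infinite := by
  classical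
  have : (cofinite ⊓ 𝓟 {k : ℤ | ⟪(T ^ k) v, v⟫_ℝ ≠ 0}).NeBot :=
    hinf.cofinite_inf_principal_neBot
  set U := Ultrafilter.of (cofinite ⊓ 𝓟 {k : ℤ | ⟪(T ^ k) v, v⟫_ℝ ≠ 0}) with hU
  have hUle : (U : Filter ℤ) ≤ cofinite ⊓ 𝓟 {k : ℤ | ⟪(T ^ k) v, v⟫_ℝ ≠ 0} :=
    Ultrafilter.of_le _
  have hUc : (U : Filter ℤ) ≤ cofinite := hUle.trans inf_le_left
  have hUK : ∀ᶠ k in (U : Filter ℤ), ⟪(T ^ k) v, v⟫_ℝ ≠ 0 := by
    have := hUle.trans inf_le_right
    exact this (mem_principal_self _)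
  obtain ⟨w, hwn, hw⟩ := exists_weak_limit U (fun k : ℤ => (T ^ k) v) ‖v‖
    (fun k => (norm_zpow T k v).le)
  have h1 : IP T w v := IP.limit hw fun k => h.zpow_left k
  have h2 : IP T w w := IP.limit hw fun k => h1.symm.zpow_left k
  have hinfU : ∀ S : Set ℤ, (∀ᶠ k in (U : Filter ℤ), k ∈ S) → S.Infinite := by
    intro S hS hfin
    have h3 : ∀ᶠ k in (U : Filter ℤ), k ∉ S := hUc (by
      rw [mem_cofinite]
      exact hfin.subset fun x hx => by
        by_contra hxS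
        exact hx hxS)
    obtain ⟨k, hk1, hk2⟩ := (hS.and h3).exists
    exact hk2 hk1
  have hwv : ⟪w, v⟫_ℝ ≠ 0 := by
    obtain ⟨n, hn⟩ := int_of_tendsto (fun k => h k) (hw v)
    have h3 := hw v
    rw [hn] at h3
    have h4 := eventually_eq_of_tendsto (fun k => h k) h3
    obtain ⟨k, hk1, hk2⟩ := (h4.and hUK).exists
    rw [hn, ← hk1]
    exact hk2
  refine ⟨w, h1, h2, ?_, hwv, ?_⟩
  · obtain ⟨n, hn⟩ := norm_sq_int h2
    have hle : ‖w‖ ^ 2 ≤ 2 := by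
      rw [← hv]
      exact pow_le_pow_left₀ (norm_nonneg _) hwn 2
    have hpos : 0 < ‖w‖ ^ 2 := by
      have : w ≠ 0 := by
        rintro rfl
        exact hwv (inner_zero_left _)
      positivity
    rw [hn] at hle hpos ⊢
    have h3 : n ≤ 2 := by exact_mod_cast hle
    have h4 : 0 < n := by exact_mod_cast hpos
    have h5 : n = 1 ∨ n = 2 := by omega
    rcases h5 with rfl | rfl
    · left; norm_num
    · right; norm_num
  · refine hinfU _ ?_
    obtain ⟨n, hn⟩ := norm_sq_int h2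
    have h3 := hw w
    rw [real_inner_self_eq_norm_sq, hn] at h3
    have h4 := eventually_eq_of_tendsto (fun k => h1.symm k) h3
    filter_upwards [h4] with k hk
    rw [hn]
    exact hk

end Pool.Agent.EEAG1

namespace Pool.Agent.EEAG1

open Filter Topology
open scoped InnerProductSpace

variable {H : Type*} [NormedAddCommGroup H] [InnerProductSpace ℝ H] [CompleteSpace H]

/-- The partial sums of the alternating orbit. -/
noncomputable def caseA_x (T : H ≃ₗᵢ[ℝ] H) (v : H) (m : ℤ) (e : ℝ) (N : ℕ) : H :=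
  ∑ j ∈ Finset.range N, (-e) ^ j • (T ^ (m * (j : ℤ))) v

omit [CompleteSpace H] in
theorem caseA_even (T : H ≃ₗᵢ[ℝ] H) (v : H) (k : ℤ) :
    ⟪(T ^ (-k)) v, v⟫_ℝ = ⟪(T ^ k) v, v⟫_ℝ := by
  rw [inner_zpow_left, neg_neg, real_inner_comm]

omit [CompleteSpace H] in
theorem caseA_x_succ (T : H ≃ₗᵢ[ℝ] H) (v : H) (m : ℤ) (e : ℝ) (N : ℕ) :
    caseA_x T v m e (N + 1) = caseA_x T v m e N + (-e) ^ N • (T ^ (m * (N : ℤ))) v := by
  unfold caseA_x
  rw [Finset.sum_range_succ]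

omit [CompleteSpace H] in
theorem caseA_x_one (T : H ≃ₗᵢ[ℝ] H) (v : H) (m : ℤ) (e : ℝ) : caseA_x T v m e 1 = v := by
  rw [show (1 : ℕ) = 0 + 1 from rfl, caseA_x_succ]
  unfold caseA_x
  rw [Finset.sum_range_zero, zero_add, pow_zero, one_smul, Nat.cast_zero, mul_zero, zpow_zero_apply]

omit [CompleteSpace H] in
theorem caseA_x_shift (T : H ≃ₗᵢ[ℝ] H) (v : H) (m : ℤ) (e : ℝ) (N : ℕ) :
    caseA_x T v m e (N + 1) = v - e • (T ^ m) (caseA_x T v m e N) := by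
  induction N with
  | zero =>
    rw [zero_add, caseA_x_one]
    unfold caseA_x
    rw [Finset.sum_range_zero, map_zero, smul_zero, sub_zero]
  | succ N ih =>
    rw [caseA_x_succ, caseA_x_succ T v m e N, map_add, smul_add, map_smul, smul_smul,
      ← zpow_add_apply, ← sub_sub, ← ih, show m + m * (N : ℤ) = m * ((N + 1 : ℕ) : ℤ) by push_cast; ring,
      sub_eq_add_neg, ← neg_smul, caseA_x_succ T v m e N]
    congr 2
    ring

omit [CompleteSpace H] in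
theorem caseA_inner_x (T : H ≃ₗᵢ[ℝ] H) (v : H) (m : ℤ) (e : ℝ) (N : ℕ) (k : ℤ) :
    ⟪caseA_x T v m e N, (T ^ k) v⟫_ℝ
      = ∑ j ∈ Finset.range N, (-e) ^ j * ⟪(T ^ (m * (j : ℤ) - k)) v, v⟫_ℝ := by
  unfold caseA_x
  rw [sum_inner]
  refine Finset.sum_congr rfl fun j _ => ?_
  rw [real_inner_smul_left, inner_zpow]

omit [CompleteSpace H] in
theorem caseA_IP {T : H ≃ₗᵢ[ℝ] H} {v : H} (h : IP T v v) (m e : ℤ) (N : ℕ) :
    IP T (caseA_x T v m e N) v := by
  induction N with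
  | zero =>
    unfold caseA_x
    rw [Finset.sum_range_zero]
    exact IP.zero v
  | succ N ih =>
    rw [caseA_x_succ]
    refine ih.add ?_
    have h1 := (h.zpow_left (m * (N : ℤ))).smul ((-e) ^ N)
    have h2 : (((-e) ^ N : ℤ) : ℝ) = (-(e : ℝ)) ^ N := by push_cast; ring
    rw [h2] at h1
    exact h1

omit [CompleteSpace H] in
theorem caseA_IP2 {T : H ≃ₗᵢ[ℝ] H} {v : H} (h : IP T v v) (m e : ℤ) (N M : ℕ) :
    IP T (caseA_x T v m e N) (caseA_x T v m e M) := by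
  induction M with
  | zero =>
    unfold caseA_x
    rw [Finset.sum_range_zero]
    exact (IP.zero _).symm
  | succ M ih =>
    rw [caseA_x_succ]
    refine (ih.symm.add ?_).symm
    have h1 := ((caseA_IP h m e N).symm.zpow_left (m * (M : ℤ))).smul ((-e) ^ M)
    have h2 : (((-e) ^ M : ℤ) : ℝ) = (-(e : ℝ)) ^ M := by push_cast; ring
    rw [h2] at h1
    exact h1

end Pool.Agent.EEAG1

namespace Pool.Agent.EEAG1

open Filter Topology
open scoped InnerProductSpace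

variable {H : Type*} [NormedAddCommGroup H] [InnerProductSpace ℝ H]

/-- Case A, the vector form. -/
theorem caseA_vec [CompleteSpace H] {T : H ≃ₗᵢ[ℝ] H} {v : H} (hv : ‖v‖ ^ 2 = 2) (h : IP T v v)
    (hfin : {k : ℤ | ⟪(T ^ k) v, v⟫_ℝ ≠ 0}.Finite) :
    (∀ k : ℤ, k ≠ 0 → ⟪(T ^ k) v, v⟫_ℝ = 0) ∨
      ∃ m : ℤ, 0 < m ∧ ∃ e : ℤ, (e = 1 ∨ e = -1) ∧ ∃ y : H, v = y + (e : ℝ) • (T ^ m) y ∧
        ‖y‖ ^ 2 = 1 ∧ IP T y y ∧ ∀ k : ℤ, k ≠ 0 → ⟪(T ^ k) y, y⟫_ℝ = 0 := by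
  classical
  by_cases h0 : ∀ k : ℤ, k ≠ 0 → ⟪(T ^ k) v, v⟫_ℝ = 0
  · exact Or.inl h0
  right
  -- the largest element of the support
  obtain ⟨m, hm0, hcm, hcz⟩ : ∃ m : ℤ, 0 < m ∧ ⟪(T ^ m) v, v⟫_ℝ ≠ 0 ∧
      ∀ k : ℤ, m < k → ⟪(T ^ k) v, v⟫_ℝ = 0 := by
    have hne : hfin.toFinset.Nonempty := by
      refine ⟨0, ?_⟩
      rw [Set.Finite.mem_toFinset, Set.mem_ofPred_eq, zpow_zero_apply, real_inner_self_eq_norm_sq, hv]
      norm_num
    have hmem := Finset.max'_mem _ hne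
    have hmax : ∀ k : ℤ, ⟪(T ^ k) v, v⟫_ℝ ≠ 0 → k ≤ hfin.toFinset.max' hne := fun k hk =>
      Finset.le_max' _ _ (by rw [Set.Finite.mem_toFinset, Set.mem_ofPred_eq]; exact hk)
    rw [Set.Finite.mem_toFinset, Set.mem_ofPred_eq] at hmem
    refine ⟨_, ?_, hmem, fun k hk => ?_⟩
    · push Not at h0
      obtain ⟨k, hk, hck⟩ := h0
      have h1 := hmax k hck
      have h2 := hmax (-k) (by rw [caseA_even]; exact hck)
      omega
    · by_contra hc
      have := hmax k hc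
      omega
  have hcz' : ∀ k : ℤ, k < -m → ⟪(T ^ k) v, v⟫_ℝ = 0 := by
    intro k hk
    rw [← caseA_even]
    exact hcz _ (by omega)
  obtain ⟨e, he⟩ := h m
  have hcs : ∀ k : ℤ, |⟪(T ^ k) v, v⟫_ℝ| ≤ 2 := by
    intro k
    have h1 := abs_real_inner_le_norm ((T ^ k) v) v
    rw [norm_zpow, ← pow_two, hv] at h1
    exact h1
  have he1 : e = 1 ∨ e = -1 := by
    have h1 := hcs m
    rw [he, ← Int.cast_abs] at h1
    have h2 : |e| ≤ 2 := by exact_mod_cast h1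
    have h3 : e ≠ 0 := by
      rintro rfl
      exact hcm (by rw [he]; simp)
    by_contra hcon
    have h4 : e = 2 ∨ e = -2 := by
      have := abs_le.1 h2
      omega
    obtain ⟨δ, hδ, hδe⟩ : ∃ δ : ℝ, δ ^ 2 = 1 ∧ (e : ℝ) = 2 * δ := by
      rcases h4 with rfl | rfl
      · exact ⟨1, by norm_num, by norm_num⟩
      · exact ⟨-1, by norm_num, by norm_num⟩
    have h5 : ‖(T ^ m) v - δ • v‖ ^ 2 = 0 := by
      rw [norm_sub_sq_real, inner_smul_right, norm_smul, mul_pow, norm_zpow, hv, he, hδe,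
        Real.norm_eq_abs, sq_abs]
      linear_combination (-2 : ℝ) * hδ
    rw [sq_eq_zero_iff, norm_eq_zero, sub_eq_zero] at h5
    have h6 : (T ^ (m + m)) v = v := by
      rw [zpow_add_apply, h5, map_smul, h5, smul_smul, ← pow_two, hδ, one_smul]
    have h7 := hcz (m + m) (by omega)
    rw [h6, real_inner_self_eq_norm_sq, hv] at h7
    norm_num at h7
  have hee : (e : ℝ) * e = 1 := by rcases he1 with rfl | rfl <;> norm_num
  have hpow : ∀ N : ℕ, (-(e : ℝ)) ^ N * (-(e : ℝ)) ^ N = 1 := by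
    intro N
    rw [← mul_pow, neg_mul_neg, hee, one_pow]
  -- the sequence
  set x : ℕ → H := caseA_x T v m (e : ℝ) with hx
  have hxs : ∀ N, x (N + 1) = x N + (-(e : ℝ)) ^ N • (T ^ (m * (N : ℤ))) v :=
    fun N => caseA_x_succ T v m e N
  have hx1 : x 1 = v := caseA_x_one T v m e
  have hx0 : x 0 = 0 := by
    rw [hx]
    unfold caseA_x
    rw [Finset.sum_range_zero]
  have hF1 : ∀ N : ℕ, ⟪x (N + 1), (T ^ (m * ((N + 1 : ℕ) : ℤ))) v⟫_ℝ = (-(e : ℝ)) ^ N * e := by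
    intro N
    rw [hx, caseA_inner_x, Finset.sum_range_succ, Finset.sum_eq_zero, zero_add]
    · rw [show m * (N : ℤ) - m * ((N + 1 : ℕ) : ℤ) = -m by push_cast; ring, caseA_even, he]
    · intro j hj
      have hj' : (j : ℤ) + 1 ≤ N := by exact_mod_cast Finset.mem_range.1 hj
      rw [hcz', mul_zero]
      push_cast
      nlinarith
  have hF1' : ∀ N M : ℕ, N + 1 ≤ M → ⟪x N, (T ^ (m * (M : ℤ))) v⟫_ℝ = 0 := by
    intro N M hNM
    rw [hx, caseA_inner_x]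
    refine Finset.sum_eq_zero fun j hj => ?_
    have hj' : (j : ℤ) + 1 ≤ N := by exact_mod_cast Finset.mem_range.1 hj
    have hNM' : (N : ℤ) + 1 ≤ M := by exact_mod_cast hNM
    rw [hcz', mul_zero]
    nlinarith
  have hF2 : ∀ N : ℕ, ‖x (N + 1)‖ ^ 2 = 2 := by
    intro N
    induction N with
    | zero => rw [zero_add, hx1, hv]
    | succ N ih =>
      rw [hxs, norm_add_sq_real, ih, inner_smul_right, hF1, norm_smul, mul_pow, norm_zpow, hv,
        Real.norm_eq_abs, sq_abs]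
      have h1 := hpow N
      have h2 := hpow (N + 1)
      have h3 : (-(e : ℝ)) ^ (N + 1) = -((-(e : ℝ)) ^ N * e) := by rw [pow_succ]; ring
      rw [h3] at h2 ⊢
      linear_combination (2 - 2 : ℝ) * h2
  have hF3 : ∀ N k : ℕ, ⟪x (N + 1), x (N + 1 + (k + 1))⟫_ℝ = 1 := by
    intro N k
    induction k with
    | zero =>
      rw [zero_add, hxs (N + 1), inner_add_right, real_inner_self_eq_norm_sq, hF2, inner_smul_right, hF1]
      have h2 := hpow (N + 1)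
      have h3 : (-(e : ℝ)) ^ (N + 1) = -((-(e : ℝ)) ^ N * e) := by rw [pow_succ]; ring
      rw [h3] at h2 ⊢
      linear_combination (-1 : ℝ) * h2
    | succ k ih =>
      rw [show N + 1 + (k + 1 + 1) = (N + 1 + (k + 1)) + 1 by ring, hxs (N + 1 + (k + 1)), inner_add_right, ih,
        inner_smul_right, hF1' (N + 1) (N + 1 + (k + 1)) (by omega), mul_zero, add_zero]
  have hF3' : ∀ N M : ℕ, 1 ≤ N → N < M → ⟪x M, x N⟫_ℝ = 1 := by
    intro N M hN hM
    obtain ⟨N, rfl⟩ : ∃ n, N = n + 1 := ⟨N - 1, by omega⟩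
    obtain ⟨k, rfl⟩ : ∃ k, M = N + 1 + (k + 1) := ⟨M - (N + 1) - 1, by omega⟩
    rw [real_inner_comm]
    exact hF3 N k
  have hbd : ∀ N, ‖x N‖ ≤ 2 := by
    intro N
    rcases N with _ | N
    · rw [hx0, norm_zero]; norm_num
    · have h1 := hF2 N
      nlinarith [norm_nonneg (x (N + 1))]
  -- the weak limit
  obtain ⟨y, -, hy⟩ := exists_weak_limit (Filter.hyperfilter ℕ) x 2 hbd
  have hU : ((Filter.hyperfilter ℕ : Ultrafilter ℕ) : Filter ℕ) ≤ atTop := Nat.hyperfilter_le_atTop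
  have hevt : ∀ (f : ℕ → ℝ) (a b : ℝ) (N₀ : ℕ), (∀ N, N₀ ≤ N → f N = a) →
      Tendsto f (Filter.hyperfilter ℕ : Ultrafilter ℕ) (𝓝 b) → b = a := by
    intro f a b N₀ hfa hfb
    refine tendsto_nhds_unique hfb ?_
    refine (tendsto_const_nhds (x := a)).congr' ?_
    have h1 : ∀ᶠ N in (atTop : Filter ℕ), a = f N := by
      filter_upwards [eventually_ge_atTop N₀] with N hN
      exact (hfa N hN).symm
    exact hU h1
  have hy1 : ∀ N, 1 ≤ N → ⟪y, x N⟫_ℝ = 1 := fun N hN =>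
    hevt _ 1 _ (N + 1) (fun M hM => hF3' N M hN (by omega)) (hy (x N))
  have hyy : ⟪y, y⟫_ℝ = 1 :=
    hevt _ 1 _ 1 (fun M hM => by rw [real_inner_comm]; exact hy1 M hM) (hy y)
  have hyv : ⟪y, v⟫_ℝ = 1 := by rw [← hx1]; exact hy1 1 le_rfl
  have hTyv : ⟪(T ^ m) y, v⟫_ℝ = e := by
    rw [inner_zpow_left]
    refine hevt _ (e : ℝ) _ 1 (fun M hM => ?_) (hy ((T ^ (-m)) v))
    obtain ⟨M, rfl⟩ : ∃ n, M = n + 1 := ⟨M - 1, by omega⟩
    show ⟪x (M + 1), (T ^ (-m)) v⟫_ℝ = e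
    rw [hx, caseA_inner_x, Finset.sum_range_succ', Finset.sum_eq_zero, zero_add, pow_zero, one_mul,
      Nat.cast_zero, mul_zero, zero_sub, neg_neg, he]
    intro j _
    rw [hcz, mul_zero]
    push_cast
    have : (0 : ℤ) ≤ j := Int.natCast_nonneg j
    nlinarith
  have hsh : ∀ M, (T ^ m) (x M) = (e : ℝ) • (v - x (M + 1)) := by
    intro M
    have h1 : x (M + 1) = v - (e : ℝ) • (T ^ m) (x M) := caseA_x_shift T v m e M
    rw [h1, sub_sub_cancel, smul_smul, hee, one_smul]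
  have hTyy : ⟪(T ^ m) y, y⟫_ℝ = 0 := by
    rw [real_inner_comm]
    refine hevt _ 0 _ 2 (fun N hN => ?_) (hy ((T ^ m) y))
    show ⟪x N, (T ^ m) y⟫_ℝ = 0
    rw [real_inner_comm, inner_zpow_left]
    refine hevt _ 0 _ (N + 1) (fun M hM => ?_) (hy ((T ^ (-m)) (x N)))
    show ⟪x M, (T ^ (-m)) (x N)⟫_ℝ = 0
    rw [← inner_zpow_left, hsh, real_inner_smul_left, inner_sub_left, hF3' N (M + 1) (by omega) (by omega),
      ← hx1, real_inner_comm, hF3' 1 N le_rfl (by omega), sub_self, mul_zero]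
  have hdec : v = y + (e : ℝ) • (T ^ m) y := by
    have h1 : ‖v - (y + (e : ℝ) • (T ^ m) y)‖ ^ 2 = 0 := by
      have hny : ‖y‖ ^ 2 = 1 := by rw [← real_inner_self_eq_norm_sq]; exact hyy
      rw [norm_sub_sq_real, norm_add_sq_real, inner_add_right, inner_smul_right, inner_smul_right, norm_smul,
        mul_pow, norm_zpow, hv, hny, real_inner_comm y v, real_inner_comm ((T ^ m) y) v,
        real_inner_comm ((T ^ m) y) y, hyv, hTyv, hTyy, Real.norm_eq_abs, sq_abs]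
      linear_combination (-1 : ℝ) * hee
    rw [sq_eq_zero_iff, norm_eq_zero, sub_eq_zero] at h1
    exact h1
  have hny : ‖y‖ ^ 2 = 1 := by rw [← real_inner_self_eq_norm_sq]; exact hyy
  have hIP : IP T y y := by
    refine IP.limit hy fun N => ?_
    exact (IP.limit hy fun M => caseA_IP2 h m e M N).symm
  have horb : ∀ i : ℤ, i ≠ 0 → ⟪(T ^ i) y, y⟫_ℝ = 0 := by
    intro i hi
    by_contra hc
    obtain ⟨δ, hδ, -, hδ2⟩ := orth_or_periodic hny hIP hc
    have h1 := zpow_two_mul_of_smul hδ hδ2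
    have h2 : (T ^ (2 * i)) v = v := by
      rw [hdec, map_add, map_smul, h1, ← zpow_add_apply, add_comm (2 * i) m, zpow_add_apply, h1]
    have h3 : ∀ n : ℤ, ⟪(T ^ (n * (2 * i))) v, v⟫_ℝ = 2 := by
      intro n
      rw [zpow_mul_of_fix h2, real_inner_self_eq_norm_sq, hv]
    rcases lt_or_gt_of_ne hi with hi' | hi'
    · have h4 := hcz (-(m + 1) * (2 * i)) (by nlinarith)
      rw [h3] at h4
      norm_num at h4
    · have h4 := hcz ((m + 1) * (2 * i)) (by nlinarith)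
      rw [h3] at h4
      norm_num at h4
  exact ⟨m, hm0, e, he1, y, hdec, hny, hIP, horb⟩

/-- Case B, the vector form. -/
theorem caseB_vec [CompleteSpace H] {T : H ≃ₗᵢ[ℝ] H} {v : H} (hv : ‖v‖ ^ 2 = 2) (h : IP T v v)
    (hinf : {k : ℤ | ⟪(T ^ k) v, v⟫_ℝ ≠ 0}.Infinite) :
    (∃ r : ℤ, r ≠ 0 ∧ (T ^ r) v = v) ∨
      ∃ u w : H, v = u + w ∧ ‖u‖ ^ 2 = 1 ∧ ‖w‖ ^ 2 = 1 ∧ IP T u u ∧ IP T w w ∧
        (∀ k : ℤ, k ≠ 0 → ⟪(T ^ k) u, u⟫_ℝ = 0) ∧ (∀ k : ℤ, ⟪(T ^ k) u, w⟫_ℝ = 0) ∧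
        ∃ m : ℤ, 0 < m ∧ ∃ e : ℤ, (e = 1 ∨ e = -1) ∧ (T ^ m) w = (e : ℝ) • w ∧
          ∀ k : ℤ, ¬ m ∣ k → ⟪(T ^ k) w, w⟫_ℝ = 0 := by
  classical
  obtain ⟨w, h1, h2, hw12, hwv, hK⟩ := caseB_limit hv h hinf
  rcases hw12 with hw | hw
  swap
  · -- strong convergence
    left
    obtain ⟨k, hk, l, hl, hkl⟩ := hK.nontrivial
    have hs : ∀ k : ℤ, ⟪(T ^ k) v, w⟫_ℝ = ‖w‖ ^ 2 → (T ^ k) v = w := by
      intro k hk
      have h3 : ‖(T ^ k) v - w‖ ^ 2 = 0 := by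
        rw [norm_sub_sq_real, norm_zpow, hk, hv, hw]
        norm_num
      rw [sq_eq_zero_iff, norm_eq_zero, sub_eq_zero] at h3
      exact h3
    refine ⟨l - k, sub_ne_zero.2 (Ne.symm hkl), ?_⟩
    have h4 : (T ^ l) v = (T ^ k) v := by rw [hs k hk, hs l hl]
    have h5 : (T ^ (-k)) ((T ^ l) v) = (T ^ (-k)) ((T ^ k) v) := by rw [h4]
    rw [← zpow_add_apply, ← zpow_add_apply] at h5
    rw [show -k + l = l - k by ring, show -k + k = 0 by ring, zpow_zero_apply] at h5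
    exact h5
  · rw [hw] at hK
    -- the orbit of w is not orthonormal
    have hex : ∃ i : ℤ, i ≠ 0 ∧ ⟪(T ^ i) w, w⟫_ℝ ≠ 0 := by
      by_contra hcon
      push Not at hcon
      have horth := orthonormal_orbit hw hcon
      obtain ⟨s, hs, hs3⟩ := hK.exists_subset_card_eq 3
      have h3 := bessel_three (e := fun i : ℤ => (T ^ i) w) horth v (by rw [hv]; norm_num)
        (s.image fun k => -k) (by
          intro i hi
          obtain ⟨k, hk, rfl⟩ := Finset.mem_image.1 hi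
          have h4 : ⟪(T ^ k) v, w⟫_ℝ = 1 := hs hk
          rw [inner_zpow_left, real_inner_comm] at h4
          simp only [h4]
          norm_num)
      rw [Finset.card_image_of_injective _ neg_injective, hs3] at h3
      omega
    obtain ⟨i, hi0, hi⟩ := hex
    obtain ⟨δ, hδ, -, hδw⟩ := orth_or_periodic hw h2 hi
    have hfixw : (T ^ (2 * i)) w = w := zpow_two_mul_of_smul hδ hδw
    obtain ⟨η, hη⟩ := h1 0
    rw [zpow_zero_apply] at hη
    have hη1 : (η : ℝ) ^ 2 = 1 := by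
      have h3 : ((η : ℝ)) ^ 2 ≤ 2 := by
        have h4 := abs_real_inner_le_norm w v
        have h5 : ⟪w, v⟫_ℝ ^ 2 ≤ (‖w‖ * ‖v‖) ^ 2 := by
          rw [← sq_abs]
          exact pow_le_pow_left₀ (abs_nonneg _) h4 2
        rw [mul_pow, hw, hv, hη] at h5
        linarith
      have h4 : η ^ 2 ≤ 2 := by exact_mod_cast h3
      have h5 : η ≠ 0 := by
        rintro rfl
        exact hwv (by rw [hη]; simp)
      have h6 : η = 1 ∨ η = -1 := by
        have h7 : η ≤ 1 := by nlinarith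
        have h8 : -1 ≤ η := by nlinarith
        omega
      rcases h6 with rfl | rfl <;> norm_num
    set u : H := v + (((-η : ℤ)) : ℝ) • w with hu
    have hvu : v = u + (η : ℝ) • w := by
      rw [hu]
      push_cast
      rw [neg_smul]
      abel
    have hvw : ⟪v, w⟫_ℝ = η := by rw [real_inner_comm]; exact hη
    have huw : ⟪u, w⟫_ℝ = 0 := by
      rw [hu, inner_add_left, inner_smul_left, real_inner_self_eq_norm_sq, hw, hvw]
      push_cast
      simp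
    have hu1 : ‖u‖ ^ 2 = 1 := by
      have h3 : ‖v‖ ^ 2 = ‖u‖ ^ 2 + 1 := by
        rw [hvu, norm_add_sq_real, inner_smul_right, huw, norm_smul, mul_pow, hw, Real.norm_eq_abs,
          sq_abs, hη1]
        ring
      rw [hv] at h3
      linarith
    have hIuv : IP T u v := h.add (h1.smul (-η))
    have hIuw : IP T u w := h1.symm.add (h2.smul (-η))
    have hIu : IP T u u := hIuv.symm.add (hIuw.symm.smul (-η))
    clear_value u
    by_cases hex2 : ∃ j : ℤ, j ≠ 0 ∧ ⟪(T ^ j) u, u⟫_ℝ ≠ 0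
    · left
      obtain ⟨j, hj0, hj⟩ := hex2
      obtain ⟨δ', hδ', -, hδu⟩ := orth_or_periodic hu1 hIu hj
      have hfixu : (T ^ (2 * j)) u = u := zpow_two_mul_of_smul hδ' hδu
      refine ⟨2 * j * (2 * i), by simp [hj0, hi0], ?_⟩
      have h3 : (T ^ (2 * j * (2 * i))) w = w := zpow_mul_of_fix hfixw _
      have h4 : (T ^ (2 * j * (2 * i))) u = u := by
        rw [mul_comm]
        exact zpow_mul_of_fix hfixu _
      conv_lhs => rw [hvu]
      rw [map_add, map_smul, h3, h4, ← hvu]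
    · right
      push Not at hex2
      have horth := orthonormal_orbit hu1 hex2
      have hortho : ∀ j : ℤ, ⟪(T ^ j) u, w⟫_ℝ = 0 := by
        intro j
        have hinj : Function.Injective (fun n : ℤ => n * (2 * i) + j) := by
          intro a b hab
          have h3 : a * (2 * i) = b * (2 * i) := by
            simpa using hab
          exact mul_right_cancel₀ (by simp [hi0]) h3
        have horth2 := horth.comp _ hinj
        refine bessel_const horth2 w _ fun n => ?_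
        show ⟪(T ^ (n * (2 * i) + j)) u, w⟫_ℝ = ⟪(T ^ j) u, w⟫_ℝ
        rw [zpow_add_apply, inner_zpow_left, show -(n * (2 * i)) = (-n) * (2 * i) by ring,
          zpow_mul_of_fix hfixw]
      have hortho2 : ∀ j : ℤ, ⟪(T ^ j) w, u⟫_ℝ = 0 := by
        intro j
        rw [inner_zpow_left, real_inner_comm]
        exact hortho _
      obtain ⟨m, hm, e, he, hm1, hm2⟩ := law_of_norm_one hw h2 hi0 hi
      have hIηw : IP T ((η : ℝ) • w) ((η : ℝ) • w) := (h2.smul η).symm.smul η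
      refine ⟨u, (η : ℝ) • w, hvu, hu1, ?_, hIu, hIηw, hex2, fun k => ?_, m, hm, e, he, ?_,
        fun k hk => ?_⟩
      · rw [norm_smul, mul_pow, hw, Real.norm_eq_abs, sq_abs, hη1, one_mul]
      · rw [inner_smul_right, hortho, mul_zero]
      · have h3 := hm1 1
        rw [one_mul, Int.natAbs_one, pow_one] at h3
        have h4 : (T ^ m) w = (e : ℝ) • w := by
          refine eq_smul_of_inner ?_ hw ?_ h3
          · rw [norm_zpow, hw]
          · rcases he with rfl | rfl <;> norm_num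
        rw [map_smul, h4, smul_comm]
      · rw [map_smul, inner_smul_left, inner_smul_right, hm2 k hk, mul_zero, mul_zero]

end Pool.Agent.EEAG1

namespace Pool.Agent.EEAG1

open Filter Topology
open scoped InnerProductSpace

/-- A real sequence which tends to zero at infinity and whose second differences are integers is
integral. (Second differences are `0` outside a finite set; there the first differences are constant,
so `0`; so all first differences are integers, and then the sequence is integral.) -/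
theorem int_of_second_diff {r : ℤ → ℝ} (h0 : Tendsto r cofinite (𝓝 0))
    (h : ∀ k, ∃ n : ℤ, 2 * r k - r (k + 1) - r (k - 1) = n) : ∀ k, ∃ n : ℤ, r k = n := by
  have hle : (atTop : Filter ℤ) ≤ cofinite := atTop_le_cofinite
  have ht : Tendsto r atTop (𝓝 0) := h0.mono_left hle
  have htp : Tendsto (fun k : ℤ => r (k + 1)) atTop (𝓝 0) :=
    ht.comp (tendsto_atTop_add_const_right _ 1 tendsto_id)
  have htm : Tendsto (fun k : ℤ => r (k - 1)) atTop (𝓝 0) := by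
    have := ht.comp (tendsto_atTop_add_const_right _ (-1) tendsto_id)
    simpa [sub_eq_add_neg, Function.comp_def] using this
  have htd : Tendsto (fun k : ℤ => 2 * r k - r (k + 1) - r (k - 1)) atTop (𝓝 0) := by
    have := ((ht.const_mul 2).sub htp).sub htm
    simpa using this
  have hev : ∀ᶠ k : ℤ in atTop, 2 * r k - r (k + 1) - r (k - 1) = 0 := by
    have h1 : ∀ᶠ k : ℤ in atTop, |2 * r k - r (k + 1) - r (k - 1)| < 1 := by
      have := htd.abs
      rw [abs_zero] at this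
      exact this.eventually (gt_mem_nhds one_pos)
    filter_upwards [h1] with k hk
    obtain ⟨n, hn⟩ := h k
    rw [hn] at hk ⊢
    have h2 : |n| < 1 := by exact_mod_cast hk
    have h3 : n = 0 := Int.abs_lt_one_iff.1 h2
    rw [h3, Int.cast_zero]
  obtain ⟨M, hM⟩ := eventually_atTop.1 hev
  -- first differences are constant
  have hd : ∀ n : ℕ, r (M + n + 1) - r (M + n) = r (M + 1) - r M := by
    intro n
    induction n with
    | zero => simp
    | succ n ih =>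
      have h1 := hM (M + n + 1) (by omega)
      rw [show M + (n : ℤ) + 1 - 1 = M + n by ring] at h1
      push_cast
      rw [show M + ((n : ℤ) + 1) = M + n + 1 by ring]
      linarith
  have hdz : r (M + 1) - r M = 0 := by
    have h1 : Tendsto (fun n : ℕ => r (M + n + 1) - r (M + n)) atTop (𝓝 (0 - 0)) := by
      have hcast : Tendsto (fun n : ℕ => M + (n : ℤ)) atTop atTop :=
        tendsto_atTop_add_const_left _ M tendsto_natCast_atTop_atTop
      exact (htp.comp hcast).sub (ht.comp hcast)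
    rw [sub_zero] at h1
    refine tendsto_nhds_unique (f := fun n : ℕ => r (M + n + 1) - r (M + n)) ?_ h1
    simp_rw [hd]
    exact tendsto_const_nhds
  have hc : ∀ n : ℕ, r (M + n) = r M := by
    intro n
    induction n with
    | zero => simp
    | succ n ih =>
      have h1 := hd n
      rw [hdz] at h1
      push_cast
      rw [← add_assoc]
      linarith
  have hz : r M = 0 := by
    have h1 : Tendsto (fun n : ℕ => r (M + n)) atTop (𝓝 0) := by
      have hcast : Tendsto (fun n : ℕ => M + (n : ℤ)) atTop atTop :=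
        tendsto_atTop_add_const_left _ M tendsto_natCast_atTop_atTop
      exact ht.comp hcast
    refine tendsto_nhds_unique (f := fun n : ℕ => r (M + n)) ?_ h1
    simp_rw [hc]
    exact tendsto_const_nhds
  have hdown : ∀ n : ℕ, (∃ a : ℤ, r (M - n) = a) ∧ ∃ b : ℤ, r (M - n + 1) = b := by
    intro n
    induction n with
    | zero =>
      refine ⟨⟨0, by simpa using hz⟩, ⟨0, ?_⟩⟩
      have h1 := hc 1
      rw [hz] at h1
      simpa using h1
    | succ n ih =>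
      obtain ⟨⟨a, ha⟩, b, hb⟩ := ih
      obtain ⟨m, hm⟩ := h (M - n)
      push_cast
      refine ⟨⟨2 * a - b - m, ?_⟩, ⟨a, ?_⟩⟩
      · rw [show M - ((n : ℤ) + 1) = M - n - 1 by ring]
        push_cast
        linarith
      · rw [show M - ((n : ℤ) + 1) + 1 = M - n by ring]
        exact ha
  intro k
  rcases le_total M k with hk | hk
  · obtain ⟨n, hn⟩ := Int.eq_ofNat_of_zero_le (sub_nonneg.2 hk)
    refine ⟨0, ?_⟩
    have h1 := hc n
    rw [← hn, hz] at h1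
    simpa using h1
  · obtain ⟨n, hn⟩ := Int.eq_ofNat_of_zero_le (sub_nonneg.2 hk)
    obtain ⟨a, ha⟩ := (hdown n).1
    refine ⟨a, ?_⟩
    rw [← ha]
    congr 1
    omega

/-- Symmetry passes from the second differences to the sequence (the difference of both sides has
zero second differences and finite support, so it is zero). -/
theorem sym_of_second_diff {r : ℤ → ℤ} (h1 : ∀ k l, r k ≠ 0 → r l ≠ 0 → k = l) (K : ℤ)
    (h : ∀ k, 2 * r k - r (k + 1) - r (k - 1) =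
      2 * r (K - k) - r (K - k + 1) - r (K - k - 1)) : ∀ k, r k = r (K - k) := by
  by_cases hz : ∀ k, r k = 0
  · intro k
    rw [hz, hz]
  push Not at hz
  obtain ⟨a, ha⟩ := hz
  have hr : ∀ k, k ≠ a → r k = 0 := by
    intro k hk
    by_contra hne
    exact hk (h1 k a hne ha)
  have hs0 : ∀ k, k ≠ a → K - k ≠ a → r k = r (K - k) := by
    intro k hk hk'
    rw [hr k hk, hr _ hk']
  obtain ⟨J, hJ1, hJ2⟩ : ∃ J : ℤ, a < J ∧ K - a < J :=
    ⟨max a (K - a) + 1, by have := le_max_left a (K - a); omega,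
      by have := le_max_right a (K - a); omega⟩
  have hup : ∀ k, J ≤ k → r k = r (K - k) := by
    intro k hk
    exact hs0 k (by omega) (by omega)
  have hdown : ∀ n : ℕ, r (J - n) = r (K - (J - n)) ∧ r (J - n + 1) = r (K - (J - n + 1)) := by
    intro n
    induction n with
    | zero =>
      refine ⟨hup _ (by simp), hup _ (by simp)⟩
    | succ n ih =>
      obtain ⟨e1, e2⟩ := ih
      have h2 := h (J - n)
      push_cast
      rw [show J - ((n : ℤ) + 1) = J - n - 1 by ring]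
      rw [show K - (J - (n : ℤ) - 1) = K - (J - n) + 1 by ring]
      rw [show J - (n : ℤ) - 1 + 1 = J - n by ring]
      rw [show K - (J - (n : ℤ) + 1) = K - (J - n) - 1 by ring] at e2
      refine ⟨by linarith, e1⟩
  intro k
  rcases le_total J k with hk | hk
  · exact hup k hk
  · obtain ⟨n, hn⟩ := Int.eq_ofNat_of_zero_le (sub_nonneg.2 hk)
    have h3 := (hdown n).1
    rwa [show J - (n : ℤ) = k by omega] at h3

end Pool.Agent.EEAG1

namespace Pool.Agent.EEAG1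

open Filter Topology
open scoped InnerProductSpace

/-- Bessel's inequality for the coefficients `⟪T^k x, y⟫`, `k` in a finite set. -/
theorem RLb_bessel {H : Type*} [NormedAddCommGroup H] [InnerProductSpace ℝ H] {T : H ≃ₗᵢ[ℝ] H}
    {x y : H} (hx : ‖x‖ ^ 2 = 1) (hy : ‖y‖ ^ 2 = 1)
    (ho : ∀ k : ℤ, k ≠ 0 → ⟪(T ^ k) y, y⟫_ℝ = 0) (s : Finset ℤ) :
    ∑ k ∈ s, ⟪(T ^ k) x, y⟫_ℝ ^ 2 ≤ 1 := by
  have horth := orthonormal_orbit hy ho
  have h1 := (horth.comp _ neg_injective).sum_inner_products_le x (s := s)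
  rw [hx] at h1
  refine le_trans (le_of_eq (Finset.sum_congr rfl fun k _ => ?_)) h1
  show ⟪(T ^ k) x, y⟫_ℝ ^ 2 = ‖⟪(T ^ (-k)) y, x⟫_ℝ‖ ^ 2
  rw [Real.norm_eq_abs, sq_abs, inner_zpow_left, real_inner_comm]

theorem RLb_tendsto {H : Type*} [NormedAddCommGroup H] [InnerProductSpace ℝ H] {T : H ≃ₗᵢ[ℝ] H}
    {x y : H} (hx : ‖x‖ ^ 2 = 1) (hy : ‖y‖ ^ 2 = 1)
    (ho : ∀ k : ℤ, k ≠ 0 → ⟪(T ^ k) y, y⟫_ℝ = 0) :
    Tendsto (fun k : ℤ => ⟪(T ^ k) x, y⟫_ℝ) cofinite (𝓝 0) := by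
  have hs : Summable fun k : ℤ => ⟪(T ^ k) x, y⟫_ℝ ^ 2 :=
    summable_of_sum_le (fun k => sq_nonneg _) (RLb_bessel hx hy ho)
  have h1 := hs.tendsto_cofinite_zero
  have h2 := (Real.continuous_sqrt.tendsto 0).comp h1
  rw [Real.sqrt_zero] at h2
  rw [tendsto_zero_iff_abs_tendsto_zero]
  refine h2.congr fun k => ?_
  exact Real.sqrt_sq_eq_abs _

/-- `r_k = ⟪T^k R y, y⟫`, `∑ r_k ^ 2 ≤ 1` (Bessel for the orthonormal family `T^(-k) y` and the vector `R y`, or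
`T^k R y`), `⟪T^k R v, v⟫ = 2 r_k - r_(k+1) - r_(k-1)`, `int_of_second_diff`. -/
theorem rlem_st {H : Type*} [NormedAddCommGroup H] [InnerProductSpace ℝ H] {T R : H ≃ₗᵢ[ℝ] H}
    (hTR : ∀ x, R (T x) = T (R x)) {v y : H} (hv : v = y - T y) (hy : ‖y‖ ^ 2 = 1)
    (ho : ∀ k : ℤ, k ≠ 0 → ⟪(T ^ k) y, y⟫_ℝ = 0)
    (hI : ∀ k : ℤ, ∃ n : ℤ, ⟪(T ^ k) (R v), v⟫_ℝ = n) :
    ∃ r : ℤ → ℤ, (∀ k, ⟪(T ^ k) (R y), y⟫_ℝ = r k) ∧
      (∀ k, ⟪(T ^ k) (R v), v⟫_ℝ = 2 * r k - r (k + 1) - r (k - 1)) ∧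
      (∀ k l, r k ≠ 0 → r l ≠ 0 → k = l) ∧ ∀ k, |r k| ≤ 1 := by
  have hRy : ‖R y‖ ^ 2 = 1 := by rw [R.norm_map, hy]
  have hsd : ∀ k : ℤ, ⟪(T ^ k) (R v), v⟫_ℝ = 2 * ⟪(T ^ k) (R y), y⟫_ℝ
      - ⟪(T ^ (k + 1)) (R y), y⟫_ℝ - ⟪(T ^ (k - 1)) (R y), y⟫_ℝ := by
    intro k
    have h1 : ∀ x : H, T x = (T ^ (1 : ℤ)) x := fun x => by rw [zpow_one]
    rw [hv, map_sub, hTR, map_sub, h1 (R y), h1 y, ← zpow_add_apply, inner_sub_left, inner_sub_right,
      inner_sub_right, inner_zpow, inner_zpow, add_sub_cancel_right]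
    ring
  have hint := int_of_second_diff (r := fun k : ℤ => ⟪(T ^ k) (R y), y⟫_ℝ)
    (RLb_tendsto hRy hy ho) (fun k => by
      obtain ⟨n, hn⟩ := hI k
      exact ⟨n, by rw [← hn, hsd]⟩)
  choose r hr using hint
  have hr' : ∀ k, ⟪(T ^ k) (R y), y⟫_ℝ = r k := hr
  refine ⟨r, hr', fun k => by rw [hsd, hr', hr', hr'], fun k l hk hl => ?_, fun k => ?_⟩
  · by_contra hkl
    have h1 := RLb_bessel hRy hy ho {k, l}
    rw [Finset.sum_pair hkl, hr', hr'] at h1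
    have h2 : r k ^ 2 + r l ^ 2 ≤ 1 := by exact_mod_cast h1
    have h3 : 1 ≤ r k ^ 2 := by
      have := pow_pos (abs_pos.2 hk) 2
      rw [sq_abs] at this
      omega
    have h4 : 1 ≤ r l ^ 2 := by
      have := pow_pos (abs_pos.2 hl) 2
      rw [sq_abs] at this
      omega
    omega
  · have h1 := RLb_bessel hRy hy ho {k}
    rw [Finset.sum_singleton, hr'] at h1
    have h2 : r k ^ 2 ≤ 1 := by exact_mod_cast h1
    exact abs_le_one_iff_mul_self_le_one.2 (by rw [← pow_two]; exact h2)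

end Pool.Agent.EEAG1

namespace Pool.Agent.EEAG1

open Filter Topology
open scoped InnerProductSpace

theorem RLc_comm {H : Type*} [NormedAddCommGroup H] [InnerProductSpace ℝ H] {T R : H ≃ₗᵢ[ℝ] H}
    (hTR : ∀ x, R (T x) = T (R x)) (k : ℤ) (x : H) : R ((T ^ k) x) = (T ^ k) (R x) := by
  have hc : Commute R T := LinearIsometryEquiv.ext hTR
  have h := congrArg (fun f : H ≃ₗᵢ[ℝ] H => f x) (hc.zpow_right k).eq
  exact h

theorem RLc_zpow_neg {H : Type*} [NormedAddCommGroup H] [InnerProductSpace ℝ H] {T : H ≃ₗᵢ[ℝ] H}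
    {w : H} (hTw : T w = -w) (k : ℤ) : (T ^ k) w = ((-1 : ℝ) ^ k.natAbs) • w := by
  have h2 : (T ^ (2 : ℤ)) w = w := by
    have h : (T ^ ((1 : ℤ) + 1)) w = w := by
      rw [zpow_add_apply, zpow_one, hTw, map_neg, hTw, neg_neg]
    exact h
  rcases Int.even_or_odd' k with ⟨n, rfl | rfl⟩
  · rw [mul_comm, zpow_mul_of_fix h2, Even.neg_one_pow, one_smul]
    rw [Int.natAbs_even]
    exact ⟨n, by ring⟩
  · rw [mul_comm, zpow_add_apply, zpow_one, hTw, map_neg, zpow_mul_of_fix h2, Odd.neg_one_pow, neg_one_smul]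
    rw [Int.natAbs_odd]
    exact ⟨n, by ring⟩

/-- `r_k = ⟪T^k R u, u⟫`, `s = ⟪R w, w⟫`; the cross terms `⟪T^k R u, w⟫ = ± ⟪R u, w⟫`, `⟪T^k R w, u⟫` vanish by
`bessel_const` (the `T^k R u` are orthonormal; pass to even `k`); so `⟪T^k R v, v⟫ = r_k + (-1)^k s`; `r_k → 0`
(Bessel), so `s` is a limit of integers, so all `r_k` are integers, `∑ r_k ^ 2 ≤ 1`. -/
theorem rlem_cm {H : Type*} [NormedAddCommGroup H] [InnerProductSpace ℝ H] {T R : H ≃ₗᵢ[ℝ] H}
    (hTR : ∀ x, R (T x) = T (R x)) {v u w : H} (hv : v = u + w) (hu : ‖u‖ ^ 2 = 1)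
    (hw : ‖w‖ ^ 2 = 1) (ho : ∀ k : ℤ, k ≠ 0 → ⟪(T ^ k) u, u⟫_ℝ = 0)
    (huw : ∀ k : ℤ, ⟪(T ^ k) u, w⟫_ℝ = 0) (hTw : T w = -w)
    (hI : ∀ k : ℤ, ∃ n : ℤ, ⟪(T ^ k) (R v), v⟫_ℝ = n) :
    ∃ (r : ℤ → ℤ) (s : ℤ), (∀ k, ⟪(T ^ k) (R u), u⟫_ℝ = r k) ∧ ⟪R w, w⟫_ℝ = s ∧
      (∀ k : ℤ, ⟪(T ^ k) (R v), v⟫_ℝ = r k + (-1) ^ k.natAbs * s) ∧
      (∀ k l, r k ≠ 0 → r l ≠ 0 → k = l) ∧ (∀ k, |r k| ≤ 1) ∧ |s| ≤ 1 := by
  have hRk := RLc_comm hTR
  have hTk := RLc_zpow_neg hTw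
  -- the orthonormal families
  have horb := orthonormal_orbit hu ho
  have hRo : Orthonormal ℝ (fun k : ℤ => (T ^ k) (R u)) := by
    refine orthonormal_orbit (by rw [LinearIsometryEquiv.norm_map, hu]) fun i hi => ?_
    rw [← hRk, LinearIsometryEquiv.inner_map_map]
    exact ho i hi
  have hinj : Function.Injective (fun n : ℤ => n * 2) := fun a b h => by
    have h' : a * 2 = b * 2 := h
    omega
  have heven : ∀ n : ℤ, ((-1 : ℝ)) ^ (n * 2).natAbs = 1 := fun n => by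
    rw [Even.neg_one_pow]
    rw [Int.natAbs_even]
    exact ⟨n, by ring⟩
  have hevenn : ∀ n : ℤ, ((-1 : ℝ)) ^ (-(n * 2)).natAbs = 1 := fun n => by
    rw [Int.natAbs_neg]
    exact heven n
  have hc1 : ⟪R u, w⟫_ℝ = 0 := by
    refine bessel_const (hRo.comp _ hinj) w _ fun n => ?_
    show ⟪(T ^ (n * 2)) (R u), w⟫_ℝ = ⟪R u, w⟫_ℝ
    rw [inner_zpow_left, hTk, hevenn, one_smul]
  have hc2 : ⟪u, R w⟫_ℝ = 0 := by
    refine bessel_const (horb.comp _ hinj) (R w) _ fun n => ?_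
    show ⟪(T ^ (n * 2)) u, R w⟫_ℝ = ⟪u, R w⟫_ℝ
    rw [inner_zpow_left, ← hRk, hTk, hevenn, one_smul]
  have hexp : ∀ k : ℤ, ⟪(T ^ k) (R v), v⟫_ℝ = ⟪(T ^ k) (R u), u⟫_ℝ + (-1) ^ k.natAbs * ⟪R w, w⟫_ℝ := by
    intro k
    have e1 : (T ^ k) (R v) = (T ^ k) (R u) + ((-1 : ℝ) ^ k.natAbs) • R w := by
      rw [hv, map_add, map_add, ← hRk k w, hTk, map_smul]
    have e2 : ⟪(T ^ k) (R u), w⟫_ℝ = 0 := by
      rw [inner_zpow_left, hTk, inner_smul_right, hc1, mul_zero]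
    have e3 : ⟪R w, u⟫_ℝ = 0 := by rw [real_inner_comm]; exact hc2
    rw [e1, hv, inner_add_left, inner_add_right, inner_add_right, real_inner_smul_left,
      real_inner_smul_left, e2, e3]
    ring
  -- r_k → 0
  have hsum : Summable fun k : ℤ => ‖⟪(T ^ k) (R u), u⟫_ℝ‖ ^ 2 := hRo.inner_products_summable u
  have hlim : Tendsto (fun k : ℤ => ⟪(T ^ k) (R u), u⟫_ℝ) cofinite (𝓝 0) := by
    have h := hsum.tendsto_cofinite_zero.sqrt
    rw [Real.sqrt_zero] at h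
    rw [tendsto_zero_iff_norm_tendsto_zero]
    refine h.congr fun k => ?_
    rw [Real.sqrt_sq (norm_nonneg _)]
  have hs : ∃ s : ℤ, ⟪R w, w⟫_ℝ = s := by
    have h1 : Tendsto (fun n : ℤ => ⟪(T ^ (n * 2)) (R v), v⟫_ℝ) cofinite (𝓝 ⟪R w, w⟫_ℝ) := by
      have h2 := (hlim.comp hinj.tendsto_cofinite).add_const ⟪R w, w⟫_ℝ
      rw [zero_add] at h2
      refine h2.congr fun n => ?_
      rw [hexp, heven, one_mul]
      rfl
    exact int_of_tendsto (fun n => hI (n * 2)) h1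
  obtain ⟨s, hs⟩ := hs
  have hr : ∀ k : ℤ, ∃ n : ℤ, ⟪(T ^ k) (R u), u⟫_ℝ = n := by
    intro k
    obtain ⟨m, hm⟩ := hI k
    refine ⟨m - (-1) ^ k.natAbs * s, ?_⟩
    have h1 := hexp k
    rw [hm, hs] at h1
    push_cast
    linarith
  choose r hr using hr
  have hnu : ‖u‖ = 1 := by
    have := norm_nonneg u
    nlinarith
  have hnw : ‖w‖ = 1 := by
    have := norm_nonneg w
    nlinarith
  refine ⟨r, s, hr, hs, fun k => by rw [hexp, hr, hs], fun k l hk hl => ?_, fun k => ?_, ?_⟩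
  · by_contra hkl
    have h1 := hRo.sum_inner_products_le u (s := {k, l})
    rw [Finset.sum_pair hkl, hr, hr, hu] at h1
    rw [Real.norm_eq_abs, Real.norm_eq_abs, sq_abs, sq_abs] at h1
    have h2 : r k ^ 2 + r l ^ 2 ≤ 1 := by exact_mod_cast h1
    have h3 : 0 < r k ^ 2 := by positivity
    have h4 : 0 < r l ^ 2 := by positivity
    omega
  · have h1 := abs_real_inner_le_norm ((T ^ k) (R u)) u
    rw [norm_zpow, LinearIsometryEquiv.norm_map, hnu, hr, one_mul, ← Int.cast_abs] at h1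
    exact_mod_cast h1
  · have h1 := abs_real_inner_le_norm (R w) w
    rw [LinearIsometryEquiv.norm_map, hnw, hs, one_mul, ← Int.cast_abs] at h1
    exact_mod_cast h1

end Pool.Agent.EEAG1

namespace Pool.Agent.EEAG1

open Filter Topology
open scoped InnerProductSpace

/-- The case `⟪T v, v⟫ = -1` (`caseA_vec`, `caseB_vec`, `Set.finite_or_infinite`; in the first case `m = 1` and
`e = -1` because `⟪T v, v⟫ = -1`, in the second `m ∣ 1` and `e = -1`). -/
theorem three_cases {H : Type*} [NormedAddCommGroup H] [InnerProductSpace ℝ H] [CompleteSpace H]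
    {T : H ≃ₗᵢ[ℝ] H} {v : H} (hv : ‖v‖ ^ 2 = 2) (h : IP T v v) (h1 : ⟪T v, v⟫_ℝ = -1) :
    (∃ y : H, v = y - T y ∧ ‖y‖ ^ 2 = 1 ∧ ∀ k : ℤ, k ≠ 0 → ⟪(T ^ k) y, y⟫_ℝ = 0) ∨
    (∃ u w : H, v = u + w ∧ ‖u‖ ^ 2 = 1 ∧ ‖w‖ ^ 2 = 1 ∧ (∀ k : ℤ, k ≠ 0 → ⟪(T ^ k) u, u⟫_ℝ = 0) ∧
      (∀ k : ℤ, ⟪(T ^ k) u, w⟫_ℝ = 0) ∧ T w = -w) ∨
    ∃ r : ℕ, 0 < r ∧ (T ^ (r : ℤ)) v = v := by
  have hT1 : ∀ x, (T ^ (1 : ℤ)) x = T x := fun x => by rw [zpow_one]
  by_cases hfin : {k : ℤ | ⟪(T ^ k) v, v⟫_ℝ ≠ 0}.Finite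
  · left
    rcases caseA_vec hv h hfin with h0 | ⟨m, hm, e, he, y, hy, hy1, -, hy2⟩
    · exfalso
      have h2 := h0 1 one_ne_zero
      rw [hT1, h1] at h2
      norm_num at h2
    · have hyy : ⟪y, y⟫_ℝ = 1 := by rw [real_inner_self_eq_norm_sq, hy1]
      have hd : ∀ k : ℤ, ⟪(T ^ k) y, y⟫_ℝ = if k = 0 then 1 else 0 := by
        intro k
        split_ifs with hk
        · rw [hk, zpow_zero_apply, hyy]
        · exact hy2 k hk
      have h2 : ⟪(T ^ (1 : ℤ)) v, v⟫_ℝ = ⟪(T ^ (1 : ℤ)) y, y⟫_ℝ + e * ⟪(T ^ (1 - m)) y, y⟫_ℝ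
          + e * ⟪(T ^ (1 + m)) y, y⟫_ℝ + e * e * ⟪(T ^ (1 : ℤ)) y, y⟫_ℝ := by
        conv_lhs => rw [hy]
        rw [map_add, map_smul, ← zpow_add_apply, inner_add_left, inner_add_right, inner_add_right,
          real_inner_smul_left, real_inner_smul_left, inner_smul_right, inner_smul_right, inner_zpow,
          inner_zpow, show 1 + m - m = (1 : ℤ) by ring]
        ring
      rw [hT1, h1, hd, hd, hd, if_neg one_ne_zero] at h2
      have hm1 : m = 1 := by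
        by_contra hne
        rw [if_neg (by omega), if_neg (by omega)] at h2
        norm_num at h2
      subst hm1
      rw [if_pos (by norm_num), if_neg (by norm_num)] at h2
      have he1 : (e : ℝ) = -1 := by linarith
      refine ⟨y, ?_, hy1, hy2⟩
      rw [hT1, he1, neg_smul, one_smul, ← sub_eq_add_neg] at hy
      exact hy
  · right
    rcases caseB_vec hv h hfin with ⟨r, hr, hr2⟩ | ⟨u, w, huw, hu, hw, -, -, hu2, huw2, m, hm, e, he, hTw,
      hw2⟩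
    · right
      refine ⟨r.natAbs, Int.natAbs_pos.2 hr, ?_⟩
      rcases Int.natAbs_eq r with h3 | h3
      · rw [← h3]
        exact hr2
      · have h4 : ((r.natAbs : ℕ) : ℤ) = (-1) * r := by omega
        rw [h4]
        exact zpow_mul_of_fix hr2 _
    · left
      have hwu : ⟪(T ^ (1 : ℤ)) w, u⟫_ℝ = 0 := by
        rw [inner_zpow_left, real_inner_comm]
        exact huw2 _
      have h2 : ⟪(T ^ (1 : ℤ)) v, v⟫_ℝ = ⟪(T ^ (1 : ℤ)) w, w⟫_ℝ := by
        rw [huw, map_add, inner_add_left, inner_add_right, inner_add_right, hu2 1 one_ne_zero, huw2, hwu]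
        ring
      rw [hT1, h1] at h2
      have hm1 : m ∣ 1 := by
        by_contra hne
        rw [hw2 1 hne] at h2
        norm_num at h2
      have hm2 : m = 1 := Int.eq_one_of_dvd_one hm.le hm1
      subst hm2
      have hww : ⟪w, w⟫_ℝ = 1 := by rw [real_inner_self_eq_norm_sq, hw]
      rw [hTw, real_inner_smul_left, hww, mul_one] at h2
      refine ⟨u, w, huw, hu, hw, hu2, huw2, ?_⟩
      rw [← hT1, hTw, ← h2, neg_smul, one_smul]

end Pool.Agent.EEAG1
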