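import Pool.Agent.W_eea520_G.Defs
import Pool.Agent.W_eea520_G.B

/-!
# Real sequences which begin with `2, -1, 0, …` or `2, -1, 1, …` (MP_eea520_nt, edge theorem)
-/

set_option autoImplicit false

namespace Pool.Agent.EEAG1

end Pool.Agent.EEAG1

namespace Pool.Agent.EEAG1

open Filter Topology
open scoped InnerProductSpace

variable {H : Type*} [NormedAddCommGroup H] [InnerProductSpace ℝ H]

theorem T2_neg_one_pow (q : ℤ) : (-1 : ℤ) ^ (q + 1).natAbs = -1 * (-1) ^ q.natAbs := by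
  rcases Int.even_or_odd q with h | h
  · have h1 : Odd (q + 1) := h.add_one
    rw [(Int.natAbs_even.2 h).neg_one_pow, (Int.natAbs_odd.2 h1).neg_one_pow]
    norm_num
  · have h1 : Even (q + 1) := h.add_one
    rw [(Int.natAbs_odd.2 h).neg_one_pow, (Int.natAbs_even.2 h1).neg_one_pow]
    norm_num

theorem T2_comb_add (N : ℕ) (hN : 1 ≤ N) (η : ℤ) (hη : η = 1 ∨ η = -1) (k : ℤ) :
    comb N η (k + N) = η * comb N η k := by
  have hN0 : (N : ℤ) ≠ 0 := by
    have : (1 : ℤ) ≤ N := by exact_mod_cast hN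
    omega
  unfold comb
  by_cases h : (N : ℤ) ∣ k
  · rw [if_pos h, if_pos (h.add (dvd_refl _))]
    obtain ⟨q, rfl⟩ := h
    have h1 : ((N : ℤ) * q + N) / N = q + 1 := by
      rw [show (N : ℤ) * q + N = N * (q + 1) by ring]
      exact Int.mul_ediv_cancel_left _ hN0
    have h2 : ((N : ℤ) * q) / N = q := Int.mul_ediv_cancel_left _ hN0
    rw [h1, h2]
    rcases hη with rfl | rfl
    · rw [one_pow, one_pow, mul_one]
    · exact T2_neg_one_pow q
  · rw [if_neg h, if_neg, mul_zero]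
    intro h'
    exact h ((Int.dvd_add_left (dvd_refl _)).1 h')

theorem T2_comb_zero (N : ℕ) (η : ℤ) : comb N η 0 = 1 := by
  unfold comb
  rw [if_pos (dvd_zero _)]
  simp

theorem T2_comb_mid (N : ℕ) (η : ℤ) (k : ℤ) (h0 : 0 < k) (h1 : k < N) : comb N η k = 0 := by
  unfold comb
  rw [if_neg]
  intro h
  have := Int.le_of_dvd h0 h
  omega

theorem T2_comb_neg (N : ℕ) (η : ℤ) (hN : 2 ≤ N) : comb N η (-1) = 0 := by
  unfold comb
  rw [if_neg]
  intro h
  have h2 : (N : ℤ) ∣ 1 := (Int.dvd_neg).1 h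
  have := Int.le_of_dvd (by norm_num) h2
  omega

/-- a sum with at most three nonzero terms -/
theorem T2_three (f : ℕ → ℝ) (n a b d : ℕ) (ha : a < n) (hb : b < n) (hd : d < n) (hab : a ≠ b)
    (had : a ≠ d) (hbd : b ≠ d) (hz : ∀ i, i < n → i ≠ a → i ≠ b → i ≠ d → f i = 0) :
    ∑ i ∈ Finset.range n, f i = f a + f b + f d := by
  have hsub : ({a, b, d} : Finset ℕ) ⊆ Finset.range n := by
    intro i hi
    rw [Finset.mem_insert, Finset.mem_insert, Finset.mem_singleton] at hi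
    rw [Finset.mem_range]
    rcases hi with rfl | rfl | rfl <;> assumption
  rw [← Finset.sum_subset hsub (fun i hi hi' => ?_)]
  · rw [Finset.sum_insert, Finset.sum_insert, Finset.sum_singleton]
    · ring
    · rw [Finset.mem_singleton]
      exact hbd
    · rw [Finset.mem_insert, Finset.mem_singleton, not_or]
      exact ⟨hab, had⟩
  · rw [Finset.mem_insert, Finset.mem_insert, Finset.mem_singleton, not_or, not_or] at hi'
    exact hz i (Finset.mem_range.1 hi) hi'.1 hi'.2.1 hi'.2.2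

end Pool.Agent.EEAG1

namespace Pool.Agent.EEAG1

open Filter Topology
open scoped InnerProductSpace

variable {H : Type*} [NormedAddCommGroup H] [InnerProductSpace ℝ H]

theorem T2R_inner {T : H ≃ₗᵢ[ℝ] H} {v : H} {c : ℤ → ℝ} (hc : ∀ k, ⟪(T ^ k) v, v⟫_ℝ = c k)
    (i j : ℤ) : ⟪(T ^ i) v, (T ^ j) v⟫_ℝ = c (i - j) := by
  rw [inner_zpow, hc]

theorem T2R_even {T : H ≃ₗᵢ[ℝ] H} {v : H} {c : ℤ → ℝ} (hc : ∀ k, ⟪(T ^ k) v, v⟫_ℝ = c k)
    (k : ℤ) : c (-k) = c k := by
  rw [← hc, inner_zpow_left, neg_neg, real_inner_comm, hc]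

theorem T2R_periodic {N : ℕ} {η : ℤ} (hη : η = 1 ∨ η = -1) (hN : 1 ≤ N) {D : ℤ → ℝ}
    (hD : ∀ k, D (k + N) = η * D k) (h0 : ∀ k : ℤ, 0 ≤ k → k < N → D k = 0) (k : ℤ) : D k = 0 := by
  have hNpos : (0 : ℤ) < N := by exact_mod_cast hN
  have hper : Function.Periodic (fun k => D k = 0) (N : ℤ) := by
    intro k
    apply propext
    show D (k + N) = 0 ↔ D k = 0
    rw [hD]
    rcases hη with rfl | rfl <;> simp
  have h1 := hper.sub_zsmul_eq (x := k) (k / N)
  have h2 : k - (k / N) • (N : ℤ) = k % N := by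
    rw [smul_eq_mul, Int.emod_def, mul_comm]
  rw [h2] at h1
  have h3 : D (k % N) = 0 := h0 _ (Int.emod_nonneg _ hNpos.ne') (Int.emod_lt_of_pos _ hNpos)
  have h4 : (D (k % N) = 0) = (D k = 0) := h1
  rwa [h4] at h3

theorem T2R_famA {N : ℕ} {η : ℤ} (hη : η = 1 ∨ η = -1) (hN : 3 ≤ N) {c : ℤ → ℝ}
    (hc : ∀ k, c (k + N) = η * c k) (h0 : c 0 = 2) (h1 : c 1 = -1)
    (h2 : ∀ k : ℤ, 2 ≤ k → k ≤ N - 2 → c k = 0) (h3 : c (N - 1) = -η) (k : ℤ) :
    c k = famA N η k := by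
  have hN1 : 1 ≤ N := by omega
  have hcN : comb N η N = η := by
    have h := T2_comb_add N hN1 η hη 0
    rw [zero_add, T2_comb_zero, mul_one] at h
    exact h
  have hz : c k - famA N η k = 0 := by
    refine T2R_periodic (D := fun k => c k - famA N η k) hη hN1 ?_ ?_ k
    · intro k
      show c (k + N) - famA N η (k + N) = η * (c k - famA N η k)
      unfold famA
      rw [hc, T2_comb_add N hN1 η hη k, show k + (N : ℤ) - 1 = (k - 1) + N by ring,
        show k + (N : ℤ) + 1 = (k + 1) + N by ring, T2_comb_add N hN1 η hη (k - 1),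
        T2_comb_add N hN1 η hη (k + 1)]
      push_cast
      ring
    · intro k hk0 hkN
      show c k - famA N η k = 0
      unfold famA
      rcases eq_or_lt_of_le hk0 with h | h
      · rw [← h, h0, T2_comb_zero, zero_sub, T2_comb_neg N η (by omega), zero_add,
          T2_comb_mid N η 1 (by norm_num) (by omega)]
        norm_num
      rcases eq_or_lt_of_le (Int.add_one_le_iff.2 h) with h' | h'
      · rw [zero_add] at h'
        rw [← h', h1, T2_comb_mid N η 1 (by norm_num) (by omega), sub_self, T2_comb_zero,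
          T2_comb_mid N η (1 + 1) (by norm_num) (by omega)]
        norm_num
      rcases eq_or_lt_of_le (Int.add_one_le_iff.2 hkN) with h'' | h''
      · have hk : k = N - 1 := by omega
        rw [hk, h3, T2_comb_mid N η (N - 1) (by omega) (by omega),
          T2_comb_mid N η (N - 1 - 1) (by omega) (by omega), sub_add_cancel, hcN]
        push_cast
        ring
      · rw [h2 k (by omega) (by omega), T2_comb_mid N η k (by omega) (by omega),
          T2_comb_mid N η (k - 1) (by omega) (by omega),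
          T2_comb_mid N η (k + 1) (by omega) (by omega)]
        norm_num
  linarith

/-- `⟪∑_{i<n} T^i v, T^n v⟫` for `1 ≤ n ≤ K` -/
theorem T2R_SK {T : H ≃ₗᵢ[ℝ] H} {v : H} {c : ℤ → ℝ} (hc : ∀ k, ⟪(T ^ k) v, v⟫_ℝ = c k)
    (h1 : c 1 = -1) {K : ℕ} (hK : ∀ k : ℤ, 2 ≤ k → k < K → c k = 0) (n : ℕ) (hn : 1 ≤ n)
    (hnK : n ≤ K) (hK2 : 2 ≤ K) :
    ⟪∑ i ∈ Finset.range n, (T ^ (i : ℤ)) v, (T ^ (n : ℤ)) v⟫_ℝ =
      -1 + if n = K then (c K : ℝ) else 0 := by
  obtain ⟨m, rfl⟩ : ∃ m, n = m + 1 := ⟨n - 1, by omega⟩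
  rw [sum_inner]
  have hterm : ∀ i ∈ Finset.range (m + 1), ⟪(T ^ (i : ℤ)) v, (T ^ ((m + 1 : ℕ) : ℤ)) v⟫_ℝ =
      c ((m : ℤ) + 1 - i) := by
    intro i _
    rw [T2R_inner hc, ← T2R_even hc]
    congr 2
    push_cast
    ring
  rw [Finset.sum_congr rfl hterm, Finset.sum_range_succ]
  have hlast : (c ((m : ℤ) + 1 - (m : ℕ)) : ℝ) = -1 := by
    rw [show (m : ℤ) + 1 - (m : ℕ) = 1 by ring, h1]
  rw [hlast, add_comm]
  congr 1
  by_cases h : m + 1 = K
  · rw [if_pos h]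
    rw [Finset.sum_eq_single 0]
    · congr 2
      push_cast [← h]
      ring
    · intro i hi hi0
      rw [Finset.mem_range] at hi
      rw [hK _ (by omega) (by omega)]
    · intro hm
      rw [Finset.mem_range] at hm
      omega
  · rw [if_neg h]
    refine Finset.sum_eq_zero fun i hi => ?_
    rw [Finset.mem_range] at hi
    rw [hK _ (by omega) (by omega)]

theorem T2R_norm {T : H ≃ₗᵢ[ℝ] H} {v : H} {c : ℤ → ℝ} (hc : ∀ k, ⟪(T ^ k) v, v⟫_ℝ = c k)
    (h0 : c 0 = 2) (i : ℤ) : ‖(T ^ i) v‖ ^ 2 = 2 := by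
  rw [← real_inner_self_eq_norm_sq, T2R_inner hc, sub_self, h0]

/-- `‖∑_{i<n} T^i v‖² = 2` for `1 ≤ n ≤ K` -/
theorem T2R_Snorm {T : H ≃ₗᵢ[ℝ] H} {v : H} {c : ℤ → ℝ} (hc : ∀ k, ⟪(T ^ k) v, v⟫_ℝ = c k)
    (h0 : c 0 = 2) (h1 : c 1 = -1) {K : ℕ} (hK : ∀ k : ℤ, 2 ≤ k → k < K → c k = 0)
    (hK2 : 2 ≤ K) (n : ℕ) (hn : n + 1 ≤ K) :
    ‖∑ i ∈ Finset.range (n + 1), (T ^ (i : ℤ)) v‖ ^ 2 = 2 := by
  induction n with
  | zero =>
    rw [Finset.sum_range_one]
    exact T2R_norm hc h0 _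
  | succ n ih =>
    rw [Finset.sum_range_succ, norm_add_sq_real, ih (by omega), T2R_norm hc h0,
      T2R_SK hc h1 hK (n + 1) (by omega) (by omega) hK2, if_neg (by omega)]
    norm_num

/-- the vector with growing coefficients -/
theorem T2R_key {T : H ≃ₗᵢ[ℝ] H} {v : H} {c : ℤ → ℝ} (hc : ∀ k, ⟪(T ^ k) v, v⟫_ℝ = c k)
    (h0 : c 0 = 2) (h1 : c 1 = -1) {K : ℕ} (hK : ∀ k : ℤ, 2 ≤ k → k < K → c k = 0)
    (hK9 : 9 ≤ K) (hcK : c K = 1) {e' : ℤ} (he' : c (K + 1) = e') :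
    (T ^ ((K : ℤ) + 1)) v = -v := by
  set a : ℕ → ℝ := fun i => (K : ℝ) + 1 - 2 * i with ha
  set G : H := ∑ i ∈ Finset.range (K + 1), a i • (T ^ (i : ℤ)) v with hG
  set u : H := (T ^ ((K : ℤ) + 1)) v + v with hu
  have hneg : ∀ k : ℤ, k ≤ -2 → -(K : ℤ) < k → c k = 0 := by
    intro k hk hk2
    rw [← neg_neg k, T2R_even hc]
    exact hK _ (by omega) (by omega)
  have hm1 : c (-1) = -1 := by rw [T2R_even hc, h1]
  have hmK : c (-(K : ℤ)) = 1 := by rw [T2R_even hc, hcK]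
  have hGin : ∀ z : H, ⟪G, z⟫_ℝ = ∑ i ∈ Finset.range (K + 1), a i * ⟪(T ^ (i : ℤ)) v, z⟫_ℝ := by
    intro z
    rw [hG, sum_inner]
    refine Finset.sum_congr rfl fun i _ => ?_
    rw [inner_smul_left]
    rfl
  -- the rows
  have hrow : ∀ j : ℕ, j < K + 1 → ⟪G, (T ^ (j : ℤ)) v⟫_ℝ = if j = 0 then 4 else 0 := by
    intro j hj
    rw [hGin]
    have hterm : ∀ i ∈ Finset.range (K + 1), a i * ⟪(T ^ (i : ℤ)) v, (T ^ (j : ℤ)) v⟫_ℝ =
        a i * (c ((i : ℤ) - j) : ℝ) := fun i _ => by rw [T2R_inner hc]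
    rw [Finset.sum_congr rfl hterm]
    rcases Nat.eq_zero_or_pos j with hj0 | hj0
    · subst hj0
      rw [if_pos rfl, T2_three _ (K + 1) 0 1 K (by omega) (by omega) (by omega) (by omega)
        (by omega) (by omega)]
      · simp only [ha, Nat.cast_zero, sub_zero, h0, Nat.cast_one, h1, hcK]
        push_cast
        ring
      · intro i hi hi0 hi1 hiK
        rw [hK _ (by omega) (by omega), mul_zero]
    · rw [if_neg (by omega)]
      obtain ⟨m, rfl⟩ : ∃ m, j = m + 1 := ⟨j - 1, by omega⟩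
      rcases Nat.lt_or_ge (m + 1) K with hlt | hge
      · rw [T2_three _ (K + 1) m (m + 1) (m + 2) (by omega) (by omega) (by omega) (by omega)
          (by omega) (by omega)]
        · have e1 : ((m : ℕ) : ℤ) - ((m + 1 : ℕ) : ℤ) = -1 := by push_cast; ring
          have e2 : ((m + 2 : ℕ) : ℤ) - ((m + 1 : ℕ) : ℤ) = 1 := by push_cast; ring
          rw [e1, e2, sub_self, h0, h1, hm1]
          simp only [ha]
          push_cast
          ring
        · intro i hi hi0 hi1 hi2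
          have : c ((i : ℤ) - ((m + 1 : ℕ) : ℤ)) = 0 := by
            rcases Nat.lt_or_ge i (m + 1) with h | h
            · exact hneg _ (by omega) (by omega)
            · exact hK _ (by omega) (by omega)
          rw [this, mul_zero]
      · have hmK' : m + 1 = K := by omega
        rw [T2_three _ (K + 1) 0 m (m + 1) (by omega) (by omega) (by omega) (by omega)
          (by omega) (by omega)]
        · have e1 : ((m : ℕ) : ℤ) - ((m + 1 : ℕ) : ℤ) = -1 := by push_cast; ring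
          have e2 : ((0 : ℕ) : ℤ) - ((m + 1 : ℕ) : ℤ) = -(K : ℤ) := by rw [hmK']; push_cast; ring
          rw [e1, e2, sub_self, h0, hm1, hmK]
          have hKm : (K : ℝ) = m + 1 := by rw [← hmK']; push_cast; ring
          simp only [ha, hKm]
          push_cast
          ring
        · intro i hi hi0 hi1 hi2
          have : c ((i : ℤ) - ((m + 1 : ℕ) : ℤ)) = 0 := hneg _ (by omega) (by omega)
          rw [this, mul_zero]
  have hGG : ‖G‖ ^ 2 = 4 * ((K : ℝ) + 1) := by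
    rw [← real_inner_self_eq_norm_sq]
    conv_lhs => rw [hGin]
    rw [Finset.sum_eq_single 0]
    · rw [real_inner_comm, hrow 0 (by omega), if_pos rfl]
      simp only [ha]
      push_cast
      ring
    · intro j hj hj0
      rw [real_inner_comm, hrow j (Finset.mem_range.1 hj), if_neg hj0, mul_zero]
    · intro h
      exact absurd (Finset.mem_range.2 (by omega)) h
  have huj : ∀ j : ℕ, ⟪(T ^ (j : ℤ)) v, u⟫_ℝ = (c ((K : ℤ) + 1 - j) : ℝ) + c j := by
    intro j
    rw [hu, inner_add_right, hc, real_inner_comm, T2R_inner hc]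
  have huG : ⟪G, u⟫_ℝ = ((K : ℝ) + 1) * ((c ((K : ℤ) + 1) : ℝ) + 2) := by
    rw [hGin, Finset.sum_eq_single 0]
    · rw [huj]
      simp only [ha, Nat.cast_zero, sub_zero, h0]
      push_cast
      ring
    · intro j hj hj0
      rw [Finset.mem_range] at hj
      rw [huj]
      have : c ((K : ℤ) + 1 - j) + c j = 0 := by
        rcases Nat.lt_or_ge 1 j with h | h
        · rcases Nat.lt_or_ge j K with h' | h'
          · rw [hK _ (by omega) (by omega), hK _ (by omega) (by omega)]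
            norm_num
          · have : j = K := by omega
            rw [this, show (K : ℤ) + 1 - K = 1 by ring, h1, hcK]
            norm_num
        · have : j = 1 := by omega
          rw [this, Nat.cast_one, show (K : ℤ) + 1 - 1 = K by ring, h1, hcK]
          norm_num
      have h' : (c ((K : ℤ) + 1 - j) : ℝ) + c j = 0 := by exact_mod_cast this
      rw [h', mul_zero]
    · intro h
      exact absurd (Finset.mem_range.2 (by omega)) h
  have huu : ‖u‖ ^ 2 = 4 + 2 * (c ((K : ℤ) + 1) : ℝ) := by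
    have hv : ‖v‖ ^ 2 = 2 := by
      have := T2R_norm hc h0 0
      rwa [zpow_zero_apply] at this
    rw [hu, norm_add_sq_real, T2R_norm hc h0, hc, hv]
    ring
  have hcs : ⟪G, u⟫_ℝ ^ 2 ≤ ‖G‖ ^ 2 * ‖u‖ ^ 2 := by
    have h := abs_real_inner_le_norm G u
    have h2 := pow_le_pow_left₀ (abs_nonneg _) h 2
    rwa [sq_abs, mul_pow] at h2
  rw [huG, hGG, huu] at hcs
  have hpos : 0 ≤ 4 + 2 * (c ((K : ℤ) + 1) : ℝ) := by
    rw [← huu]
    positivity
  have hx : c ((K : ℤ) + 1) = -2 := by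
    rw [he'] at hcs hpos ⊢
    suffices hx' : e' = -2 by
      rw [hx']
      norm_num
    generalize e' = x at hcs hpos
    have hx0 : (0 : ℝ) ≤ ((x + 2 : ℤ) : ℝ) := by
      push_cast
      linarith
    have hx0' : 0 ≤ x + 2 := by exact_mod_cast hx0
    by_contra hne
    have hx1 : 1 ≤ x + 2 := by omega
    have hx1' : (1 : ℝ) ≤ (x : ℝ) + 2 := by exact_mod_cast hx1
    have hK10 : (10 : ℝ) ≤ (K : ℝ) + 1 := by
      have : (9 : ℝ) ≤ K := by exact_mod_cast hK9
      linarith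
    generalize (K : ℝ) + 1 = q at hcs hK10
    obtain ⟨t, ht⟩ : ∃ t : ℝ, t = (x : ℝ) + 2 := ⟨_, rfl⟩
    rw [← ht] at hx1' hcs
    have e : 4 + 2 * (x : ℝ) = 2 * t := by rw [ht]; ring
    rw [e] at hcs
    have h5 : (q * t) * (q * t) ≤ 8 * (q * t) := by
      calc (q * t) * (q * t) = (q * t) ^ 2 := by ring
        _ ≤ 4 * q * (2 * t) := hcs
        _ = 8 * (q * t) := by ring
    have h6 : 10 ≤ q * t := by
      calc (10 : ℝ) = 10 * 1 := by norm_num
        _ ≤ q * t := mul_le_mul hK10 hx1' (by norm_num) (by linarith)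
    have h7 : 0 < q * t := by linarith
    have h8 := le_of_mul_le_mul_right h5 h7
    linarith
  rw [hx] at huu
  have h9 : u = 0 := by
    have : ‖u‖ ^ 2 = 0 := by
      rw [huu]
      norm_num
    rwa [sq_eq_zero_iff, norm_eq_zero] at this
  rw [hu] at h9
  exact eq_neg_of_add_eq_zero_left h9

/-- The real valued version of `fam_zero` (same proof, T2.lean): only the two values `c K` and `c (K + 1)` are known to
be integers, `K` is the first index `≥ 2` with `c K ≠ 0`. -/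
theorem fam_zeroR {T : H ≃ₗᵢ[ℝ] H} {v : H} {c : ℤ → ℝ} (hc : ∀ k, ⟪(T ^ k) v, v⟫_ℝ = c k)
    {K : ℕ} (hK9 : 9 ≤ K) (h0 : c 0 = 2) (h1 : c 1 = -1) (h2 : ∀ k : ℤ, 2 ≤ k → k < K → c k = 0)
    {e e' : ℤ} (hK : c K = e) (hK' : c (K + 1) = e') (he : e ≠ 0) :
    (e = 1 ∨ e = -1) ∧ ∀ k, c k = famA (K + 1) (-e) k := by
  have hK2 : 2 ≤ K := by omega
  have hv : ‖v‖ ^ 2 = 2 := by
    have := T2R_norm hc h0 0
    rwa [zpow_zero_apply] at this
  -- the bounds for `c K`
  have hSK : ‖∑ i ∈ Finset.range K, (T ^ (i : ℤ)) v‖ ^ 2 = 2 := by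
    obtain ⟨m, rfl⟩ : ∃ m, K = m + 1 := ⟨K - 1, by omega⟩
    exact T2R_Snorm hc h0 h1 h2 hK2 m le_rfl
  have hS1 : ‖∑ i ∈ Finset.range (K + 1), (T ^ (i : ℤ)) v‖ ^ 2 = 2 + 2 * (e : ℝ) := by
    rw [Finset.sum_range_succ, norm_add_sq_real, hSK, T2R_norm hc h0,
      T2R_SK hc h1 h2 K (by omega) le_rfl hK2, if_pos rfl, hK]
    ring
  have hlow : -1 ≤ e := by
    have h3 : 0 ≤ 2 + 2 * (e : ℝ) := by
      rw [← hS1]
      positivity
    have h4 : (-1 : ℝ) ≤ e := by linarith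
    exact_mod_cast h4
  have hdiff : ‖(T ^ (K : ℤ)) v - v‖ ^ 2 = 4 - 2 * (e : ℝ) := by
    rw [norm_sub_sq_real, T2R_norm hc h0, hc, hv, hK]
    ring
  have hup : e ≤ 2 := by
    have h3 : 0 ≤ 4 - 2 * (e : ℝ) := by
      rw [← hdiff]
      positivity
    have h4 : (e : ℝ) ≤ 2 := by linarith
    exact_mod_cast h4
  have hne2 : e ≠ 2 := by
    intro h3
    rw [h3] at hdiff
    have h4 : (T ^ (K : ℤ)) v - v = 0 := by
      have : ‖(T ^ (K : ℤ)) v - v‖ ^ 2 = 0 := by
        rw [hdiff]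
        norm_num
      rwa [sq_eq_zero_iff, norm_eq_zero] at this
    rw [sub_eq_zero] at h4
    have h5 : c ((K : ℤ) - 1) = c (-1) := by
      rw [← hc, ← hc, show (K : ℤ) - 1 = -1 + K by ring, zpow_add_apply, h4]
    rw [h2 _ (by omega) (by omega), T2R_even hc, h1] at h5
    norm_num at h5
  have hfin : ∀ η : ℤ, (η = 1 ∨ η = -1) → (T ^ ((K : ℤ) + 1)) v = (η : ℝ) • v →
      ∀ k, c k = famA (K + 1) η k := by
    intro η hη hT
    have hper : ∀ k, c (k + ((K + 1 : ℕ) : ℤ)) = η * c k := by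
      intro k
      rw [← hc, ← hc, zpow_add_apply]
      push_cast
      rw [hT, map_smul, inner_smul_left]
      rfl
    refine T2R_famA hη (by omega) hper h0 h1 (fun k hk hk2 => h2 k hk (by push_cast at hk2; omega)) ?_
    have h3 := hper (-1)
    rw [T2R_even hc, h1] at h3
    rw [show ((K + 1 : ℕ) : ℤ) - 1 = -1 + ((K + 1 : ℕ) : ℤ) by ring, h3]
    ring
  have hcases : e = -1 ∨ e = 1 := by omega
  rcases hcases with h3 | h3
  · -- `c K = -1`
    refine ⟨Or.inr h3, ?_⟩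
    rw [h3, neg_neg]
    refine hfin 1 (Or.inl rfl) ?_
    rw [h3] at hS1
    have h4 : ∑ i ∈ Finset.range (K + 1), (T ^ (i : ℤ)) v = 0 := by
      have : ‖∑ i ∈ Finset.range (K + 1), (T ^ (i : ℤ)) v‖ ^ 2 = 0 := by
        rw [hS1]
        norm_num
      rwa [sq_eq_zero_iff, norm_eq_zero] at this
    have h5 : ∑ i ∈ Finset.range (K + 1), (T ^ ((i + 1 : ℕ) : ℤ)) v = 0 := by
      have h6 : (T ^ (1 : ℤ)) (∑ i ∈ Finset.range (K + 1), (T ^ (i : ℤ)) v) = 0 := by
        rw [h4, map_zero]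
      rw [map_sum] at h6
      rw [← h6]
      refine Finset.sum_congr rfl fun i _ => ?_
      rw [← zpow_add_apply]
      congr 2
      push_cast
      ring
    have h7 : ∑ i ∈ Finset.range (K + 1 + 1), (T ^ (i : ℤ)) v =
        ∑ i ∈ Finset.range (K + 1), (T ^ ((i + 1 : ℕ) : ℤ)) v + (T ^ ((0 : ℕ) : ℤ)) v :=
      Finset.sum_range_succ' _ _
    rw [Finset.sum_range_succ, h4, h5, zero_add, zero_add, Nat.cast_zero, zpow_zero_apply] at h7
    rw [Int.cast_one, one_smul, ← h7]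
    congr 2
  · refine ⟨Or.inl h3, ?_⟩
    rw [h3]
    refine hfin (-1) (Or.inr rfl) ?_
    rw [T2R_key hc h0 h1 h2 hK9 (by rw [hK, h3, Int.cast_one]) hK']
    push_cast
    rw [neg_smul, one_smul]

end Pool.Agent.EEAG1

namespace Pool.Agent.EEAG1

open Filter Topology
open scoped InnerProductSpace

variable {H : Type*} [NormedAddCommGroup H] [InnerProductSpace ℝ H]

theorem T3_neg (T : H ≃ₗᵢ[ℝ] H) (v : H) (k : ℤ) :
    (((LinearIsometryEquiv.neg ℝ : H ≃ₗᵢ[ℝ] H) * T) ^ k) v = ((-1 : ℝ) ^ k.natAbs) • (T ^ k) v := by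
  have hcomm : Commute (LinearIsometryEquiv.neg ℝ : H ≃ₗᵢ[ℝ] H) T := by
    ext x
    show (LinearIsometryEquiv.neg ℝ : H ≃ₗᵢ[ℝ] H) (T x) = T ((LinearIsometryEquiv.neg ℝ : H ≃ₗᵢ[ℝ] H) x)
    simp
  rw [hcomm.mul_zpow]
  show ((LinearIsometryEquiv.neg ℝ : H ≃ₗᵢ[ℝ] H) ^ k) ((T ^ k) v) = _
  generalize (T ^ k) v = x
  have hn : ∀ (n : ℕ) (x : H), ((LinearIsometryEquiv.neg ℝ : H ≃ₗᵢ[ℝ] H) ^ n) x = ((-1 : ℝ) ^ n) • x := by
    intro n x
    induction n with
    | zero => simp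
    | succ n ih =>
      rw [pow_succ']
      show (LinearIsometryEquiv.neg ℝ : H ≃ₗᵢ[ℝ] H) (((LinearIsometryEquiv.neg ℝ : H ≃ₗᵢ[ℝ] H) ^ n) x) = _
      rw [ih]
      simp [pow_succ]
  rcases k.eq_nat_or_neg with ⟨n, rfl | rfl⟩
  · rw [zpow_natCast, Int.natAbs_natCast, hn]
  · rw [zpow_neg, zpow_natCast, Int.natAbs_neg, Int.natAbs_natCast]
    have h1 : ((LinearIsometryEquiv.neg ℝ : H ≃ₗᵢ[ℝ] H) ^ n)⁻¹ = (LinearIsometryEquiv.neg ℝ : H ≃ₗᵢ[ℝ] H) ^ n := by
      rw [inv_eq_iff_mul_eq_one]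
      ext x
      show ((LinearIsometryEquiv.neg ℝ : H ≃ₗᵢ[ℝ] H) ^ n) (((LinearIsometryEquiv.neg ℝ : H ≃ₗᵢ[ℝ] H) ^ n) x) = x
      rw [hn, hn, smul_smul, ← pow_add, ← two_mul, pow_mul]
      simp
    rw [h1, hn]

end Pool.Agent.EEAG1

namespace Pool.Agent.EEAG1

open Filter Topology
open scoped InnerProductSpace

variable {H : Type*} [NormedAddCommGroup H] [InnerProductSpace ℝ H]

theorem T3R_comb {q : ℕ} (hq : 2 ≤ q) {η : ℤ} (hη : η = 1 ∨ η = -1) {f : ℤ → ℝ}
    (hf : ∀ k, f (k + q) = η * f k) (h0 : f 0 = 1) (h1 : ∀ k : ℤ, 1 ≤ k → k < q → f k = 0)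
    (k : ℤ) : f k = comb q η k := by
  have hη2 : (η : ℝ) * η = 1 := by rcases hη with rfl | rfl <;> norm_num
  have hf' : ∀ k, f (k - q) = η * f k := by
    intro k
    have h := hf (k - q)
    rw [sub_add_cancel] at h
    rw [h, ← mul_assoc, hη2, one_mul]
  have hN : ∀ (n : ℕ) (r : ℤ), f (r + n * q) = (η : ℝ) ^ n * f r := by
    intro n r
    induction n with
    | zero => simp
    | succ n ih =>
      rw [show r + ((n + 1 : ℕ) : ℤ) * q = (r + n * q) + q by push_cast; ring, hf, ih, pow_succ]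
      ring
  have hN' : ∀ (n : ℕ) (r : ℤ), f (r - n * q) = (η : ℝ) ^ n * f r := by
    intro n r
    induction n with
    | zero => simp
    | succ n ih =>
      rw [show r - ((n + 1 : ℕ) : ℤ) * q = (r - n * q) - q by push_cast; ring, hf', ih, pow_succ]
      ring
  have hZ : ∀ (n r : ℤ), f (r + n * q) = (η : ℝ) ^ n.natAbs * f r := by
    intro n r
    rcases n.eq_nat_or_neg with ⟨m, rfl | rfl⟩
    · rw [hN, Int.natAbs_natCast]
    · rw [Int.natAbs_neg, Int.natAbs_natCast, ← hN', neg_mul, sub_eq_add_neg]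
  have hk : k % (q : ℤ) + (k / q) * q = k := Int.emod_add_ediv_mul k q
  unfold comb
  split_ifs with hd
  · have h3 : k % (q : ℤ) = 0 := Int.emod_eq_zero_of_dvd hd
    conv_lhs => rw [← hk, h3, hZ, h0, mul_one]
    push_cast
    rfl
  · have hr0 : 0 ≤ k % (q : ℤ) := Int.emod_nonneg _ (by omega)
    have hr1 : k % (q : ℤ) < q := Int.emod_lt_of_pos _ (by omega)
    have hr2 : k % (q : ℤ) ≠ 0 := fun h => hd (Int.dvd_of_emod_eq_zero h)
    conv_lhs => rw [← hk, hZ, h1 _ (by omega) hr1, mul_zero]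
    rw [Int.cast_zero]

theorem T3R_main {T : H ≃ₗᵢ[ℝ] H} {v : H} {d : ℤ → ℝ} (hc : ∀ k, ⟪(T ^ k) v, v⟫_ℝ = d k)
    {q : ℕ} (hq9 : 9 ≤ q) (h0 : d 0 = 2) (hmin : ∀ k : ℤ, 1 ≤ k → k < q → d k = 1)
    {D D' : ℤ} (hq : d q = D) (hq' : d (q + 1) = D') (hD : D ≠ 1) :
    (D - 1 = 1 ∨ D - 1 = -1) ∧ ∀ k, d k = 1 + comb q (D - 1) k := by
  obtain ⟨V, hVdef⟩ : ∃ V : ℤ → H, V = fun j : ℤ => (T ^ j) v := ⟨_, rfl⟩
  have hV : ∀ i j : ℤ, ⟪V i, V j⟫_ℝ = d (i - j) := by
    intro i j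
    rw [hVdef]
    show ⟪(T ^ i) v, (T ^ j) v⟫_ℝ = d (i - j)
    rw [inner_zpow, hc]
  have hTV : ∀ i j : ℤ, (T ^ i) (V j) = V (i + j) := by
    intro i j
    rw [hVdef]
    show (T ^ i) ((T ^ j) v) = (T ^ (i + j)) v
    rw [zpow_add_apply]
  have heven : ∀ k, d (-k) = d k := by
    intro k
    have e1 := hV 0 k
    have e2 := hV k 0
    rw [real_inner_comm, e2, sub_zero, zero_sub] at e1
    exact e1.symm
  have hd1 : ∀ k : ℤ, k ≠ 0 → -(q : ℤ) < k → k < q → d k = 1 := by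
    intro k hk hk1 hk2
    rcases lt_or_gt_of_ne hk with h | h
    · rw [← heven]
      exact hmin _ (by omega) (by omega)
    · exact hmin _ (by omega) hk2
  have hone : ∀ i j : ℤ, i ≠ j → -(q : ℤ) < i - j → i - j < q → ⟪V i, V j⟫_ℝ = 1 := by
    intro i j hij h3 h4
    rw [hV, hd1 _ (sub_ne_zero.2 hij) h3 h4]
  have htwo : ∀ i : ℤ, ⟪V i, V i⟫_ℝ = 2 := by
    intro i
    rw [hV, sub_self, h0]
  have hq0 : ⟪V q, V 0⟫_ℝ = D := by rw [hV, sub_zero, hq]
  have h0q : ⟪V 0, V q⟫_ℝ = D := by rw [real_inner_comm, hq0]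
  have hup : D ≤ 2 := by
    have h3 : 0 ≤ ⟪V q - V 0, V q - V 0⟫_ℝ := real_inner_self_nonneg
    rw [inner_sub_left, inner_sub_right, inner_sub_right, htwo, htwo, hq0, h0q] at h3
    have h4 : (D : ℝ) ≤ 2 := by linarith
    exact_mod_cast h4
  have hlo : 0 ≤ D := by
    have h3 : 0 ≤ ⟪(3 : ℝ) • (V 0 + V q) - (2 : ℝ) • (V 1 + V 2),
        (3 : ℝ) • (V 0 + V q) - (2 : ℝ) • (V 1 + V 2)⟫_ℝ := real_inner_self_nonneg
    simp only [inner_add_left, inner_add_right, inner_sub_left, inner_sub_right,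
      real_inner_smul_left, real_inner_smul_right] at h3
    rw [htwo, htwo, htwo, htwo, hq0, h0q, hone 0 1 (by omega) (by omega) (by omega),
      hone 0 2 (by omega) (by omega) (by omega), hone q 1 (by omega) (by omega) (by omega),
      hone q 2 (by omega) (by omega) (by omega), hone 1 0 (by omega) (by omega) (by omega),
      hone 1 q (by omega) (by omega) (by omega), hone 1 2 (by omega) (by omega) (by omega),
      hone 2 0 (by omega) (by omega) (by omega), hone 2 q (by omega) (by omega) (by omega),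
      hone 2 1 (by omega) (by omega) (by omega)] at h3
    have h4 : (-1 : ℝ) < D := by linarith
    have h5 : -1 < D := by exact_mod_cast h4
    omega
  have hcase : D = 2 ∨ D = 0 := by omega
  have hfin : (D - 1 = 1 ∨ D - 1 = -1) → (∀ k, d (k + q) - 1 = ((D - 1 : ℤ) : ℝ) * (d k - 1)) →
      (D - 1 = 1 ∨ D - 1 = -1) ∧ ∀ k, d k = 1 + comb q (D - 1) k := by
    intro hη hk
    refine ⟨hη, fun k => ?_⟩
    have h3 := T3R_comb (q := q) (by omega) hη (f := fun k => d k - 1) hk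
      (by rw [h0]; norm_num)
      (fun k hk1 hk2 => by rw [hmin k hk1 hk2, sub_self]) k
    rw [← h3]
    ring
  rcases hcase with hdq | hdq
  · -- the orbit is periodic
    have hVq : V q = V 0 := by
      have h3 : ⟪V q - V 0, V q - V 0⟫_ℝ = 0 := by
        rw [inner_sub_left, inner_sub_right, inner_sub_right, htwo, htwo, hq0, h0q, hdq]
        norm_num
      exact sub_eq_zero.1 (inner_self_eq_zero.1 h3)
    refine hfin (Or.inl (by omega)) fun k => ?_
    have h3 : d (k + q) = d k := by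
      have e1 : V (k + q) = V k := by
        rw [← hTV, hVq, hTV, add_zero]
      have e2 := hV (k + q) 0
      rw [e1, hV, sub_zero, sub_zero] at e2
      exact e2.symm
    rw [h3, hdq]
    norm_num
  · -- the orbit is antiperiodic modulo a fixed vector
    have hnn : 0 ≤ (1 - D') * (9 * D' - 1) := by
      obtain ⟨Y, hY⟩ : ∃ Y : ℝ, Y = ((D' : ℝ) + 1) / 2 := ⟨_, rfl⟩
      have hy0 : ⟪V (q + 1), V 0⟫_ℝ = D' := by rw [hV, sub_zero, hq']
      have h0y : ⟪V 0, V (q + 1)⟫_ℝ = D' := by rw [real_inner_comm, hy0]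
      have hy1 : ⟪V (q + 1), V 1⟫_ℝ = 0 := by
        rw [hV, add_sub_cancel_right, hq, hdq, Int.cast_zero]
      have h1y : ⟪V 1, V (q + 1)⟫_ℝ = 0 := by rw [real_inner_comm, hy1]
      have hyq : ⟪V (q + 1), V q⟫_ℝ = 1 := hone _ _ (by omega) (by omega) (by omega)
      have hqy : ⟪V q, V (q + 1)⟫_ℝ = 1 := by rw [real_inner_comm, hyq]
      obtain ⟨S, hS⟩ : ∃ S : H, S = V 2 + V 3 + V 4 + V 5 + V 6 + V 7 := ⟨_, rfl⟩
      have hSj : ∀ j : ℤ, (j ≤ 1 ∨ 8 ≤ j) → -1 ≤ j → j ≤ q + 1 → ⟪S, V j⟫_ℝ = 6 := by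
        intro j hj hj1 hj2
        rw [hS]
        simp only [inner_add_left]
        rw [hone 2 j (by omega) (by omega) (by omega), hone 3 j (by omega) (by omega) (by omega),
          hone 4 j (by omega) (by omega) (by omega), hone 5 j (by omega) (by omega) (by omega),
          hone 6 j (by omega) (by omega) (by omega), hone 7 j (by omega) (by omega) (by omega)]
        norm_num
      have hjS : ∀ j : ℤ, (j ≤ 1 ∨ 8 ≤ j) → -1 ≤ j → j ≤ q + 1 → ⟪V j, S⟫_ℝ = 6 := by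
        intro j hj hj1 hj2
        rw [real_inner_comm, hSj j hj hj1 hj2]
      have hSS : ⟪S, S⟫_ℝ = 42 := by
        have e1 : ∀ j : ℤ, 2 ≤ j → j ≤ 7 → ⟪S, V j⟫_ℝ = 7 := by
          intro j hj1 hj2
          rw [hS]
          simp only [inner_add_left]
          have e2 : ∀ i : ℤ, 2 ≤ i → i ≤ 7 → ⟪V i, V j⟫_ℝ = 1 + if i = j then 1 else 0 := by
            intro i hi1 hi2
            split_ifs with hij
            · rw [hij, htwo]
              norm_num
            · rw [hone i j hij (by omega) (by omega), add_zero]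
          rw [e2 2 (by omega) (by omega), e2 3 (by omega) (by omega), e2 4 (by omega) (by omega),
            e2 5 (by omega) (by omega), e2 6 (by omega) (by omega), e2 7 (by omega) (by omega)]
          interval_cases j <;> norm_num
        have e3 : ⟪S, S⟫_ℝ = ⟪S, V 2⟫_ℝ + ⟪S, V 3⟫_ℝ + ⟪S, V 4⟫_ℝ + ⟪S, V 5⟫_ℝ + ⟪S, V 6⟫_ℝ +
            ⟪S, V 7⟫_ℝ := by
          conv_lhs => rw [show (⟪S, S⟫_ℝ : ℝ) = ⟪S, V 2 + V 3 + V 4 + V 5 + V 6 + V 7⟫_ℝ by rw [← hS]]
          simp only [inner_add_right]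
        rw [e3, e1 2 (by omega) (by omega), e1 3 (by omega) (by omega), e1 4 (by omega) (by omega),
          e1 5 (by omega) (by omega), e1 6 (by omega) (by omega), e1 7 (by omega) (by omega)]
        norm_num
      have h3 : 0 ≤ ⟪V (q + 1) - (Y - 1) • V 0 + Y • V 1 - (1 - Y) • S -
            ((7 * Y - 5) / 2) • (V 0 + V q),
          V (q + 1) - (Y - 1) • V 0 + Y • V 1 - (1 - Y) • S -
            ((7 * Y - 5) / 2) • (V 0 + V q)⟫_ℝ := real_inner_self_nonneg
      simp only [inner_add_left, inner_add_right, inner_sub_left, inner_sub_right,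
        real_inner_smul_left, real_inner_smul_right] at h3
      rw [htwo, htwo, htwo, htwo, hSS, hy0, h0y, hy1, h1y, hyq, hqy, hq0, h0q, hdq,
        hSj 0 (by omega) (by omega) (by omega), hSj 1 (by omega) (by omega) (by omega),
        hSj q (by omega) (by omega) (by omega), hSj (q + 1) (by omega) (by omega) (by omega),
        hjS 0 (by omega) (by omega) (by omega), hjS 1 (by omega) (by omega) (by omega),
        hjS q (by omega) (by omega) (by omega), hjS (q + 1) (by omega) (by omega) (by omega),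
        hone 0 1 (by omega) (by omega) (by omega), hone 1 0 (by omega) (by omega) (by omega),
        hone q 1 (by omega) (by omega) (by omega), hone 1 q (by omega) (by omega) (by omega)] at h3
      have h4 : (D' : ℝ) = 2 * Y - 1 := by rw [hY]; ring
      have h5 : (0 : ℝ) ≤ (1 - D') * (9 * D' - 1) := by
        rw [h4] at h3 ⊢
        push_cast at h3
        nlinarith [h3]
      exact_mod_cast h5
    have hd2 : D' = 1 := by
      by_contra hne
      rcases lt_or_gt_of_ne hne with h | h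
      · have : D' ≤ 0 := by omega
        nlinarith
      · have : 2 ≤ D' := by omega
        nlinarith
    have hy : V (q + 1) = V 0 + V q - V 1 := by
      have hy0 : ⟪V (q + 1), V 0⟫_ℝ = 1 := by rw [hV, sub_zero, hq', hd2, Int.cast_one]
      have h0y : ⟪V 0, V (q + 1)⟫_ℝ = 1 := by rw [real_inner_comm, hy0]
      have hy1 : ⟪V (q + 1), V 1⟫_ℝ = 0 := by
        rw [hV, add_sub_cancel_right, hq, hdq, Int.cast_zero]
      have h1y : ⟪V 1, V (q + 1)⟫_ℝ = 0 := by rw [real_inner_comm, hy1]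
      have hyq : ⟪V (q + 1), V q⟫_ℝ = 1 := hone _ _ (by omega) (by omega) (by omega)
      have hqy : ⟪V q, V (q + 1)⟫_ℝ = 1 := by rw [real_inner_comm, hyq]
      have h3 : ⟪V (q + 1) - (V 0 + V q - V 1), V (q + 1) - (V 0 + V q - V 1)⟫_ℝ = 0 := by
        simp only [inner_add_left, inner_add_right, inner_sub_left, inner_sub_right]
        rw [htwo, htwo, htwo, htwo, hy0, h0y, hy1, h1y, hyq, hqy, hq0, h0q, hdq,
          hone 0 1 (by omega) (by omega) (by omega), hone 1 0 (by omega) (by omega) (by omega),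
          hone q 1 (by omega) (by omega) (by omega), hone 1 q (by omega) (by omega) (by omega)]
        norm_num
      exact sub_eq_zero.1 (inner_self_eq_zero.1 h3)
    have hW : (T ^ (1 : ℤ)) (V 0 + V q) = V 0 + V q := by
      rw [map_add, hTV, hTV, add_zero, add_comm (1 : ℤ) q, hy]
      abel
    refine hfin (Or.inr (by omega)) fun k => ?_
    have h3 : V k + V (k + q) = V 0 + V q := by
      have e1 := zpow_mul_of_fix hW k
      rw [mul_one, map_add, hTV, hTV, add_zero] at e1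
      exact e1
    have h4 : (d k : ℝ) + d (k + q) = 2 := by
      have e1 : ⟪V k + V (k + q), V 0⟫_ℝ = ⟪V 0 + V q, V 0⟫_ℝ := by rw [h3]
      rw [inner_add_left, inner_add_left, hV, hV, htwo, hq0, hdq, sub_zero, sub_zero] at e1
      rw [e1]
      norm_num
    rw [hdq]
    push_cast
    linarith

theorem T3R_sign (k : ℤ) : ((-1 : ℝ) ^ k.natAbs) * ((-1 : ℝ) ^ k.natAbs) = 1 := by
  rw [← pow_add, ← two_mul, pow_mul]
  simp

/-- The real valued version of `fam_alt` (same proof, T3.lean): only the two values `c q` and `c (q + 1)` are known to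
be integers, `q` is the first index `≥ 1` with `c q ≠ (-1) ^ q`. -/
theorem fam_altR {T : H ≃ₗᵢ[ℝ] H} {v : H} {c : ℤ → ℝ} (hc : ∀ k, ⟪(T ^ k) v, v⟫_ℝ = c k)
    {q : ℕ} (hq9 : 9 ≤ q) (h0 : c 0 = 2) (h2 : ∀ k : ℤ, 1 ≤ k → k < q → c k = (-1) ^ k.natAbs)
    {e e' : ℤ} (hq : c q = e) (hq' : c (q + 1) = e') (he : e ≠ (-1) ^ q) :
    (e - (-1) ^ q = 1 ∨ e - (-1) ^ q = -1) ∧ ∀ k, c k = famD q (e - (-1) ^ q) k := by
  have hc' : ∀ k, ⟪(((LinearIsometryEquiv.neg ℝ : H ≃ₗᵢ[ℝ] H) * T) ^ k) v, v⟫_ℝ =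
      (-1 : ℝ) ^ k.natAbs * c k := by
    intro k
    rw [T3_neg, real_inner_smul_left, hc]
  have hback : ∀ k, c k = (-1 : ℝ) ^ k.natAbs * ((-1 : ℝ) ^ k.natAbs * c k) := by
    intro k
    rw [← mul_assoc, T3R_sign, one_mul]
  have hs : ((-1 : ℤ) ^ q) * ((-1 : ℤ) ^ q) = 1 := by
    rw [← pow_add, ← two_mul, pow_mul]
    simp
  have hD : (-1 : ℤ) ^ q * e ≠ 1 := by
    intro h
    apply he
    calc e = ((-1) ^ q * (-1) ^ q) * e := by rw [hs, one_mul]
      _ = (-1) ^ q * ((-1) ^ q * e) := by ring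
      _ = (-1) ^ q := by rw [h, mul_one]
  obtain ⟨h1, h3⟩ := T3R_main (d := fun k => (-1 : ℝ) ^ k.natAbs * c k) (q := q)
    (D := (-1) ^ q * e) (D' := (-1) ^ (q + 1) * e') hc' hq9 (by simp [h0])
    (fun k hk1 hk2 => by
      show (-1 : ℝ) ^ k.natAbs * c k = 1
      rw [h2 k hk1 hk2, T3R_sign])
    (by
      show (-1 : ℝ) ^ ((q : ℤ)).natAbs * c q = _
      rw [hq, Int.natAbs_natCast]
      push_cast
      rfl)
    (by
      show (-1 : ℝ) ^ ((q : ℤ) + 1).natAbs * c (q + 1) = _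
      rw [hq', show ((q : ℤ) + 1).natAbs = q + 1 by omega]
      push_cast
      rfl) hD
  have h4 : e - (-1) ^ q = (-1) ^ q * ((-1) ^ q * e - 1) := by
    rw [mul_sub, ← mul_assoc, hs, one_mul, mul_one]
  refine ⟨?_, fun k => ?_⟩
  · rw [h4]
    rcases neg_one_pow_eq_or ℤ q with e1 | e1 <;> rcases h1 with e2 | e2 <;> rw [e2, e1] <;>
      norm_num
  · have h5 : (-1 : ℝ) ^ k.natAbs * c k = 1 + comb q ((-1) ^ q * e - 1) k := h3 k
    rw [hback, h5, h4]
    unfold famD comb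
    split_ifs with hd
    · obtain ⟨m, rfl⟩ := hd
      have hN0 : (q : ℤ) ≠ 0 := by omega
      rw [Int.mul_ediv_cancel_left _ hN0, Int.natAbs_mul, Int.natAbs_natCast, mul_pow, ← pow_mul]
      push_cast
      ring
    · push_cast
      ring

end Pool.Agent.EEAG1
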