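import Pool.Agent.W_eea520_G.C1
import Pool.Agent.W_eea520_G.A

/-!
# The verified search (MP_eea520_nt, edge theorem)
-/

set_option autoImplicit false

namespace Pool.Agent.EEAG1

end Pool.Agent.EEAG1

namespace Pool.Agent.EEAG1

open Filter Topology
open scoped InnerProductSpace

/-- Types of sequences. -/
inductive Law
  | A (N : ℕ) (η : ℤ)
  | D (N : ℕ) (η : ℤ)
  | E (i : ℕ)

/-- The sequence of a type. -/
def Law.val : Law → ℤ → ℤ
  | .A N η, k => famA N η k
  | .D N η, k => famD N η k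
  | .E i, k => per (excL.getD i []) k

/-- A period. -/
def Law.len : Law → ℕ
  | .A N _ => 2 * N
  | .D N _ => 2 * N
  | .E i => (excL.getD i []).length

/-- The admissible types. -/
def Law.ok : Law → Bool
  | .A N η => decide (3 ≤ N ∧ (η = 1 ∨ η = -1))
  | .D N η => decide (2 ≤ N ∧ (η = 1 ∨ η = -1))
  | .E i => decide (i < excL.length)

/-- Certificates. -/
inductive Tree
  | neg (a : List ℤ)
  | leaf (b : List ℤ) (z : ℤ) (L : Law)
  | fam
  | node (t₁ t₂ t₃ t₄ t₅ : Tree)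

/-- The sum of the products. -/
def dot : List ℤ → List ℤ → ℤ
  | x :: a, y :: b => x * y + dot a b
  | _, _ => 0

/-- The quadratic form. -/
def quad : List ℤ → List ℤ → ℤ
  | [], _ => 0
  | x :: a, p => x * (x * p.getD 0 0 + 2 * dot a p.tail) + quad a p

/-- The value of a recurrence. -/
def recur (c : ℤ → ℤ) : ℤ → List ℤ → ℤ
  | _, [] => 0
  | k, x :: a => x * c k + recur c (k + 1) a

/-- The check of a certificate. -/
def chk : Tree → List ℤ → Bool
  | .neg a, p => decide (quad a p < 0) && decide (a.length ≤ p.length)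
  | .leaf b z L, p => decide (quad (b ++ [z]) p = 0) && decide (b.length + 1 ≤ p.length) &&
      decide (z ≠ 0) && L.ok && decide (0 < L.len) &&
      (List.range L.len).all (fun k => decide (recur L.val k (b ++ [z]) = 0)) &&
      (List.range L.len).all (fun k => decide (L.val (-(k : ℤ)) = L.val k)) &&
      (List.range b.length).all (fun k => decide (p.getD k 0 = L.val k))
  | .fam, p => decide (p = [2, -1, 0, 0, 0, 0, 0, 0, 0] ∨ p = [2, -1, 1, -1, 1, -1, 1, -1, 1])
  | .node t₁ t₂ t₃ t₄ t₅, p => decide (p.length ≤ 9) && chk t₁ (p ++ [-2]) && chk t₂ (p ++ [-1]) &&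
      chk t₃ (p ++ [0]) && chk t₄ (p ++ [1]) && chk t₅ (p ++ [2])

/-- The certificate. -/
def theTree : Tree :=
(.node
  (.neg [5,4,3])
  (.leaf [1,1] (1) (.A 3 (1)))
  (.node
   (.neg [7,6,5,4])
   (.leaf [1,1,1] (1) (.A 4 (1)))
   (.node
    (.neg [9,8,7,6,5])
    (.leaf [1,1,1,1] (1) (.A 5 (1)))
    (.node
     (.neg [11,10,9,8,7,6])
     (.leaf [1,1,1,1,1] (1) (.A 6 (1)))
     (.node
      (.neg [13,12,11,10,9,8,7])
      (.leaf [1,1,1,1,1,1] (1) (.A 7 (1)))
      (.node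
       (.neg [15,14,13,12,11,10,9,8])
       (.leaf [1,1,1,1,1,1,1] (1) (.A 8 (1)))
       (.node
        (.neg [17,16,15,14,13,12,11,10,9])
        (.leaf [1,1,1,1,1,1,1,1] (1) (.A 9 (1)))
        .fam
        (.node
         (.leaf [1,0,0,0,0,0,0,0,0] (1) (.A 9 (-1)))
         (.neg [-5,-7,-5,-3,-1,1,3,5,7,4])
         (.neg [-7,-7,-5,-3,-1,1,3,5,7,2])
         (.neg [-23,-21,-15,-9,-3,3,9,15,21,4])
         (.neg [-8,-7,-5,-3,-1,1,3,5,7,1]))
        (.neg [-5,-4,-3,-2,-1,0,1,2,3]))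
       (.node
        (.leaf [1,0,0,0,0,0,0,0] (1) (.A 8 (-1)))
        (.node
         (.neg [4,6,4,2,0,-2,-4,-6,-4,3])
         (.neg [4,6,4,2,0,-2,-4,-6,-4,1])
         (.neg [-4,-6,-4,-2,0,2,4,6,4,1])
         (.neg [-4,-6,-4,-2,0,2,4,6,4,3])
         (.neg [-4,-6,-4,-2,0,2,4,6,4,5]))
        (.neg [-3,-3,-2,-1,0,1,2,3,1])
        (.neg [-10,-9,-6,-3,0,3,6,9,2])
        (.neg [-7,-6,-4,-2,0,2,4,6,1]))
       (.neg [-13,-10,-7,-4,-1,2,5,8]))
      (.node
       (.leaf [1,0,0,0,0,0,0] (1) (.A 7 (-1)))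
       (.node
        (.neg [7,8,4,1,-2,-5,-8,-4,1])
        (.neg [3,3,1,0,-1,-2,-3,-1,1])
        (.leaf [-1,-2,-2,-1,0,1,2,2] (1) (.E 28))
        (.neg [-5,-7,-5,-2,1,4,7,5,1])
        (.neg [-9,-12,-8,-3,2,7,12,8,1]))
       (.neg [-5,-5,-3,-1,1,3,5,2])
       (.neg [-17,-15,-9,-3,3,9,15,4])
       (.neg [-6,-5,-3,-1,1,3,5,1]))
      (.neg [-11,-8,-5,-2,1,4,7]))
     (.node
      (.leaf [1,0,0,0,0,0] (1) (.A 6 (-1)))
      (.node
       (.neg [8,7,2,-1,-4,-7,-2,2])
       (.neg [4,3,0,-1,-2,-3,0,2])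
       (.node
        (.neg [5,5,2,-1,-3,-5,-2,1,1])
        (.neg [3,3,1,-1,-2,-3,-1,1,1])
        (.leaf [1,1,0,-1,-1,-1,0,1] (1) (.E 29))
        (.leaf [-1,-1,-1,-1,0,1,1,1] (1) (.E 21))
        (.neg [-3,-3,-2,-1,1,3,2,1,1]))
       (.neg [-4,-5,-4,-1,2,5,4,2])
       (.neg [-8,-9,-6,-1,4,9,6,2]))
      (.neg [-2,-2,-1,0,1,2,1])
      (.neg [-7,-6,-3,0,3,6,2])
      (.neg [-5,-4,-2,0,2,4,1]))
     (.neg [-3,-2,-1,0,1,2]))
    (.node
     (.leaf [1,0,0,0,0] (1) (.A 5 (-1)))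
     (.node
      (.neg [3,2,0,-1,-2,0,1])
      (.neg [5,3,-1,-2,-3,1,3])
      (.node
       (.neg [4,3,0,-2,-3,0,2,1])
       (.neg [5,4,0,-3,-4,0,3,2])
       (.leaf [1,1,0,-1,-1,0,1] (1) (.E 17))
       (.node
        (.neg [3,1,0,0,-2,0,0,-1,1])
        (.leaf [1,0,0,0,-1,0,0,0] (1) (.E 25))
        (.leaf [-1,-1,0,0,0,0,0,1] (1) (.E 12))
        (.neg [-3,-2,0,0,1,0,0,2,1])
        (.neg [-5,-3,0,0,2,0,0,3,1]))
       (.neg [-2,-1,0,0,1,0,0,1]))
      (.leaf [-1,-1,-1,0,1,1] (1) (.E 6))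
      (.neg [-7,-6,-4,1,6,4,3]))
     (.neg [-3,-3,-1,1,3,2])
     (.neg [-11,-9,-3,3,9,4])
     (.neg [-4,-3,-1,1,3,1]))
    (.neg [-7,-4,-1,2,5]))
   (.node
    (.leaf [1,0,0,0] (1) (.A 4 (-1)))
    (.node
     (.neg [10,5,-2,-5,2,4])
     (.neg [6,3,-2,-3,2,4])
     (.node
      (.neg [11,7,-2,-7,2,7,3])
      (.neg [7,5,-1,-5,1,5,3])
      (.leaf [1,1,0,-1,0,1] (1) (.E 7))
      (.node
       (.leaf [1,0,0,0,0,0,0] (1) (.E 13))
       (.node
        (.neg [5,2,-3,-2,3,2,-3,-2,1])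
        (.neg [3,1,-2,-1,2,1,-2,-1,1])
        (.leaf [1,0,-1,0,1,0,-1,0] (1) (.E 22))
        (.leaf [-1,-1,0,1,0,-1,0,1] (1) (.E 26))
        (.neg [-3,-2,1,2,-1,-2,1,2,1]))
       (.neg [-2,-1,1,1,-1,-1,1,1])
       (.neg [-7,-3,3,3,-3,-3,3,2])
       (.neg [-5,-2,2,2,-2,-2,2,1]))
      (.neg [-5,-1,2,1,-2,-1,3]))
     (.node
      (.neg [7,2,1,-5,-1,-2,3])
      (.leaf [1,0,0,-1,0,0] (1) (.E 18))
      (.node
       (.neg [2,1,0,-1,-1,-1,0,1])
       (.node
        (.neg [7,4,0,-4,-4,-4,0,4,1])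
        (.neg [5,3,0,-3,-3,-3,0,3,1])
        (.neg [3,2,0,-2,-2,-2,0,2,1])
        (.leaf [1,1,0,-1,-1,-1,0,1] (1) (.E 30))
        (.leaf [-1,0,0,0,0,0,0,0] (1) (.E 2)))
       (.leaf [-1,-1,-1,0,0,1,1] (1) (.E 15))
       (.neg [-5,-4,-3,1,1,4,3,2])
       (.neg [-4,-3,-2,1,1,3,2,1]))
      (.neg [-5,-4,-2,1,2,4,3])
      (.neg [-3,-2,-1,1,1,2,1]))
     (.neg [-6,-3,-2,3,2,4]))
    (.leaf [-1,-1,0,1] (1) (.E 0))
    (.neg [-4,-3,0,3,2])
    (.neg [-3,-2,0,2,1]))
   (.neg [-5,-2,1,4]))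
  (.node
   (.leaf [1,0,0] (1) (.A 3 (-1)))
   (.node
    (.neg [11,4,-4,4,5])
    (.neg [7,3,-3,3,5])
    (.node
     (.neg [9,6,-2,2,7,4])
     (.leaf [1,1,0,0,1] (1) (.D 4 (-1)))
     (.node
      (.neg [7,1,-2,5,2,-1,3])
      (.leaf [1,0,0,1,0,0] (1) (.E 4))
      (.node
       (.neg [4,1,-3,2,3,-2,-1,1])
       (.neg [5,1,-4,3,4,-3,-1,2])
       (.leaf [1,0,-1,1,1,-1,0] (1) (.E 8))
       (.node
        (.neg [3,1,-2,0,2,0,-2,-1,1])
        (.leaf [1,0,-1,0,1,0,-1,0] (1) (.E 23))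
        (.leaf [-1,-1,0,0,0,0,0,1] (1) (.E 14))
        (.neg [-3,-2,1,0,-1,0,1,2,1])
        (.neg [-5,-3,2,0,-2,0,2,3,1]))
       (.neg [-2,-1,1,0,-1,0,1,1]))
      (.neg [-5,-2,4,-1,-4,2,3])
      (.neg [-3,-1,2,-1,-2,1,1]))
     (.neg [-3,0,2,-2,-1,2])
     (.neg [-11,-2,6,-6,-5,4]))
    (.node
     (.leaf [1,0,0,0,0] (1) (.D 5 (-1)))
     (.node
      (.neg [17,4,-4,4,-4,4,7])
      (.neg [11,3,-3,3,-3,3,7])
      (.node
       (.neg [11,6,-2,2,-2,2,9,4])
       (.leaf [1,1,0,0,0,0,1] (1) (.D 6 (-1)))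
       (.node
        (.neg [9,-3,-4,5,-5,5,4,-7,1])
        (.neg [5,-2,-2,3,-3,3,2,-4,1])
        (.leaf [1,-1,0,1,-1,1,0,-1] (1) (.E 16))
        (.neg [-3,0,2,-1,1,-1,-2,2,1])
        (.neg [-7,1,4,-3,3,-3,-4,5,1]))
       (.neg [-5,0,2,-2,2,-2,-3,2])
       (.neg [-17,-2,6,-6,6,-6,-11,4]))
      (.node
       (.leaf [1,0,0,0,0,0,0] (1) (.D 7 (-1)))
       (.node
        (.neg [23,4,-4,4,-4,4,-4,4,9])
        (.neg [5,1,-1,1,-1,1,-1,1,3])
        (.node
         (.neg [13,6,-2,2,-2,2,-2,2,11,4])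
         (.leaf [1,1,0,0,0,0,0,0,1] (1) (.D 8 (-1)))
         (.neg [-5,2,2,-2,2,-2,2,-2,-3,4])
         (.neg [-7,0,2,-2,2,-2,2,-2,-5,2])
         (.neg [-23,-2,6,-6,6,-6,6,-6,-17,4]))
        .fam
        (.leaf [-1,0,0,0,0,0,0,0] (1) (.D 8 (1))))
       (.node
        (.neg [10,1,-3,3,-3,3,-3,-7,2])
        (.neg [3,0,-1,1,-1,1,-1,-2,1])
        (.node
         (.neg [4,-2,-2,2,-2,2,-2,-2,4,3])
         (.neg [4,-2,-2,2,-2,2,-2,-2,4,1])
         (.neg [-4,2,2,-2,2,-2,2,2,-4,1])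
         (.neg [-4,2,2,-2,2,-2,2,2,-4,3])
         (.neg [-4,2,2,-2,2,-2,2,2,-4,5]))
        (.leaf [-1,-1,0,0,0,0,0,1] (1) (.D 7 (1)))
        (.neg [-6,-3,1,-1,1,-1,1,5,2]))
       (.neg [-13,-3,3,-3,3,-3,3,8])
       (.neg [-5,-1,1,-1,1,-1,1,2]))
      (.leaf [-1,0,0,0,0,0] (1) (.D 6 (1))))
     (.node
      (.neg [7,1,-3,3,-3,-4,2])
      (.neg [2,0,-1,1,-1,-1,1])
      (.node
       (.neg [8,1,-5,3,-3,-5,4,2])
       (.neg [4,1,-3,1,-1,-3,2,2])
       (.node
        (.neg [3,0,-1,1,-2,-1,1,0,1])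
        (.leaf [1,0,0,0,-1,0,0,0] (1) (.E 27))
        (.leaf [-1,0,1,-1,0,1,-1,0] (1) (.E 19))
        (.neg [-3,0,2,-2,1,2,-2,0,1])
        (.neg [-5,0,3,-3,2,3,-3,0,1]))
       (.neg [-4,1,1,-3,3,1,-2,2])
       (.neg [-8,1,3,-5,5,3,-4,2]))
      (.leaf [-1,-1,0,0,0,1] (1) (.D 5 (1)))
      (.neg [-5,-3,1,-1,1,4,2]))
     (.neg [-3,-1,1,-1,1,2])
     (.neg [-7,-2,2,-2,2,3]))
    (.leaf [-1,0,0,0] (1) (.D 4 (1))))
   (.node
    (.neg [4,1,-3,-1,2])
    (.leaf [1,0,-1,0] (1) (.E 9))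
    (.node
     (.neg [10,5,-7,-7,2,4])
     (.neg [6,3,-5,-5,2,4])
     (.node
      (.neg [3,2,-2,-3,0,2,1])
      (.neg [5,4,-3,-6,-1,4,3])
      (.node
       (.neg [5,4,-2,-5,-2,2,3,2])
       (.leaf [1,1,0,-1,-1,0,1] (1) (.E 20))
       (.node
        (.neg [3,1,-3,-2,2,2,-1,-1,1])
        (.leaf [1,0,-1,0,1,0,-1,0] (1) (.E 24))
        (.leaf [-1,-1,1,2,0,-2,-1,1] (1) (.E 10))
        (.neg [-3,-2,3,4,-1,-4,-1,2,1])
        (.neg [-5,-3,5,6,-2,-6,-1,3,1]))
       (.neg [-2,-1,2,2,-1,-2,0,1])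
       (.neg [-7,-4,6,7,-2,-6,-1,2]))
      (.leaf [-1,0,1,0,-1,0] (1) (.E 3))
      (.neg [-7,-2,6,3,-4,-2,3]))
     (.node
      (.neg [5,1,-2,-2,-2,-1,3])
      (.node
       (.neg [5,2,-2,-2,-2,-2,2,1])
       (.neg [7,3,-3,-3,-3,-3,3,2])
       (.neg [2,1,-1,-1,-1,-1,1,1])
       (.node
        (.neg [3,2,-1,-2,-2,-2,1,2,1])
        (.leaf [1,1,0,-1,-1,-1,0,1] (1) (.E 31))
        (.leaf [-1,0,1,0,0,0,-1,0] (1) (.E 11))
        (.neg [-3,-1,2,1,1,1,-2,-1,1])
        (.neg [-5,-2,3,2,2,2,-3,-2,1]))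
       (.leaf [-1,0,0,0,0,0,0] (1) (.E 1)))
      (.leaf [-1,-1,0,0,0,1] (1) (.E 5))
      (.neg [-7,-5,1,1,1,5,3])
      (.neg [-11,-7,2,2,2,7,3]))
     (.neg [-6,-3,1,1,2,4]))
    (.leaf [-1,-1,0,1] (1) (.D 3 (1)))
    (.neg [-4,-3,1,3,2]))
   (.neg [-5,-3,3,4])
   (.neg [-2,-1,1,1]))
  (.leaf [-1,0] (1) (.D 2 (1))))

theorem theTree_chk : chk theTree [2, -1] = true := by
  decide +kernel

end Pool.Agent.EEAG1

namespace Pool.Agent.EEAG1

open Filter Topology
open scoped InnerProductSpace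

theorem recur_congr {c c' : ℤ → ℤ} (a : List ℤ) (k k' : ℤ)
    (h : ∀ i : ℕ, i < a.length → c (k + i) = c' (k' + i)) : recur c k a = recur c' k' a := by
  induction a generalizing k k' with
  | nil => rfl
  | cons x a ih =>
    simp only [recur]
    have h0 := h 0 (by simp)
    simp only [Nat.cast_zero, add_zero] at h0
    rw [h0, ih (k + 1) (k' + 1) (fun i hi => ?_)]
    have h1 := h (i + 1) (by simpa using hi)
    push_cast at h1
    rw [add_assoc, add_comm 1 (i : ℤ), h1, add_assoc, add_comm 1 (i : ℤ)]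

/-- The value of a recurrence. -/
noncomputable def recurR (c : ℤ → ℝ) : ℤ → List ℤ → ℝ
  | _, [] => 0
  | k, x :: a => x * c k + recurR c (k + 1) a

theorem recurR_cast (c : ℤ → ℤ) (a : List ℤ) (k : ℤ) :
    recurR (fun k => (c k : ℝ)) k a = (recur c k a : ℤ) := by
  induction a generalizing k with
  | nil => simp [recur, recurR]
  | cons x a ih =>
    simp only [recur, recurR, ih]
    push_cast
    ring

theorem recurR_congr {c c' : ℤ → ℝ} (a : List ℤ) (k : ℤ)
    (h : ∀ i : ℕ, i < a.length → c (k + i) = c' (k + i)) : recurR c k a = recurR c' k a := by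
  induction a generalizing k with
  | nil => rfl
  | cons x a ih =>
    simp only [recurR]
    have h0 := h 0 (by simp)
    simp only [Nat.cast_zero, add_zero] at h0
    rw [h0, ih (k + 1) (fun i hi => ?_)]
    have h1 := h (i + 1) (by simpa using hi)
    push_cast at h1
    rw [add_assoc, add_comm 1 (i : ℤ), h1]

theorem recurR_append (c : ℤ → ℝ) (b : List ℤ) (z k : ℤ) :
    recurR c k (b ++ [z]) = recurR c k b + z * c (k + b.length) := by
  induction b generalizing k with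
  | nil => simp [recurR]
  | cons x b ih =>
    rw [List.cons_append]
    simp only [recurR, ih, List.length_cons]
    push_cast
    rw [add_assoc k 1 (b.length : ℤ), add_comm 1 (b.length : ℤ)]
    ring

theorem dot_eq {c : ℤ → ℝ} (a p : List ℤ) (k : ℤ)
    (h : ∀ i : ℕ, i < p.length → c (k + i) = (p.getD i 0 : ℤ)) (hl : a.length ≤ p.length) :
    ((dot a p : ℤ) : ℝ) = recurR c k a := by
  induction a generalizing p k with
  | nil => simp [dot, recurR]
  | cons x a ih =>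
    cases p with
    | nil => simp at hl
    | cons y p =>
      simp only [dot, recurR]
      have h0 := h 0 (by simp)
      simp only [Nat.cast_zero, add_zero, List.getD_cons_zero] at h0
      rw [h0, ← ih p (k + 1) (fun i hi => ?_) (by simpa using hl)]
      · push_cast
        ring
      · have h1 := h (i + 1) (by simpa using hi)
        push_cast at h1
        rw [List.getD_cons_succ] at h1
        rw [add_assoc, add_comm 1 (i : ℤ), h1]

theorem pow_natAbs_add_two {η : ℤ} (hη : η = 1 ∨ η = -1) (m : ℤ) :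
    η ^ (m + 2).natAbs = η ^ m.natAbs := by
  rcases hη with rfl | rfl
  · simp
  · have h1 : Even (m + 2).natAbs ↔ Even m.natAbs := by
      rw [Int.natAbs_even, Int.natAbs_even, Int.even_add]
      simp
    by_cases h2 : Even m.natAbs
    · rw [h2.neg_one_pow, (h1.2 h2).neg_one_pow]
    · rw [(Nat.not_even_iff_odd.1 h2).neg_one_pow,
        (Nat.not_even_iff_odd.1 (fun h3 => h2 (h1.1 h3))).neg_one_pow]

theorem comb_add {N : ℕ} (hN : 0 < N) {η : ℤ} (hη : η = 1 ∨ η = -1) (k : ℤ) :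
    comb N η (k + 2 * N) = comb N η k := by
  unfold comb
  have h1 : (N : ℤ) ∣ k + 2 * N ↔ (N : ℤ) ∣ k :=
    (Int.dvd_add_left (Dvd.intro_left 2 rfl))
  have h2 : (k + 2 * N) / N = k / N + 2 :=
    Int.add_mul_ediv_right _ _ (by exact_mod_cast hN.ne')
  rw [h2, pow_natAbs_add_two hη]
  simp only [h1]

theorem pow_natAbs_add_even (m : ℤ) (N : ℕ) :
    ((-1 : ℤ)) ^ (m + 2 * N).natAbs = (-1) ^ m.natAbs := by
  induction N with
  | zero => simp
  | succ N ih =>
    have h := pow_natAbs_add_two (Or.inr rfl : (-1 : ℤ) = 1 ∨ (-1 : ℤ) = -1) (m + 2 * N)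
    rw [← ih, ← h]
    congr 2
    push_cast
    ring

theorem Law.periodic {L : Law} (hL : L.ok = true) (k : ℤ) : L.val (k + L.len) = L.val k := by
  cases L with
  | A N η =>
    simp only [Law.ok, decide_eq_true_eq] at hL
    obtain ⟨h1, h2⟩ := hL
    simp only [Law.val, Law.len, famA]
    push_cast
    have e1 : k + 2 * (N : ℤ) - 1 = k - 1 + 2 * N := by ring
    have e2 : k + 2 * (N : ℤ) + 1 = k + 1 + 2 * N := by ring
    rw [e1, e2, comb_add (by omega) h2, comb_add (by omega) h2, comb_add (by omega) h2]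
  | D N η =>
    simp only [Law.ok, decide_eq_true_eq] at hL
    obtain ⟨h1, h2⟩ := hL
    simp only [Law.val, Law.len, famD]
    push_cast
    rw [comb_add (by omega) h2, pow_natAbs_add_even]
  | E i =>
    simp only [Law.val, Law.len, per, Int.add_emod_right]

theorem Law.emod {L : Law} (hL : L.ok = true) (k j : ℤ) :
    L.val (k + j) = L.val (k % L.len + j) := by
  have hp : Function.Periodic L.val (L.len : ℤ) := fun k => Law.periodic hL k
  have h1 := (hp.int_mul (k / L.len)) (k % L.len + j)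
  rw [← h1]
  congr 1
  have h2 := Int.emod_add_mul_ediv k L.len
  simp only [Int.cast_id]
  linarith

/-- The recurrence and the symmetry hold on a period, hence everywhere. -/
theorem Law.recur {L : Law} (hL : L.ok = true) (h0 : 0 < L.len) {a : List ℤ}
    (h : ∀ k < L.len, Pool.Agent.EEAG1.recur L.val (k : ℕ) a = 0) (k : ℤ) :
    Pool.Agent.EEAG1.recur L.val k a = 0 := by
  have hlen : (0 : ℤ) < L.len := by exact_mod_cast h0
  have h1 : ((k % L.len).toNat : ℤ) = k % L.len :=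
    Int.toNat_of_nonneg (Int.emod_nonneg _ hlen.ne')
  have h2 : (k % L.len).toNat < L.len := by
    have := Int.emod_lt_of_pos k hlen
    omega
  rw [← h _ h2]
  refine recur_congr _ _ _ fun j _ => ?_
  rw [Law.emod hL, h1]

theorem Law.even {L : Law} (hL : L.ok = true) (h0 : 0 < L.len)
    (h : ∀ k < L.len, L.val (-((k : ℕ) : ℤ)) = L.val k) (k : ℤ) : L.val (-k) = L.val k := by
  have hlen : (0 : ℤ) < L.len := by exact_mod_cast h0
  have h1 : ((k % L.len).toNat : ℤ) = k % L.len :=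
    Int.toNat_of_nonneg (Int.emod_nonneg _ hlen.ne')
  have h2 : (k % L.len).toNat < L.len := by
    have := Int.emod_lt_of_pos k hlen
    omega
  have e1 := Law.emod hL k 0
  have e3 := h _ h2
  rw [h1] at e3
  rw [add_zero, add_zero] at e1
  rw [e1, ← e3]
  have e4 := Law.emod hL (-k) 0
  have e5 := Law.emod hL (-(k % L.len)) 0
  rw [add_zero, add_zero] at e4 e5
  rw [e4, e5]
  congr 1
  have e6 : -k = -(k % L.len) + L.len * (-(k / L.len)) := by
    have := Int.emod_add_mul_ediv k L.len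
    linarith
  conv_lhs => rw [e6, Int.add_mul_emod_self_left]

variable {H : Type*} [NormedAddCommGroup H] [InnerProductSpace ℝ H]

/-- `∑ i, a i • T ^ i v`. -/
noncomputable def vec (T : H ≃ₗᵢ[ℝ] H) (v : H) : List ℤ → H
  | [] => 0
  | x :: a => (x : ℝ) • v + T (vec T v a)

theorem inner_vec {T : H ≃ₗᵢ[ℝ] H} {v : H} {c : ℤ → ℝ} (hc : ∀ k, ⟪(T ^ k) v, v⟫_ℝ = c k)
    (a : List ℤ) (k : ℤ) : ⟪(T ^ k) (vec T v a), v⟫_ℝ = recurR c k a := by
  induction a generalizing k with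
  | nil => simp [vec, recurR]
  | cons x a ih =>
    have h1 : (T ^ k) (T (vec T v a)) = (T ^ (k + 1)) (vec T v a) := by
      rw [zpow_add_apply, zpow_one]
    simp only [vec, recurR, map_add, map_smul, inner_add_left, inner_smul_left, hc, h1, ih]
    simp

theorem norm_vec {T : H ≃ₗᵢ[ℝ] H} {v : H} {c : ℤ → ℝ} (hc : ∀ k, ⟪(T ^ k) v, v⟫_ℝ = c k)
    (a p : List ℤ) (h : ∀ i : ℕ, i < p.length → c i = (p.getD i 0 : ℤ))
    (hl : a.length ≤ p.length) : ‖vec T v a‖ ^ 2 = (quad a p : ℤ) := by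
  induction a with
  | nil => simp [vec, quad]
  | cons x a ih =>
    have ih' := ih (by simp only [List.length_cons] at hl; omega)
    cases p with
    | nil => simp at hl
    | cons y p =>
      have h0 := h 0 (by simp)
      simp only [Nat.cast_zero, List.getD_cons_zero] at h0
      have h1 : ((dot a p : ℤ) : ℝ) = recurR c 1 a := by
        refine dot_eq a p 1 (fun i hi => ?_) (by simpa using hl)
        have h2 := h (i + 1) (by simpa using hi)
        push_cast at h2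
        rw [List.getD_cons_succ] at h2
        rw [add_comm, h2]
      have h2 := inner_vec hc a 1
      rw [zpow_one] at h2
      have h3 : ‖v‖ ^ 2 = c 0 := by
        rw [← hc 0, zpow_zero_apply, real_inner_self_eq_norm_sq]
      simp only [vec, quad]
      rw [norm_add_sq_real, inner_smul_left, real_inner_comm, h2, norm_smul, mul_pow, h3,
        LinearIsometryEquiv.norm_map, ih', h0]
      simp only [List.tail_cons, List.getD_cons_zero, conj_trivial, Real.norm_eq_abs, sq_abs]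
      push_cast
      rw [h1]
      ring

theorem le_two_of {T : H ≃ₗᵢ[ℝ] H} {v : H} {c : ℤ → ℝ} (hc : ∀ k, ⟪(T ^ k) v, v⟫_ℝ = c k)
    (h0 : c 0 = 2) (k : ℤ) : -2 ≤ c k ∧ c k ≤ 2 := by
  have h3 : ‖v‖ * ‖v‖ = 2 := by
    rw [← real_inner_self_eq_norm_mul_norm]
    have := hc 0
    rw [zpow_zero_apply, h0] at this
    exact this
  have h4 := abs_real_inner_le_norm ((T ^ k) v) v
  rw [norm_zpow, h3, hc k] at h4
  exact abs_le.1 h4

theorem eq_neg_of {T : H ≃ₗᵢ[ℝ] H} {v : H} {c : ℤ → ℝ} (hc : ∀ k, ⟪(T ^ k) v, v⟫_ℝ = c k) (k : ℤ) :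
    c (-k) = c k := by
  have h1 := hc (-k)
  rw [inner_zpow_left, neg_neg, real_inner_comm, hc k] at h1
  exact h1.symm

/-- A certified leaf. -/
theorem leaf_sound {T : H ≃ₗᵢ[ℝ] H} {v : H} {c : ℤ → ℝ} (hc : ∀ k, ⟪(T ^ k) v, v⟫_ℝ = c k)
    {b : List ℤ} {z : ℤ} {L : Law} {p : List ℤ} (h : chk (.leaf b z L) p = true)
    (hp : ∀ i : ℕ, i < p.length → c i = (p.getD i 0 : ℤ)) (k : ℤ) : c k = L.val k := by
  simp only [chk, Bool.and_eq_true, decide_eq_true_eq, List.all_eq_true, List.mem_range] at h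
  obtain ⟨⟨⟨⟨⟨⟨⟨g1, g2⟩, g3⟩, g4⟩, g5⟩, g6⟩, g7⟩, g8⟩ := h
  have h1 : vec T v (b ++ [z]) = 0 := by
    have h2 := norm_vec hc (b ++ [z]) p hp (by simpa using g2)
    rw [g1, Int.cast_zero] at h2
    exact norm_eq_zero.1 (pow_eq_zero_iff (two_ne_zero) |>.1 h2)
  have h2 : ∀ k, recurR c k (b ++ [z]) = 0 := by
    intro k
    have h3 := inner_vec hc (b ++ [z]) k
    rw [h1, map_zero, inner_zero_left] at h3
    exact h3.symm
  have h3 : ∀ k, recurR (fun k => (L.val k : ℝ)) k (b ++ [z]) = 0 := by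
    intro k
    rw [recurR_cast, Law.recur g4 g5 g6, Int.cast_zero]
  have hz : (z : ℝ) ≠ 0 := by exact_mod_cast g3
  have h5 : ∀ k : ℕ, c k = L.val k := by
    intro k
    induction k using Nat.strong_induction_on with
    | _ k ih =>
      by_cases hk : k < b.length
      · rw [hp k (by omega), g8 k hk]
      · have e1 := h2 ((k : ℤ) - b.length)
        have e2 := h3 ((k : ℤ) - b.length)
        rw [recurR_append, sub_add_cancel] at e1 e2
        have e3 : recurR c ((k : ℤ) - b.length) b =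
            recurR (fun k => (L.val k : ℝ)) ((k : ℤ) - b.length) b := by
          refine recurR_congr _ _ fun i hi => ?_
          have e4 : (k : ℤ) - b.length + i = ((k - b.length + i : ℕ) : ℤ) := by
            push_cast [Nat.cast_sub (not_lt.1 hk)]
            ring
          rw [e4]
          exact ih _ (by omega)
        rw [e3] at e1
        exact mul_left_cancel₀ hz (by linarith)
  rcases Int.natAbs_eq k with hk | hk
  · rw [hk]
    exact h5 _
  · rw [hk, eq_neg_of hc, Law.even g4 g5 g7]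
    exact h5 _

/-- The soundness of the certificates. -/
theorem chk_sound {P : ℕ → ℤ} {M : ℕ} (hM : 9 ≤ M) (h0 : P 0 = 2) (t : Tree) (p : List ℤ)
    (h : chk t p = true) (hp : ∀ i : ℕ, i < p.length → P i = p.getD i 0)
    (hpM : p.length ≤ 10) :
    (∃ L : Law, L.ok = true ∧ ∀ c : ℤ → ℝ, PosDef c → (∀ k : ℕ, k ≤ M → c k = P k) →
      ∀ k, c k = L.val k) ∨ (∀ k : ℕ, 2 ≤ k → k ≤ 8 → P k = 0) ∨
      (∀ k : ℕ, 1 ≤ k → k ≤ 8 → P k = (-1) ^ k) := by
  have hA : (Law.A 3 1).ok = true := by decide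
  induction t generalizing p with
  | neg a =>
    refine Or.inl ⟨_, hA, fun c hc hcP => ?_⟩
    exfalso
    obtain ⟨H, i1, i2, i3, T, v, hv⟩ := exists_gns hc
    simp only [chk, Bool.and_eq_true, decide_eq_true_eq] at h
    have h1 := norm_vec hv a p (fun i hi => by rw [hcP i (by omega), hp i hi]) h.2
    have h2 : (0 : ℝ) ≤ (quad a p : ℤ) := by
      rw [← h1]
      positivity
    have h3 : 0 ≤ quad a p := by exact_mod_cast h2
    omega
  | leaf b z L =>
    have hL : L.ok = true := by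
      simp only [chk, Bool.and_eq_true] at h
      exact h.1.1.1.1.2
    refine Or.inl ⟨L, hL, fun c hc hcP => ?_⟩
    obtain ⟨H, i1, i2, i3, T, v, hv⟩ := exists_gns hc
    exact leaf_sound hv h (fun i hi => by rw [hcP i (by omega), hp i hi])
  | fam =>
    right
    simp only [chk, decide_eq_true_eq] at h
    rcases h with h | h
    · left
      intro k h1 h2
      have h3 := hp k (by rw [h]; simp; omega)
      rw [h] at h3
      interval_cases k <;> simpa using h3
    · right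
      intro k h1 h2
      have h3 := hp k (by rw [h]; simp; omega)
      rw [h] at h3
      interval_cases k <;> simpa using h3
  | node t₁ t₂ t₃ t₄ t₅ i1 i2 i3 i4 i5 =>
    simp only [chk, Bool.and_eq_true, decide_eq_true_eq] at h
    obtain ⟨⟨⟨⟨⟨g0, g1⟩, g2⟩, g3⟩, g4⟩, g5⟩ := h
    have hext : ∀ x : ℤ, P p.length = x → ∀ i : ℕ, i < (p ++ [x]).length →
        P i = (p ++ [x]).getD i 0 := by
      intro x hx i hi
      simp only [List.length_append, List.length_cons, List.length_nil] at hi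
      by_cases hi' : i < p.length
      · rw [hp i hi', List.getD_append _ _ _ _ hi']
      · have : i = p.length := by omega
        subst this
        rw [hx, List.getD_append_right _ _ _ _ le_rfl]
        simp
    have hl : ∀ x : ℤ, (p ++ [x]).length ≤ 10 := by
      intro x
      simp only [List.length_append, List.length_cons, List.length_nil]
      omega
    by_cases hb : -2 ≤ P p.length ∧ P p.length ≤ 2
    · have h3 : P p.length = -2 ∨ P p.length = -1 ∨ P p.length = 0 ∨ P p.length = 1 ∨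
          P p.length = 2 := by omega
      rcases h3 with h3 | h3 | h3 | h3 | h3
      · exact i1 _ g1 (hext _ h3) (hl _)
      · exact i2 _ g2 (hext _ h3) (hl _)
      · exact i3 _ g3 (hext _ h3) (hl _)
      · exact i4 _ g4 (hext _ h3) (hl _)
      · exact i5 _ g5 (hext _ h3) (hl _)
    · refine Or.inl ⟨_, hA, fun c hc hcP => ?_⟩
      exfalso
      obtain ⟨H, j1, j2, j3, T, v, hv⟩ := exists_gns hc
      have e0 : c 0 = 2 := by
        have := hcP 0 (by omega)
        rw [h0] at this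
        exact_mod_cast this
      have e1 := le_two_of hv e0 p.length
      rw [hcP p.length (by omega)] at e1
      exact hb ⟨by exact_mod_cast e1.1, by exact_mod_cast e1.2⟩

/-- The classification at a finite level. -/
theorem finite_level {P : ℕ → ℤ} {M : ℕ} (hM : 9 ≤ M) (h0 : P 0 = 2) (h1 : P 1 = -1) :
    (∀ k, 2 ≤ k → k < M → P k = 0) ∨ (∀ k, 1 ≤ k → k < M → P k = (-1) ^ k) ∨
      ∃ L : Law, L.ok = true ∧ ∀ c : ℤ → ℝ, PosDef c → (∀ k : ℕ, k ≤ M → c k = P k) →
        ∀ k, c k = L.val k := by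
  classical
  have hA : (Law.A 3 1).ok = true := by decide
  rcases chk_sound hM h0 theTree [2, -1] theTree_chk (fun i hi => by
    simp only [List.length_cons, List.length_nil] at hi
    interval_cases i
    · simpa using h0
    · simpa using h1) (by simp) with h | h | h
  · exact Or.inr (Or.inr h)
  · by_cases hall : ∀ k, 2 ≤ k → k < M → P k = 0
    · exact Or.inl hall
    right
    right
    have hex : ∃ k, 2 ≤ k ∧ k < M ∧ P k ≠ 0 := by
      push Not at hall
      obtain ⟨k, h2, h3, h4⟩ := hall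
      exact ⟨k, h2, h3, h4⟩
    obtain ⟨K, hK⟩ : ∃ K, K = Nat.find hex := ⟨_, rfl⟩
    have hK1 := Nat.find_spec hex
    rw [← hK] at hK1
    have hK2 : ∀ k, 2 ≤ k → k < K → P k = 0 := by
      intro k h2 h3
      by_contra h4
      rw [hK] at h3
      exact Nat.find_min hex h3 ⟨h2, by omega, h4⟩
    have hK9 : 9 ≤ K := by
      by_contra h4
      exact hK1.2.2 (h K hK1.1 (by omega))
    have key : ∀ c : ℤ → ℝ, PosDef c → (∀ k : ℕ, k ≤ M → c k = P k) →
        (P K = 1 ∨ P K = -1) ∧ ∀ k, c k = famA (K + 1) (-P K) k := by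
      intro c hc hcP
      obtain ⟨H, i1, i2, i3, T, v, hv⟩ := exists_gns hc
      refine fam_zeroR hv hK9 ?_ ?_ ?_ (e := P K) (e' := P (K + 1)) (hcP K (by omega)) ?_ hK1.2.2
      · have := hcP 0 (by omega)
        rw [h0] at this
        exact_mod_cast this
      · have := hcP 1 (by omega)
        rw [h1] at this
        exact_mod_cast this
      · intro k h2 h3
        lift k to ℕ using by omega
        rw [hcP k (by omega), hK2 k (by omega) (by omega), Int.cast_zero]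
      · have := hcP (K + 1) (by omega)
        exact_mod_cast this
    by_cases he : P K = 1 ∨ P K = -1
    · refine ⟨.A (K + 1) (-P K), ?_, fun c hc hcP => (key c hc hcP).2⟩
      simp only [Law.ok, decide_eq_true_eq]
      omega
    · exact ⟨_, hA, fun c hc hcP => absurd (key c hc hcP).1 he⟩
  · by_cases hall : ∀ k, 1 ≤ k → k < M → P k = (-1) ^ k
    · exact Or.inr (Or.inl hall)
    right
    right
    have hex : ∃ k, 1 ≤ k ∧ k < M ∧ P k ≠ (-1) ^ k := by
      push Not at hall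
      obtain ⟨k, h2, h3, h4⟩ := hall
      exact ⟨k, h2, h3, h4⟩
    obtain ⟨q, hq⟩ : ∃ q, q = Nat.find hex := ⟨_, rfl⟩
    have hq1 := Nat.find_spec hex
    rw [← hq] at hq1
    have hq2 : ∀ k, 1 ≤ k → k < q → P k = (-1) ^ k := by
      intro k h2 h3
      by_contra h4
      rw [hq] at h3
      exact Nat.find_min hex h3 ⟨h2, by omega, h4⟩
    have hq9 : 9 ≤ q := by
      by_contra h4
      exact hq1.2.2 (h q hq1.1 (by omega))
    have key : ∀ c : ℤ → ℝ, PosDef c → (∀ k : ℕ, k ≤ M → c k = P k) →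
        (P q - (-1) ^ q = 1 ∨ P q - (-1) ^ q = -1) ∧ ∀ k, c k = famD q (P q - (-1) ^ q) k := by
      intro c hc hcP
      obtain ⟨H, i1, i2, i3, T, v, hv⟩ := exists_gns hc
      refine fam_altR hv hq9 ?_ ?_ (e := P q) (e' := P (q + 1)) (hcP q (by omega)) ?_ hq1.2.2
      · have := hcP 0 (by omega)
        rw [h0] at this
        exact_mod_cast this
      · intro k h2 h3
        lift k to ℕ using by omega
        rw [hcP k (by omega), hq2 k (by omega) (by omega)]
        push_cast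
        simp
      · have := hcP (q + 1) (by omega)
        exact_mod_cast this
    by_cases he : P q - (-1) ^ q = 1 ∨ P q - (-1) ^ q = -1
    · refine ⟨.D q (P q - (-1) ^ q), ?_, fun c hc hcP => (key c hc hcP).2⟩
      simp only [Law.ok, decide_eq_true_eq]
      exact ⟨by omega, he⟩
    · exact ⟨_, hA, fun c hc hcP => absurd (key c hc hcP).1 he⟩

end Pool.Agent.EEAG1

namespace Pool.Agent.EEAG1

open Filter Topology
open scoped InnerProductSpace

theorem psum_sum {a : Nat.Primes → ℂ} (ha : ∀ p, ‖a p‖ = 1) {ι : Type} (t : Finset ι)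
    {F : ι → ℂ → ℝ} (hF : ∀ i ∈ t, Bdc (F i)) {s : ℝ} (hs : 1 < s) :
    psum a (fun z => ∑ i ∈ t, F i z) s = ∑ i ∈ t, psum a (F i) s := by
  unfold psum
  rw [← Summable.tsum_finsetSum fun i hi => summable_psum ha (hF i hi) hs]
  exact tsum_congr fun p => Finset.sum_mul _ _ _

/-- The means for a fixed `s > 1` form a positive definite sequence. -/
theorem posDef_at {a : Nat.Primes → ℂ} (ha : ∀ p, ‖a p‖ = 1) {s : ℝ} (hs : 1 < s) :
    PosDef fun k => psum a (fun z => 2 * (z ^ k).re) s / pz s := by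
  refine ⟨fun k => ?_, fun x => ?_⟩
  · congr 1
    unfold psum
    refine tsum_congr fun p => ?_
    show 2 * (a p ^ (-k)).re * _ = 2 * (a p ^ k).re * _
    rw [A5_re (ha p)]
  · have h2 : (x.sum fun i b => x.sum fun j d =>
        b * d * (psum a (fun z => 2 * (z ^ (i - j)).re) s / pz s)) =
        psum a (fun z => ∑ p ∈ x.support ×ˢ x.support,
          x p.1 * x p.2 * (2 * (z ^ (p.1 - p.2)).re)) s / pz s := by
      rw [psum_sum ha _ (fun p _ => A5_mul_bd (A5_re_bd _) _) hs, Finset.sum_div, Finset.sum_product]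
      unfold Finsupp.sum
      refine Finset.sum_congr rfl fun i _ => Finset.sum_congr rfl fun j _ => ?_
      show x i * x j * (psum a (fun z => 2 * (z ^ (i - j)).re) s / pz s) =
        psum a (fun z => x i * x j * (2 * (z ^ (i - j)).re)) s / pz s
      unfold psum
      rw [← mul_div_assoc, ← tsum_mul_left]
      congr 1
      exact tsum_congr fun p => by ring
    rw [h2]
    refine div_nonneg (tsum_nonneg fun p => mul_nonneg ?_ (Mean_pow_pos p s).le) (pz_pos hs).le
    show 0 ≤ ∑ q ∈ x.support ×ˢ x.support, x q.1 * x q.2 * (2 * (a p ^ (q.1 - q.2)).re)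
    have hz := ha p
    generalize a p = z at hz
    have hz0 : z ≠ 0 := by
      rintro rfl
      rw [norm_zero] at hz
      exact zero_ne_one hz
    have h3 : (∑ i ∈ x.support, (x i : ℂ) * z ^ i) *
        (starRingEnd ℂ) (∑ i ∈ x.support, (x i : ℂ) * z ^ i) =
        ∑ p ∈ x.support ×ˢ x.support, ((x p.1 * x p.2 : ℝ) : ℂ) * z ^ (p.1 - p.2) := by
      rw [map_sum, Finset.sum_mul_sum, Finset.sum_product]
      refine Finset.sum_congr rfl fun i _ => Finset.sum_congr rfl fun j _ => ?_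
      rw [map_mul, Complex.conj_ofReal, ← A5_inv hz, sub_eq_add_neg, zpow_add₀ hz0]
      push_cast
      ring
    have h4 : ∑ p ∈ x.support ×ˢ x.support, x p.1 * x p.2 * (2 * (z ^ (p.1 - p.2)).re) =
        2 * ((∑ i ∈ x.support, (x i : ℂ) * z ^ i) *
          (starRingEnd ℂ) (∑ i ∈ x.support, (x i : ℂ) * z ^ i)).re := by
      rw [h3, Complex.re_sum, Finset.mul_sum]
      refine Finset.sum_congr rfl fun p _ => ?_
      rw [Complex.re_ofReal_mul]
      ring
    rw [h4, Complex.mul_conj, Complex.ofReal_re]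
    exact mul_nonneg (by norm_num) (Complex.normSq_nonneg _)

/-- The limits of the means along an ultrafilter. -/
theorem exists_ultra {a : Nat.Primes → ℂ} (ha : ∀ p, ‖a p‖ = 1) (U : Ultrafilter ℝ)
    (hU : (U : Filter ℝ) ≤ 𝓝[>] 1) : ∃ c : ℤ → ℝ, PosDef c ∧
      ∀ k : ℤ, Tendsto (fun s => psum a (fun z => 2 * (z ^ k).re) s / pz s) U (𝓝 (c k)) := by
  have hev : ∀ᶠ s in (U : Filter ℝ), 1 < s := hU Mean_ev
  have hlim : ∀ k : ℤ, ∃ x : ℝ,
      Tendsto (fun s => psum a (fun z => 2 * (z ^ k).re) s / pz s) U (𝓝 x) := by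
    intro k
    obtain ⟨C, hC⟩ := A5_re_bd k
    have h1 : ∀ᶠ s in (U : Filter ℝ), psum a (fun z => 2 * (z ^ k).re) s / pz s ∈
        Set.Icc (-C) C := by
      filter_upwards [hev] with s hs
      exact abs_le.1 (abs_psum_le ha hC hs)
    have h2 := (isCompact_Icc (a := -C) (b := C)).ultrafilter_le_nhds
      (U.map fun s => psum a (fun z => 2 * (z ^ k).re) s / pz s)
      (by
        rw [Ultrafilter.coe_map, Filter.le_principal_iff]
        exact h1)
    obtain ⟨x, _, hx⟩ := h2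
    exact ⟨x, hx⟩
  choose c hc using hlim
  refine ⟨c, ⟨fun k => ?_, fun x => ?_⟩, hc⟩
  · refine tendsto_nhds_unique ((hc (-k)).congr' ?_) (hc k)
    filter_upwards [hev] with s hs
    exact (posDef_at ha hs).symm k
  · have h1 : Tendsto (fun s => x.sum fun i b => x.sum fun j d =>
        b * d * (psum a (fun z => 2 * (z ^ (i - j)).re) s / pz s)) U
        (𝓝 (x.sum fun i b => x.sum fun j d => b * d * c (i - j))) := by
      unfold Finsupp.sum
      exact tendsto_finsetSum _ fun i _ => tendsto_finsetSum _ fun j _ => (hc (i - j)).const_mul _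
    refine ge_of_tendsto h1 ?_
    filter_upwards [hev] with s hs
    exact (posDef_at ha hs).nonneg x

/-- If the first moments are integers which determine the sequence, then all moments exist. -/
theorem mean_of_level {a : Nat.Primes → ℂ} (ha : ∀ p, ‖a p‖ = 1) {P : ℕ → ℤ} {M : ℕ} {L : ℤ → ℤ}
    (hL : ∀ c : ℤ → ℝ, PosDef c → (∀ k : ℕ, k ≤ M → c k = P k) → ∀ k, c k = L k)
    (hP : ∀ k : ℕ, k ≤ M → Mean a (fun z => 2 * (z ^ (k : ℤ)).re) (P k)) (k : ℤ) :
    Mean a (fun z => 2 * (z ^ k).re) (L k) := by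
  unfold Mean
  rw [tendsto_iff_ultrafilter]
  intro U hU
  obtain ⟨c, hc, hc'⟩ := exists_ultra ha U hU
  have h1 := hL c hc (fun j hj => tendsto_nhds_unique (hc' j) ((hP j hj).mono_left hU)) k
  rw [← h1]
  exact hc' k

end Pool.Agent.EEAG1

namespace Pool.Agent.EEAG1

theorem finType_val {L : Law} (h : L.ok = true) : FinType L.val := by
  cases L with
  | A N η =>
    simp only [Law.ok, decide_eq_true_eq] at h
    exact Or.inl ⟨N, η, h.1, h.2, rfl⟩
  | D N η =>
    simp only [Law.ok, decide_eq_true_eq] at h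
    exact Or.inr (Or.inl ⟨N, η, h.1, h.2, rfl⟩)
  | E i =>
    simp only [Law.ok, decide_eq_true_eq] at h
    refine Or.inr (Or.inr ⟨excL.getD i [], ?_, rfl⟩)
    rw [List.getD_eq_getElem _ _ h]
    exact List.getElem_mem h

end Pool.Agent.EEAG1

namespace Pool.Agent.EEAG1

theorem Short_exc : ∀ l ∈ excL, per l 2 = 0 → per l 3 = 0 → per l 4 = 0 →
    l = [2, -1, 0, 0, 0, 0, 1, -1, 0, 0, 1, -1, 1, -1, 0, 1, 0, -1, 1, -1, 1, 0, 0, -1, 1, 0, 0, 0,
    0, -1] ∨
    l = [2, -1, 0, 0, 0, 1, -1, 0, 1, -1, 1, -1, 1, 0, -1, 1, 0, 0, 0, -1] ∨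
    l = [2, -1, 0, 0, 0, 1, -1, 0, 0, 1, -1, 0, 0, 0, 1, -2, 1, 0, 0, 0, -1, 1, 0, 0, -1, 1, 0, 0,
    0, -1] := by
  decide

theorem Short_comb_zero (N : ℕ) (η k : ℤ) (h : ¬ (N : ℤ) ∣ k) : comb N η k = 0 := by
  unfold comb
  rw [if_neg h]

theorem Short_comb_self (N : ℕ) (hN : 1 ≤ N) (η : ℤ) : comb N η N = η := by
  unfold comb
  have h0 : (N : ℤ) ≠ 0 := by omega
  rw [if_pos (dvd_refl _), Int.ediv_self h0]
  simp

/-- `famA N η` has `c (N - 1) = - η`, so `N ≥ 6` (for `N = 3, 4, 5` one of `c 2, c 3, c 4` is not `0`);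
`famD N η` has `c 2 = 1 + comb N η 2`, so `N = 2` and `c 3 = -1`; `excL` is finite (`decide`, with
`per l 2 = l.getD 2 0` etc.). -/
theorem short_of {c : ℤ → ℤ} (hc : FinType c) (h2 : c 2 = 0) (h3 : c 3 = 0) (h4 : c 4 = 0) :
    ShortType c := by
  rcases hc with ⟨N, η, hN, hη, rfl⟩ | ⟨N, η, hN, hη, rfl⟩ | ⟨l, hl, rfl⟩
  · left
    refine ⟨N, η, ?_, hη, rfl⟩
    have hη0 : η ≠ 0 := by rcases hη with h | h <;> omega
    by_contra hlt
    have h5 : N = 3 ∨ N = 4 ∨ N = 5 := by omega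
    rcases h5 with rfl | rfl | rfl
    · unfold famA at h2
      rw [Short_comb_zero 3 η 2 (by decide), Short_comb_zero 3 η (2 - 1) (by decide)] at h2
      have h6 : comb 3 η (2 + 1) = η := Short_comb_self 3 (by decide) η
      rw [h6] at h2
      omega
    · unfold famA at h3
      rw [Short_comb_zero 4 η 3 (by decide), Short_comb_zero 4 η (3 - 1) (by decide)] at h3
      have h6 : comb 4 η (3 + 1) = η := Short_comb_self 4 (by decide) η
      rw [h6] at h3
      omega
    · unfold famA at h4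
      rw [Short_comb_zero 5 η 4 (by decide), Short_comb_zero 5 η (4 - 1) (by decide)] at h4
      have h6 : comb 5 η (4 + 1) = η := Short_comb_self 5 (by decide) η
      rw [h6] at h4
      omega
  · exfalso
    unfold famD at h2 h3
    by_cases hd : (N : ℤ) ∣ 2
    · have hN2 : N = 2 := by
        have := Int.le_of_dvd (by decide) hd
        omega
      subst hN2
      rw [Short_comb_zero 2 η 3 (by decide)] at h3
      revert h3
      decide
    · rw [Short_comb_zero N η 2 hd] at h2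
      revert h2
      decide
  · right
    rcases Short_exc l hl h2 h3 h4 with rfl | rfl | rfl
    · exact Or.inl rfl
    · exact Or.inr (Or.inl rfl)
    · exact Or.inr (Or.inr rfl)

end Pool.Agent.EEAG1
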