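import Pool.Agent.W_eea520_G.A

/-!
# Euler products on the line (MP_eea520_nt, edge theorem)
-/

set_option autoImplicit false

namespace Pool.Agent.EEA520

open Filter Topology Pool.Agent.EEAG1

/-- The sum over the primes. -/
noncomputable def psm (f : Pr → ℝ) (s : ℝ) : ℝ := ∑' p : Pr, f p * ((p : ℕ) : ℝ) ^ (-s)

/-- `L` is the mean value of `f`. -/
def MeanP (f : Pr → ℝ) (L : ℝ) : Prop := Tendsto (fun s : ℝ => psm f s / pz s) (𝓝[>] 1) (𝓝 L)

/-- bounded functions -/
def BdP (f : Pr → ℝ) : Prop := ∃ C : ℝ, ∀ p, |f p| ≤ C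

theorem BdP.add {f g : Pr → ℝ} (hf : BdP f) (hg : BdP g) : BdP fun p => f p + g p := by
  obtain ⟨C, hC⟩ := hf
  obtain ⟨D, hD⟩ := hg
  exact ⟨C + D, fun p => (abs_add_le _ _).trans (add_le_add (hC p) (hD p))⟩

theorem BdP.const_mul {f : Pr → ℝ} (hf : BdP f) (r : ℝ) : BdP fun p => r * f p := by
  obtain ⟨C, hC⟩ := hf
  refine ⟨|r| * C, fun p => ?_⟩
  rw [abs_mul]
  exact mul_le_mul_of_nonneg_left (hC p) (abs_nonneg r)

theorem BdP.sum {ι : Type*} (t : Finset ι) {F : ι → Pr → ℝ} (hF : ∀ i ∈ t, BdP (F i)) :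
    BdP fun p => ∑ i ∈ t, F i p := by
  classical
  induction t using Finset.induction_on with
  | empty => exact ⟨0, fun p => by simp⟩
  | insert i t hi ih =>
    have h1 := (hF i (Finset.mem_insert_self i t)).add
      (ih fun j hj => hF j (Finset.mem_insert_of_mem hj))
    obtain ⟨C, hC⟩ := h1
    exact ⟨C, fun p => by
      show |∑ i ∈ insert i t, F i p| ≤ C
      rw [Finset.sum_insert hi]
      exact hC p⟩

theorem summable_psm {f : Pr → ℝ} (hf : BdP f) {s : ℝ} (hs : 1 < s) :
    Summable fun p : Pr => f p * ((p : ℕ) : ℝ) ^ (-s) := by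
  obtain ⟨C, hC⟩ := hf
  refine Summable.of_norm_bounded ((summable_pz hs).mul_left C) fun p => ?_
  rw [Real.norm_eq_abs, abs_mul, abs_of_pos (Mean_pow_pos p s)]
  exact mul_le_mul_of_nonneg_right (hC p) (Mean_pow_pos p s).le

theorem MeanP.one : MeanP (fun _ => 1) 1 := by
  refine Tendsto.congr' ?_ tendsto_const_nhds
  filter_upwards [Mean_ev] with s hs
  have h1 : psm (fun _ => 1) s = pz s := by
    unfold psm pz
    simp only [one_mul]
  rw [h1, div_self (pz_pos hs).ne']

theorem MeanP.add {f g : Pr → ℝ} (hf : BdP f) (hg : BdP g) {L M : ℝ} (h : MeanP f L)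
    (h' : MeanP g M) : MeanP (fun p => f p + g p) (L + M) := by
  refine Tendsto.congr' ?_ (Tendsto.add h h')
  filter_upwards [Mean_ev] with s hs
  have h1 : psm (fun p => f p + g p) s = psm f s + psm g s := by
    unfold psm
    rw [← (summable_psm hf hs).tsum_add (summable_psm hg hs)]
    exact tsum_congr fun p => add_mul _ _ _
  rw [h1, add_div]

theorem MeanP.const_mul {f : Pr → ℝ} {L : ℝ} (h : MeanP f L) (r : ℝ) :
    MeanP (fun p => r * f p) (r * L) := by
  refine Tendsto.congr (fun s => ?_) (Tendsto.const_mul r h)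
  have h1 : psm (fun p => r * f p) s = r * psm f s := by
    unfold psm
    rw [← tsum_mul_left]
    exact tsum_congr fun p => mul_assoc _ _ _
  rw [h1, mul_div_assoc]

theorem MeanP.sum {ι : Type*} (t : Finset ι) {F : ι → Pr → ℝ} (hF : ∀ i ∈ t, BdP (F i))
    {L : ι → ℝ} (h : ∀ i ∈ t, MeanP (F i) (L i)) :
    MeanP (fun p => ∑ i ∈ t, F i p) (∑ i ∈ t, L i) := by
  classical
  induction t using Finset.induction_on with
  | empty =>
    have h1 := MeanP.one.const_mul 0
    simpa using h1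
  | insert i t hi ih =>
    have h1 := ih (fun j hj => hF j (Finset.mem_insert_of_mem hj))
      (fun j hj => h j (Finset.mem_insert_of_mem hj))
    have h2 := MeanP.add (hF i (Finset.mem_insert_self i t))
      (BdP.sum t fun j hj => hF j (Finset.mem_insert_of_mem hj))
      (h i (Finset.mem_insert_self i t)) h1
    rw [Finset.sum_insert hi]
    refine h2.congr fun s => ?_
    congr 2
    funext p
    rw [Finset.sum_insert hi]

theorem MeanP.nonneg {f : Pr → ℝ} {L : ℝ} (h : MeanP f L) (hf : ∀ p, 0 ≤ f p) : 0 ≤ L := by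
  refine ge_of_tendsto h (Eventually.of_forall fun s => ?_)
  exact div_nonneg (tsum_nonneg fun p => mul_nonneg (hf p) (Mean_pow_pos p s).le)
    (tsum_nonneg fun p => (Mean_pow_pos p s).le)

theorem MeanP.unique {f : Pr → ℝ} {L M : ℝ} (h : MeanP f L) (h' : MeanP f M) : L = M :=
  tendsto_nhds_unique h h'

/-- If `psm f s = -m log (s - 1) + O(1)`, then the mean value is `m`. -/
theorem meanP_of_log {f : Pr → ℝ} {m C : ℝ}
    (h : ∀ᶠ s : ℝ in 𝓝[>] 1, |psm f s + m * Real.log (s - 1)| ≤ C) : MeanP f m := by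
  obtain ⟨D, hD⟩ := pz_asymp
  unfold MeanP
  rw [tendsto_iff_norm_sub_tendsto_zero]
  have h1 : Tendsto (fun s : ℝ => (C + |m| * D) / pz s) (𝓝[>] 1) (𝓝 0) :=
    pz_atTop.const_div_atTop _
  refine squeeze_zero' (Eventually.of_forall fun s => norm_nonneg _) ?_ h1
  filter_upwards [h, hD, self_mem_nhdsWithin] with s h2 h3 hs
  have hs' : (1 : ℝ) < s := hs
  have hz := pz_pos hs'
  have e : psm f s / pz s - m =
      ((psm f s + m * Real.log (s - 1)) - m * (pz s + Real.log (s - 1))) / pz s := by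
    field_simp
    ring
  rw [Real.norm_eq_abs, e, abs_div, abs_of_pos hz]
  refine div_le_div_of_nonneg_right ?_ hz.le
  refine (abs_sub _ _).trans ?_
  rw [abs_mul]
  have := mul_le_mul_of_nonneg_left h3 (abs_nonneg m)
  linarith

/-- The real number `Re (w(π_p) p ^ (-i t))`. -/
noncomputable def zre {n : ℕ} (π : GSys n) (w : Wt n) (t : ℝ) (p : Pr) : ℝ :=
  (((π p).ev w : ℂ) * (((p : ℕ) : ℂ) ^ (-(t * Complex.I)))).re

/-- The real part of the trace. -/
noncomputable def tre {n : ℕ} (π : GSys n) (m : Wt n →₀ ℤ) (t : ℝ) (p : Pr) : ℝ :=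
  m.sum fun w e => (e : ℝ) * zre π w t p

theorem norm_ev {n : ℕ} {π : GSys n} (hπ : Tempered π) (p : Pr) (w : Wt n) :
    ‖((π p).ev w : ℂ)‖ = 1 := by
  unfold Torus.ev
  rw [Units.val_mul, Units.val_zpow_eq_zpow_val, norm_mul, norm_zpow, (hπ p).1, one_zpow, one_mul,
    Units.coe_prod, norm_prod]
  refine Finset.prod_eq_one fun i _ => ?_
  rw [Units.val_zpow_eq_zpow_val, norm_zpow, (hπ p).2, one_zpow]

theorem norm_pit (p : Pr) (t : ℝ) : ‖(((p : ℕ) : ℂ) ^ (-(t * Complex.I)))‖ = 1 := by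
  rw [← neg_mul, ← Complex.ofReal_neg]
  have h := Complex.norm_natCast_cpow_of_pos p.2.pos (((-t : ℝ) : ℂ) * Complex.I)
  rw [h]
  simp

theorem zre_le {n : ℕ} {π : GSys n} (hπ : Tempered π) (w : Wt n) (t : ℝ) (p : Pr) :
    |zre π w t p| ≤ 1 := by
  unfold zre
  refine (Complex.abs_re_le_norm _).trans ?_
  rw [norm_mul, norm_ev hπ, norm_pit, one_mul]

theorem bdP_zre {n : ℕ} {π : GSys n} (hπ : Tempered π) (w : Wt n) (t : ℝ) : BdP (zre π w t) :=
  ⟨1, zre_le hπ w t⟩

theorem bdP_tre {n : ℕ} {π : GSys n} (hπ : Tempered π) (m : Wt n →₀ ℤ) (t : ℝ) :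
    BdP (tre π m t) :=
  BdP.sum _ fun w _ => (bdP_zre hπ w t).const_mul _

end Pool.Agent.EEA520

namespace Pool.Agent.EEA520

open Filter Topology Pool.Agent.EEAG1

variable {n : ℕ}

/-- The logarithm of the factor. -/
noncomputable def lfac (t : Torus n) (m : Wt n →₀ ℤ) (q : ℂ) : ℂ :=
  m.sum fun w e => -((e : ℂ) * Complex.log (1 - (t.ev w : ℂ) * q))

/-- The trace times `q`. -/
noncomputable def trq (t : Torus n) (m : Wt n →₀ ℤ) (q : ℂ) : ℂ :=
  m.sum fun w e => (e : ℂ) * ((t.ev w : ℂ) * q)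

/-- The sum of the absolute values of the multiplicities. -/
noncomputable def mnorm (m : Wt n →₀ ℤ) : ℝ := m.sum fun _ e => |(e : ℝ)|

theorem mnorm_nonneg (m : Wt n →₀ ℤ) : 0 ≤ mnorm m := by
  unfold mnorm
  exact Finset.sum_nonneg fun w _ => abs_nonneg _

theorem exp_lfac {t : Torus n} (ht : ∀ w, ‖(t.ev w : ℂ)‖ = 1) (m : Wt n →₀ ℤ) {q : ℂ}
    (hq : ‖q‖ ≤ 1 / 2) : Complex.exp (lfac t m q) = t.factor m q := by
  unfold lfac Torus.factor Finsupp.sum Finsupp.prod
  rw [Complex.exp_sum]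
  refine Finset.prod_congr rfl fun w _ => ?_
  have h1 : (1 : ℂ) - (t.ev w : ℂ) * q ≠ 0 := by
    intro h0
    have h2 : (t.ev w : ℂ) * q = 1 := (sub_eq_zero.1 h0).symm
    have h3 : ‖(t.ev w : ℂ) * q‖ = 1 := by rw [h2, norm_one]
    rw [norm_mul, ht, one_mul] at h3
    rw [h3] at hq
    norm_num at hq
  show Complex.exp (-(((m w : ℤ) : ℂ) * Complex.log (1 - (t.ev w : ℂ) * q))) =
    (1 - (t.ev w : ℂ) * q) ^ (-(m w))
  rw [Complex.exp_neg, Complex.exp_int_mul, Complex.exp_log h1, zpow_neg]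

theorem lfac_bound {t : Torus n} (ht : ∀ w, ‖(t.ev w : ℂ)‖ = 1) (m : Wt n →₀ ℤ) {q : ℂ}
    (hq : ‖q‖ ≤ 1 / 2) : ‖lfac t m q - trq t m q‖ ≤ mnorm m * ‖q‖ ^ 2 := by
  unfold lfac trq mnorm Finsupp.sum
  rw [← Finset.sum_sub_distrib, Finset.sum_mul]
  refine norm_sum_le_of_le _ fun w _ => ?_
  have hz : ‖-((t.ev w : ℂ) * q)‖ = ‖q‖ := by rw [norm_neg, norm_mul, ht, one_mul]
  have h2 := Complex.norm_log_one_add_sub_self_le (z := -((t.ev w : ℂ) * q)) (by rw [hz]; linarith)
  rw [hz] at h2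
  have h3 : -(((m w : ℤ) : ℂ) * Complex.log (1 - (t.ev w : ℂ) * q)) -
      ((m w : ℤ) : ℂ) * ((t.ev w : ℂ) * q) =
      -((m w : ℤ) : ℂ) * (Complex.log (1 + -((t.ev w : ℂ) * q)) - -((t.ev w : ℂ) * q)) := by
    rw [← sub_eq_add_neg]
    ring
  rw [h3, norm_mul, norm_neg, Complex.norm_intCast]
  refine mul_le_mul_of_nonneg_left (h2.trans ?_) (abs_nonneg _)
  have h4 : (1 - ‖q‖)⁻¹ ≤ 2 := by
    rw [inv_le_comm₀ (by linarith) (by norm_num)]
    linarith
  have h5 : 0 ≤ ‖q‖ ^ 2 := by positivity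
  nlinarith [mul_le_mul_of_nonneg_left h4 h5]

theorem trq_bound {t : Torus n} (ht : ∀ w, ‖(t.ev w : ℂ)‖ = 1) (m : Wt n →₀ ℤ) (q : ℂ) :
    ‖trq t m q‖ ≤ mnorm m * ‖q‖ := by
  unfold trq mnorm Finsupp.sum
  rw [Finset.sum_mul]
  refine norm_sum_le_of_le _ fun w _ => ?_
  rw [norm_mul, norm_mul, ht, one_mul, Complex.norm_intCast]

/-- On a horizontal half line. -/
theorem log_prodP {π : GSys n} (hπ : Tempered π) (m : Wt n →₀ ℤ) : ∃ C : ℝ, ∀ (t s : ℝ), 1 < s →
    ∀ P : ℂ, HasProd (fun p : Pr => (π p).factor m (((p : ℕ) : ℂ) ^ (-((s : ℂ) + t * Complex.I)))) P →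
      P ≠ 0 ∧ |Real.log ‖P‖ - psm (tre π m t) s| ≤ C := by
  have hsum2 : Summable fun p : Pr => ((p : ℕ) : ℝ) ^ (-2 : ℝ) :=
    Nat.Primes.summable_rpow.2 (by norm_num)
  refine ⟨∑' p : Pr, mnorm m * ((p : ℕ) : ℝ) ^ (-2 : ℝ), fun t s hs P hP => ?_⟩
  have hp2 : ∀ p : Pr, (2 : ℝ) ≤ ((p : ℕ) : ℝ) := fun p => by exact_mod_cast p.2.two_le
  set r : Pr → ℝ := fun p => ((p : ℕ) : ℝ) ^ (-s) with hr
  set q : Pr → ℂ := fun p => ((p : ℕ) : ℂ) ^ (-((s : ℂ) + t * Complex.I)) with hq
  have hqr : ∀ p, q p = (((p : ℕ) : ℂ) ^ (-(t * Complex.I))) * ((r p : ℝ) : ℂ) := by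
    intro p
    simp only [hq, hr]
    rw [Complex.ofReal_cpow (by linarith [hp2 p])]
    push_cast
    rw [← Complex.cpow_add _ _ (by exact_mod_cast p.2.ne_zero)]
    congr 1
    ring
  have hr0 : ∀ p, 0 < r p := fun p => Real.rpow_pos_of_pos (by linarith [hp2 p]) _
  have hr1 : ∀ p, r p ≤ ((p : ℕ) : ℝ) ^ (-1 : ℝ) := fun p =>
    Real.rpow_le_rpow_of_exponent_le (by linarith [hp2 p]) (by linarith)
  have hnq : ∀ p, ‖q p‖ = r p := by
    intro p
    rw [hqr p, norm_mul, norm_pit, one_mul, Complex.norm_real, Real.norm_of_nonneg (hr0 p).le]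
  have hhalf : ∀ p, ‖q p‖ ≤ 1 / 2 := by
    intro p
    rw [hnq p]
    refine (hr1 p).trans ?_
    rw [Real.rpow_neg_one, one_div]
    exact inv_anti₀ (by norm_num) (hp2 p)
  have hsq : ∀ p, ‖q p‖ ^ 2 ≤ ((p : ℕ) : ℝ) ^ (-2 : ℝ) := by
    intro p
    rw [hnq p]
    have h1 : ((p : ℕ) : ℝ) ^ (-2 : ℝ) = (((p : ℕ) : ℝ) ^ (-1 : ℝ)) ^ 2 := by
      rw [← Real.rpow_natCast, ← Real.rpow_mul (by linarith [hp2 p])]
      norm_num
    rw [h1]
    exact pow_le_pow_left₀ (hr0 p).le (hr1 p) 2
  have hsr : Summable r := Nat.Primes.summable_rpow.2 (by linarith)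
  have hev : ∀ p w, ‖((π p).ev w : ℂ)‖ = 1 := fun p w => norm_ev hπ p w
  -- the difference
  have hD : ∀ p, ‖lfac (π p) m (q p) - trq (π p) m (q p)‖ ≤
      mnorm m * ((p : ℕ) : ℝ) ^ (-2 : ℝ) := fun p =>
    (lfac_bound (hev p) m (hhalf p)).trans (mul_le_mul_of_nonneg_left (hsq p) (mnorm_nonneg m))
  have hsumC : Summable fun p : Pr => mnorm m * ((p : ℕ) : ℝ) ^ (-2 : ℝ) := hsum2.mul_left _
  have hsumD : Summable fun p => lfac (π p) m (q p) - trq (π p) m (q p) :=
    Summable.of_norm_bounded hsumC hD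
  have hsumX : Summable fun p => trq (π p) m (q p) := by
    refine Summable.of_norm_bounded (hsr.mul_left (mnorm m)) fun p => ?_
    rw [← hnq p]
    exact trq_bound (hev p) m (q p)
  have hsuml : Summable fun p => lfac (π p) m (q p) := by
    refine (hsumD.add hsumX).congr fun p => ?_
    ring
  have hprod : HasProd (fun p : Pr => (π p).factor m (q p))
      (Complex.exp (∑' p, lfac (π p) m (q p))) := by
    have h1 := hsuml.hasSum.cexp
    have h2 : (Complex.exp ∘ fun p => lfac (π p) m (q p)) =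
        fun p : Pr => (π p).factor m (q p) := by
      funext p
      exact exp_lfac (hev p) m (hhalf p)
    rw [h2] at h1
    exact h1
  have hPe : P = Complex.exp (∑' p, lfac (π p) m (q p)) := hP.unique hprod
  refine ⟨by rw [hPe]; exact Complex.exp_ne_zero _, ?_⟩
  rw [hPe, Complex.norm_exp, Real.log_exp]
  have hps : psm (tre π m t) s = (∑' p, trq (π p) m (q p)).re := by
    rw [Complex.re_tsum hsumX]
    unfold psm
    refine tsum_congr fun p => ?_
    rw [hqr p]
    unfold tre trq Finsupp.sum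
    rw [Complex.re_sum, Finset.sum_mul]
    refine Finset.sum_congr rfl fun w _ => ?_
    show ((m w : ℤ) : ℝ) * zre π w t p * r p =
      (((m w : ℤ) : ℂ) * (((π p).ev w : ℂ) * ((((p : ℕ) : ℂ) ^ (-(t * Complex.I))) *
        ((r p : ℝ) : ℂ)))).re
    unfold zre
    rw [← mul_assoc ((π p).ev w : ℂ), ← Complex.ofReal_intCast, Complex.re_ofReal_mul,
      Complex.re_mul_ofReal, mul_assoc]
  rw [hps, ← Complex.sub_re, ← hsuml.tsum_sub hsumX]
  exact (Complex.abs_re_le_norm _).trans (tsum_of_norm_bounded hsumC.hasSum hD)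

theorem tendsto_pt (t : ℝ) : Tendsto (fun s : ℝ => (s : ℂ) + t * Complex.I) (𝓝[>] 1)
    (𝓝[{s | 1 < s.re}] (pt t)) := by
  refine tendsto_nhdsWithin_iff.2 ⟨?_, ?_⟩
  · have h1 : ContinuousAt (fun s : ℝ => (s : ℂ) + t * Complex.I) 1 := by fun_prop
    have h2 := h1.tendsto
    have h3 : ((1 : ℝ) : ℂ) + t * Complex.I = pt t := by unfold pt; push_cast; rfl
    rw [h3] at h2
    exact h2.mono_left nhdsWithin_le_nhds
  · filter_upwards [self_mem_nhdsWithin] with s hs
    have : (1 : ℝ) < s := hs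
    simpa using this

/-- Translation of `log_meromorphic`. -/
theorem log_meromorphic_pt {g : ℂ → ℂ} {t : ℝ} (hg : MeromorphicAt g (pt t))
    (h0 : ∀ᶠ s : ℝ in 𝓝[>] 1, g ((s : ℂ) + t * Complex.I) ≠ 0) :
    ∃ k : ℤ, meromorphicOrderAt g (pt t) = k ∧
      ∃ C : ℝ, ∀ᶠ s : ℝ in 𝓝[>] 1,
        |Real.log ‖g ((s : ℂ) + t * Complex.I)‖ - k * Real.log (s - 1)| ≤ C := by
  have h1 : (fun z : ℂ => z + t * Complex.I) 1 = pt t := rfl
  have hf : AnalyticAt ℂ (fun z : ℂ => z + t * Complex.I) 1 := by fun_prop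
  have hm : MeromorphicAt (g ∘ fun z : ℂ => z + t * Complex.I) 1 := by
    refine MeromorphicAt.comp_analyticAt ?_ hf
    exact hg
  obtain ⟨k, hk, hC⟩ := log_meromorphic hm h0
  refine ⟨k, ?_, hC⟩
  rw [← hk]
  have hd : deriv (fun z : ℂ => z + t * Complex.I) 1 ≠ 0 := by
    simp
  rw [meromorphicOrderAt_comp_of_deriv_ne_zero hf hd]
  rfl

/-- A meromorphic continuation has an integral order. -/
theorem exists_poleOrder {π : GSys n} (hπ : Tempered π) {m : Wt n →₀ ℤ} {t : ℝ}
    (h : MeroAt π m (pt t)) : ∃ k : ℤ, PoleOrder π m (pt t) k := by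
  obtain ⟨g, hg, hL⟩ := h
  obtain ⟨C, hC⟩ := log_prodP hπ m
  have h0 : ∀ᶠ s : ℝ in 𝓝[>] 1, g ((s : ℂ) + t * Complex.I) ≠ 0 := by
    filter_upwards [(tendsto_pt t).eventually hL, self_mem_nhdsWithin] with s hs hs1
    exact (hC t s hs1 _ hs).1
  obtain ⟨k, hk, -⟩ := log_meromorphic_pt hg h0
  exact ⟨-k, g, hg, by rw [neg_neg]; exact hk, hL⟩

/-- The order of the pole is the mean value of the trace. -/
theorem mean_of_poleOrder {π : GSys n} (hπ : Tempered π) {m : Wt n →₀ ℤ} {t : ℝ} {k : ℤ}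
    (h : PoleOrder π m (pt t) k) : MeanP (tre π m t) k := by
  obtain ⟨g, hg, hk, hL⟩ := h
  obtain ⟨C, hC⟩ := log_prodP hπ m
  have hL' := (tendsto_pt t).eventually hL
  have h0 : ∀ᶠ s : ℝ in 𝓝[>] 1, g ((s : ℂ) + t * Complex.I) ≠ 0 := by
    filter_upwards [hL', self_mem_nhdsWithin] with s hs hs1
    exact (hC t s hs1 _ hs).1
  obtain ⟨k', hk', C', hC'⟩ := log_meromorphic_pt hg h0
  have hkk : k' = -k := by
    rw [hk] at hk'
    exact (WithTop.coe_injective hk').symm
  subst hkk
  refine meanP_of_log (C := C' + C) ?_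
  filter_upwards [hL', hC', self_mem_nhdsWithin] with s hs1 hs2 hs3
  have h1 := (hC t s hs3 _ hs1).2
  have e : psm (tre π m t) s + (k : ℝ) * Real.log (s - 1) =
      (Real.log ‖g ((s : ℂ) + t * Complex.I)‖ - ((-k : ℤ) : ℝ) * Real.log (s - 1)) -
        (Real.log ‖g ((s : ℂ) + t * Complex.I)‖ - psm (tre π m t) s) := by
    push_cast
    ring
  rw [e]
  exact (abs_sub _ _).trans (add_le_add hs2 h1)

end Pool.Agent.EEA520

namespace Pool.Agent.EEA520

open Filter Topology Pool.Agent.EEAG1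

variable {n : ℕ}

/-- The elements of the Weyl group. -/
abbrev WG (n : ℕ) : Type := Equiv.Perm (Fin n) × Finset (Fin n)

/-- The action of the Weyl group on the weights. -/
def act (g : WG n) : Wt n →+ Wt n where
  toFun w := (w.1, fun i => if i ∈ g.2 then w.1 - w.2 (g.1 i) else w.2 (g.1 i))
  map_zero' := by
    ext i
    · rfl
    · simp
  map_add' v w := by
    ext i
    · rfl
    · simp only [Prod.fst_add, Prod.snd_add, Pi.add_apply]
      split_ifs
      · ring
      · rfl

theorem act_apply (g : WG n) (w : Wt n) :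
    act g w = (w.1, fun i => if i ∈ g.2 then w.1 - w.2 (g.1 i) else w.2 (g.1 i)) := rfl

/-- The sum over the orbit of a weight. -/
noncomputable def orb (w : Wt n) : Wt n →₀ ℤ := ∑ g : WG n, Finsupp.single (act g w) 1

theorem orb_apply (w u : Wt n) : orb w u = ∑ g : WG n, if act g w = u then 1 else 0 := by
  classical
  unfold orb
  rw [Finsupp.finsetSum_apply]
  refine Finset.sum_congr rfl fun g _ => ?_
  rw [Finsupp.single_apply]

theorem orb_isCharacter (w : Wt n) : IsCharacter (orb w) := by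
  classical
  constructor
  · intro τ k μ
    rw [orb_apply, orb_apply]
    refine Fintype.sum_equiv ((Equiv.mulRight τ⁻¹).prodCongr (Equiv.finsetCongr τ)) _ _ fun g => ?_
    refine if_congr ?_ rfl rfl
    rw [act_apply, act_apply, Prod.mk.injEq, Prod.mk.injEq]
    refine and_congr Iff.rfl ?_
    constructor
    · intro h
      funext i
      have h1 := congrFun h (τ.symm i)
      simp only [Function.comp_apply, Equiv.apply_symm_apply] at h1
      rw [← h1]
      simp
    · intro h
      funext i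
      rw [Function.comp_apply, ← h]
      simp
  · intro i k μ
    rw [orb_apply, orb_apply]
    have hinv : Function.Involutive fun I : Finset (Fin n) => symmDiff I {i} := fun I => by
      simp
    refine Fintype.sum_equiv ((Equiv.refl _).prodCongr hinv.toPerm) _ _ fun g => ?_
    refine if_congr ?_ rfl rfl
    rw [act_apply, act_apply, Prod.mk.injEq, Prod.mk.injEq]
    refine and_congr_right fun h0 => ?_
    simp only [Equiv.prodCongr_apply, Prod.map_fst, Equiv.refl_apply, Prod.map_snd,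
      Function.Involutive.coe_toPerm, Finset.mem_symmDiff, Finset.mem_singleton]
    constructor
    · intro h
      funext j
      have h1 := congrFun h j
      by_cases hj : j = i
      · subst hj
        rw [Function.update_self] at h1
        by_cases hI : j ∈ g.2
        · simp only [hI, not_true_eq_false, and_false, or_false, if_true, if_false] at h1 ⊢
          linarith
        · simp only [hI, false_and, not_false_eq_true, and_true, false_or, if_true, if_false]
            at h1 ⊢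
          linarith
      · rw [Function.update_of_ne hj] at h1
        simp only [hj, not_false_eq_true, and_true, false_and, or_false]
        exact h1
    · intro h
      funext j
      have h1 := congrFun h j
      by_cases hj : j = i
      · subst hj
        rw [Function.update_self]
        by_cases hI : j ∈ g.2
        · simp only [hI, not_true_eq_false, and_false, or_false, if_true, if_false] at h1 ⊢
          linarith
        · simp only [hI, false_and, not_false_eq_true, and_true, false_or, if_true, if_false]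
            at h1 ⊢
          linarith
      · rw [Function.update_of_ne hj]
        simp only [hj, not_false_eq_true, and_true, false_and, or_false] at h1
        exact h1

/-- A character is invariant under the Weyl group. -/
theorem IsCharacter.act {m : Wt n →₀ ℤ} (hm : IsCharacter m) (g : WG n) (w : Wt n) :
    m (act g w) = m w := by
  classical
  obtain ⟨σ, I⟩ := g
  obtain ⟨k, μ⟩ := w
  rw [act_apply]
  simp only
  induction I using Finset.induction_on with
  | empty =>
    simp only [Finset.notMem_empty, if_false]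
    exact hm.1 σ k μ
  | insert i I hi ih =>
    rw [← ih, ← hm.2 i k (fun j => if j ∈ I then k - μ (σ j) else μ (σ j))]
    congr 2
    funext j
    by_cases hj : j = i
    · subst hj
      rw [Function.update_self]
      simp [hi]
    · rw [Function.update_of_ne hj]
      simp [hj]

theorem act_injective (g : WG n) : Function.Injective (act g) := by
  intro v w h
  rw [act_apply, act_apply, Prod.mk.injEq] at h
  obtain ⟨h1, h2⟩ := h
  ext i
  · exact h1
  · have h3 := congrFun h2 (g.1.symm i)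
    simp only [Equiv.apply_symm_apply] at h3
    split_ifs at h3
    · linarith
    · exact h3

theorem act_surjective (g : WG n) : Function.Surjective (act g) := by
  intro w
  refine ⟨(w.1, fun j => if g.1.symm j ∈ g.2 then w.1 - w.2 (g.1.symm j) else w.2 (g.1.symm j)), ?_⟩
  rw [act_apply]
  ext i
  · rfl
  · simp only [Equiv.symm_apply_apply]
    split_ifs
    · ring
    · rfl

/-- Sum over the orbits. -/
theorem sum_act {m : Wt n →₀ ℤ} (hm : IsCharacter m) (g : WG n) (f : Wt n → ℝ) :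
    (m.sum fun w e => (e : ℝ) * f (act g w)) = m.sum fun w e => (e : ℝ) * f w := by
  classical
  unfold Finsupp.sum
  refine Finset.sum_bij (fun w _ => act g w) ?_ ?_ ?_ ?_
  · intro w hw
    rw [Finsupp.mem_support_iff] at hw ⊢
    rw [hm.act]
    exact hw
  · intro v _ w _ h
    exact act_injective g h
  · intro w hw
    obtain ⟨v, rfl⟩ := act_surjective g w
    refine ⟨v, ?_, rfl⟩
    rw [Finsupp.mem_support_iff] at hw ⊢
    rw [hm.act] at hw
    exact hw
  · intro w _
    rw [hm.act]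

/-- The trace of an orbit sum. -/
theorem tre_orb (π : GSys n) (w : Wt n) (t : ℝ) (p : Pr) :
    tre π (orb w) t p = ∑ g : WG n, zre π (act g w) t p := by
  classical
  unfold tre orb
  rw [← Finsupp.sum_finsetSum_index (by intro a; simp) (by intro a b c; push_cast; ring)]
  refine Finset.sum_congr rfl fun g _ => ?_
  rw [Finsupp.sum_single_index (by simp)]
  simp

/-- `∑ m(w) orb(w) = |W| m`. -/
theorem sum_tre_orb {m : Wt n →₀ ℤ} (hm : IsCharacter m) (π : GSys n) (t : ℝ) (p : Pr) :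
    (m.sum fun w e => (e : ℝ) * tre π (orb w) t p) = Fintype.card (WG n) * tre π m t p := by
  classical
  simp only [tre_orb, Finset.mul_sum]
  rw [Finsupp.sum_finsetSum_comm]
  rw [Finset.sum_congr rfl fun g _ => sum_act hm g fun w => zre π w t p]
  rw [Finset.sum_const, Finset.card_univ, nsmul_eq_mul]
  rfl

end Pool.Agent.EEA520

namespace Pool.Agent.EEAG1

open Filter Topology
open scoped InnerProductSpace

universe u

/-- Symmetric positive semidefinite functions on an additive commutative group. -/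
structure PosDefG {G : Type u} [AddCommGroup G] (c : G → ℝ) : Prop where
  symm : ∀ k, c (-k) = c k
  nonneg : ∀ x : G →₀ ℝ, 0 ≤ x.sum fun i a => x.sum fun j b => a * b * c (i - j)

variable {G : Type u} [AddCommGroup G]

/-- The semi inner product. -/
@[reducible] noncomputable def coreG (c : G → ℝ) (hc : PosDefG c) :
    PreInnerProductSpace.Core ℝ (G →₀ ℝ) where
  inner x y := x.sum fun i a => y.sum fun j b => a * b * c (i - j)
  conj_inner_symm x y := by
    rw [conj_trivial, Finsupp.sum_comm]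
    refine Finsupp.sum_congr fun i _ => Finsupp.sum_congr fun j _ => ?_
    rw [← hc.symm, neg_sub]
    ring
  re_inner_nonneg x := hc.nonneg x
  add_left x y z := by
    rw [Finsupp.sum_add_index'] <;> simp [← Finsupp.sum_add, add_mul]
  smul_left x y r := by
    rw [Finsupp.sum_smul_index] <;> simp [Finsupp.mul_sum, ← mul_assoc]

/-- The Hilbert space of a positive definite function, with the translations. -/
theorem exists_gnsG {c : G → ℝ} (hc : PosDefG c) : ∃ (H : Type u) (_ : NormedAddCommGroup H)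
    (_ : InnerProductSpace ℝ H) (_ : CompleteSpace H) (U : G → (H ≃ₗᵢ[ℝ] H)) (v : H),
    (∀ a b : G, ∀ x, U (a + b) x = U a (U b x)) ∧ (∀ x, U 0 x = x) ∧
      ∀ g : G, ⟪U g v, v⟫_ℝ = c g := by
  classical
  let _ : PreInnerProductSpace.Core ℝ (G →₀ ℝ) := coreG c hc
  let _ : SeminormedAddCommGroup (G →₀ ℝ) :=
    InnerProductSpace.Core.toSeminormedAddCommGroup (𝕜 := ℝ)
  let _ : InnerProductSpace ℝ (G →₀ ℝ) := .ofCore _
  have hin : ∀ x y : G →₀ ℝ, ⟪x, y⟫_ℝ = x.sum fun i a => y.sum fun j b => a * b * c (i - j) :=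
    fun x y => rfl
  let f : G → ((G →₀ ℝ) ≃ₗ[ℝ] (G →₀ ℝ)) := fun g => Finsupp.domLCongr (Equiv.addLeft g)
  have hfs : ∀ (g k : G) (a : ℝ), f g (Finsupp.single k a) = Finsupp.single (g + k) a := by
    intro g k a
    simp [f]
  have hfinner : ∀ (g : G) (x : G →₀ ℝ), ⟪f g x, f g x⟫_ℝ = ⟪x, x⟫_ℝ := by
    intro g x
    rw [hin, hin]
    have h1 : f g x = x.equivMapDomain (Equiv.addLeft g) := rfl
    rw [h1, Finsupp.sum_equivMapDomain]
    refine Finsupp.sum_congr fun i _ => ?_
    rw [Finsupp.sum_equivMapDomain]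
    refine Finsupp.sum_congr fun j _ => ?_
    rw [Equiv.coe_addLeft, add_sub_add_left_eq_sub]
  have hfn : ∀ (g : G) (x : G →₀ ℝ), ‖f g x‖ = ‖x‖ := by
    intro g x
    rw [norm_eq_sqrt_real_inner, norm_eq_sqrt_real_inner, hfinner]
  have hfadd : ∀ (g h : G) (x : G →₀ ℝ), f (g + h) x = f g (f h x) := by
    intro g h x
    induction x using Finsupp.induction_linear with
    | zero => rw [map_zero, map_zero, map_zero]
    | add x y hx hy => rw [map_add, map_add, map_add, hx, hy]
    | single k a => rw [hfs, hfs, hfs, add_assoc]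
  have hf0 : ∀ x : G →₀ ℝ, f 0 x = x := by
    intro x
    induction x using Finsupp.induction_linear with
    | zero => rw [map_zero]
    | add x y hx hy => rw [map_add, hx, hy]
    | single k a => rw [hfs, zero_add]
  let e : (G →₀ ℝ) →ₗ[ℝ] UniformSpace.Completion (G →₀ ℝ) :=
    (UniformSpace.Completion.toComplₗᵢ (𝕜 := ℝ) (E := G →₀ ℝ)).toLinearMap
  have he : ∀ x, e x = (x : UniformSpace.Completion (G →₀ ℝ)) := fun x => rfl
  have hd : DenseRange e := UniformSpace.Completion.denseRange_coe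
  let U : G → (UniformSpace.Completion (G →₀ ℝ) ≃ₗᵢ[ℝ] UniformSpace.Completion (G →₀ ℝ)) :=
    fun g => (f g).extendOfIsometry e e hd hd (fun x => by
      rw [he, he, UniformSpace.Completion.norm_coe, UniformSpace.Completion.norm_coe, hfn])
  have hU : ∀ g x, U g (e x) = e (f g x) := fun g x =>
    LinearEquiv.extendOfIsometry_eq (f g) e e hd hd _ x
  refine ⟨UniformSpace.Completion (G →₀ ℝ), inferInstance, inferInstance, inferInstance, U,
    e (Finsupp.single 0 1), fun a b x => ?_, fun x => ?_, fun g => ?_⟩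
  · refine hd.induction_on (p := fun x => U (a + b) x = U a (U b x)) x ?_ fun y => ?_
    · exact isClosed_eq (U (a + b)).continuous ((U a).continuous.comp (U b).continuous)
    · rw [hU, hU, hU, hfadd]
  · refine hd.induction_on (p := fun x => U 0 x = x) x ?_ fun y => ?_
    · exact isClosed_eq (U 0).continuous continuous_id
    · rw [hU, hf0]
  · rw [hU, hfs, add_zero, he, he, UniformSpace.Completion.inner_coe, hin]
    simp

end Pool.Agent.EEAG1

namespace Pool.Agent.EEA520

open Filter Topology Pool.Agent.EEAG1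

variable {n : ℕ}

/-- The complex number `w(π_p) p ^ (-i t)`. -/
noncomputable def zcx (π : GSys n) (w : Wt n) (t : ℝ) (p : Pr) : ℂ :=
  ((π p).ev w : ℂ) * (((p : ℕ) : ℂ) ^ (-(t * Complex.I)))

theorem zre_eq (π : GSys n) (w : Wt n) (t : ℝ) (p : Pr) : zre π w t p = (zcx π w t p).re := rfl

theorem ev_sub (t : Torus n) (v w : Wt n) : t.ev (v - w) = t.ev v * (t.ev w)⁻¹ := by
  unfold Torus.ev
  simp only [Prod.fst_sub, Prod.snd_sub, Pi.sub_apply, zpow_sub, Finset.prod_mul_distrib, mul_inv,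
    ← Finset.prod_inv_distrib]
  rw [mul_mul_mul_comm]

theorem norm_zcx {π : GSys n} (hπ : Tempered π) (w : Wt n) (t : ℝ) (p : Pr) :
    ‖zcx π w t p‖ = 1 := by
  unfold zcx
  rw [norm_mul, norm_ev hπ, norm_pit, one_mul]

theorem zcx_sub {π : GSys n} (hπ : Tempered π) (v w : Wt n) (s t : ℝ) (p : Pr) :
    zcx π (v - w) (s - t) p = zcx π v s p * (starRingEnd ℂ) (zcx π w t p) := by
  have h1 : (starRingEnd ℂ) (zcx π w t p) = (zcx π w t p)⁻¹ :=
    (Complex.inv_eq_conj (norm_zcx hπ w t p)).symm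
  rw [h1]
  unfold zcx
  rw [ev_sub, mul_inv, Units.val_mul, Units.val_inv_eq_inv_val]
  have h2 : (((p : ℕ) : ℂ) ^ (-(((s - t : ℝ) : ℂ) * Complex.I))) =
      (((p : ℕ) : ℂ) ^ (-(s * Complex.I))) * ((((p : ℕ) : ℂ) ^ (-(t * Complex.I))))⁻¹ := by
    rw [← Complex.cpow_neg, ← Complex.cpow_add _ _ (by exact_mod_cast p.2.ne_zero)]
    congr 1
    push_cast
    ring
  rw [h2]
  ring

/-- `c` is the function of the pole orders of the orbit sums. -/
def IsOrd (π : GSys n) (E : AddSubgroup ℝ) (c : Wt n × E → ℤ) : Prop :=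
  ∀ (w : Wt n) (t : E), PoleOrder π (orb w) (pt t) (c (w, t))

theorem exists_isOrd {π : GSys n} (hπ : Tempered π) {E : AddSubgroup ℝ}
    (h : ∀ m, IsCharacter m → ∀ t ∈ E, MeroAt π m (pt t)) : ∃ c : Wt n × E → ℤ, IsOrd π E c := by
  have h1 : ∀ x : Wt n × E, ∃ k : ℤ, PoleOrder π (orb x.1) (pt x.2) k := fun x =>
    exists_poleOrder hπ (h _ (orb_isCharacter x.1) _ x.2.2)
  choose c hc using h1
  exact ⟨c, fun w t => hc (w, t)⟩

theorem IsOrd.mean {π : GSys n} (hπ : Tempered π) {E : AddSubgroup ℝ} {c : Wt n × E → ℤ}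
    (hc : IsOrd π E c) (x : Wt n × E) :
    MeanP (fun p => ∑ g : WG n, zre π (act g x.1) x.2 p) (c x) := by
  have h1 := mean_of_poleOrder hπ (hc x.1 x.2)
  have h2 : tre π (orb x.1) x.2 = fun p => ∑ g : WG n, zre π (act g x.1) x.2 p := by
    funext p
    exact tre_orb π x.1 x.2 p
  rw [h2] at h1
  exact h1

theorem bdP_orb {π : GSys n} (hπ : Tempered π) (w : Wt n) (t : ℝ) :
    BdP fun p => ∑ g : WG n, zre π (act g w) t p :=
  BdP.sum _ fun g _ => bdP_zre hπ (act g w) t

/-- The function of the pole orders is positive definite. -/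
theorem posDefG_ord {π : GSys n} (hπ : Tempered π) {E : AddSubgroup ℝ} {c : Wt n × E → ℤ}
    (hc : IsOrd π E c) : PosDefG fun x => (c x : ℝ) := by
  classical
  refine ⟨fun x => ?_, fun a => ?_⟩
  · have h1 := hc.mean hπ (-x)
    have h2 := hc.mean hπ x
    refine MeanP.unique ?_ h2
    have h3 : (fun p => ∑ g : WG n, zre π (act g (-x).1) (-x).2 p) =
        fun p => ∑ g : WG n, zre π (act g x.1) x.2 p := by
      funext p
      refine Finset.sum_congr rfl fun g _ => ?_
      rw [zre_eq, zre_eq, Prod.fst_neg, Prod.snd_neg, map_neg]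
      have h4 := zcx_sub hπ 0 (act g x.1) 0 x.2 p
      rw [zero_sub, zero_sub] at h4
      have h5 : zcx π (0 : Wt n) 0 p = 1 := by
        unfold zcx Torus.ev
        simp
      rw [h5, one_mul] at h4
      rw [AddSubgroup.coe_neg, h4, Complex.conj_re]
    rw [h3] at h1
    exact h1
  · have h1 : MeanP (fun p => ∑ y ∈ a.support ×ˢ a.support,
        a y.1 * a y.2 * ∑ g : WG n, zre π (act g (y.1 - y.2).1) (y.1 - y.2).2 p)
        (∑ y ∈ a.support ×ˢ a.support, a y.1 * a y.2 * c (y.1 - y.2)) :=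
      MeanP.sum _ (fun y _ => (bdP_orb hπ _ _).const_mul _)
        (fun y _ => (hc.mean hπ (y.1 - y.2)).const_mul _)
    have h2 : a.sum (fun i b => a.sum fun j b' => b * b' * (c (i - j) : ℝ)) =
        ∑ y ∈ a.support ×ˢ a.support, a y.1 * a y.2 * c (y.1 - y.2) := by
      rw [Finset.sum_product]
      rfl
    rw [h2]
    refine MeanP.nonneg h1 fun p => ?_
    have h3 : ∀ g : WG n, ∑ y ∈ a.support ×ˢ a.support,
        a y.1 * a y.2 * zre π (act g (y.1 - y.2).1) (y.1 - y.2).2 p =
        Complex.normSq (∑ y ∈ a.support, (a y : ℂ) * zcx π (act g y.1) y.2 p) := by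
      intro g
      have h4 : ((Complex.normSq (∑ y ∈ a.support, (a y : ℂ) * zcx π (act g y.1) y.2 p) : ℝ) : ℂ) =
          ∑ y ∈ a.support ×ˢ a.support,
            ((a y.1 * a y.2 : ℝ) : ℂ) * zcx π (act g (y.1 - y.2).1) (y.1 - y.2).2 p := by
        rw [← Complex.mul_conj, map_sum, Finset.sum_mul_sum, Finset.sum_product]
        refine Finset.sum_congr rfl fun i _ => Finset.sum_congr rfl fun j _ => ?_
        rw [map_mul, Complex.conj_ofReal, Prod.fst_sub, Prod.snd_sub, map_sub,
          AddSubgroup.coe_sub, zcx_sub hπ]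
        push_cast
        ring
      rw [← Complex.ofReal_re (Complex.normSq _), h4, Complex.re_sum]
      refine Finset.sum_congr rfl fun y _ => ?_
      rw [Complex.re_ofReal_mul, zre_eq]
    have h5 : ∑ y ∈ a.support ×ˢ a.support,
        a y.1 * a y.2 * ∑ g : WG n, zre π (act g (y.1 - y.2).1) (y.1 - y.2).2 p =
        ∑ g : WG n, ∑ y ∈ a.support ×ˢ a.support,
          a y.1 * a y.2 * zre π (act g (y.1 - y.2).1) (y.1 - y.2).2 p := by
      rw [Finset.sum_comm]
      refine Finset.sum_congr rfl fun y _ => ?_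
      rw [Finset.mul_sum]
    rw [h5]
    refine Finset.sum_nonneg fun g _ => ?_
    rw [h3]
    exact Complex.normSq_nonneg _

/-- All pole orders in terms of those of the orbit sums. -/
theorem order_formula {π : GSys n} (hπ : Tempered π) {E : AddSubgroup ℝ} {c : Wt n × E → ℤ}
    (hc : IsOrd π E c) {m : Wt n →₀ ℤ} (hm : IsCharacter m) (t : E) {k : ℤ}
    (hk : PoleOrder π m (pt t) k) :
    (Fintype.card (WG n) : ℤ) * k = m.sum fun w e => e * c (w, t) := by
  classical
  have h1 := (mean_of_poleOrder hπ hk).const_mul (Fintype.card (WG n))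
  have h2 : MeanP (fun p => ∑ w ∈ m.support, (m w : ℝ) * tre π (orb w) t p)
      (∑ w ∈ m.support, (m w : ℝ) * c (w, t)) :=
    MeanP.sum _ (fun w _ => (bdP_tre hπ _ _).const_mul _)
      (fun w _ => (mean_of_poleOrder hπ (hc w t)).const_mul _)
  have h3 : (fun p => ∑ w ∈ m.support, (m w : ℝ) * tre π (orb w) t p) =
      fun p => (Fintype.card (WG n) : ℝ) * tre π m t p := by
    funext p
    exact sum_tre_orb hm π t p
  rw [h3] at h2
  have h4 := MeanP.unique h1 h2
  unfold Finsupp.sum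
  exact_mod_cast h4

theorem card_WG (n : ℕ) : Fintype.card (WG n) = 2 ^ n * n.factorial := by
  rw [Fintype.card_prod, Fintype.card_perm, Fintype.card_finset, Fintype.card_fin, mul_comm]

end Pool.Agent.EEA520

namespace Pool.Agent.EEA520

open Filter Topology Pool.Agent.EEAG1

variable {n : ℕ}

theorem pt_ne_one {t : ℝ} (ht : t ≠ 0) : pt t ≠ 1 := by
  intro h
  have h1 := congrArg Complex.im h
  unfold pt at h1
  simp at h1
  exact ht h1

theorem factor_one (t : Torus n) (q : ℂ) : t.factor (Finsupp.single 0 1) q = (1 - q)⁻¹ := by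
  unfold Torus.factor
  rw [Finsupp.prod_single_index (by simp)]
  have h1 : t.ev 0 = 1 := by
    unfold Torus.ev
    simp
  rw [h1]
  simp

/-- The Euler product of the trivial representation. -/
theorem poleOrder_zeta (π : GSys n) {t : ℝ} (ht : t ≠ 0) :
    PoleOrder π (Finsupp.single 0 1) (pt t) 0 := by
  have han : AnalyticAt ℂ riemannZeta (pt t) := by
    refine DifferentiableOn.analyticAt (s := {1}ᶜ) ?_ (isOpen_compl_singleton.mem_nhds (pt_ne_one ht))
    intro s hs
    exact (differentiableAt_riemannZeta hs).differentiableWithinAt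
  have hne : riemannZeta (pt t) ≠ 0 := by
    refine riemannZeta_ne_zero_of_one_le_re ?_
    unfold pt
    simp
  refine ⟨riemannZeta, han.meromorphicAt, ?_, ?_⟩
  · rw [han.meromorphicOrderAt_eq, (han.analyticOrderAt_eq_zero).2 hne]
    rfl
  · unfold IsL
    filter_upwards [self_mem_nhdsWithin] with s hs
    have h1 := riemannZeta_eulerProduct_hasProd (s := s) hs
    simp only [factor_one]
    exact h1

/-- The trivial system. -/
def triv0 : GSys 0 := fun _ => ⟨1, fun _ => 1⟩

theorem triv0_tempered : Tempered triv0 := fun p => ⟨by simp [triv0], fun i => i.elim0⟩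

/-- The mean value of `p ^ (-i t)`. -/
theorem mean_pit (t : ℝ) :
    MeanP (fun p : Pr => (((p : ℕ) : ℂ) ^ (-(t * Complex.I))).re) (if t = 0 then 1 else 0) := by
  by_cases ht : t = 0
  · subst ht
    rw [if_pos rfl]
    have h1 := MeanP.one
    refine h1.congr fun s => ?_
    congr 2
    funext p
    simp
  · rw [if_neg ht]
    have h1 := mean_of_poleOrder triv0_tempered (poleOrder_zeta triv0 ht)
    rw [Int.cast_zero] at h1
    refine h1.congr fun s => ?_
    congr 2
    funext p
    unfold tre zre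
    rw [Finsupp.sum_single_index (by simp)]
    have h2 : (triv0 p).ev 0 = 1 := by
      unfold Torus.ev
      simp
    rw [h2]
    simp

/-- The complex trace. -/
noncomputable def tcx (π : GSys n) (m : Wt n →₀ ℤ) (p : Pr) : ℂ :=
  m.sum fun w e => (e : ℂ) * ((π p).ev w : ℂ)

theorem tcx_le {π : GSys n} (hπ : Tempered π) (m : Wt n →₀ ℤ) (p : Pr) :
    ‖tcx π m p‖ ≤ mnorm m := by
  unfold tcx mnorm Finsupp.sum
  refine norm_sum_le_of_le _ fun w _ => ?_
  rw [norm_mul, norm_ev hπ, mul_one, Complex.norm_intCast]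

theorem tre_eq (π : GSys n) (m : Wt n →₀ ℤ) (t : ℝ) (p : Pr) :
    tre π m t p = (tcx π m p * (((p : ℕ) : ℂ) ^ (-(t * Complex.I)))).re := by
  unfold tre tcx zre Finsupp.sum
  rw [Finset.sum_mul, Complex.re_sum]
  refine Finset.sum_congr rfl fun w _ => ?_
  rw [mul_assoc, ← Complex.ofReal_intCast, Complex.re_ofReal_mul]

end Pool.Agent.EEA520
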