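import Pool.Agent.W_eea520_h99.Defs

/-!
# The edge of the `L`-functions of `GL_2`: definitions (MP_eea520_nt, edge theorem)
-/

set_option autoImplicit false

namespace Pool.Agent.EEAG1

open Filter Topology

/-- The law of Sato and Tate, the law of the traces of the conjugacy classes of `SU(2)`. -/
noncomputable def satoTate (f : ℝ → ℝ) : ℝ :=
  2 / Real.pi * ∫ θ in (0 : ℝ)..Real.pi, f (2 * Real.cos θ) * Real.sin θ ^ 2

/-- The law of forms with complex multiplication, the law of the traces of the conjugacy classes of the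
normaliser of a torus of `SU(2)`. -/
noncomputable def cmLaw (f : ℝ → ℝ) : ℝ :=
  f 0 / 2 + 1 / (2 * Real.pi) * ∫ θ in (0 : ℝ)..Real.pi, f (2 * Real.cos θ)

/-- The sequence of the Sato-Tate law: `2, -1, 0, 0, …`. -/
def stSeq (k : ℤ) : ℤ := if k = 0 then 2 else if k = 1 ∨ k = -1 then -1 else 0

/-- The sequence of the law of forms with complex multiplication: `2, -1, 1, -1, …`. -/
def cmSeq (k : ℤ) : ℤ := if k = 0 then 2 else (-1) ^ k.natAbs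

/-- `[N ∣ k] η ^ (k / N)`, for `η = ± 1`: the mean value of `x ^ k` over the solutions of `x ^ N = η`. -/
def comb (N : ℕ) (η : ℤ) (k : ℤ) : ℤ := if (N : ℤ) ∣ k then η ^ (k / N).natAbs else 0

/-- The moments of the measure `(2 - 2 cos θ)` on the set of the `x = exp(i θ)` with `x ^ N = η` (the
mean value over this set). -/
def famA (N : ℕ) (η : ℤ) (k : ℤ) : ℤ := 2 * comb N η k - comb N η (k - 1) - comb N η (k + 1)

/-- The moments of the sum of the Dirac measure at `-1` and of the uniform distribution on the set of the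
`x` with `x ^ N = η`. -/
def famD (N : ℕ) (η : ℤ) (k : ℤ) : ℤ := (-1) ^ k.natAbs + comb N η k

/-- The periodic sequence with the given period. -/
def per (l : List ℤ) (k : ℤ) : ℤ := l.getD (k % l.length).toNat 0

/-- The exceptional periodic sequences. -/
def excL : List (List ℤ) :=
  [
   [2,-1,0,1,0,-1],
   [2,-1,1,0,0,1,-1],
   [2,-1,0,1,-1,1,0,-1],
   [2,-1,1,0,0,0,1,-1],
   [2,-1,1,-1,0,0,-1,1,-1],
   [2,-1,1,0,0,1,0,0,1,-1],
   [2,-1,0,0,1,-1,1,-1,1,0,0,-1],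
   [2,-1,0,1,-1,0,0,0,-1,1,0,-1],
   [2,-1,1,-1,0,0,0,0,0,-1,1,-1],
   [2,-1,1,0,-1,1,-2,1,-1,0,1,-1],
   [2,-1,1,0,0,0,0,0,0,0,1,-1],
   [2,-1,1,0,0,1,-1,1,0,0,1,-1],
   [2,-1,0,0,1,-1,0,1,0,-1,1,0,0,-1],
   [2,-1,0,1,-1,0,1,-2,1,0,-1,1,0,-1],
   [2,-1,1,-1,0,0,0,1,0,0,0,-1,1,-1],
   [2,-1,0,1,-1,1,0,0,0,0,1,-1,1,0,-1],
   [2,-1,1,-1,1,-1,0,0,0,0,-1,1,-1,1,-1],
   [2,-1,0,0,1,-1,0,0,1,-2,1,0,0,-1,1,0,0,-1],
   [2,-1,0,1,-1,1,-1,0,1,-2,1,0,-1,1,-1,1,0,-1],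
   [2,-1,1,-1,1,0,0,0,0,1,0,0,0,0,1,-1,1,-1],
   [2,-1,1,0,0,0,0,-1,1,-2,1,-1,0,0,0,0,1,-1],
   [2,-1,0,0,0,1,-1,0,1,-1,1,-1,1,0,-1,1,0,0,0,-1],
   [2,-1,0,1,-1,0,1,-1,0,1,-2,1,0,-1,1,0,-1,1,0,-1],
   [2,-1,1,-1,0,0,0,1,-1,1,-2,1,-1,1,0,0,0,-1,1,-1],
   [2,-1,1,0,0,0,0,0,-1,1,-2,1,-1,0,0,0,0,0,1,-1],
   [2,-1,0,0,1,-1,0,1,-1,0,0,1,-2,1,0,0,-1,1,0,-1,1,0,0,-1],
   [2,-1,0,1,-1,0,1,-1,1,0,0,0,0,0,0,0,1,-1,1,0,-1,1,0,-1],
   [2,-1,1,-1,1,0,0,0,-1,1,-1,1,-2,1,-1,1,-1,0,0,0,1,-1,1,-1],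
   [2,-1,0,0,0,0,1,-1,0,0,1,-1,1,-1,0,1,0,-1,1,-1,1,0,0,-1,1,0,0,0,0,-1],
   [2,-1,0,0,0,1,-1,0,0,1,-1,0,0,0,1,-2,1,0,0,0,-1,1,0,0,-1,1,0,0,0,-1],
   [2,-1,0,1,-1,1,0,-1,1,0,-1,1,-1,0,1,-2,1,0,-1,1,-1,0,1,-1,0,1,-1,1,0,-1],
   [2,-1,1,0,0,1,-1,1,-1,1,-1,0,0,-1,1,-2,1,-1,0,0,-1,1,-1,1,-1,1,0,0,1,-1]
  ]

/-- The finite types: two infinite families and 32 exceptional sequences. -/
def FinType (c : ℤ → ℤ) : Prop :=
  (∃ (N : ℕ) (η : ℤ), 3 ≤ N ∧ (η = 1 ∨ η = -1) ∧ c = famA N η) ∨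
  (∃ (N : ℕ) (η : ℤ), 2 ≤ N ∧ (η = 1 ∨ η = -1) ∧ c = famD N η) ∨
  ∃ l ∈ excL, c = per l

/-- The finite types with `c 2 = c 3 = c 4 = 0`; the last three are the members of `excL` with this
property, the first of them is the icosahedral one. -/
def ShortType (c : ℤ → ℤ) : Prop :=
  (∃ (N : ℕ) (η : ℤ), 6 ≤ N ∧ (η = 1 ∨ η = -1) ∧ c = famA N η) ∨
  c = per [2, -1, 0, 0, 0, 0, 1, -1, 0, 0, 1, -1, 1, -1, 0, 1, 0, -1, 1, -1, 1, 0, 0, -1, 1, 0, 0, 0,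
    0, -1] ∨
  c = per [2, -1, 0, 0, 0, 1, -1, 0, 1, -1, 1, -1, 1, 0, -1, 1, 0, 0, 0, -1] ∨
  c = per [2, -1, 0, 0, 0, 1, -1, 0, 0, 1, -1, 0, 0, 0, 1, -2, 1, 0, 0, 0, -1, 1, 0, 0, -1, 1, 0, 0,
    0, -1]

end Pool.Agent.EEAG1

namespace Pool.Agent.EEA520

open Filter Topology Pool.Agent.EEAG1

/-- The weight `c ^ K * x ^ M` for `n = 1`. -/
def w1 (K M : ℤ) : Wt 1 := (K, fun _ => M)

/-- The character of the representation `Sym^k ⊗ det^j` of `GL_2(ℂ) = GSpin_3(ℂ)`: the classes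
`π p = (c, x)` have the eigenvalues `c`, `c x`. -/
noncomputable def symdet (k : ℕ) (j : ℤ) : Wt 1 →₀ ℤ :=
  ∑ i ∈ Finset.range (k + 1), Finsupp.single (w1 (k + 2 * j) (i + j)) 1

/-- The determinant of `π p` for `GL_2` (in general the similitude character of the dual group). -/
def Torus.nu {n : ℕ} (t : Torus n) : ℂˣ := t.c ^ 2 * ∏ i, t.x i

/-- The trace of `π p` in the spin representation, for `GL_2`: the eigenvalues are `c` and `c x`. -/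
noncomputable def lam (π : GSys 1) (p : Pr) : ℂ := ((π p).c : ℂ) + (π p).c * (π p).x 0

/-- In the sense of Dirichlet densities of sets of primes the absolute values of the traces `lam π p` are
distributed like the absolute value of a real random variable with values in `[-2, 2]` and law `Λ`, and
if the central character is trivial (so that the traces are real) then the traces themselves are
distributed according to `Λ`. -/
def TraceLaw (π : GSys 1) (Λ : (ℝ → ℝ) → ℝ) : Prop :=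
  (∀ f : ℝ → ℝ, ContinuousOn f (Set.Icc 0 2) →
    Tendsto (fun s : ℝ => (∑' p : Pr, f ‖lam π p‖ * ((p : ℕ) : ℝ) ^ (-s)) /
      ∑' p : Pr, ((p : ℕ) : ℝ) ^ (-s)) (𝓝[>] 1) (𝓝 (Λ fun y => f |y|))) ∧
  ((∀ p, (π p).nu = 1) → ∀ f : ℝ → ℝ, ContinuousOn f (Set.Icc (-2) 2) →
    Tendsto (fun s : ℝ => (∑' p : Pr, f (lam π p).re * ((p : ℕ) : ℝ) ^ (-s)) /
      ∑' p : Pr, ((p : ℕ) : ℝ) ^ (-s)) (𝓝[>] 1) (𝓝 (Λ f)))

/-- The sum over the primes `p ≤ N`. -/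
noncomputable def nsum (f : Pr → ℝ) (N : ℕ) : ℝ :=
  ∑ k ∈ Finset.range (N + 1), if h : k.Prime then f ⟨k, h⟩ else 0

/-- `L` is the mean value of `f` over the primes, in the sense of natural density. -/
def NMean (f : Pr → ℝ) (L : ℝ) : Prop :=
  Tendsto (fun N : ℕ => nsum f N / (Nat.primeCounting N : ℝ)) atTop (𝓝 L)

/-- In the sense of the natural density of sets of primes (averages over the primes `p ≤ N`) the absolute
values of the traces `lam π p` are distributed like the absolute value of a real random variable with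
values in `[-2, 2]` and law `Λ`, and if the central character is trivial (so that the traces are real)
then the traces themselves are distributed according to `Λ`. -/
def NatLaw (π : GSys 1) (Λ : (ℝ → ℝ) → ℝ) : Prop :=
  (∀ f : ℝ → ℝ, ContinuousOn f (Set.Icc 0 2) →
    NMean (fun p => f ‖lam π p‖) (Λ fun y => f |y|)) ∧
  ((∀ p, (π p).nu = 1) → ∀ f : ℝ → ℝ, ContinuousOn f (Set.Icc (-2) 2) →
    NMean (fun p => f (lam π p).re) (Λ f))

/-- The order of the pole at `1` of the Euler product for `Sym^(2 a) ⊗ det^(-a)` which belongs to the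
sequence `c`. -/
def adOrder (c : ℤ → ℤ) (a : ℕ) : ℤ := 1 + ∑ i ∈ Finset.range a, c ((i : ℤ) + 1)

/-- For every integer `k` the mean value over the primes, in the sense of Dirichlet densities, of
`x_p ^ k + x_p ^ (-k)` is `c k`, where `x_p` is the ratio of the eigenvalues of `π p`. -/
def Moments (π : GSys 1) (c : ℤ → ℤ) : Prop :=
  ∀ k : ℤ, Tendsto (fun s : ℝ => (∑' p : Pr, 2 * (((π p).x 0 : ℂ) ^ k).re * ((p : ℕ) : ℝ) ^ (-s)) /
    ∑' p : Pr, ((p : ℕ) : ℝ) ^ (-s)) (𝓝[>] 1) (𝓝 (c k))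

/-- The same in the sense of natural density. -/
def NatMoments (π : GSys 1) (c : ℤ → ℤ) : Prop :=
  ∀ k : ℤ, NMean (fun p => 2 * (((π p).x 0 : ℂ) ^ k).re) (c k)

end Pool.Agent.EEA520
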