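import Pool.Agent.W_eea520_G.D
import Pool.Agent.W_eea520_G.B

/-!
# Pole orders for `GL_2` (MP_eea520_nt, edge theorem)
-/

set_option autoImplicit false

namespace Pool.Agent.EEA520

open Filter Topology Pool.Agent.EEAG1
open scoped InnerProductSpace

theorem symdet_apply (k : ℕ) (j : ℤ) (u : Wt 1) : symdet k j u =
    ∑ i ∈ Finset.range (k + 1), if w1 (k + 2 * j) (i + j) = u then 1 else 0 := by
  classical
  unfold symdet
  rw [Finsupp.finsetSum_apply]
  refine Finset.sum_congr rfl fun g _ => ?_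
  rw [Finsupp.single_apply]

theorem symdet_isCharacter (k : ℕ) (j : ℤ) : IsCharacter (symdet k j) := by
  classical
  constructor
  · intro σ K μ
    have h1 : σ = 1 := Subsingleton.elim _ _
    rw [h1]
    rfl
  · intro i K μ
    rw [symdet_apply, symdet_apply, ← Finset.sum_range_reflect]
    refine Finset.sum_congr rfl fun a ha => if_congr ?_ rfl rfl
    rw [Finset.mem_range] at ha
    unfold w1
    rw [Prod.mk.injEq, Prod.mk.injEq]
    refine and_congr_right fun h0 => ?_
    have hi : i = 0 := Subsingleton.elim _ _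
    subst hi
    have h2 : ((k + 1 - 1 - a : ℕ) : ℤ) = k - a := by
      rw [Nat.add_sub_cancel]
      push_cast [Nat.le_of_lt_succ ha]
      ring
    rw [h2]
    constructor
    · intro h
      funext l
      have hl : l = 0 := Subsingleton.elim _ _
      subst hl
      have h3 := congrFun h 0
      rw [Function.update_self] at h3
      linarith
    · intro h
      funext l
      have hl : l = 0 := Subsingleton.elim _ _
      subst hl
      have h3 := congrFun h 0
      rw [Function.update_self]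
      linarith

/-- The pole orders of `Sym^k ⊗ det^j`. -/
theorem order_symdet {π : GSys 1} (hπ : Tempered π) {E : AddSubgroup ℝ} {c : Wt 1 × E → ℤ}
    (hc : IsOrd π E c) {k : ℕ} {j : ℤ} {t : E} {o : ℤ} (ho : PoleOrder π (symdet k j) (pt t) o) :
    2 * o = ∑ i ∈ Finset.range (k + 1), c (w1 (k + 2 * j) (i + j), t) := by
  classical
  have h1 := order_formula hπ hc (symdet_isCharacter k j) t ho
  rw [card_WG] at h1
  have h2 : ((symdet k j).sum fun w e => e * c (w, t)) =
      ∑ i ∈ Finset.range (k + 1), c (w1 (k + 2 * j) (i + j), t) := by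
    unfold symdet
    rw [← Finsupp.sum_finsetSum_index (by intro a; simp) (by intro a b c; ring)]
    refine Finset.sum_congr rfl fun i _ => ?_
    rw [Finsupp.sum_single_index (by simp)]
    ring
  rw [h2] at h1
  rw [← h1]
  norm_num

/-- The Weyl group of `GL_2`. -/
theorem orb_sum_one (K M : ℤ) (f : Wt 1 → ℝ) :
    ∑ g : WG 1, f (act g (w1 K M)) = f (w1 K M) + f (w1 K (K - M)) := by
  classical
  rw [Fintype.sum_prod_type, Fintype.sum_unique]
  have h1 : (Finset.univ : Finset (Finset (Fin 1))) = {∅, {0}} := by decide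
  rw [h1, Finset.sum_pair (by decide)]
  have e1 : act (default, ∅) (w1 K M) = w1 K M := by
    rw [act_apply]
    unfold w1
    simp
  have e2 : act (default, {0}) (w1 K M) = w1 K (K - M) := by
    rw [act_apply]
    unfold w1
    refine Prod.ext rfl ?_
    funext l
    have hl : l = 0 := Subsingleton.elim _ _
    subst hl
    simp
  rw [e1, e2]

theorem ord_reflect {π : GSys 1} (hπ : Tempered π) {E : AddSubgroup ℝ} {c : Wt 1 × E → ℤ}
    (hc : IsOrd π E c) (K M : ℤ) (t : E) : c (w1 K (K - M), t) = c (w1 K M, t) := by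
  have h0 : ∀ M' : ℤ, (fun p => ∑ g : WG 1, zre π (act g (w1 K M')) (t : ℝ) p) =
      fun p => zre π (w1 K M') (t : ℝ) p + zre π (w1 K (K - M')) (t : ℝ) p := by
    intro M'
    funext p
    exact orb_sum_one K M' fun w => zre π w (t : ℝ) p
  have h1 : MeanP (fun p => ∑ g : WG 1, zre π (act g (w1 K (K - M))) (t : ℝ) p)
      (c (w1 K (K - M), t)) := hc.mean hπ (w1 K (K - M), t)
  have h2 : MeanP (fun p => ∑ g : WG 1, zre π (act g (w1 K M)) (t : ℝ) p)
      (c (w1 K M, t)) := hc.mean hπ (w1 K M, t)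
  rw [h0] at h1 h2
  rw [sub_sub_cancel] at h1
  have h3 : MeanP (fun p => zre π (w1 K M) (t : ℝ) p + zre π (w1 K (K - M)) (t : ℝ) p)
      (c (w1 K (K - M), t)) := by
    refine h1.congr fun s => ?_
    congr 2
    funext p
    ring
  exact_mod_cast MeanP.unique h3 h2

theorem ord_zero {n : ℕ} {π : GSys n} (hπ : Tempered π) {E : AddSubgroup ℝ} {c : Wt n × E → ℤ}
    (hc : IsOrd π E c) (t : E) : c (0, t) = if t = 0 then (Fintype.card (WG n) : ℤ) else 0 := by
  classical
  have h1 := hc.mean hπ (0, t)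
  have h2 := (mean_pit (t : ℝ)).const_mul (Fintype.card (WG n))
  have h3 : (fun p => ∑ g : WG n, zre π (act g ((0 : Wt n), t).1) (((0 : Wt n), t).2 : ℝ) p) =
      fun p : Pr => (Fintype.card (WG n) : ℝ) *
        (((p : ℕ) : ℂ) ^ (-(((t : ℝ) : ℂ) * Complex.I))).re := by
    funext p
    have h4 : ∀ g ∈ (Finset.univ : Finset (WG n)),
        zre π (act g (0 : Wt n)) (t : ℝ) p =
          (((p : ℕ) : ℂ) ^ (-(((t : ℝ) : ℂ) * Complex.I))).re := by
      intro g _
      rw [map_zero]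
      unfold zre
      have h5 : (π p).ev 0 = 1 := by
        unfold Torus.ev
        simp
      rw [h5]
      simp
    show ∑ g : WG n, zre π (act g (0 : Wt n)) (t : ℝ) p = _
    rw [Finset.sum_congr rfl h4, Finset.sum_const, Finset.card_univ, nsmul_eq_mul]
  rw [h3] at h1
  have h4 := MeanP.unique h1 h2
  have h5 : ((t : ℝ) = 0) ↔ t = 0 := by
    constructor
    · intro h
      exact Subtype.ext h
    · rintro rfl
      rfl
  by_cases ht : t = 0
  · rw [if_pos ht]
    rw [if_pos (h5.2 ht), mul_one] at h4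
    exact_mod_cast h4
  · rw [if_neg ht]
    rw [if_neg (fun h => ht (h5.1 h)), mul_zero] at h4
    exact_mod_cast h4

end Pool.Agent.EEA520

namespace Pool.Agent.EEAG1

open Filter Topology
open scoped InnerProductSpace

section

variable {G : Type*} [AddCommGroup G] {H : Type*} [NormedAddCommGroup H] [InnerProductSpace ℝ H]

theorem U_zero {U : G → H ≃ₗᵢ[ℝ] H} (hU : ∀ a b x, U (a + b) x = U a (U b x)) (x : H) :
    U 0 x = x := by
  have h := hU 0 0 x
  rw [add_zero] at h
  exact ((U 0).injective h).symm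

end

end Pool.Agent.EEAG1

namespace Pool.Agent.EEA520

open Filter Topology Pool.Agent.EEAG1
open scoped InnerProductSpace

theorem U_zpow {G : Type*} [AddCommGroup G] {H : Type*} [NormedAddCommGroup H]
    [InnerProductSpace ℝ H] {U : G → H ≃ₗᵢ[ℝ] H} (hU : ∀ a b x, U (a + b) x = U a (U b x)) (g : G)
    (k : ℤ) (x : H) : ((U g) ^ k) x = U (k • g) x := by
  have h0 : ∀ x, U 0 x = x := U_zero hU
  induction k using Int.induction_on with
  | zero => rw [zpow_zero_apply, zero_smul, h0]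
  | succ k ih =>
    rw [add_comm, zpow_add_apply, zpow_one, ih, ← hU]
    congr 2
    rw [add_smul, one_smul]
  | pred k ih =>
    refine (U g).injective ?_
    have h1 : (U g) (((U g) ^ (-(k : ℤ) - 1)) x) = ((U g) ^ (-(k : ℤ))) x := by
      rw [show -(k : ℤ) = 1 + (-(k : ℤ) - 1) by ring, zpow_add_apply, zpow_one]
      congr 3
      ring
    rw [h1, ih, ← hU]
    congr 2
    rw [sub_smul, one_smul]
    abel

theorem w1_smul (k K M : ℤ) : k • w1 K M = w1 (k * K) (k * M) := by
  unfold w1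
  rfl

theorem w1_add (K M K' M' : ℤ) : w1 K M + w1 K' M' = w1 (K + K') (M + M') := rfl

theorem w1_zero : w1 0 0 = 0 := rfl

theorem one_cases {π : GSys 1} (hπ : Tempered π) {E : AddSubgroup ℝ} {c : Wt 1 × E → ℤ}
    (hc : IsOrd π E c) (had : c (w1 0 1, 0) = -1) :
    (∃ r : ℤ → E → ℤ → ℤ, (∀ K t M, c (w1 K M, t) = 2 * r K t M - r K t (M + 1) - r K t (M - 1)) ∧
      (∀ K t M, r K t M ≠ 0 → 2 * M = K) ∧ ∀ M, r 0 0 M = if M = 0 then 1 else 0) ∨
    (∃ (r : ℤ → E → ℤ → ℤ) (s : ℤ → E → ℤ),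
      (∀ K t M, c (w1 K M, t) = r K t M + (-1) ^ M.natAbs * s K t) ∧
      (∀ K t M, r K t M ≠ 0 → 2 * M = K) ∧ (∀ K t, Odd K → s K t = 0) ∧
      (∀ t, t ≠ 0 → (∀ M, r 0 t M = 0) ∧ s 0 t = 0) ∧
      (∀ M, r 0 0 M = if M = 0 then 1 else 0) ∧ s 0 0 = 1) ∨
    ∃ r : ℕ, 0 < r ∧ ∀ x, c (x + (w1 0 r, 0)) = c x := by
  classical
  obtain ⟨H, i1, i2, i3, U, v, hU, hU0, hv⟩ := exists_gnsG (posDefG_ord hπ hc)
  set T := U (w1 0 1, 0) with hT
  have hcomm : ∀ a b x, U a (U b x) = U b (U a x) := by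
    intro a b x
    rw [← hU, ← hU, add_comm]
  have hTk : ∀ (k : ℤ) x, (T ^ k) x = U (w1 0 k, 0) x := by
    intro k x
    rw [hT, U_zpow hU]
    congr 2
    show (k • w1 0 1, k • (0 : E)) = _
    rw [w1_smul, smul_zero, mul_zero, mul_one]
  have hR : ∀ K (t : E) (k : ℤ), ⟪(T ^ k) (U (w1 K 0, t) v), v⟫_ℝ = c (w1 K k, t) := by
    intro K t k
    rw [hTk, ← hU, hv]
    congr 2
    show (w1 0 k + w1 K 0, 0 + t) = _
    rw [w1_add, zero_add, add_zero, zero_add]
  have hid : ∀ x, U (w1 0 0, (0 : E)) x = x := fun x => hU0 x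
  have hv2 : ‖v‖ ^ 2 = 2 := by
    have h1 := hv 0
    rw [hU0, real_inner_self_eq_norm_sq] at h1
    rw [h1]
    have h2 := ord_zero hπ hc 0
    rw [if_pos rfl, card_WG] at h2
    have h3 : c 0 = 2 := by
      rw [show (0 : Wt 1 × E) = (0, 0) from rfl, h2]
      norm_num
    rw [h3]
    norm_num
  have hT1 : ⟪T v, v⟫_ℝ = -1 := by
    rw [hT, hv, had]
    norm_num
  have hIT : IP T v v := by
    intro k
    have h1 := hR 0 0 k
    rw [hid] at h1
    exact ⟨_, h1⟩
  rcases three_cases hv2 hIT hT1 with ⟨y, hvy, hy, hyo⟩ | ⟨u, w, hvuw, hu, hw, huo, huw, hTw⟩ |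
    ⟨r, hr, hr2⟩
  · left
    have h1 : ∀ (K : ℤ) (t : E), ∃ r : ℤ → ℤ, (∀ k, ⟪(T ^ k) (U (w1 K 0, t) y), y⟫_ℝ = r k) ∧
        (∀ k, ⟪(T ^ k) (U (w1 K 0, t) v), v⟫_ℝ = 2 * r k - r (k + 1) - r (k - 1)) ∧
        (∀ k l, r k ≠ 0 → r l ≠ 0 → k = l) ∧ ∀ k, |r k| ≤ 1 := fun K t =>
      rlem_st (fun x => hcomm _ _ x) hvy hy hyo fun k => ⟨_, hR K t k⟩
    choose r hr1 hr2 hr3 hr4 using h1
    have h2 : ∀ K t M, c (w1 K M, t) = 2 * r K t M - r K t (M + 1) - r K t (M - 1) := by
      intro K t M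
      have h3 := hr2 K t M
      rw [hR] at h3
      exact_mod_cast h3
    refine ⟨r, h2, fun K t M hM => ?_, fun M => ?_⟩
    · have h3 := sym_of_second_diff (hr3 K t) K (fun k => by
        rw [← h2, ← h2, ord_reflect hπ hc]) M
      have h4 := hr3 K t M (K - M) hM (by rw [← h3]; exact hM)
      linarith
    · have h3 := hr1 0 0 M
      rw [hid] at h3
      by_cases hM : M = 0
      · rw [if_pos hM]
        rw [hM, zpow_zero_apply, real_inner_self_eq_norm_sq, hy] at h3
        rw [hM]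
        exact_mod_cast h3.symm
      · rw [if_neg hM]
        rw [hyo M hM] at h3
        exact_mod_cast h3.symm
  · right
    left
    have h1 : ∀ (K : ℤ) (t : E), ∃ (r : ℤ → ℤ) (s : ℤ),
        (∀ k, ⟪(T ^ k) (U (w1 K 0, t) u), u⟫_ℝ = r k) ∧ ⟪U (w1 K 0, t) w, w⟫_ℝ = s ∧
        (∀ k : ℤ, ⟪(T ^ k) (U (w1 K 0, t) v), v⟫_ℝ = r k + (-1) ^ k.natAbs * s) ∧
        (∀ k l, r k ≠ 0 → r l ≠ 0 → k = l) ∧ (∀ k, |r k| ≤ 1) ∧ |s| ≤ 1 := fun K t =>
      rlem_cm (fun x => hcomm _ _ x) hvuw hu hw huo huw hTw fun k => ⟨_, hR K t k⟩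
    choose r s hr1 hs1 hr2 hr3 hr4 hs2 using h1
    have hsv : ∀ K t, ⟪U (w1 K 0, t) w, w⟫_ℝ = s K t := hs1
    have h2 : ∀ K t M, c (w1 K M, t) = r K t M + (-1) ^ M.natAbs * s K t := by
      intro K t M
      have h3 := hr2 K t M
      rw [hR] at h3
      exact_mod_cast h3
    have hz : ∀ K t, ∃ M, r K t M = 0 ∧ r K t (K - M) = 0 := by
      intro K t
      by_contra hcon
      push Not at hcon
      have h3 : ∀ M, r K t M ≠ 0 ∨ r K t (K - M) ≠ 0 := by
        intro M
        by_cases hM : r K t M = 0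
        · exact Or.inr (hcon M hM)
        · exact Or.inl hM
      rcases h3 0 with a0 | a0 <;> rcases h3 1 with a1 | a1 <;> rcases h3 2 with a2 | a2
      all_goals
        first
        | (have := hr3 K t _ _ a0 a1; omega)
        | (have := hr3 K t _ _ a0 a2; omega)
        | (have := hr3 K t _ _ a1 a2; omega)
    have hsym : ∀ K t M, r K t (K - M) + (-1) ^ (K - M).natAbs * s K t =
        r K t M + (-1) ^ M.natAbs * s K t := by
      intro K t M
      rw [← h2, ← h2, ord_reflect hπ hc]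
    have hpar : ∀ M : ℤ, ((-1 : ℤ)) ^ M.natAbs = if Even M then 1 else -1 := by
      intro M
      by_cases hM : Even M
      · rw [if_pos hM]
        exact (Int.natAbs_even.2 hM).neg_one_pow
      · rw [if_neg hM]
        exact (Int.natAbs_odd.2 (Int.not_even_iff_odd.1 hM)).neg_one_pow
    have hodd : ∀ K t, Odd K → s K t = 0 := by
      intro K t hK
      obtain ⟨M, hM1, hM2⟩ := hz K t
      have h3 := hsym K t M
      rw [hM1, hM2, hpar, hpar] at h3
      by_cases hM : Even M
      · have h4 : ¬ Even (K - M) := by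
          rw [Int.not_even_iff_odd]
          exact hK.sub_even hM
        rw [if_pos hM, if_neg h4] at h3
        linarith
      · have h4 : Even (K - M) := hK.sub_odd (Int.not_even_iff_odd.1 hM)
        rw [if_neg hM, if_pos h4] at h3
        linarith
    have hrs : ∀ K t M, r K t (K - M) = r K t M := by
      intro K t M
      have h3 := hsym K t M
      by_cases hK : Even K
      · have h4 : Even (K - M) ↔ Even M := by
          rw [Int.even_sub]
          tauto
        rw [hpar, hpar] at h3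
        simp only [h4] at h3
        linarith
      · rw [hodd K t (Int.not_even_iff_odd.1 hK)] at h3
        linarith
    have hsupp : ∀ K t M, r K t M ≠ 0 → 2 * M = K := by
      intro K t M hM
      have h4 := hr3 K t M (K - M) hM (by rw [hrs]; exact hM)
      linarith
    have hbase : ∀ t, t ≠ 0 → (∀ M, r 0 t M = 0) ∧ s 0 t = 0 := by
      intro t ht
      have h3 : r 0 t 0 + s 0 t = 0 := by
        have h4 := h2 0 t 0
        rw [w1_zero, ord_zero hπ hc, if_neg ht] at h4
        simpa using h4.symm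
      have h4 : s 0 t = 0 := by
        by_contra hs0
        have hs1 : s 0 t = 1 ∨ s 0 t = -1 := by
          have := abs_le.1 (hs2 0 t)
          omega
        have hsq : ((s 0 t : ℤ) : ℝ) ^ 2 = 1 := by rcases hs1 with h | h <;> rw [h] <;> norm_num
        have hr0 : r 0 t 0 = -s 0 t := by omega
        have e1 : U (w1 0 0, t) w = ((s 0 t : ℤ) : ℝ) • w := by
          refine eq_smul_of_inner ?_ hw hsq (hsv 0 t)
          rw [LinearIsometryEquiv.norm_map, hw]
        have e2 : U (w1 0 0, t) u = (-((s 0 t : ℤ) : ℝ)) • u := by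
          refine eq_smul_of_inner ?_ hu (by rw [neg_sq]; exact hsq) ?_
          · rw [LinearIsometryEquiv.norm_map, hu]
          · have h5 := hr1 0 t 0
            rw [zpow_zero_apply, hr0] at h5
            rw [h5]
            push_cast
            rfl
        have e3 : U (w1 0 0, t) (U (w1 0 0, t) v) = v := by
          rw [hvuw, map_add, e1, e2, map_add, map_smul, map_smul, e1, e2, smul_smul, smul_smul]
          have h6 : ((s 0 t : ℤ) : ℝ) * ((s 0 t : ℤ) : ℝ) = 1 := by rw [← pow_two]; exact hsq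
          rw [neg_mul_neg, h6, one_smul, one_smul]
        have h7 : ⟪U (w1 0 0, t) (U (w1 0 0, t) v), v⟫_ℝ = c (0, t + t) := by
          rw [← hU, hv]
          rfl
        have h8 : t + t ≠ 0 := by
          intro h9
          refine ht (Subtype.ext ?_)
          have h10 : ((t : ℝ)) + t = 0 := by
            have := congrArg Subtype.val h9
            simpa using this
          show (t : ℝ) = 0
          linarith
        rw [e3, real_inner_self_eq_norm_sq, hv2, ord_zero hπ hc, if_neg h8] at h7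
        norm_num at h7
      refine ⟨fun M => ?_, h4⟩
      by_contra hM
      have h5 : M = 0 := by
        have := hsupp 0 t M hM
        omega
      rw [h5] at hM
      omega
    refine ⟨r, s, h2, hsupp, hodd, hbase, fun M => ?_, ?_⟩
    · have h3 := hr1 0 0 M
      rw [hid] at h3
      by_cases hM : M = 0
      · rw [if_pos hM]
        rw [hM, zpow_zero_apply, real_inner_self_eq_norm_sq, hu] at h3
        rw [hM]
        exact_mod_cast h3.symm
      · rw [if_neg hM]
        rw [huo M hM] at h3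
        exact_mod_cast h3.symm
    · have h3 := hs1 0 0
      rw [hid, real_inner_self_eq_norm_sq, hw] at h3
      exact_mod_cast h3.symm
  · right
    right
    refine ⟨r, hr, fun x => ?_⟩
    have h1 := hv (x + (w1 0 r, 0))
    rw [hU, ← hTk, hr2, hv] at h1
    exact_mod_cast h1.symm

end Pool.Agent.EEA520

namespace Pool.Agent.EEA520

open Filter Topology Pool.Agent.EEAG1 MeasureTheory

/-- The moments of `x`. -/
theorem mean_x {π : GSys 1} (hπ : Tempered π) {E : AddSubgroup ℝ} {c : Wt 1 × E → ℤ}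
    (hc : IsOrd π E c) (k : ℤ) :
    Mean (fun p => ((π p).x 0 : ℂ)) (fun z => 2 * (z ^ k).re) (c (w1 0 k, 0)) := by
  have h1 : MeanP (fun p => ∑ g : WG 1, zre π (act g (w1 0 k)) ((0 : E) : ℝ) p)
      (c (w1 0 k, 0)) := hc.mean hπ (w1 0 k, 0)
  refine h1.congr fun s => ?_
  congr 1
  unfold psm psum
  refine tsum_congr fun p => ?_
  congr 1
  show ∑ g : WG 1, zre π (act g (w1 0 k)) ((0 : E) : ℝ) p = 2 * (((π p).x 0 : ℂ) ^ k).re
  rw [orb_sum_one 0 k fun w => zre π w ((0 : E) : ℝ) p]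
  have hx : ‖((π p).x 0 : ℂ)‖ = 1 := (hπ p).2 0
  have h2 : ∀ j : ℤ, zre π (w1 0 j) ((0 : E) : ℝ) p = (((π p).x 0 : ℂ) ^ j).re := by
    intro j
    unfold zre Torus.ev w1
    simp
  rw [h2, h2, zero_sub, A5_re hx]
  ring

/-- The moments of `c`, if the central character is trivial. -/
theorem mean_cg {π : GSys 1} (hπ : Tempered π) (hnu : ∀ p, (π p).nu = 1) {E : AddSubgroup ℝ}
    {c : Wt 1 × E → ℤ} (hc : IsOrd π E c) (k m : ℤ) :
    Mean (fun p => ((π p).c : ℂ)) (fun z => 2 * (z ^ (k - 2 * m)).re) (c (w1 k m, 0)) := by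
  have h1 : MeanP (fun p => ∑ g : WG 1, zre π (act g (w1 k m)) ((0 : E) : ℝ) p)
      (c (w1 k m, 0)) := hc.mean hπ (w1 k m, 0)
  refine h1.congr fun s => ?_
  congr 1
  unfold psm psum
  refine tsum_congr fun p => ?_
  congr 1
  show ∑ g : WG 1, zre π (act g (w1 k m)) ((0 : E) : ℝ) p =
    2 * (((π p).c : ℂ) ^ (k - 2 * m)).re
  rw [orb_sum_one k m fun w => zre π w ((0 : E) : ℝ) p]
  have hx : ‖((π p).c : ℂ)‖ = 1 := (hπ p).1
  have hnu1 : (π p).c ^ 2 * (π p).x 0 = 1 := by
    have h2 := hnu p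
    unfold Torus.nu at h2
    simpa using h2
  have hxc : (π p).x 0 = (π p).c ^ (-2 : ℤ) := by
    rw [zpow_neg, eq_inv_iff_mul_eq_one, mul_comm]
    exact_mod_cast hnu1
  have h2 : ∀ i j : ℤ, zre π (w1 i j) ((0 : E) : ℝ) p = (((π p).c : ℂ) ^ (i - 2 * j)).re := by
    intro i j
    unfold zre Torus.ev w1
    have h3 : (π p).c ^ i * (π p).x 0 ^ j = (π p).c ^ (i - 2 * j) := by
      rw [hxc, ← zpow_mul, ← zpow_add]
      congr 1
      ring
    have h4 : (π p).c ^ i * ∏ l : Fin 1, (π p).x l ^ j = (π p).c ^ (i - 2 * j) := by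
      rw [Fin.prod_univ_one, h3]
    simp only [h4]
    simp
  rw [h2, h2, show k - 2 * (k - m) = -(k - 2 * m) by ring, A5_re hx]
  ring

theorem mean_c {π : GSys 1} (hπ : Tempered π) (hnu : ∀ p, (π p).nu = 1) {E : AddSubgroup ℝ}
    {c : Wt 1 × E → ℤ} (hc : IsOrd π E c) (k : ℤ) :
    Mean (fun p => ((π p).c : ℂ)) (fun z => 2 * (z ^ k).re) (c (w1 k 0, 0)) := by
  have h1 := mean_cg hπ hnu hc k 0
  rwa [mul_zero, sub_zero] at h1

/-- Invariance under twists by the central character, if it is trivial. -/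
theorem ord_nu {π : GSys 1} (hπ : Tempered π) (hnu : ∀ p, (π p).nu = 1) {E : AddSubgroup ℝ}
    {c : Wt 1 × E → ℤ} (hc : IsOrd π E c) (k : ℤ) : c (w1 (2 * k) 0, 0) = c (w1 0 k, 0) := by
  have h1 := mean_x hπ hc k
  have h2 := mean_c hπ hnu hc (2 * k)
  have h3 : Mean (fun p => ((π p).c : ℂ)) (fun z => 2 * (z ^ (2 * k)).re) (c (w1 0 k, 0)) := by
    refine Tendsto.congr (fun s => ?_) h1
    congr 1
    unfold psum
    refine tsum_congr fun p => ?_
    congr 1
    show 2 * (((π p).x 0 : ℂ) ^ k).re = 2 * (((π p).c : ℂ) ^ (2 * k)).re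
    have hx : ‖((π p).c : ℂ)‖ = 1 := (hπ p).1
    have hnu1 : (π p).c ^ 2 * (π p).x 0 = 1 := by
      have h2 := hnu p
      unfold Torus.nu at h2
      simpa using h2
    have hxc : (π p).x 0 = (π p).c ^ (-2 : ℤ) := by
      rw [zpow_neg, eq_inv_iff_mul_eq_one, mul_comm]
      exact_mod_cast hnu1
    rw [hxc, Units.val_zpow_eq_zpow_val, ← zpow_mul, show -2 * k = -(2 * k) by ring, A5_re hx]
  exact_mod_cast tendsto_nhds_unique h2 h3

/-- The law of the traces. -/
theorem traceLaw_of_moments {π : GSys 1} (hπ : Tempered π) {E : AddSubgroup ℝ}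
    {c : Wt 1 × E → ℤ} (hc : IsOrd π E c) (μ : Measure ℝ) [IsFiniteMeasure μ]
    (h1 : ∀ k : ℤ, ∫ θ, 2 * Real.cos ((2 * k : ℤ) * θ) ∂μ = c (w1 0 k, 0))
    (h2 : (∀ p, (π p).nu = 1) → ∀ k : ℤ, ∫ θ, 2 * Real.cos (k * θ) ∂μ = c (w1 k 0, 0)) :
    TraceLaw π fun f => ∫ θ, f (2 * Real.cos θ) ∂μ := by
  have hx : ∀ p, ‖((π p).x 0 : ℂ)‖ = 1 := fun p => (hπ p).2 0
  have hcn : ∀ p, ‖((π p).c : ℂ)‖ = 1 := fun p => (hπ p).1
  refine ⟨fun f hf => ?_, fun hnu f hf => ?_⟩
  · have hmap : ∀ F : ℝ → ℝ, Continuous F →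
        ∫ θ, F θ ∂(μ.map fun θ => 2 * θ) = ∫ θ, F (2 * θ) ∂μ := fun F hF =>
      integral_map (by fun_prop) hF.aestronglyMeasurable
    have h3 := law_of_moments hx (c := fun k => (c (w1 0 k, 0) : ℝ)) (fun k => mean_x hπ hc k)
      (μ.map fun θ => 2 * θ) (fun k => by
        rw [hmap _ (by fun_prop), ← h1]
        refine integral_congr_ae (Eventually.of_forall fun θ => ?_)
        push_cast
        ring_nf)
    have hF : ContinuousOn (fun t : ℝ => f (Real.sqrt (2 + t))) (Set.Icc (-2) 2) := by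
      refine hf.comp (by fun_prop) fun t ht => ?_
      refine ⟨Real.sqrt_nonneg _, ?_⟩
      rw [Real.sqrt_le_left (by norm_num)]
      linarith [ht.2]
    have h4 := h3 _ hF
    have hcont : Continuous fun θ : ℝ => f (Real.sqrt (2 + 2 * Real.cos θ)) := by
      refine hF.comp_continuous (f := fun θ : ℝ => 2 * Real.cos θ) (by fun_prop) fun θ => ?_
      exact ⟨by linarith [Real.neg_one_le_cos θ], by linarith [Real.cos_le_one θ]⟩
    have h5 : ∫ θ, f (Real.sqrt (2 + 2 * Real.cos θ)) ∂(μ.map fun θ => 2 * θ) =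
        ∫ θ, f |2 * Real.cos θ| ∂μ := by
      rw [hmap _ hcont]
      refine integral_congr_ae (Eventually.of_forall fun θ => ?_)
      show f (Real.sqrt (2 + 2 * Real.cos (2 * θ))) = f |2 * Real.cos θ|
      rw [← Real.sqrt_sq_eq_abs, Real.cos_two_mul]
      congr 2
      ring
    change Tendsto _ _ (𝓝 (∫ θ, f (Real.sqrt (2 + 2 * Real.cos θ)) ∂(μ.map fun θ => 2 * θ))) at h4
    rw [h5] at h4
    refine h4.congr fun s => ?_
    congr 1
    refine tsum_congr fun p => ?_
    congr 2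
    have h6 : ‖lam π p‖ ^ 2 = 2 + 2 * ((π p).x 0 : ℂ).re := by
      have h7 : lam π p = ((π p).c : ℂ) * (1 + (π p).x 0) := by
        unfold lam
        ring
      rw [h7, norm_mul, hcn, one_mul, ← Complex.normSq_eq_norm_sq, Complex.normSq_add]
      have h8 : Complex.normSq ((π p).x 0 : ℂ) = 1 := by
        rw [Complex.normSq_eq_norm_sq, hx, one_pow]
      rw [h8]
      simp
      ring
    rw [← h6, Real.sqrt_sq (norm_nonneg _)]
  · have h3 := law_of_moments hcn (c := fun k => (c (w1 k 0, 0) : ℝ))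
      (fun k => mean_c hπ hnu hc k) μ (h2 hnu)
    have h4 := h3 f hf
    refine h4.congr fun s => ?_
    congr 1
    refine tsum_congr fun p => ?_
    congr 2
    have hnu1 : (π p).c ^ 2 * (π p).x 0 = 1 := by
      have h2 := hnu p
      unfold Torus.nu at h2
      simpa using h2
    have hxc : (π p).c * (π p).x 0 = ((π p).c)⁻¹ := by
      rw [eq_inv_iff_mul_eq_one, mul_comm, ← mul_assoc, ← pow_two]
      exact hnu1
    unfold lam
    rw [← Units.val_mul, hxc, Units.val_inv_eq_inv_val, Complex.inv_eq_conj (hcn p),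
      Complex.add_re, Complex.conj_re]
    ring

end Pool.Agent.EEA520

namespace Pool.Agent.EEA520

open Filter Topology Pool.Agent.EEAG1 MeasureTheory

theorem pt_zero : pt 0 = 1 := by
  unfold pt
  simp

theorem had_of {π : GSys 1} (hπ : Tempered π) {E : AddSubgroup ℝ} {c : Wt 1 × E → ℤ}
    (hc : IsOrd π E c) (h : PoleOrder π (symdet 2 (-1)) 1 0) : c (w1 0 1, 0) = -1 := by
  have h1 : PoleOrder π (symdet 2 (-1)) (pt ((0 : E) : ℝ)) 0 := by
    rw [AddSubgroup.coe_zero, pt_zero]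
    exact h
  have h2 := order_symdet hπ hc h1
  rw [Finset.sum_range_succ, Finset.sum_range_succ, Finset.sum_range_one] at h2
  have h3 := ord_reflect hπ hc 0 1 0
  have h4 := ord_zero hπ hc 0
  rw [if_pos rfl, card_WG] at h4
  norm_num at h2 h3 h4
  have h5 : w1 0 0 = 0 := rfl
  rw [h5, h4, h3] at h2
  linarith

theorem telescope (f : ℕ → ℤ) (k : ℕ) :
    ∑ i ∈ Finset.range (k + 1), (f i - f (i + 1)) = f 0 - f (k + 1) :=
  Finset.sum_range_sub' f (k + 1)

theorem sum_alt (a : ℕ) : ∑ i ∈ Finset.range (2 * a + 1), ((-1 : ℤ)) ^ ((i : ℤ) + -(a : ℤ)).natAbs =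
    (-1) ^ a := by
  have h1 : ∀ i : ℕ, ((-1 : ℤ)) ^ ((i : ℤ) + -(a : ℤ)).natAbs = (-1) ^ a * (-1) ^ i := by
    intro i
    rw [← pow_add]
    have h2 : Even ((i : ℤ) + -(a : ℤ)).natAbs ↔ Even (a + i) := by
      rw [Int.natAbs_even, ← sub_eq_add_neg, Int.even_sub, Nat.even_add, Int.even_coe_nat,
        Int.even_coe_nat]
      tauto
    by_cases h3 : Even (a + i)
    · rw [h3.neg_one_pow, (h2.2 h3).neg_one_pow]
    · rw [(Nat.not_even_iff_odd.1 h3).neg_one_pow,
        (Nat.not_even_iff_odd.1 (fun h4 => h3 (h2.1 h4))).neg_one_pow]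
  simp only [h1]
  rw [← Finset.mul_sum, neg_one_geom_sum, if_neg (by simp [parity_simps]), mul_one]

end Pool.Agent.EEA520

namespace Pool.Agent.EEA520

open Filter Topology Pool.Agent.EEAG1

theorem order_one {n : ℕ} {π : GSys n} (hπ : Tempered π) {t : ℝ} {k : ℤ}
    (h : PoleOrder π (Finsupp.single 0 1) (pt t) k) : k = if t = 0 then 1 else 0 := by
  have h1 := mean_of_poleOrder hπ h
  have h2 := mean_pit t
  have h3 : tre π (Finsupp.single 0 1) t = fun p : Pr =>
      (((p : ℕ) : ℂ) ^ (-(t * Complex.I))).re := by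
    funext p
    unfold tre zre
    rw [Finsupp.sum_single_index (by simp)]
    have h5 : (π p).ev 0 = 1 := by
      unfold Torus.ev
      simp
    rw [h5]
    simp
  rw [h3] at h1
  have h4 := MeanP.unique h1 h2
  split_ifs with ht
  · rw [if_pos ht] at h4
    exact_mod_cast h4
  · rw [if_neg ht] at h4
    exact_mod_cast h4

end Pool.Agent.EEA520
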