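import Mathlib

/-!
# The theorem of Wiener and Ikehara (MP_eea520_nt, edge theorem)
-/

set_option autoImplicit false

namespace Pool.Agent.W_pnt_h80

open MeasureTheory Set Filter Topology

/-- The Fejer kernel `fej l u = 2 (1 - cos (l u)) / (l u^2)`, with value `l` at `u = 0`. -/
noncomputable def fej (l u : ℝ) : ℝ :=
  if u = 0 then l else 2 * (1 - Real.cos (l * u)) / (l * u ^ 2)

/-- The triangle weight on `[-l, l]`. -/
noncomputable def tri (l y : ℝ) : ℝ := 1 - |y| / l

/-- `psiR a x = ∑_{k ≤ x, k ≡ a mod q} Λ(k)`. -/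
noncomputable def psiR {q : ℕ} (a : ZMod q) (x : ℝ) : ℝ :=
  ∑ k ∈ Finset.Icc 1 ⌊x⌋₊, ArithmeticFunction.vonMangoldt.residueClass a k

/-- The normalised function `B(t) = psiR a (e^t) e^(-t)`. -/
noncomputable def BR {q : ℕ} (a : ZMod q) (t : ℝ) : ℝ := psiR a (Real.exp t) * Real.exp (-t)

end Pool.Agent.W_pnt_h80

namespace Pool.Agent.W_pnt_h80

open MeasureTheory Set Filter Topology

theorem Fejer_aux1 {l : ℝ} (hl : 0 < l) (u : ℝ) : fej l u = l * Real.sinc (l * u / 2) ^ 2 := by
  unfold fej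
  split_ifs with h
  · rw [h, mul_zero, zero_div, Real.sinc_zero]
    ring
  · have h1 : l * u / 2 ≠ 0 := by positivity
    rw [Real.sinc_of_ne_zero h1]
    have h2 : Real.cos (l * u) = 1 - 2 * Real.sin (l * u / 2) ^ 2 := by
      have h3 := Real.cos_two_mul (l * u / 2)
      have h4 := Real.sin_sq_add_cos_sq (l * u / 2)
      rw [show 2 * (l * u / 2) = l * u by ring] at h3
      linarith
    rw [h2]
    have hl' : l ≠ 0 := hl.ne'
    field_simp
    ring

theorem fej_nonneg {l : ℝ} (hl : 0 < l) (u : ℝ) : 0 ≤ fej l u := by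
  rw [Fejer_aux1 hl]
  positivity

theorem fej_scale {l : ℝ} (hl : 0 < l) (u : ℝ) : fej l u = l * fej 1 (l * u) := by
  rw [Fejer_aux1 hl, Fejer_aux1 one_pos, one_mul, one_mul]

theorem fej_le {l : ℝ} (hl : 0 < l) (u : ℝ) : fej l u ≤ l := by
  rw [Fejer_aux1 hl]
  have h := Real.abs_sinc_le_one (l * u / 2)
  have h2 : Real.sinc (l * u / 2) ^ 2 ≤ 1 := by
    rw [← sq_abs]
    exact pow_le_one₀ (abs_nonneg _) h
  nlinarith

theorem fej_continuous {l : ℝ} (hl : 0 < l) : Continuous (fej l) := by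
  rw [show fej l = fun u => l * Real.sinc (l * u / 2) ^ 2 from funext (Fejer_aux1 hl)]
  have h := Real.continuous_sinc
  fun_prop

theorem Fejer_aux2 {l : ℝ} (hl : 0 < l) {u : ℝ} (hu : u ≠ 0) (ε : ℝ) (a b : ℝ) :
    ∫ y in a..b, ((1 - ε * y / l : ℝ) : ℂ) * Complex.exp (Complex.I * y * u) =
      (((1 - ε * b / l : ℝ) : ℂ) * Complex.exp (Complex.I * b * u) / (Complex.I * u) +
        ((ε / l : ℝ) : ℂ) * Complex.exp (Complex.I * b * u) / (Complex.I * u) ^ 2) -
      (((1 - ε * a / l : ℝ) : ℂ) * Complex.exp (Complex.I * a * u) / (Complex.I * u) +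
        ((ε / l : ℝ) : ℂ) * Complex.exp (Complex.I * a * u) / (Complex.I * u) ^ 2) := by
  have hu' : (u : ℂ) ≠ 0 := by exact_mod_cast hu
  have hI : Complex.I * (u : ℂ) ≠ 0 := mul_ne_zero Complex.I_ne_zero hu'
  have hl' : (l : ℂ) ≠ 0 := by exact_mod_cast hl.ne'
  refine intervalIntegral.integral_eq_sub_of_hasDerivAt
    (f := fun y : ℝ => ((1 - ε * y / l : ℝ) : ℂ) * Complex.exp (Complex.I * y * u) / (Complex.I * u) +
        ((ε / l : ℝ) : ℂ) * Complex.exp (Complex.I * y * u) / (Complex.I * u) ^ 2) ?_ ?_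
  · intro y _
    have h1 : HasDerivAt (fun y : ℝ => Complex.exp (Complex.I * y * u))
        (Complex.exp (Complex.I * y * u) * (Complex.I * 1 * u)) y := by
      have h2 : HasDerivAt (fun y : ℝ => Complex.I * (y : ℂ) * u) (Complex.I * 1 * u) y :=
        (Complex.ofRealCLM.hasDerivAt.const_mul Complex.I).mul_const _
      exact h2.cexp
    have h3 : HasDerivAt (fun y : ℝ => ((1 - ε * y / l : ℝ) : ℂ)) ((-(ε * 1 / l) : ℝ) : ℂ) y := by
      have h4 : HasDerivAt (fun y : ℝ => 1 - ε * y / l) (-(ε * 1 / l)) y := by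
        have h5 := (((hasDerivAt_id y).const_mul ε).div_const l).const_sub 1
        exact h5
      exact h4.ofReal_comp
    have h6 := ((h3.mul h1).div_const (Complex.I * u)).add
      (((h1.const_mul ((ε / l : ℝ) : ℂ))).div_const ((Complex.I * u) ^ 2))
    refine h6.congr_deriv ?_
    push_cast
    field_simp
    ring
  · apply Continuous.intervalIntegrable
    fun_prop

/-- The Fejer kernel is the Fourier transform of the triangle weight. -/
theorem fej_fourier {l : ℝ} (hl : 0 < l) (u : ℝ) :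
    ∫ y in (-l)..l, ((tri l y : ℝ) : ℂ) * Complex.exp (Complex.I * y * u) = (fej l u : ℂ) := by
  have hl' : (l : ℂ) ≠ 0 := by exact_mod_cast hl.ne'
  have hcont : Continuous fun y : ℝ => ((tri l y : ℝ) : ℂ) * Complex.exp (Complex.I * y * u) := by
    unfold tri
    fun_prop
  rw [← intervalIntegral.integral_add_adjacent_intervals (b := (0 : ℝ))
    (hcont.intervalIntegrable _ _) (hcont.intervalIntegrable _ _)]
  have e1 : ∫ y in (-l)..0, ((tri l y : ℝ) : ℂ) * Complex.exp (Complex.I * y * u) =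
      ∫ y in (-l)..0, ((1 - (-1) * y / l : ℝ) : ℂ) * Complex.exp (Complex.I * y * u) := by
    refine intervalIntegral.integral_congr fun y hy => ?_
    rw [uIcc_of_le (by linarith)] at hy
    simp only [tri]
    rw [abs_of_nonpos hy.2, show (-y) = (-1) * y by ring]
  have e2 : ∫ y in (0 : ℝ)..l, ((tri l y : ℝ) : ℂ) * Complex.exp (Complex.I * y * u) =
      ∫ y in (0 : ℝ)..l, ((1 - 1 * y / l : ℝ) : ℂ) * Complex.exp (Complex.I * y * u) := by
    refine intervalIntegral.integral_congr fun y hy => ?_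
    rw [uIcc_of_le hl.le] at hy
    simp only [tri]
    rw [abs_of_nonneg hy.1, one_mul]
  rw [e1, e2]
  by_cases hu : u = 0
  · subst hu
    have e3 : ∀ (ε a b : ℝ), ∫ y in a..b, ((1 - ε * y / l : ℝ) : ℂ) *
        Complex.exp (Complex.I * y * (0 : ℝ)) = (((b - ε * b ^ 2 / (2 * l)) -
          (a - ε * a ^ 2 / (2 * l)) : ℝ) : ℂ) := by
      intro ε a b
      have e4 : ∫ y in a..b, ((1 - ε * y / l : ℝ) : ℂ) *
        Complex.exp (Complex.I * y * (0 : ℝ)) = ∫ y in a..b, ((1 - ε * y / l : ℝ) : ℂ) := by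
        refine intervalIntegral.integral_congr fun y _ => ?_
        simp
      rw [e4, intervalIntegral.integral_ofReal]
      congr 1
      refine intervalIntegral.integral_eq_sub_of_hasDerivAt
        (f := fun y : ℝ => y - ε * y ^ 2 / (2 * l)) ?_ ?_
      · intro y _
        have h5 := (hasDerivAt_id y).sub ((((hasDerivAt_id y).pow 2).const_mul ε).div_const (2 * l))
        refine h5.congr_deriv ?_
        simp only [id]
        field_simp
        norm_num
        ring
      · apply Continuous.intervalIntegrable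
        fun_prop
    rw [e3, e3, ← Complex.ofReal_add]
    congr 1
    rw [fej, if_pos rfl]
    field_simp
    ring
  · rw [Fejer_aux2 hl hu, Fejer_aux2 hl hu]
    have hu' : (u : ℂ) ≠ 0 := by exact_mod_cast hu
    have h1 : ((1 - (-1) * (-l) / l : ℝ) : ℂ) = 0 := by
      rw [← Complex.ofReal_zero]
      congr 1
      field_simp
      ring
    have h2 : ((1 - 1 * l / l : ℝ) : ℂ) = 0 := by
      rw [← Complex.ofReal_zero]
      congr 1
      field_simp
      ring
    have h3 : (fej l u : ℂ) = 2 * (1 - Complex.cos (l * u)) / (l * u ^ 2) := by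
      rw [fej, if_neg hu]
      push_cast
      rfl
    have h4 : Complex.exp (Complex.I * l * u) + Complex.exp (-(Complex.I * l * u)) =
        2 * Complex.cos (l * u) := by
      rw [Complex.two_cos]
      rw [show Complex.I * l * u = l * u * Complex.I by ring]
      rw [show -(l * u * Complex.I) = -(l * u) * Complex.I by ring]
    rw [h1, h2, h3]
    simp only [Complex.ofReal_zero, mul_zero, zero_mul, Complex.exp_zero, zero_div, sub_zero,
      zero_add, Complex.ofReal_neg, mul_neg, neg_mul]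
    have h5 : (Complex.I * (u : ℂ)) ^ 2 = - (u : ℂ) ^ 2 := by
      rw [mul_pow, Complex.I_sq]
      ring
    have h6 : Complex.I * (u : ℂ) ≠ 0 := mul_ne_zero Complex.I_ne_zero hu'
    rw [h5]
    have h7 : Complex.exp (-(Complex.I * l * u)) =
        2 * Complex.cos (l * u) - Complex.exp (Complex.I * l * u) := by
      rw [← h4]
      ring
    rw [h7]
    push_cast
    field_simp
    ring

theorem Fejer_aux3 {l : ℝ} (hl : 0 < l) {u : ℝ} (hu : u ≠ 0) : fej l u ≤ 4 / (l * u ^ 2) := by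
  rw [fej, if_neg hu]
  have h := Real.neg_one_le_cos (l * u)
  have h2 : 0 < l * u ^ 2 := by positivity
  rw [div_le_div_iff_of_pos_right h2]
  linarith

theorem fej_integrable {l : ℝ} (hl : 0 < l) : Integrable (fej l) := by
  refine Integrable.mono' (integrable_inv_one_add_sq.const_mul (l + 4 / l))
    (fej_continuous hl).aestronglyMeasurable (Eventually.of_forall fun u => ?_)
  rw [Real.norm_of_nonneg (fej_nonneg hl u), ← div_eq_mul_inv, le_div_iff₀ (by positivity)]
  have h1 := fej_le hl u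
  have h2 : fej l u * u ^ 2 ≤ 4 / l := by
    by_cases hu : u = 0
    · rw [hu]
      have : 0 < 4 / l := by positivity
      simpa using this.le
    · have h3 := mul_le_mul_of_nonneg_right (Fejer_aux3 hl hu) (sq_nonneg u)
      refine h3.trans (le_of_eq ?_)
      field_simp
  linarith

theorem fej_integral_pos : 0 < ∫ u, fej 1 u := by
  rw [integral_pos_iff_support_of_nonneg (fun u => fej_nonneg one_pos u) (fej_integrable one_pos)]
  refine IsOpen.measure_pos volume (fej_continuous one_pos).isOpen_support ⟨0, ?_⟩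
  simp [fej]

theorem fej_integral_eq {l : ℝ} (hl : 0 < l) : ∫ u, fej l u = ∫ u, fej 1 u := by
  have h1 : ∀ u, fej l u = l * fej 1 (l * u) := fej_scale hl
  simp_rw [h1]
  rw [integral_const_mul, Measure.integral_comp_mul_left (fej 1) l, smul_eq_mul,
    abs_of_pos (by positivity), ← mul_assoc, mul_inv_cancel₀ hl.ne', one_mul]

/-- The mass outside `[-δ, δ]` tends to zero as `l → ∞`. -/
theorem fej_tail {δ η : ℝ} (hδ : 0 < δ) (hη : 0 < η) :
    ∃ l0 : ℝ, 0 < l0 ∧ ∀ l : ℝ, l0 ≤ l → ∫ u in {u : ℝ | δ ≤ |u|}, fej l u ≤ η := by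
  have hπ := Real.pi_pos
  refine ⟨4 * (1 + 1 / δ ^ 2) * Real.pi / η, by positivity, fun l hl0 => ?_⟩
  have hl : 0 < l := lt_of_lt_of_le (by positivity) hl0
  have hms : MeasurableSet {u : ℝ | δ ≤ |u|} := by
    apply IsClosed.measurableSet
    exact isClosed_le continuous_const continuous_abs
  have hi : Integrable fun u : ℝ => (4 / l * (1 + 1 / δ ^ 2)) * (1 + u ^ 2)⁻¹ :=
    integrable_inv_one_add_sq.const_mul _
  have h1 : ∫ u in {u : ℝ | δ ≤ |u|}, fej l u ≤
      ∫ u in {u : ℝ | δ ≤ |u|}, (4 / l * (1 + 1 / δ ^ 2)) * (1 + u ^ 2)⁻¹ := by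
    refine setIntegral_mono_on (fej_integrable hl).integrableOn hi.integrableOn hms ?_
    intro u hu
    have hu1 : δ ≤ |u| := hu
    have hu0 : u ≠ 0 := by
      intro h0
      rw [h0, abs_zero] at hu1
      linarith
    refine (Fejer_aux3 hl hu0).trans ?_
    have hu2 : δ ^ 2 ≤ u ^ 2 := by
      rw [← sq_abs u]
      exact pow_le_pow_left₀ hδ.le hu1 2
    have hu3 : 0 < u ^ 2 := by positivity
    have h3 : 1 + u ^ 2 ≤ (1 + 1 / δ ^ 2) * u ^ 2 := by
      have h4 : 1 ≤ 1 / δ ^ 2 * u ^ 2 := by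
        rw [one_div, inv_mul_eq_div, le_div_iff₀ (by positivity)]
        linarith
      linarith
    have h5 : 4 / (l * u ^ 2) = 4 / l * (u ^ 2)⁻¹ := by
      field_simp
    rw [h5, mul_assoc]
    refine mul_le_mul_of_nonneg_left ?_ (by positivity)
    rw [← div_eq_mul_inv, le_div_iff₀ (by positivity), inv_mul_eq_div, div_le_iff₀ hu3]
    exact h3
  refine h1.trans ?_
  refine (setIntegral_le_integral hi (Eventually.of_forall fun u => by
    simp only [Pi.zero_apply]; positivity)).trans ?_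
  rw [integral_const_mul, integral_univ_inv_one_add_sq]
  rw [div_le_iff₀ hη] at hl0
  rw [div_mul_eq_mul_div, div_mul_eq_mul_div, div_le_iff₀ hl]
  linarith

end Pool.Agent.W_pnt_h80

namespace Pool.Agent.W_pnt_h80

open MeasureTheory Set Filter Topology

theorem Fubini_norm (e y t : ℝ) :
    ‖Complex.exp (-((e : ℂ) + Complex.I * y) * t)‖ = Real.exp (-e * t) := by
  rw [Complex.norm_exp]
  congr 1
  simp

theorem Fubini_norm2 (y v : ℝ) : ‖Complex.exp (Complex.I * y * v)‖ = 1 := by
  rw [Complex.norm_exp]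
  simp

theorem Fubini_tri_le {l : ℝ} (hl : 0 < l) (y : ℝ) : |tri l y| ≤ 1 + |y| / l := by
  unfold tri
  have h1 : 0 ≤ |y| / l := div_nonneg (abs_nonneg _) hl.le
  rw [abs_le]
  constructor <;> linarith

theorem Fubini_tri_continuous (l : ℝ) : Continuous (tri l) := by
  unfold tri
  fun_prop

theorem Fubini_integrable {l e v C : ℝ} (hl : 0 < l) (he : 0 < e) {D : ℝ → ℝ} (hm : Measurable D)
    (hD : ∀ t, |D t| ≤ C) :
    Integrable (Function.uncurry fun (y t : ℝ) => ((tri l y : ℝ) : ℂ) *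
      Complex.exp (Complex.I * y * v) * ((D t : ℂ) * Complex.exp (-((e : ℂ) + Complex.I * y) * t)))
      ((volume.restrict (Ioc (-l) l)).prod (volume.restrict (Ioi 0))) := by
  have hg : Integrable (fun p : ℝ × ℝ => (1 + |p.1| / l) * (C * Real.exp (-e * p.2)))
      ((volume.restrict (Ioc (-l) l)).prod (volume.restrict (Ioi 0))) := by
    refine Integrable.mul_prod (f := fun y : ℝ => 1 + |y| / l)
      (g := fun t : ℝ => C * Real.exp (-e * t)) ?_ ?_
    · have h1 : Continuous fun y : ℝ => 1 + |y| / l := by fun_prop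
      exact (h1.integrableOn_Icc (a := -l) (b := l)).mono_set Ioc_subset_Icc_self
    · exact (integrableOn_exp_mul_Ioi (by linarith) 0).const_mul C
  refine hg.mono' ?_ (Filter.Eventually.of_forall fun p => ?_)
  · have h1 := Fubini_tri_continuous l
    refine Measurable.aestronglyMeasurable ?_
    have h2 : Measurable fun p : ℝ × ℝ => ((tri l p.1 : ℝ) : ℂ) :=
      (Complex.continuous_ofReal.comp (h1.comp continuous_fst)).measurable
    have h3 : Measurable fun p : ℝ × ℝ => ((D p.2 : ℝ) : ℂ) :=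
      Complex.measurable_ofReal.comp (hm.comp measurable_snd)
    have h4 : Measurable fun p : ℝ × ℝ => Complex.exp (Complex.I * p.1 * v) := by
      have : Continuous fun p : ℝ × ℝ => Complex.exp (Complex.I * p.1 * v) := by fun_prop
      exact this.measurable
    have h5 : Measurable fun p : ℝ × ℝ => Complex.exp (-((e : ℂ) + Complex.I * p.1) * p.2) := by
      have : Continuous fun p : ℝ × ℝ => Complex.exp (-((e : ℂ) + Complex.I * p.1) * p.2) := by
        fun_prop
      exact this.measurable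
    exact (h2.mul h4).mul (h3.mul h5)
  · show ‖((tri l p.1 : ℝ) : ℂ) * Complex.exp (Complex.I * p.1 * v) *
      ((D p.2 : ℂ) * Complex.exp (-((e : ℂ) + Complex.I * p.1) * p.2))‖ ≤ _
    rw [norm_mul, norm_mul, norm_mul, Fubini_norm, Fubini_norm2, mul_one, Complex.norm_real,
      Complex.norm_real, Real.norm_eq_abs, Real.norm_eq_abs]
    have h1 := Fubini_tri_le hl p.1
    have h2 := hD p.2
    exact mul_le_mul h1 (mul_le_mul_of_nonneg_right h2 (Real.exp_pos _).le)
      (mul_nonneg (abs_nonneg _) (Real.exp_pos _).le) ((abs_nonneg _).trans h1)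

/-- Fubini: the Fejer average of the Laplace transform. -/
theorem fubini_fej {l e v C : ℝ} (hl : 0 < l) (he : 0 < e) {D : ℝ → ℝ} (hm : Measurable D)
    (hD : ∀ t, |D t| ≤ C) :
    ∫ y in (-l)..l, ((tri l y : ℝ) : ℂ) * Complex.exp (Complex.I * y * v) *
        (∫ t in Ioi (0 : ℝ), (D t : ℂ) * Complex.exp (-((e : ℂ) + Complex.I * y) * t)) =
      ((∫ t in Ioi (0 : ℝ), D t * Real.exp (-e * t) * fej l (v - t) : ℝ) : ℂ) := by
  have hl' : -l ≤ l := by linarith
  rw [intervalIntegral.integral_of_le hl']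
  have h1 : ∀ y : ℝ, ((tri l y : ℝ) : ℂ) * Complex.exp (Complex.I * y * v) *
      (∫ t in Ioi (0 : ℝ), (D t : ℂ) * Complex.exp (-((e : ℂ) + Complex.I * y) * t)) =
      ∫ t in Ioi (0 : ℝ), ((tri l y : ℝ) : ℂ) * Complex.exp (Complex.I * y * v) *
        ((D t : ℂ) * Complex.exp (-((e : ℂ) + Complex.I * y) * t)) := fun y =>
    (integral_const_mul _ _).symm
  simp_rw [h1]
  rw [integral_integral_swap (Fubini_integrable hl he hm hD), ← integral_complex_ofReal]
  refine integral_congr_ae (Filter.Eventually.of_forall fun t => ?_)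
  show ∫ y in Ioc (-l) l, ((tri l y : ℝ) : ℂ) * Complex.exp (Complex.I * y * v) *
        ((D t : ℂ) * Complex.exp (-((e : ℂ) + Complex.I * y) * t)) =
        ((D t * Real.exp (-e * t) * fej l (v - t) : ℝ) : ℂ)
  have h2 : ∀ y : ℝ, ((tri l y : ℝ) : ℂ) * Complex.exp (Complex.I * y * v) *
        ((D t : ℂ) * Complex.exp (-((e : ℂ) + Complex.I * y) * t)) =
      ((D t * Real.exp (-e * t) : ℝ) : ℂ) *
        (((tri l y : ℝ) : ℂ) * Complex.exp (Complex.I * y * ((v - t : ℝ) : ℂ))) := by
    intro y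
    have h3 : Complex.exp (Complex.I * y * v) * Complex.exp (-((e : ℂ) + Complex.I * y) * t) =
        ((Real.exp (-e * t) : ℝ) : ℂ) * Complex.exp (Complex.I * y * ((v - t : ℝ) : ℂ)) := by
      rw [Complex.ofReal_exp, ← Complex.exp_add, ← Complex.exp_add]
      congr 1
      push_cast
      ring
    calc _ = ((tri l y : ℝ) : ℂ) * (D t : ℂ) * (Complex.exp (Complex.I * y * v) *
          Complex.exp (-((e : ℂ) + Complex.I * y) * t)) := by ring
      _ = _ := by rw [h3]; push_cast; ring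
  simp_rw [h2]
  rw [integral_const_mul, ← intervalIntegral.integral_of_le hl', fej_fourier hl]
  push_cast
  ring

/-- Dominated convergence on both sides as `e → 0+`. -/
theorem fubini_fej_zero {l v C : ℝ} (hl : 0 < l) {D : ℝ → ℝ} (hm : Measurable D)
    (hD : ∀ t, |D t| ≤ C) {G : ℝ × ℝ → ℂ} (hG : ContinuousOn G (Ici 0 ×ˢ univ))
    (hGD : ∀ e y : ℝ, 0 < e → ∫ t in Ioi (0 : ℝ), (D t : ℂ) *
      Complex.exp (-((e : ℂ) + Complex.I * y) * t) = G (e, y)) :
    ∫ y in (-l)..l, ((tri l y : ℝ) : ℂ) * Complex.exp (Complex.I * y * v) * G (0, y) =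
      ((∫ t in Ioi (0 : ℝ), D t * fej l (v - t) : ℝ) : ℂ) := by
  have hC : 0 ≤ C := (abs_nonneg _).trans (hD 0)
  have hGc : ∀ e : ℝ, 0 ≤ e → Continuous fun y : ℝ => G (e, y) := by
    intro e he
    refine hG.comp_continuous (by fun_prop) fun y => ?_
    exact ⟨he, mem_univ _⟩
  have hbd : ∃ M, ∀ x ∈ Icc (0 : ℝ) 1 ×ˢ Icc (-l) l, ‖G x‖ ≤ M := by
    refine (isCompact_Icc.prod isCompact_Icc).exists_bound_of_continuousOn (hG.mono ?_)
    rintro ⟨a, b⟩ ⟨ha, hb⟩
    exact ⟨ha.1, mem_univ _⟩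
  obtain ⟨M, hM⟩ := hbd
  have hsmall : ∀ᶠ e : ℝ in 𝓝[>] 0, e < 1 :=
    nhdsWithin_le_nhds (Iio_mem_nhds one_pos)
  have hpos : ∀ᶠ e : ℝ in 𝓝[>] 0, 0 < e := self_mem_nhdsWithin
  -- the left side
  have hL : Tendsto (fun e : ℝ => ∫ y in (-l)..l, ((tri l y : ℝ) : ℂ) *
      Complex.exp (Complex.I * y * v) * G (e, y)) (𝓝[>] 0)
      (𝓝 (∫ y in (-l)..l, ((tri l y : ℝ) : ℂ) * Complex.exp (Complex.I * y * v) * G (0, y))) := by
    refine intervalIntegral.tendsto_integral_filter_of_dominated_convergence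
      (fun y => (1 + |y| / l) * M) ?_ ?_ ?_ ?_
    · filter_upwards [hpos] with e he
      have h1 := Fubini_tri_continuous l
      have h2 := hGc e he.le
      have h3 : Continuous fun y : ℝ => ((tri l y : ℝ) : ℂ) * Complex.exp (Complex.I * y * v) *
          G (e, y) := by
        refine Continuous.mul (Continuous.mul (Complex.continuous_ofReal.comp h1) ?_) h2
        fun_prop
      exact h3.aestronglyMeasurable
    · filter_upwards [hpos, hsmall] with e he he1
      refine Filter.Eventually.of_forall fun y hy => ?_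
      rw [uIoc_of_le (by linarith)] at hy
      rw [norm_mul, norm_mul, Fubini_norm2, mul_one, Complex.norm_real, Real.norm_eq_abs]
      have h1 := Fubini_tri_le hl y
      exact mul_le_mul h1 (hM (e, y) ⟨⟨he.le, he1.le⟩, ⟨hy.1.le, hy.2⟩⟩) (norm_nonneg _)
        ((abs_nonneg _).trans h1)
    · have h1 : Continuous fun y : ℝ => (1 + |y| / l) * M := by fun_prop
      exact h1.intervalIntegrable _ _
    · refine Filter.Eventually.of_forall fun y _ => ?_
      refine Tendsto.const_mul _ ?_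
      have h1 : Tendsto (fun e : ℝ => (e, y)) (𝓝[>] 0) (𝓝[Ici 0 ×ˢ univ] (0, y)) := by
        refine tendsto_nhdsWithin_iff.2 ⟨?_, ?_⟩
        · have h2 : Continuous fun e : ℝ => (e, y) := by fun_prop
          exact (h2.tendsto 0).mono_left nhdsWithin_le_nhds
        · filter_upwards [hpos] with e he
          exact ⟨he.le, mem_univ _⟩
      exact (hG (0, y) ⟨le_refl (0 : ℝ), mem_univ _⟩).tendsto.comp h1
  -- the right side
  have hR : Tendsto (fun e : ℝ => ∫ t in Ioi (0 : ℝ), D t * Real.exp (-e * t) * fej l (v - t))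
      (𝓝[>] 0) (𝓝 (∫ t in Ioi (0 : ℝ), D t * fej l (v - t))) := by
    have hfm : Measurable fun t : ℝ => fej l (v - t) :=
      ((fej_continuous hl).comp (by fun_prop)).measurable
    refine tendsto_integral_filter_of_dominated_convergence (fun t => C * fej l (v - t)) ?_ ?_ ?_ ?_
    · refine Filter.Eventually.of_forall fun e => ?_
      refine Measurable.aestronglyMeasurable ?_
      exact (hm.mul (by fun_prop)).mul hfm
    · filter_upwards [hpos] with e he
      refine (ae_restrict_mem measurableSet_Ioi).mono fun t ht => ?_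
      have ht' : 0 < t := ht
      rw [norm_mul, norm_mul, Real.norm_eq_abs, Real.norm_eq_abs, Real.norm_eq_abs,
        abs_of_pos (Real.exp_pos _), abs_of_nonneg (fej_nonneg hl _)]
      refine mul_le_mul_of_nonneg_right ?_ (fej_nonneg hl _)
      have h1 : Real.exp (-e * t) ≤ 1 := Real.exp_le_one_iff.2 (by nlinarith)
      calc |D t| * Real.exp (-e * t) ≤ C * 1 :=
            mul_le_mul (hD t) h1 (Real.exp_pos _).le hC
        _ = C := mul_one C
    · exact (((fej_integrable hl).comp_sub_left v).const_mul C).integrableOn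
    · refine Filter.Eventually.of_forall fun t => ?_
      have h1 : Tendsto (fun e : ℝ => D t * Real.exp (-e * t) * fej l (v - t)) (𝓝 0)
          (𝓝 (D t * Real.exp (-0 * t) * fej l (v - t))) := by
        have h2 : Continuous fun e : ℝ => D t * Real.exp (-e * t) * fej l (v - t) := by fun_prop
        exact h2.tendsto 0
      have h3 : D t * Real.exp (-0 * t) * fej l (v - t) = D t * fej l (v - t) := by
        rw [neg_zero, zero_mul, Real.exp_zero, mul_one]
      rw [h3] at h1
      exact h1.mono_left nhdsWithin_le_nhds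
  have hR' := (Complex.continuous_ofReal.tendsto _).comp hR
  refine tendsto_nhds_unique hL (hR'.congr' ?_)
  filter_upwards [hpos] with e he
  show ((∫ t in Ioi (0 : ℝ), D t * Real.exp (-e * t) * fej l (v - t) : ℝ) : ℂ) = _
  rw [← fubini_fej hl he hm hD]
  simp_rw [hGD e _ he]

end Pool.Agent.W_pnt_h80

namespace Pool.Agent.W_pnt_h80

open MeasureTheory Set Filter Topology

theorem RL_tendsto : Tendsto (fun v : ℝ => -v / (2 * Real.pi)) atTop (cocompact ℝ) := by
  have h1 : Tendsto (fun v : ℝ => -v / (2 * Real.pi)) atTop atBot := by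
    refine Tendsto.atBot_div_const (by positivity) ?_
    exact tendsto_neg_atTop_atBot
  exact h1.mono_right atBot_le_cocompact

/-- Riemann-Lebesgue (from Mathlib's `Real.tendsto_integral_exp_smul_cocompact` or
`tendsto_integral_exp_inner_smul_cocompact`). -/
theorem riemann_lebesgue {l : ℝ} (hl : 0 < l) {G : ℝ → ℂ} (hG : Continuous G) :
    Tendsto (fun v : ℝ => ∫ y in (-l)..l,
      ((tri l y : ℝ) : ℂ) * Complex.exp (Complex.I * y * v) * G y) atTop (𝓝 0) := by
  have h := (Real.tendsto_integral_exp_smul_cocompact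
    (Set.indicator (Ioc (-l) l) (fun y : ℝ => ((tri l y : ℝ) : ℂ) * G y))).comp RL_tendsto
  refine h.congr fun v => ?_
  rw [intervalIntegral.integral_of_le (by linarith), ← integral_indicator measurableSet_Ioc]
  refine integral_congr_ae (Eventually.of_forall fun y => ?_)
  by_cases hy : y ∈ Ioc (-l) l
  · simp only [Set.indicator_of_mem hy]
    rw [Circle.smul_def, Real.fourierChar_apply, smul_eq_mul]
    have e : ((2 * Real.pi * -(y * (-v / (2 * Real.pi))) : ℝ) : ℂ) * Complex.I =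
        Complex.I * y * v := by
      have e1 : 2 * Real.pi * -(y * (-v / (2 * Real.pi))) = y * v := by
        have := Real.pi_pos
        field_simp
      rw [e1]
      push_cast
      ring
    rw [e]
    ring
  · simp only [Set.indicator_of_notMem hy, smul_zero]

end Pool.Agent.W_pnt_h80

namespace Pool.Agent.W_pnt_h80

open MeasureTheory Set Filter Topology

/-- The part of the Fejer mass seen from `v` on the positive half line tends to the full mass. -/
theorem Tauber_mass {l : ℝ} (hl : 0 < l) :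
    Tendsto (fun v : ℝ => ∫ t in Ioi (0 : ℝ), fej l (v - t)) atTop (𝓝 (∫ u, fej 1 u)) := by
  have h1 : ∀ v : ℝ, ∫ t in Ioi (0 : ℝ), fej l (v - t) = ∫ u in Iio v, fej l u := by
    intro v
    rw [← integral_indicator measurableSet_Ioi, ← integral_indicator measurableSet_Iio,
      ← integral_sub_left_eq_self ((Iio v).indicator (fej l)) volume v]
    refine integral_congr_ae (Eventually.of_forall fun t => ?_)
    by_cases ht : 0 < t
    · have h2 : v - t < v := by linarith
      simp [indicator, ht]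
    · have h2 : ¬ (v - t < v) := by linarith
      simp [indicator, ht]
  simp_rw [h1]
  rw [← fej_integral_eq hl]
  exact (aecover_Iio tendsto_id).integral_tendsto_of_countably_generated (fej_integrable hl)

theorem Tauber_int {B : ℝ → ℝ} {C : ℝ} (hm : Measurable B) (h0 : ∀ t, 0 ≤ B t)
    (hC : ∀ t, B t ≤ C) {l : ℝ} (hl : 0 < l) (v : ℝ) :
    Integrable (fun t => B t * fej l (v - t)) := by
  refine Integrable.bdd_mul (c := C) ((fej_integrable hl).comp_sub_left v)
    hm.aestronglyMeasurable (Eventually.of_forall fun t => ?_)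
  rw [Real.norm_eq_abs, abs_of_nonneg (h0 t)]
  exact hC t

/-- The Fejer averages of `B` tend to `c` times the mass. -/
theorem Tauber_avg {B : ℝ → ℝ} {c C : ℝ} (hm : Measurable B) (h0 : ∀ t, 0 ≤ B t)
    (hC : ∀ t, B t ≤ C)
    (hlim : ∀ l : ℝ, 0 < l → Tendsto (fun v : ℝ => ∫ t in Ioi (0 : ℝ), (B t - c) * fej l (v - t))
      atTop (𝓝 0)) {l : ℝ} (hl : 0 < l) :
    Tendsto (fun v : ℝ => ∫ t in Ioi (0 : ℝ), B t * fej l (v - t)) atTop
      (𝓝 (c * ∫ u, fej 1 u)) := by
  have h1 := (hlim l hl).add ((Tauber_mass hl).const_mul c)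
  rw [zero_add] at h1
  refine h1.congr fun v => ?_
  rw [← integral_const_mul, ← integral_add]
  · refine integral_congr_ae (Eventually.of_forall fun t => ?_)
    simp only
    ring
  · have h2 := (Tauber_int hm h0 hC hl v).integrableOn (s := Ioi (0 : ℝ))
    have h3 := (((fej_integrable hl).comp_sub_left v).const_mul c).integrableOn (s := Ioi (0 : ℝ))
    refine (h2.sub h3).congr (Eventually.of_forall fun t => ?_)
    simp only [Pi.sub_apply]
    ring
  · exact (((fej_integrable hl).comp_sub_left v).const_mul c).integrableOn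

/-- Mass of the Fejer kernel centred at `w` on `[w - δ, w + δ]`. -/
theorem Tauber_window {l δ η : ℝ} (hl : 0 < l) (hδ : 0 < δ)
    (ht : ∫ u in {u : ℝ | δ ≤ |u|}, fej l u ≤ η) (w : ℝ) :
    (∫ u, fej 1 u) - η ≤ ∫ t in Icc (w - δ) (w + δ), fej l (w - t) := by
  have hms : MeasurableSet {u : ℝ | δ ≤ |u|} := measurableSet_le measurable_const measurable_norm
  have h1 : ∫ t in Icc (w - δ) (w + δ), fej l (w - t) = ∫ u in Icc (-δ) δ, fej l u := by
    rw [← integral_indicator measurableSet_Icc, ← integral_indicator measurableSet_Icc,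
      ← integral_sub_left_eq_self ((Icc (-δ) δ).indicator (fej l)) volume w]
    refine integral_congr_ae (Eventually.of_forall fun t => ?_)
    have h2 : t ∈ Icc (w - δ) (w + δ) ↔ w - t ∈ Icc (-δ) δ := by
      simp only [mem_Icc]
      constructor
      · rintro ⟨a, b⟩; constructor <;> linarith
      · rintro ⟨a, b⟩; constructor <;> linarith
    by_cases h3 : t ∈ Icc (w - δ) (w + δ)
    · simp only [indicator_of_mem h3, indicator_of_mem (h2.1 h3)]
    · have h4 : w - t ∉ Icc (-δ) δ := fun h => h3 (h2.2 h)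
      simp only [indicator_of_notMem h3, indicator_of_notMem h4]
  have h5 := integral_add_compl hms (fej_integrable hl)
  have h6 : ∫ u in {u : ℝ | δ ≤ |u|}ᶜ, fej l u ≤ ∫ u in Icc (-δ) δ, fej l u := by
    refine setIntegral_mono_set (fej_integrable hl).integrableOn
      (Eventually.of_forall fun u => fej_nonneg hl u) (LE.le.eventuallyLE ?_)
    intro u hu
    simp only [mem_compl_iff, mem_ofPred_eq, not_le] at hu
    have := abs_lt.1 hu
    exact ⟨by linarith, by linarith⟩
  rw [h1]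
  rw [fej_integral_eq hl] at h5
  linarith

/-- Mass of the Fejer kernel centred at `w` away from `[w - δ, w + δ]`. -/
theorem Tauber_out {l δ η : ℝ}
    (ht : ∫ u in {u : ℝ | δ ≤ |u|}, fej l u ≤ η) (w : ℝ) :
    ∫ t in {t : ℝ | δ ≤ |w - t|}, fej l (w - t) ≤ η := by
  have hms : MeasurableSet {u : ℝ | δ ≤ |u|} := measurableSet_le measurable_const measurable_norm
  have hms2 : MeasurableSet {t : ℝ | δ ≤ |w - t|} :=
    measurableSet_le measurable_const ((measurable_const.sub measurable_id).norm)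
  have h1 : ∫ t in {t : ℝ | δ ≤ |w - t|}, fej l (w - t) = ∫ u in {u : ℝ | δ ≤ |u|}, fej l u := by
    rw [← integral_indicator hms2, ← integral_indicator hms,
      ← integral_sub_left_eq_self ({u : ℝ | δ ≤ |u|}.indicator (fej l)) volume w]
    refine integral_congr_ae (Eventually.of_forall fun t => ?_)
    by_cases h3 : δ ≤ |w - t|
    · simp [indicator, h3]
    · simp [indicator, h3]
  rw [h1]; exact ht

/-- Lower bound for the average centred at `v + δ`. -/
theorem Tauber_up {B : ℝ → ℝ} {C : ℝ} (hm : Measurable B) (h0 : ∀ t, 0 ≤ B t)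
    (hC : ∀ t, B t ≤ C) (hmono : MonotoneOn (fun t => Real.exp t * B t) (Ici 0))
    {l δ η : ℝ} (hl : 0 < l) (hδ : 0 < δ)
    (ht : ∫ u in {u : ℝ | δ ≤ |u|}, fej l u ≤ η) {v : ℝ} (hv : 0 < v) :
    B v * Real.exp (-(2 * δ)) * ((∫ u, fej 1 u) - η) ≤
      ∫ t in Ioi (0 : ℝ), B t * fej l (v + δ - t) := by
  have hw := Tauber_window hl hδ ht (v + δ)
  have h1 : B v * Real.exp (-(2 * δ)) * ((∫ u, fej 1 u) - η) ≤
      B v * Real.exp (-(2 * δ)) * ∫ t in Icc (v + δ - δ) (v + δ + δ), fej l (v + δ - t) :=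
    mul_le_mul_of_nonneg_left hw (mul_nonneg (h0 v) (Real.exp_pos _).le)
  refine h1.trans ?_
  rw [← integral_const_mul]
  have h2 : ∫ t in Icc (v + δ - δ) (v + δ + δ), B v * Real.exp (-(2 * δ)) * fej l (v + δ - t) ≤
      ∫ t in Icc (v + δ - δ) (v + δ + δ), B t * fej l (v + δ - t) := by
    refine setIntegral_mono_on
      (((fej_integrable hl).comp_sub_left (v + δ)).const_mul _).integrableOn
      (Tauber_int hm h0 hC hl _).integrableOn measurableSet_Icc fun t htt => ?_
    refine mul_le_mul_of_nonneg_right ?_ (fej_nonneg hl _)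
    have h3 : v ≤ t := by have := htt.1; linarith
    have h4 : t ≤ v + 2 * δ := by have := htt.2; linarith
    have h5 := hmono (mem_Ici.2 hv.le) (mem_Ici.2 (hv.le.trans h3)) h3
    simp only at h5
    have h6 : B v * Real.exp (v - t) ≤ B t := by
      have h7 : Real.exp (v - t) * Real.exp t = Real.exp v := by
        rw [← Real.exp_add]; congr 1; ring
      have h8 : B v * Real.exp (v - t) * Real.exp t ≤ B t * Real.exp t := by
        calc B v * Real.exp (v - t) * Real.exp t = Real.exp v * B v := by rw [mul_assoc, h7, mul_comm]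
          _ ≤ Real.exp t * B t := h5
          _ = B t * Real.exp t := mul_comm _ _
      exact le_of_mul_le_mul_right h8 (Real.exp_pos t)
    refine le_trans ?_ h6
    exact mul_le_mul_of_nonneg_left (Real.exp_le_exp.2 (by linarith)) (h0 v)
  refine h2.trans ?_
  refine setIntegral_mono_set (Tauber_int hm h0 hC hl _).integrableOn
    (Eventually.of_forall fun u => mul_nonneg (h0 u) (fej_nonneg hl _))
    (LE.le.eventuallyLE ?_)
  intro t htt
  have := htt.1
  exact mem_Ioi.2 (by linarith)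

/-- Upper bound for the average centred at `v - δ`. -/
theorem Tauber_low {B : ℝ → ℝ} {C : ℝ} (hm : Measurable B) (h0 : ∀ t, 0 ≤ B t)
    (hC : ∀ t, B t ≤ C) (hmono : MonotoneOn (fun t => Real.exp t * B t) (Ici 0))
    {l δ η : ℝ} (hl : 0 < l) (hδ : 0 < δ)
    (ht : ∫ u in {u : ℝ | δ ≤ |u|}, fej l u ≤ η) {v : ℝ} (hv : 2 * δ < v) :
    ∫ t in Ioi (0 : ℝ), B t * fej l (v - δ - t) ≤
      B v * Real.exp (2 * δ) * (∫ u, fej 1 u) + C * η := by
  have hC0 : 0 ≤ C := (h0 0).trans (hC 0)
  set S : Set ℝ := {t : ℝ | δ ≤ |v - δ - t|} with hS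
  have hms2 : MeasurableSet S :=
    measurableSet_le measurable_const ((measurable_const.sub measurable_id).norm)
  have hint := Tauber_int hm h0 hC hl (v - δ)
  have h1 : ∫ t in Ioi (0 : ℝ), B t * fej l (v - δ - t) ≤ ∫ t, B t * fej l (v - δ - t) :=
    setIntegral_le_integral hint
      (Eventually.of_forall fun u => mul_nonneg (h0 u) (fej_nonneg hl _))
  have h2 := integral_add_compl hms2 hint
  have h3 : ∫ t in S, B t * fej l (v - δ - t) ≤ C * η := by
    have h4 : ∫ t in S, B t * fej l (v - δ - t) ≤ ∫ t in S, C * fej l (v - δ - t) := by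
      refine setIntegral_mono_on hint.integrableOn
        (((fej_integrable hl).comp_sub_left (v - δ)).const_mul _).integrableOn hms2
        fun t _ => mul_le_mul_of_nonneg_right (hC t) (fej_nonneg hl _)
    refine h4.trans ?_
    rw [integral_const_mul]
    exact mul_le_mul_of_nonneg_left (Tauber_out ht (v - δ)) hC0
  have h5 : ∫ t in Sᶜ, B t * fej l (v - δ - t) ≤ B v * Real.exp (2 * δ) * (∫ u, fej 1 u) := by
    have h6 : ∫ t in Sᶜ, B t * fej l (v - δ - t) ≤
        ∫ t in Sᶜ, B v * Real.exp (2 * δ) * fej l (v - δ - t) := by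
      refine setIntegral_mono_on hint.integrableOn
        (((fej_integrable hl).comp_sub_left (v - δ)).const_mul _).integrableOn hms2.compl
        fun t htt => mul_le_mul_of_nonneg_right ?_ (fej_nonneg hl _)
      have h7 : |v - δ - t| < δ := by
        by_contra hcon
        exact htt (not_lt.1 hcon)
      have h8 := abs_lt.1 h7
      have h9 : t ≤ v := by linarith
      have h10 : v - 2 * δ ≤ t := by linarith
      have h11 : 0 < t := by linarith
      have h12 := hmono (mem_Ici.2 h11.le) (mem_Ici.2 (h11.le.trans h9)) h9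
      simp only at h12
      have h13 : B t ≤ B v * Real.exp (v - t) := by
        have h7 : Real.exp (v - t) * Real.exp t = Real.exp v := by
          rw [← Real.exp_add]; congr 1; ring
        have h8 : B t * Real.exp t ≤ B v * Real.exp (v - t) * Real.exp t := by
          calc B t * Real.exp t = Real.exp t * B t := mul_comm _ _
            _ ≤ Real.exp v * B v := h12
            _ = B v * Real.exp (v - t) * Real.exp t := by rw [mul_assoc, h7, mul_comm]
        exact le_of_mul_le_mul_right h8 (Real.exp_pos t)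
      refine h13.trans ?_
      exact mul_le_mul_of_nonneg_left (Real.exp_le_exp.2 (by linarith)) (h0 v)
    refine h6.trans ?_
    rw [integral_const_mul]
    refine mul_le_mul_of_nonneg_left ?_ (mul_nonneg (h0 v) (Real.exp_pos _).le)
    have h14 : ∫ t in Sᶜ, fej l (v - δ - t) ≤ ∫ t, fej l (v - δ - t) :=
      setIntegral_le_integral ((fej_integrable hl).comp_sub_left _)
        (Eventually.of_forall fun u => fej_nonneg hl _)
    refine h14.trans ?_
    rw [integral_sub_left_eq_self (fej l) volume (v - δ), fej_integral_eq hl]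
  linarith

/-- If all Fejer averages of `B - c` tend to zero, `0 ≤ B ≤ C` and `e^t B(t)` is nondecreasing,
then `B → c`.
Upper bound: for `t ∈ [v, v + 2δ]`, `B t ≥ B v e^(-2δ)`; average with centre `v + δ`.
Lower bound: for `t ∈ [v - 2δ, v]`, `B t ≤ B v e^(2δ)`; average with centre `v - δ`.
Note `∫_{t > 0} c fej l (v - t) dt → c ∫ fej 1` as `v → ∞`. -/
theorem tauber_fej {B : ℝ → ℝ} {c C : ℝ} (hm : Measurable B) (h0 : ∀ t, 0 ≤ B t)
    (hC : ∀ t, B t ≤ C) (hmono : MonotoneOn (fun t => Real.exp t * B t) (Ici 0))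
    (hlim : ∀ l : ℝ, 0 < l → Tendsto (fun v : ℝ => ∫ t in Ioi (0 : ℝ), (B t - c) * fej l (v - t))
      atTop (𝓝 0)) :
    Tendsto B atTop (𝓝 c) := by
  set M : ℝ := ∫ u, fej 1 u with hM
  have hMpos : 0 < M := fej_integral_pos
  have havg : ∀ {l : ℝ}, 0 < l → Tendsto (fun v : ℝ => ∫ t in Ioi (0 : ℝ), B t * fej l (v - t))
      atTop (𝓝 (c * M)) := fun hl => Tauber_avg hm h0 hC hlim hl
  have hc0 : 0 ≤ c := by
    have h1 : 0 ≤ c * M := by
      refine ge_of_tendsto (havg one_pos) (Eventually.of_forall fun v => ?_)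
      exact integral_nonneg fun t => mul_nonneg (h0 t) (fej_nonneg one_pos _)
    exact nonneg_of_mul_nonneg_left h1 hMpos
  have hC0 : 0 ≤ C := (h0 0).trans (hC 0)
  refine tendsto_order.2 ⟨fun a ha => ?_, fun b hb => ?_⟩
  · -- lower bound
    -- choose δ, η with exp(-2δ) (c M - 2 stuff)/M > a
    have hcont : Tendsto (fun δ : ℝ => (c * M - δ - C * δ) * Real.exp (-(2 * δ)) / M)
        (𝓝[>] 0) (𝓝 c) := by
      have h1 : ContinuousAt (fun δ : ℝ => (c * M - δ - C * δ) * Real.exp (-(2 * δ)) / M) 0 := by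
        fun_prop
      have h2 := h1.tendsto
      simp only [mul_zero, sub_zero, neg_zero, Real.exp_zero, mul_one] at h2
      rw [mul_div_assoc, div_self hMpos.ne', mul_one] at h2
      exact h2.mono_left nhdsWithin_le_nhds
    obtain ⟨δ, hδa, hδ⟩ := ((hcont.eventually (lt_mem_nhds ha)).and
      self_mem_nhdsWithin).exists
    have hδ0 : 0 < δ := hδ
    obtain ⟨l0, hl0, htail⟩ := fej_tail hδ0 hδ0
    have ht := htail l0 le_rfl
    have h3 : Tendsto (fun v : ℝ => ∫ t in Ioi (0 : ℝ), B t * fej l0 (v - δ - t))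
        atTop (𝓝 (c * M)) :=
      (havg hl0).comp (tendsto_atTop_add_const_right atTop (-δ) tendsto_id)
    have h4 : ∀ᶠ v in atTop, c * M - δ < ∫ t in Ioi (0 : ℝ), B t * fej l0 (v - δ - t) :=
      h3.eventually (lt_mem_nhds (by linarith))
    filter_upwards [h4, eventually_gt_atTop (2 * δ)] with v hv1 hv2
    have h5 := Tauber_low hm h0 hC hmono hl0 hδ0 ht hv2
    rw [← hM] at h5
    have h6 : c * M - δ - C * δ < B v * Real.exp (2 * δ) * M := by linarith
    refine hδa.trans ?_
    rw [div_lt_iff₀ hMpos]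
    have h7 : Real.exp (2 * δ) * Real.exp (-(2 * δ)) = 1 := by
      rw [← Real.exp_add]; simp
    calc (c * M - δ - C * δ) * Real.exp (-(2 * δ))
        < (B v * Real.exp (2 * δ) * M) * Real.exp (-(2 * δ)) :=
          mul_lt_mul_of_pos_right h6 (Real.exp_pos _)
      _ = B v * M * (Real.exp (2 * δ) * Real.exp (-(2 * δ))) := by ring
      _ = B v * M := by rw [h7, mul_one]
  · -- upper bound
    have hcont : Tendsto (fun δ : ℝ => (c * M + δ) * Real.exp (2 * δ) / (M - δ))
        (𝓝[>] 0) (𝓝 c) := by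
      have h1 : ContinuousAt (fun δ : ℝ => (c * M + δ) * Real.exp (2 * δ) / (M - δ)) 0 := by
        refine ContinuousAt.div (by fun_prop) (by fun_prop) ?_
        simpa using hMpos.ne'
      have h2 := h1.tendsto
      simp only [mul_zero, add_zero, sub_zero, Real.exp_zero, mul_one] at h2
      rw [mul_div_assoc, div_self hMpos.ne', mul_one] at h2
      exact h2.mono_left nhdsWithin_le_nhds
    obtain ⟨δ, ⟨hδa, hδ⟩, hδM⟩ := (((hcont.eventually (gt_mem_nhds hb)).and
      self_mem_nhdsWithin).and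
      ((continuous_id.tendsto (0 : ℝ)).mono_left nhdsWithin_le_nhds |>.eventually
        (gt_mem_nhds hMpos))).exists
    have hδ0 : 0 < δ := hδ
    have hδM' : δ < M := hδM
    obtain ⟨l0, hl0, htail⟩ := fej_tail hδ0 hδ0
    have ht := htail l0 le_rfl
    have h3 : Tendsto (fun v : ℝ => ∫ t in Ioi (0 : ℝ), B t * fej l0 (v + δ - t))
        atTop (𝓝 (c * M)) :=
      (havg hl0).comp (tendsto_atTop_add_const_right atTop δ tendsto_id)
    have h4 : ∀ᶠ v in atTop, (∫ t in Ioi (0 : ℝ), B t * fej l0 (v + δ - t)) < c * M + δ :=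
      h3.eventually (gt_mem_nhds (by linarith))
    filter_upwards [h4, eventually_gt_atTop (0 : ℝ)] with v hv1 hv2
    have h5 := Tauber_up hm h0 hC hmono hl0 hδ0 ht hv2
    rw [← hM] at h5
    have h6 : B v * Real.exp (-(2 * δ)) * (M - δ) < c * M + δ := by linarith
    refine lt_trans ?_ hδa
    rw [lt_div_iff₀ (by linarith)]
    have h7 : Real.exp (-(2 * δ)) * Real.exp (2 * δ) = 1 := by
      rw [← Real.exp_add]; simp
    calc B v * (M - δ) = B v * (M - δ) * (Real.exp (-(2 * δ)) * Real.exp (2 * δ)) := by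
          rw [h7, mul_one]
      _ = (B v * Real.exp (-(2 * δ)) * (M - δ)) * Real.exp (2 * δ) := by ring
      _ < (c * M + δ) * Real.exp (2 * δ) := mul_lt_mul_of_pos_right h6 (Real.exp_pos _)

end Pool.Agent.W_pnt_h80

namespace Pool.Agent.W_pnt_h80

open MeasureTheory Set Filter Topology

theorem psiR_nonneg {q : ℕ} (a : ZMod q) (x : ℝ) : 0 ≤ psiR a x := by
  exact Finset.sum_nonneg fun k _ => ArithmeticFunction.vonMangoldt.residueClass_nonneg a k

theorem psiR_mono {q : ℕ} (a : ZMod q) : Monotone (psiR a) := by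
  intro x y hxy
  unfold psiR
  refine Finset.sum_le_sum_of_subset_of_nonneg ?_ fun k _ _ =>
    ArithmeticFunction.vonMangoldt.residueClass_nonneg a k
  exact Finset.Icc_subset_Icc_right (Nat.floor_mono hxy)

/-- From Mathlib's Chebyshev bound `Chebyshev.psi_le_const_mul_self`. -/
theorem psiR_le {q : ℕ} (a : ZMod q) : ∃ C : ℝ, 0 < C ∧ ∀ x : ℝ, 0 ≤ x → psiR a x ≤ C * x := by
  refine ⟨Real.log 4 + 4, by positivity, fun x hx => ?_⟩
  refine le_trans ?_ (Chebyshev.psi_le_const_mul_self hx)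
  rw [Chebyshev.psi]
  exact Finset.sum_le_sum fun k _ => ArithmeticFunction.vonMangoldt.residueClass_le a k

theorem BR_measurable {q : ℕ} (a : ZMod q) : Measurable (BR a) := by
  unfold BR
  exact ((psiR_mono a).measurable.comp Real.measurable_exp).mul
    (Real.measurable_exp.comp measurable_neg)

theorem Laplace_BR_bound {q : ℕ} (a : ZMod q) :
    ∃ C : ℝ, 0 < C ∧ ∀ t : ℝ, 0 ≤ BR a t ∧ BR a t ≤ C := by
  obtain ⟨C, hC, hle⟩ := psiR_le a
  refine ⟨C, hC, fun t => ⟨?_, ?_⟩⟩
  · exact mul_nonneg (psiR_nonneg a _) (Real.exp_pos _).le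
  · unfold BR
    have h1 := hle (Real.exp t) (Real.exp_pos t).le
    calc psiR a (Real.exp t) * Real.exp (-t) ≤ (C * Real.exp t) * Real.exp (-t) :=
          mul_le_mul_of_nonneg_right h1 (Real.exp_pos _).le
      _ = C := by rw [mul_assoc, ← Real.exp_add, add_neg_cancel, Real.exp_zero, mul_one]

theorem Laplace_integrable {q : ℕ} (a : ZMod q) (e y : ℝ) (he : 0 < e) :
    IntegrableOn (fun t : ℝ => (BR a t : ℂ) * Complex.exp (-((e : ℂ) + Complex.I * y) * t))
      (Ioi (0 : ℝ)) := by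
  have hw : (-((e : ℂ) + Complex.I * y)).re < 0 := by
    simp [he]
  obtain ⟨C, hC, hb⟩ := Laplace_BR_bound a
  have h1 : IntegrableOn (fun t : ℝ => Complex.exp (-((e : ℂ) + Complex.I * y) * t))
      (Ioi (0 : ℝ)) := integrableOn_exp_mul_complex_Ioi hw 0
  refine Integrable.bdd_mul (c := C) h1 ?_ ?_
  · exact (Complex.measurable_ofReal.comp (BR_measurable a)).aestronglyMeasurable
  · refine Filter.Eventually.of_forall fun t => ?_
    rw [Complex.norm_real, Real.norm_eq_abs, abs_of_nonneg (hb t).1]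
    exact (hb t).2

theorem Laplace_bigO {q : ℕ} (a : ZMod q) :
    (fun n : ℕ => ∑ k ∈ Finset.Icc 1 n, ArithmeticFunction.vonMangoldt.residueClass a k)
      =O[atTop] fun n : ℕ => (n : ℝ) ^ (1 : ℝ) := by
  obtain ⟨C, hC, hle⟩ := psiR_le a
  refine Asymptotics.IsBigO.of_bound C (Filter.Eventually.of_forall fun n => ?_)
  have h1 := hle (n : ℝ) (Nat.cast_nonneg n)
  have h0 := psiR_nonneg a (n : ℝ)
  unfold psiR at h1 h0
  rw [Nat.floor_natCast] at h1 h0
  rw [Real.rpow_one, Real.norm_eq_abs, abs_of_nonneg h0, Real.norm_eq_abs,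
    abs_of_nonneg (Nat.cast_nonneg n)]
  exact h1

theorem Laplace_main {q : ℕ} (a : ZMod q) (e y : ℝ) (he : 0 < e) :
    ∫ t in Ioi (0 : ℝ), (BR a t : ℂ) * Complex.exp (-((e : ℂ) + Complex.I * y) * t) =
      LSeries (fun n => ((ArithmeticFunction.vonMangoldt.residueClass a n : ℝ) : ℂ))
        (1 + e + Complex.I * y) / (1 + e + Complex.I * y) := by
  have hs : (1 : ℝ) < ((1 : ℂ) + e + Complex.I * y).re := by
    simp [he]
  have hs0 : (1 : ℂ) + e + Complex.I * y ≠ 0 := by
    intro h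
    rw [h] at hs
    simp at hs
    linarith
  rw [LSeries_eq_mul_integral_of_nonneg _ zero_le_one hs (Laplace_bigO a)
    (ArithmeticFunction.vonMangoldt.residueClass_nonneg a), mul_div_cancel_left₀ _ hs0]
  have himg : Real.exp '' (Ioi (0 : ℝ)) = Ioi (1 : ℝ) := by
    ext x
    constructor
    · rintro ⟨u, hu, rfl⟩
      exact Real.one_lt_exp_iff.2 hu
    · intro hx
      refine ⟨Real.log x, Real.log_pos hx, Real.exp_log (lt_trans one_pos hx)⟩
  rw [← himg, integral_image_eq_integral_abs_deriv_smul measurableSet_Ioi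
    (fun x _ => (Real.hasDerivAt_exp x).hasDerivWithinAt) (Real.exp_injective.injOn)]
  refine setIntegral_congr_fun measurableSet_Ioi fun u _ => ?_
  unfold BR psiR
  rw [abs_of_pos (Real.exp_pos u), Complex.real_smul, Complex.ofReal_mul, Complex.ofReal_sum]
  have hexp : ((Real.exp u : ℝ) : ℂ) ^ (-((1 : ℂ) + e + Complex.I * y + 1)) =
      Complex.exp (u * (-((1 : ℂ) + e + Complex.I * y + 1))) := by
    rw [Complex.cpow_def_of_ne_zero (by exact_mod_cast (Real.exp_pos u).ne'),
      ← Complex.ofReal_log (Real.exp_pos u).le, Real.log_exp]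
  rw [hexp, Complex.ofReal_exp, Complex.ofReal_exp, mul_comm (Complex.exp (u : ℂ)), mul_assoc,
    mul_assoc, ← Complex.exp_add, ← Complex.exp_add]
  congr 2
  push_cast
  ring

/-- For `s = 1 + e + i y`, the Laplace transform of `B - 1/φ(q)` at `e + i y` is
`(K(s) - 1/φ(q)) / s`, `K` = `LFunctionResidueClassAux a`: use
`LSeries_eq_mul_integral_of_nonneg` with `r = 1`, the substitution `t = e^u`, and
`eqOn_LFunctionResidueClassAux`. -/
theorem laplace_BR {q : ℕ} [NeZero q] {a : ZMod q} (ha : IsUnit a) (e y : ℝ) (he : 0 < e) :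
    ∫ t in Ioi (0 : ℝ), ((BR a t - (q.totient : ℝ)⁻¹ : ℝ) : ℂ) *
        Complex.exp (-((e : ℂ) + Complex.I * y) * t) =
      (ArithmeticFunction.vonMangoldt.LFunctionResidueClassAux a (1 + e + Complex.I * y) -
        (q.totient : ℂ)⁻¹) / (1 + e + Complex.I * y) := by
  have hw : (-((e : ℂ) + Complex.I * y)).re < 0 := by
    simp [he]
  have hw0 : (e : ℂ) + Complex.I * y ≠ 0 := by
    intro h
    rw [h] at hw
    simp at hw
  have hs : (1 : ℝ) < ((1 : ℂ) + e + Complex.I * y).re := by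
    simp [he]
  have hs0 : (1 : ℂ) + e + Complex.I * y ≠ 0 := by
    intro h
    rw [h] at hs
    simp at hs
    linarith
  have hI1 := Laplace_integrable a e y he
  have hI2 : IntegrableOn (fun t : ℝ => ((q.totient : ℝ)⁻¹ : ℂ) *
      Complex.exp (-((e : ℂ) + Complex.I * y) * t)) (Ioi (0 : ℝ)) :=
    (integrableOn_exp_mul_complex_Ioi hw 0).const_mul _
  have hsplit : ∫ t in Ioi (0 : ℝ), ((BR a t - (q.totient : ℝ)⁻¹ : ℝ) : ℂ) *
        Complex.exp (-((e : ℂ) + Complex.I * y) * t) =
      (∫ t in Ioi (0 : ℝ), (BR a t : ℂ) * Complex.exp (-((e : ℂ) + Complex.I * y) * t)) -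
      ∫ t in Ioi (0 : ℝ), ((q.totient : ℝ)⁻¹ : ℂ) *
        Complex.exp (-((e : ℂ) + Complex.I * y) * t) := by
    rw [← integral_sub hI1 hI2]
    refine integral_congr_ae (Filter.Eventually.of_forall fun t => ?_)
    dsimp only
    rw [← sub_mul]
    congr 1
    push_cast
    rfl
  have hconst : ∫ t in Ioi (0 : ℝ), ((q.totient : ℝ)⁻¹ : ℂ) *
        Complex.exp (-((e : ℂ) + Complex.I * y) * t) =
      (q.totient : ℂ)⁻¹ / ((e : ℂ) + Complex.I * y) := by
    rw [integral_const_mul, integral_exp_mul_complex_Ioi hw 0]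
    simp only [Complex.ofReal_zero, mul_zero, Complex.exp_zero, Complex.ofReal_natCast]
    field_simp
  rw [hsplit, hconst, Laplace_main a e y he]
  have hK := ArithmeticFunction.vonMangoldt.eqOn_LFunctionResidueClassAux ha
    (show ((1 : ℂ) + e + Complex.I * y) ∈ {s : ℂ | 1 < s.re} from hs)
  rw [hK]
  have hsub : (1 : ℂ) + e + Complex.I * y - 1 = (e : ℂ) + Complex.I * y := by ring
  dsimp only
  rw [hsub]
  set w : ℂ := (e : ℂ) + Complex.I * y with hwdef
  have hs1 : (1 : ℂ) + e + Complex.I * y = 1 + w := by rw [hwdef]; ring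
  rw [hs1] at hs0 ⊢
  generalize LSeries (fun n => ((ArithmeticFunction.vonMangoldt.residueClass a n : ℝ) : ℂ)) (1 + w) = Lv
  generalize (q.totient : ℂ)⁻¹ = c
  field_simp
  ring

end Pool.Agent.W_pnt_h80

namespace Pool.Agent.W_pnt_h80

open MeasureTheory Set Filter Topology

theorem PNT_BR_nonneg {q : ℕ} (a : ZMod q) (t : ℝ) : 0 ≤ BR a t :=
  mul_nonneg (psiR_nonneg a _) (Real.exp_pos _).le

theorem PNT_BR_le {q : ℕ} (a : ZMod q) : ∃ C : ℝ, 0 < C ∧ ∀ t : ℝ, BR a t ≤ C := by
  obtain ⟨C, hC, h⟩ := psiR_le a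
  refine ⟨C, hC, fun t => ?_⟩
  have h1 := mul_le_mul_of_nonneg_right (h (Real.exp t) (Real.exp_pos t).le)
    (Real.exp_pos (-t)).le
  rw [mul_assoc, ← Real.exp_add, add_neg_cancel, Real.exp_zero, mul_one] at h1
  exact h1

/-- The boundary function. -/
noncomputable def PNT_G {q : ℕ} [NeZero q] (a : ZMod q) (p : ℝ × ℝ) : ℂ :=
  (ArithmeticFunction.vonMangoldt.LFunctionResidueClassAux a
      (1 + (p.1 : ℂ) + Complex.I * p.2) - (q.totient : ℂ)⁻¹) / (1 + (p.1 : ℂ) + Complex.I * p.2)

theorem PNT_re (p : ℝ × ℝ) : (1 + (p.1 : ℂ) + Complex.I * p.2).re = 1 + p.1 := by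
  simp

theorem PNT_G_cont {q : ℕ} [NeZero q] (a : ZMod q) :
    ContinuousOn (PNT_G a) (Ici 0 ×ˢ univ) := by
  have hc : Continuous fun p : ℝ × ℝ => (1 + (p.1 : ℂ) + Complex.I * p.2) := by fun_prop
  have hmaps : MapsTo (fun p : ℝ × ℝ => (1 + (p.1 : ℂ) + Complex.I * p.2)) (Ici 0 ×ˢ univ)
      {s : ℂ | 1 ≤ s.re} := by
    intro p hp
    have h1 : 0 ≤ p.1 := hp.1
    show 1 ≤ (1 + (p.1 : ℂ) + Complex.I * p.2).re
    rw [PNT_re]
    linarith
  have h2 := (ArithmeticFunction.vonMangoldt.continuousOn_LFunctionResidueClassAux a).comp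
    hc.continuousOn hmaps
  refine ContinuousOn.div (h2.sub continuousOn_const) hc.continuousOn ?_
  intro p hp h0
  have h1 : 0 ≤ p.1 := hp.1
  have h3 := PNT_re p
  rw [h0] at h3
  simp at h3
  linarith

theorem PNT_lim {q : ℕ} [NeZero q] {a : ZMod q} (ha : IsUnit a) (l : ℝ) (hl : 0 < l) :
    Tendsto (fun v : ℝ => ∫ t in Ioi (0 : ℝ), (BR a t - (q.totient : ℝ)⁻¹) * fej l (v - t))
      atTop (𝓝 0) := by
  obtain ⟨C, hC, hB⟩ := PNT_BR_le a
  have hm : Measurable fun t => BR a t - (q.totient : ℝ)⁻¹ := (BR_measurable a).sub_const _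
  have hφ : (0 : ℝ) ≤ (q.totient : ℝ)⁻¹ := by positivity
  have hD : ∀ t, |BR a t - (q.totient : ℝ)⁻¹| ≤ C + (q.totient : ℝ)⁻¹ := by
    intro t
    have h1 := PNT_BR_nonneg a t
    have h2 := hB t
    rw [abs_le]
    constructor <;> linarith
  have hG0 : Continuous fun y : ℝ => PNT_G a (0, y) := by
    rw [← continuousOn_univ]
    refine (PNT_G_cont a).comp (by fun_prop) ?_
    intro y _
    exact ⟨mem_Ici.mpr (le_refl _), mem_univ _⟩
  have h1 := riemann_lebesgue hl hG0
  have h2 : ∀ v : ℝ, (∫ y in (-l)..l, ((tri l y : ℝ) : ℂ) * Complex.exp (Complex.I * y * v) *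
      PNT_G a (0, y)) =
      ((∫ t in Ioi (0 : ℝ), (BR a t - (q.totient : ℝ)⁻¹) * fej l (v - t) : ℝ) : ℂ) := by
    intro v
    refine fubini_fej_zero hl hm hD (PNT_G_cont a) ?_
    intro e y he
    exact laplace_BR ha e y he
  simp only [h2] at h1
  have h3 := (Complex.continuous_re.tendsto 0).comp h1
  rw [Complex.zero_re] at h3
  exact h3

/-- Prime number theorem in arithmetic progressions, for the von Mangoldt function. -/
theorem psiR_tendsto {q : ℕ} [NeZero q] {a : ZMod q} (ha : IsUnit a) :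
    Tendsto (fun x : ℝ => psiR a x / x) atTop (𝓝 ((q.totient : ℝ)⁻¹)) := by
  obtain ⟨C, hC, hB⟩ := PNT_BR_le a
  have h1 : Tendsto (BR a) atTop (𝓝 ((q.totient : ℝ)⁻¹)) := by
    refine tauber_fej (C := C) (BR_measurable a) (PNT_BR_nonneg a) hB ?_ (PNT_lim ha)
    intro s _ t _ hst
    have h2 : ∀ t, Real.exp t * BR a t = psiR a (Real.exp t) := by
      intro t
      rw [BR, mul_comm, mul_assoc, ← Real.exp_add, neg_add_cancel, Real.exp_zero, mul_one]
    show Real.exp s * BR a s ≤ Real.exp t * BR a t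
    rw [h2, h2]
    exact psiR_mono a (Real.exp_le_exp.mpr hst)
  have h2 := h1.comp Real.tendsto_log_atTop
  refine h2.congr' ?_
  filter_upwards [eventually_gt_atTop 0] with x hx
  show BR a (Real.log x) = psiR a x / x
  rw [BR, Real.exp_neg, Real.exp_log hx, div_eq_mul_inv]

theorem psi_tendsto : Tendsto (fun x : ℝ => Chebyshev.psi x / x) atTop (𝓝 1) := by
  have h1 := psiR_tendsto (q := 1) (a := 1) isUnit_one
  simp only [Nat.totient_one, Nat.cast_one, inv_one] at h1
  refine h1.congr ?_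
  intro x
  congr 1
  rw [psiR, Chebyshev.psi]
  refine Finset.sum_congr rfl ?_
  intro k _
  rw [ArithmeticFunction.vonMangoldt.residueClass, Set.indicator_of_mem]
  show ((k : ℕ) : ZMod 1) = 1
  exact Subsingleton.elim _ _

theorem theta_tendsto : Tendsto (fun x : ℝ => Chebyshev.theta x / x) atTop (𝓝 1) := by
  obtain ⟨C, hC⟩ := Chebyshev.psi_sub_theta_le_mul_sqrt
  have h1 : Tendsto (fun x : ℝ => (Chebyshev.psi x - Chebyshev.theta x) / x) atTop (𝓝 0) := by
    have h2 : Tendsto (fun x : ℝ => C * (Real.sqrt x)⁻¹) atTop (𝓝 0) := by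
      have h3 : Tendsto (fun x : ℝ => (Real.sqrt x)⁻¹) atTop (𝓝 0) :=
        tendsto_inv_atTop_zero.comp Real.tendsto_sqrt_atTop
      have h4 := h3.const_mul C
      rwa [mul_zero] at h4
    refine tendsto_of_tendsto_of_tendsto_of_le_of_le' tendsto_const_nhds h2 ?_ ?_
    · filter_upwards [eventually_gt_atTop 0] with x hx
      exact div_nonneg (sub_nonneg.mpr (Chebyshev.theta_le_psi x)) hx.le
    · filter_upwards [eventually_gt_atTop 0] with x hx
      rw [div_le_iff₀ hx]
      refine (hC x).trans (le_of_eq ?_)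
      have h5 : Real.sqrt x * Real.sqrt x = x := Real.mul_self_sqrt hx.le
      have h6 : Real.sqrt x ≠ 0 := (Real.sqrt_pos.mpr hx).ne'
      rw [mul_assoc]
      congr 1
      nth_rewrite 3 [← h5]
      rw [← mul_assoc, inv_mul_cancel₀ h6, one_mul]
  have h2 := psi_tendsto.sub h1
  rw [sub_zero] at h2
  refine h2.congr ?_
  intro x
  ring

/-- The prime number theorem. -/
theorem pi_tendsto :
    Tendsto (fun x : ℝ => (Nat.primeCounting ⌊x⌋₊ : ℝ) * Real.log x / x) atTop (𝓝 1) := by
  have h1 := Chebyshev.primeCounting_sub_theta_div_log_isBigO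
  have h2 : (fun x : ℝ => ((Nat.primeCounting ⌊x⌋₊ : ℝ) - Chebyshev.theta x / Real.log x) *
      (Real.log x / x)) =O[atTop] (fun x : ℝ => x / Real.log x ^ 2 * (Real.log x / x)) :=
    h1.mul (Asymptotics.isBigO_refl _ _)
  have h3 : Tendsto (fun x : ℝ => x / Real.log x ^ 2 * (Real.log x / x)) atTop (𝓝 0) := by
    have h4 : Tendsto (fun x : ℝ => (Real.log x)⁻¹) atTop (𝓝 0) :=
      tendsto_inv_atTop_zero.comp Real.tendsto_log_atTop
    refine h4.congr' ?_
    filter_upwards [eventually_gt_atTop 1] with x hx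
    have h5 : Real.log x ≠ 0 := (Real.log_pos hx).ne'
    have h6 : x ≠ 0 := by linarith
    field_simp
  have h4 := h2.trans_tendsto h3
  have h5 := h4.add theta_tendsto
  rw [zero_add] at h5
  refine h5.congr' ?_
  filter_upwards [eventually_gt_atTop 1] with x hx
  have h5 : Real.log x ≠ 0 := (Real.log_pos hx).ne'
  have h6 : x ≠ 0 := by linarith
  field_simp
  ring

end Pool.Agent.W_pnt_h80

namespace Pool.Agent.EEA520

open MeasureTheory Set Filter Topology Pool.Agent.W_pnt_h80

/-- The summatory function. -/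
noncomputable def sfn (f : ℕ → ℝ) (x : ℝ) : ℝ := ∑ k ∈ Finset.Icc 1 ⌊x⌋₊, f k

/-- The normalised summatory function. -/
noncomputable def sfB (f : ℕ → ℝ) (t : ℝ) : ℝ := sfn f (Real.exp t) * Real.exp (-t)

section

variable {f : ℕ → ℝ}

theorem sfn_nonneg (hf : ∀ n, 0 ≤ f n) (x : ℝ) : 0 ≤ sfn f x :=
  Finset.sum_nonneg fun k _ => hf k

theorem sfn_mono (hf : ∀ n, 0 ≤ f n) : Monotone (sfn f) := by
  intro x y hxy
  unfold sfn
  refine Finset.sum_le_sum_of_subset_of_nonneg ?_ fun k _ _ => hf k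
  exact Finset.Icc_subset_Icc_right (Nat.floor_mono hxy)

theorem sfB_measurable (hf : ∀ n, 0 ≤ f n) : Measurable (sfB f) := by
  unfold sfB
  exact ((sfn_mono hf).measurable.comp Real.measurable_exp).mul
    (Real.measurable_exp.comp measurable_neg)

theorem sfB_nonneg (hf : ∀ n, 0 ≤ f n) (t : ℝ) : 0 ≤ sfB f t :=
  mul_nonneg (sfn_nonneg hf _) (Real.exp_pos _).le

theorem sfB_le {C : ℝ} (hC : ∀ x : ℝ, 0 ≤ x → sfn f x ≤ C * x) (t : ℝ) : sfB f t ≤ C := by
  have h1 := mul_le_mul_of_nonneg_right (hC (Real.exp t) (Real.exp_pos t).le)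
    (Real.exp_pos (-t)).le
  rw [mul_assoc, ← Real.exp_add, add_neg_cancel, Real.exp_zero, mul_one] at h1
  exact h1

theorem wi_integrable (hf : ∀ n, 0 ≤ f n) {C : ℝ} (hC : ∀ x : ℝ, 0 ≤ x → sfn f x ≤ C * x)
    (e y : ℝ) (he : 0 < e) :
    IntegrableOn (fun t : ℝ => (sfB f t : ℂ) * Complex.exp (-((e : ℂ) + Complex.I * y) * t))
      (Ioi (0 : ℝ)) := by
  have hw : (-((e : ℂ) + Complex.I * y)).re < 0 := by
    simp [he]
  have h1 : IntegrableOn (fun t : ℝ => Complex.exp (-((e : ℂ) + Complex.I * y) * t))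
      (Ioi (0 : ℝ)) := integrableOn_exp_mul_complex_Ioi hw 0
  refine Integrable.bdd_mul (c := C) h1 ?_ ?_
  · exact (Complex.measurable_ofReal.comp (sfB_measurable hf)).aestronglyMeasurable
  · refine Filter.Eventually.of_forall fun t => ?_
    rw [Complex.norm_real, Real.norm_eq_abs, abs_of_nonneg (sfB_nonneg hf t)]
    exact sfB_le hC t

theorem wi_bigO (hf : ∀ n, 0 ≤ f n) {C : ℝ} (hC : ∀ x : ℝ, 0 ≤ x → sfn f x ≤ C * x) :
    (fun n : ℕ => ∑ k ∈ Finset.Icc 1 n, f k) =O[atTop] fun n : ℕ => (n : ℝ) ^ (1 : ℝ) := by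
  refine Asymptotics.IsBigO.of_bound C (Filter.Eventually.of_forall fun n => ?_)
  have h1 := hC (n : ℝ) (Nat.cast_nonneg n)
  have h0 := sfn_nonneg hf (n : ℝ)
  unfold sfn at h1 h0
  rw [Nat.floor_natCast] at h1 h0
  rw [Real.rpow_one, Real.norm_eq_abs, abs_of_nonneg h0, Real.norm_eq_abs,
    abs_of_nonneg (Nat.cast_nonneg n)]
  exact h1

theorem wi_main (hf : ∀ n, 0 ≤ f n) {C : ℝ} (hC : ∀ x : ℝ, 0 ≤ x → sfn f x ≤ C * x)
    (e y : ℝ) (he : 0 < e) :
    ∫ t in Ioi (0 : ℝ), (sfB f t : ℂ) * Complex.exp (-((e : ℂ) + Complex.I * y) * t) =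
      LSeries (fun n => ((f n : ℝ) : ℂ)) (1 + e + Complex.I * y) / (1 + e + Complex.I * y) := by
  have hs : (1 : ℝ) < ((1 : ℂ) + e + Complex.I * y).re := by
    simp [he]
  have hs0 : (1 : ℂ) + e + Complex.I * y ≠ 0 := by
    intro h
    rw [h] at hs
    simp at hs
    linarith
  rw [LSeries_eq_mul_integral_of_nonneg _ zero_le_one hs (wi_bigO hf hC) hf,
    mul_div_cancel_left₀ _ hs0]
  have himg : Real.exp '' (Ioi (0 : ℝ)) = Ioi (1 : ℝ) := by
    ext x
    constructor
    · rintro ⟨u, hu, rfl⟩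
      exact Real.one_lt_exp_iff.2 hu
    · intro hx
      refine ⟨Real.log x, Real.log_pos hx, Real.exp_log (lt_trans one_pos hx)⟩
  rw [← himg, integral_image_eq_integral_abs_deriv_smul measurableSet_Ioi
    (fun x _ => (Real.hasDerivAt_exp x).hasDerivWithinAt) (Real.exp_injective.injOn)]
  refine setIntegral_congr_fun measurableSet_Ioi fun u _ => ?_
  unfold sfB sfn
  rw [abs_of_pos (Real.exp_pos u), Complex.real_smul, Complex.ofReal_mul, Complex.ofReal_sum]
  have hexp : ((Real.exp u : ℝ) : ℂ) ^ (-((1 : ℂ) + e + Complex.I * y + 1)) =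
      Complex.exp (u * (-((1 : ℂ) + e + Complex.I * y + 1))) := by
    rw [Complex.cpow_def_of_ne_zero (by exact_mod_cast (Real.exp_pos u).ne'),
      ← Complex.ofReal_log (Real.exp_pos u).le, Real.log_exp]
  rw [hexp, Complex.ofReal_exp, Complex.ofReal_exp, mul_comm (Complex.exp (u : ℂ)), mul_assoc,
    mul_assoc, ← Complex.exp_add, ← Complex.exp_add]
  congr 2
  push_cast
  ring

theorem wi_laplace (hf : ∀ n, 0 ≤ f n) {C : ℝ} (hC : ∀ x : ℝ, 0 ≤ x → sfn f x ≤ C * x)
    (c e y : ℝ) (he : 0 < e) :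
    ∫ t in Ioi (0 : ℝ), ((sfB f t - c : ℝ) : ℂ) *
        Complex.exp (-((e : ℂ) + Complex.I * y) * t) =
      (LSeries (fun n => ((f n : ℝ) : ℂ)) (1 + e + Complex.I * y) -
        c / ((1 + e + Complex.I * y) - 1) - c) / (1 + e + Complex.I * y) := by
  have hw : (-((e : ℂ) + Complex.I * y)).re < 0 := by
    simp [he]
  have hw0 : (e : ℂ) + Complex.I * y ≠ 0 := by
    intro h
    rw [h] at hw
    simp at hw
  have hs : (1 : ℝ) < ((1 : ℂ) + e + Complex.I * y).re := by
    simp [he]
  have hs0 : (1 : ℂ) + e + Complex.I * y ≠ 0 := by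
    intro h
    rw [h] at hs
    simp at hs
    linarith
  have hI1 := wi_integrable hf hC e y he
  have hI2 : IntegrableOn (fun t : ℝ => (c : ℂ) *
      Complex.exp (-((e : ℂ) + Complex.I * y) * t)) (Ioi (0 : ℝ)) :=
    (integrableOn_exp_mul_complex_Ioi hw 0).const_mul _
  have hsplit : ∫ t in Ioi (0 : ℝ), ((sfB f t - c : ℝ) : ℂ) *
        Complex.exp (-((e : ℂ) + Complex.I * y) * t) =
      (∫ t in Ioi (0 : ℝ), (sfB f t : ℂ) * Complex.exp (-((e : ℂ) + Complex.I * y) * t)) -
      ∫ t in Ioi (0 : ℝ), (c : ℂ) * Complex.exp (-((e : ℂ) + Complex.I * y) * t) := by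
    rw [← integral_sub hI1 hI2]
    refine integral_congr_ae (Filter.Eventually.of_forall fun t => ?_)
    dsimp only
    rw [← sub_mul]
    congr 1
    push_cast
    rfl
  have hconst : ∫ t in Ioi (0 : ℝ), (c : ℂ) *
        Complex.exp (-((e : ℂ) + Complex.I * y) * t) = c / ((e : ℂ) + Complex.I * y) := by
    rw [integral_const_mul, integral_exp_mul_complex_Ioi hw 0]
    simp only [Complex.ofReal_zero, mul_zero, Complex.exp_zero]
    field_simp
  rw [hsplit, hconst, wi_main hf hC e y he]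
  have hsub : (1 : ℂ) + e + Complex.I * y - 1 = (e : ℂ) + Complex.I * y := by ring
  rw [hsub]
  set w : ℂ := (e : ℂ) + Complex.I * y with hwdef
  have hs1 : (1 : ℂ) + e + Complex.I * y = 1 + w := by rw [hwdef]; ring
  rw [hs1] at hs0 ⊢
  generalize LSeries (fun n => ((f n : ℝ) : ℂ)) (1 + w) = Lv
  field_simp
  ring

/-- The Dirichlet series converges for `Re s > 1`. -/
theorem wi_abscissa (hf : ∀ n, 0 ≤ f n) {C : ℝ} (hC : ∀ x : ℝ, 0 ≤ x → sfn f x ≤ C * x) :
    LSeries.abscissaOfAbsConv (fun n => ((f n : ℝ) : ℂ)) ≤ 1 := by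
  refine LSeries.abscissaOfAbsConv_le_of_forall_lt_LSeriesSummable fun y hy => ?_
  refine LSeriesSummable_of_sum_norm_bigO_and_nonneg ?_ hf zero_le_one (by simpa using hy)
  exact wi_bigO hf hC

theorem wi_continuousAt (hf : ∀ n, 0 ≤ f n) {C : ℝ} (hC : ∀ x : ℝ, 0 ≤ x → sfn f x ≤ C * x)
    (c : ℝ) {s : ℂ} (hs : 1 < s.re) :
    ContinuousAt (fun s : ℂ => LSeries (fun n => ((f n : ℝ) : ℂ)) s - c / (s - 1)) s := by
  have h1 : DifferentiableAt ℂ (LSeries fun n => ((f n : ℝ) : ℂ)) s := by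
    refine (LSeries_hasDerivAt ?_).differentiableAt
    refine (wi_abscissa hf hC).trans_lt ?_
    exact_mod_cast hs
  refine h1.continuousAt.sub (ContinuousAt.div continuousAt_const (by fun_prop) ?_)
  intro h0
  have h2 : s = 1 := sub_eq_zero.1 h0
  rw [h2] at hs
  simp at hs

/-- The boundary function. -/
noncomputable def wiK (f : ℕ → ℝ) (c : ℝ) : ℂ → ℂ :=
  extendFrom {s : ℂ | 1 < s.re} fun s => LSeries (fun n => ((f n : ℝ) : ℂ)) s - c / (s - 1)

theorem wi_closure {s : ℂ} (hs : 1 ≤ s.re) : s ∈ closure {s : ℂ | 1 < s.re} := by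
  have h1 := Complex.closure_setOfPred_lt_re 1
  rw [h1]
  exact hs

theorem wiK_eq (hf : ∀ n, 0 ≤ f n) {C : ℝ} (hC : ∀ x : ℝ, 0 ≤ x → sfn f x ≤ C * x) (c : ℝ)
    {s : ℂ} (hs : 1 < s.re) :
    wiK f c s = LSeries (fun n => ((f n : ℝ) : ℂ)) s - c / (s - 1) :=
  extendFrom_eq (wi_closure hs.le)
    ((wi_continuousAt hf hC c hs).tendsto.mono_left nhdsWithin_le_nhds)

theorem wiK_cont (hf : ∀ n, 0 ≤ f n) {C : ℝ} (hC : ∀ x : ℝ, 0 ≤ x → sfn f x ≤ C * x) {c : ℝ}
    (h : ∀ y : ℝ, ∃ L : ℂ, Tendsto (fun s : ℂ => LSeries (fun n => ((f n : ℝ) : ℂ)) s - c / (s - 1))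
      (𝓝[{s | 1 < s.re}] (1 + y * Complex.I)) (𝓝 L)) :
    ContinuousOn (wiK f c) {s : ℂ | 1 ≤ s.re} := by
  refine continuousOn_extendFrom (fun s hs => wi_closure hs) fun s hs => ?_
  have hs' : 1 ≤ s.re := hs
  rcases hs'.lt_or_eq with h1 | h1
  · exact ⟨_, (wi_continuousAt hf hC c h1).tendsto.mono_left nhdsWithin_le_nhds⟩
  · have h2 : s = 1 + s.im * Complex.I := by
      apply Complex.ext
      · simp [← h1]
      · simp
    rw [h2]
    exact h s.im

/-- The theorem of Wiener and Ikehara. -/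
theorem wiener_ikehara (hf : ∀ n, 0 ≤ f n) {C : ℝ} (hC : ∀ x : ℝ, 0 ≤ x → sfn f x ≤ C * x) {c : ℝ}
    (h : ∀ y : ℝ, ∃ L : ℂ, Tendsto (fun s : ℂ => LSeries (fun n => ((f n : ℝ) : ℂ)) s - c / (s - 1))
      (𝓝[{s | 1 < s.re}] (1 + y * Complex.I)) (𝓝 L)) :
    Tendsto (fun x : ℝ => sfn f x / x) atTop (𝓝 c) := by
  have hK := wiK_cont hf hC h
  have hre : ∀ p : ℝ × ℝ, (1 + (p.1 : ℂ) + Complex.I * p.2).re = 1 + p.1 := fun p => by simp
  set G : ℝ × ℝ → ℂ := fun p => (wiK f c (1 + (p.1 : ℂ) + Complex.I * p.2) - c) /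
    (1 + (p.1 : ℂ) + Complex.I * p.2) with hG
  have hGc : ContinuousOn G (Ici 0 ×ˢ univ) := by
    have hc : Continuous fun p : ℝ × ℝ => (1 + (p.1 : ℂ) + Complex.I * p.2) := by fun_prop
    have hmaps : MapsTo (fun p : ℝ × ℝ => (1 + (p.1 : ℂ) + Complex.I * p.2)) (Ici 0 ×ˢ univ)
        {s : ℂ | 1 ≤ s.re} := by
      intro p hp
      have h1 : 0 ≤ p.1 := hp.1
      show 1 ≤ (1 + (p.1 : ℂ) + Complex.I * p.2).re
      rw [hre]
      linarith
    have h2 := hK.comp hc.continuousOn hmaps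
    refine ContinuousOn.div (h2.sub continuousOn_const) hc.continuousOn ?_
    intro p hp h0
    have h1 : 0 ≤ p.1 := hp.1
    have h3 := hre p
    rw [h0] at h3
    simp at h3
    linarith
  have hlim : ∀ l : ℝ, 0 < l → Tendsto (fun v : ℝ => ∫ t in Ioi (0 : ℝ),
      (sfB f t - c) * fej l (v - t)) atTop (𝓝 0) := by
    intro l hl
    have hm : Measurable fun t => sfB f t - c := (sfB_measurable hf).sub_const _
    have hD : ∀ t, |sfB f t - c| ≤ C + |c| := by
      intro t
      have h1 := sfB_nonneg hf t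
      have h2 := sfB_le hC t
      have h3 := abs_sub (sfB f t) c
      rw [abs_of_nonneg h1] at h3
      linarith
    have hG0 : Continuous fun y : ℝ => G (0, y) := by
      rw [← continuousOn_univ]
      refine hGc.comp (by fun_prop) ?_
      intro y _
      exact ⟨mem_Ici.mpr (le_refl _), mem_univ _⟩
    have h1 := riemann_lebesgue hl hG0
    have h2 : ∀ v : ℝ, (∫ y in (-l)..l, ((tri l y : ℝ) : ℂ) * Complex.exp (Complex.I * y * v) *
        G (0, y)) =
        ((∫ t in Ioi (0 : ℝ), (sfB f t - c) * fej l (v - t) : ℝ) : ℂ) := by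
      intro v
      refine fubini_fej_zero hl hm hD hGc ?_
      intro e y he
      rw [wi_laplace hf hC c e y he, hG]
      dsimp only
      rw [wiK_eq hf hC c (by rw [hre (e, y)]; dsimp only; linarith)]
    simp only [h2] at h1
    have h3 := (Complex.continuous_re.tendsto 0).comp h1
    rw [Complex.zero_re] at h3
    exact h3
  have h1 : Tendsto (sfB f) atTop (𝓝 c) := by
    refine tauber_fej (C := C) (sfB_measurable hf) (sfB_nonneg hf) (sfB_le hC) ?_ hlim
    intro s _ t _ hst
    have h2 : ∀ t, Real.exp t * sfB f t = sfn f (Real.exp t) := by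
      intro t
      rw [sfB, mul_comm, mul_assoc, ← Real.exp_add, neg_add_cancel, Real.exp_zero, mul_one]
    show Real.exp s * sfB f s ≤ Real.exp t * sfB f t
    rw [h2, h2]
    exact sfn_mono hf (Real.exp_le_exp.mpr hst)
  have h2 := h1.comp Real.tendsto_log_atTop
  refine h2.congr' ?_
  filter_upwards [eventually_gt_atTop 0] with x hx
  show sfB f (Real.log x) = sfn f x / x
  rw [sfB, Real.exp_neg, Real.exp_log hx, div_eq_mul_inv]

end

end Pool.Agent.EEA520
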