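import Pool.Agent.W_eea520_G.D
import Pool.Agent.W_eea520_G.N1

/-!
# Natural density (MP_eea520_nt, edge theorem)
-/

set_option autoImplicit false

namespace Pool.Agent.EEA520

open Filter Topology Pool.Agent.EEAG1 LSeries

variable {n : ℕ}

/-- The trace of the class at `k`, if `k` is a prime number, and `0` otherwise. -/
noncomputable def chn (π : GSys n) (m : Wt n →₀ ℤ) (k : ℕ) : ℂ :=
  if h : k.Prime then tcx π m ⟨k, h⟩ else 0

theorem chn_le {π : GSys n} (hπ : Tempered π) (m : Wt n →₀ ℤ) (k : ℕ) : ‖chn π m k‖ ≤ mnorm m := by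
  unfold chn
  split_ifs with h
  · exact tcx_le hπ m _
  · rw [norm_zero]
    exact mnorm_nonneg m

theorem chn_summable {π : GSys n} (hπ : Tempered π) (m : Wt n →₀ ℤ) {s : ℂ} (hs : 1 < s.re) :
    LSeriesSummable (chn π m) s :=
  LSeriesSummable_of_bounded_of_one_lt_re (fun k _ => chn_le hπ m k) hs

theorem chn_abscissa {π : GSys n} (hπ : Tempered π) (m : Wt n →₀ ℤ) {s : ℂ} (hs : 1 < s.re) :
    abscissaOfAbsConv (chn π m) < s.re := by
  refine (LSeries.abscissaOfAbsConv_le_of_le_const ⟨mnorm m, fun k _ => chn_le hπ m k⟩).trans_lt ?_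
  exact_mod_cast hs

theorem chn_hasDerivAt {π : GSys n} (hπ : Tempered π) (m : Wt n →₀ ℤ) {s : ℂ} (hs : 1 < s.re) :
    HasDerivAt (LSeries (chn π m)) (-LSeries (logMul (chn π m)) s) s :=
  LSeries_hasDerivAt (chn_abscissa hπ m hs)

theorem trq_eq (π : GSys n) (m : Wt n →₀ ℤ) (p : Pr) (q : ℂ) :
    trq (π p) m q = tcx π m p * q := by
  unfold trq tcx Finsupp.sum
  rw [Finset.sum_mul]
  refine Finset.sum_congr rfl fun w _ => ?_
  ring

theorem chn_hasSum {π : GSys n} (hπ : Tempered π) (m : Wt n →₀ ℤ) {s : ℂ} (hs : 1 < s.re) :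
    HasSum (fun p : Pr => trq (π p) m (((p : ℕ) : ℂ) ^ (-s))) (LSeries (chn π m) s) := by
  have h1 : HasSum (term (chn π m) s) (LSeries (chn π m) s) := (chn_summable hπ m hs).LSeriesHasSum
  have hinj : Function.Injective (fun p : Pr => (p : ℕ)) := Subtype.val_injective
  have h2 := (hinj.hasSum_iff (f := term (chn π m) s) (a := LSeries (chn π m) s) (by
    intro k hk
    have h3 : ¬ k.Prime := fun h => hk ⟨⟨k, h⟩, rfl⟩
    by_cases hk0 : k = 0
    · rw [hk0, term_zero]
    · rw [term_of_ne_zero hk0, chn, dif_neg h3, zero_div])).2 h1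
  refine h2.congr_fun fun p => ?_
  rw [Function.comp_apply, term_of_ne_zero p.2.ne_zero, chn, dif_pos p.2, trq_eq, Complex.cpow_neg,
    div_eq_mul_inv]
  rfl

/-- The terms of higher order. -/
noncomputable def hol (π : GSys n) (m : Wt n →₀ ℤ) (s : ℂ) : ℂ :=
  ∑' p : Pr, (lfac (π p) m (((p : ℕ) : ℂ) ^ (-s)) - trq (π p) m (((p : ℕ) : ℂ) ^ (-s)))

theorem lfac_bound' {t : Torus n} (ht : ∀ w, ‖(t.ev w : ℂ)‖ = 1) (m : Wt n →₀ ℤ) {q : ℂ}
    (hq : ‖q‖ ≤ 3 / 4) : ‖lfac t m q - trq t m q‖ ≤ mnorm m * (2 * ‖q‖ ^ 2) := by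
  unfold lfac trq mnorm Finsupp.sum
  rw [← Finset.sum_sub_distrib, Finset.sum_mul]
  refine norm_sum_le_of_le _ fun w _ => ?_
  have hz : ‖-((t.ev w : ℂ) * q)‖ = ‖q‖ := by rw [norm_neg, norm_mul, ht, one_mul]
  have h2 := Complex.norm_log_one_add_sub_self_le (z := -((t.ev w : ℂ) * q)) (by rw [hz]; linarith)
  rw [hz] at h2
  have h3 : -(((m w : ℤ) : ℂ) * Complex.log (1 - (t.ev w : ℂ) * q)) -
      ((m w : ℤ) : ℂ) * ((t.ev w : ℂ) * q) =
      -((m w : ℤ) : ℂ) * (Complex.log (1 + -((t.ev w : ℂ) * q)) - -((t.ev w : ℂ) * q)) := by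
    rw [← sub_eq_add_neg]
    ring
  rw [h3, norm_mul, norm_neg, Complex.norm_intCast]
  refine mul_le_mul_of_nonneg_left (h2.trans ?_) (abs_nonneg _)
  have h4 : (1 - ‖q‖)⁻¹ ≤ 4 := by
    rw [inv_le_comm₀ (by linarith) (by norm_num)]
    linarith
  have h5 : 0 ≤ ‖q‖ ^ 2 := by positivity
  nlinarith [mul_le_mul_of_nonneg_left h4 h5]

theorem hol_norm {s : ℂ} (p : Pr) : ‖(((p : ℕ) : ℂ) ^ (-s))‖ = ((p : ℕ) : ℝ) ^ (-s.re) := by
  rw [Complex.norm_natCast_cpow_of_pos p.2.pos, Complex.neg_re]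

theorem hol_le {s : ℂ} (hs : 3 / 4 < s.re) (p : Pr) : ‖(((p : ℕ) : ℂ) ^ (-s))‖ ≤ 3 / 4 := by
  have hp2 : (2 : ℝ) ≤ ((p : ℕ) : ℝ) := by exact_mod_cast p.2.two_le
  rw [hol_norm]
  have h1 : ((p : ℕ) : ℝ) ^ (-s.re) ≤ (2 : ℝ) ^ (-(3 / 4 : ℝ)) := by
    calc ((p : ℕ) : ℝ) ^ (-s.re) ≤ (2 : ℝ) ^ (-s.re) :=
          Real.rpow_le_rpow_of_nonpos (by norm_num) hp2 (by linarith)
      _ ≤ (2 : ℝ) ^ (-(3 / 4 : ℝ)) :=
          Real.rpow_le_rpow_of_exponent_le (by norm_num) (by linarith)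
  refine h1.trans ?_
  rw [Real.rpow_neg (by norm_num), inv_le_comm₀ (by positivity) (by norm_num)]
  have h2 : ((2 : ℝ) ^ (3 / 4 : ℝ)) ^ 4 = 8 := by
    rw [← Real.rpow_natCast, ← Real.rpow_mul (by norm_num)]
    norm_num
  by_contra hcon
  push Not at hcon
  have h3 : ((2 : ℝ) ^ (3 / 4 : ℝ)) ^ 4 < ((3 / 4 : ℝ)⁻¹) ^ 4 :=
    pow_lt_pow_left₀ hcon (by positivity) (by norm_num)
  rw [h2] at h3
  norm_num at h3

theorem hol_sq {s : ℂ} (hs : 3 / 4 < s.re) (p : Pr) :
    ‖(((p : ℕ) : ℂ) ^ (-s))‖ ^ 2 ≤ ((p : ℕ) : ℝ) ^ (-(3 / 2 : ℝ)) := by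
  have hp1 : (1 : ℝ) ≤ ((p : ℕ) : ℝ) := by exact_mod_cast p.2.one_lt.le
  rw [hol_norm, ← Real.rpow_natCast, ← Real.rpow_mul (by linarith)]
  refine Real.rpow_le_rpow_of_exponent_le hp1 ?_
  push_cast
  linarith

theorem hol_term {π : GSys n} (hπ : Tempered π) (m : Wt n →₀ ℤ) {s : ℂ} (hs : 3 / 4 < s.re)
    (p : Pr) : ‖lfac (π p) m (((p : ℕ) : ℂ) ^ (-s)) - trq (π p) m (((p : ℕ) : ℂ) ^ (-s))‖ ≤
      mnorm m * (2 * ((p : ℕ) : ℝ) ^ (-(3 / 2 : ℝ))) := by
  refine (lfac_bound' (fun w => norm_ev hπ p w) m (hol_le hs p)).trans ?_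
  exact mul_le_mul_of_nonneg_left (mul_le_mul_of_nonneg_left (hol_sq hs p) (by norm_num))
    (mnorm_nonneg m)

theorem hol_summable (m : Wt n →₀ ℤ) :
    Summable fun p : Pr => mnorm m * (2 * ((p : ℕ) : ℝ) ^ (-(3 / 2 : ℝ))) :=
  ((Nat.Primes.summable_rpow.2 (by norm_num)).mul_left 2).mul_left _

theorem hol_differentiable {π : GSys n} (hπ : Tempered π) (m : Wt n →₀ ℤ) :
    DifferentiableOn ℂ (hol π m) {s : ℂ | 3 / 4 < s.re} := by
  refine Complex.differentiableOn_tsum_of_summable_norm (hol_summable m) ?_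
    (isOpen_lt continuous_const Complex.continuous_re) fun p s hs => hol_term hπ m hs p
  intro p s hs
  have hs' : 3 / 4 < s.re := hs
  refine DifferentiableAt.differentiableWithinAt ?_
  have hp0 : ((p : ℕ) : ℂ) ≠ 0 := by exact_mod_cast p.2.ne_zero
  have hq : DifferentiableAt ℂ (fun s : ℂ => ((p : ℕ) : ℂ) ^ (-s)) s :=
    DifferentiableAt.const_cpow differentiableAt_id.neg (Or.inl hp0)
  refine DifferentiableAt.sub ?_ ?_
  · unfold lfac Finsupp.sum
    refine DifferentiableAt.fun_sum fun w _ => DifferentiableAt.neg ?_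
    refine DifferentiableAt.const_mul ?_ _
    refine DifferentiableAt.clog (DifferentiableAt.const_sub (hq.const_mul _) 1) ?_
    rw [Complex.mem_slitPlane_iff]
    left
    have h1 : ‖((π p).ev w : ℂ) * ((p : ℕ) : ℂ) ^ (-s)‖ ≤ 3 / 4 := by
      rw [norm_mul, norm_ev hπ, one_mul]
      exact hol_le hs' p
    have h2 := (abs_le.1 ((Complex.abs_re_le_norm _).trans h1)).2
    rw [Complex.sub_re, Complex.one_re]
    linarith
  · unfold trq Finsupp.sum
    refine DifferentiableAt.fun_sum fun w _ => ?_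
    exact (hq.const_mul _).const_mul _

theorem factor_hasProd {π : GSys n} (hπ : Tempered π) (m : Wt n →₀ ℤ) {s : ℂ} (hs : 1 < s.re) :
    HasProd (fun p : Pr => (π p).factor m (((p : ℕ) : ℂ) ^ (-s)))
      (Complex.exp (LSeries (chn π m) s + hol π m s)) := by
  have hs' : 3 / 4 < s.re := by linarith
  have h1 : HasSum (fun p : Pr => lfac (π p) m (((p : ℕ) : ℂ) ^ (-s)) -
      trq (π p) m (((p : ℕ) : ℂ) ^ (-s))) (hol π m s) :=
    (Summable.of_norm_bounded (hol_summable m) fun p => hol_term hπ m hs' p).hasSum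
  have h2 := (chn_hasSum hπ m hs).add h1
  have h3 := h2.cexp
  refine h3.congr_fun fun p => ?_
  rw [Function.comp_apply, add_sub_cancel]
  refine (exp_lfac (fun w => norm_ev hπ p w) m ?_).symm
  rw [hol_norm]
  have hp2 : (2 : ℝ) ≤ ((p : ℕ) : ℝ) := by exact_mod_cast p.2.two_le
  calc ((p : ℕ) : ℝ) ^ (-s.re) ≤ ((p : ℕ) : ℝ) ^ (-1 : ℝ) :=
        Real.rpow_le_rpow_of_exponent_le (by linarith) (by linarith)
    _ ≤ 1 / 2 := by
        rw [Real.rpow_neg_one, one_div]
        exact inv_anti₀ (by norm_num) hp2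

end Pool.Agent.EEA520

namespace Pool.Agent.EEA520

open Filter Topology Pool.Agent.EEAG1 LSeries

variable {n : ℕ}

theorem nhdsWithin_pt (t : ℝ) : 𝓝[{s : ℂ | 1 < s.re}] (pt t) ≤ 𝓝[≠] (pt t) := by
  refine nhdsWithin_mono _ fun s hs h => ?_
  have h1 : 1 < s.re := hs
  have h2 : s = pt t := h
  rw [h2] at h1
  unfold pt at h1
  simp at h1

/-- The Dirichlet series with the coefficients `χ(p) log p` minus the polar part has a limit at every
point of the line. -/
theorem bdry {π : GSys n} (hπ : Tempered π) {m : Wt n →₀ ℤ} {t : ℝ} {k : ℤ}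
    (h : PoleOrder π m (pt t) k) :
    ∃ L : ℂ, Tendsto (fun s => LSeries (logMul (chn π m)) s - k / (s - pt t))
      (𝓝[{s | 1 < s.re}] (pt t)) (𝓝 L) := by
  obtain ⟨g, hg, hk, hL⟩ := h
  obtain ⟨f, han, hf0, hgf⟩ := (meromorphicOrderAt_eq_int_iff hg).1 hk
  have hopen : IsOpen {s : ℂ | 1 < s.re} := isOpen_lt continuous_const Complex.continuous_re
  have hopen' : IsOpen {s : ℂ | 3 / 4 < s.re} := isOpen_lt continuous_const Complex.continuous_re
  have hpt : (pt t) ∈ {s : ℂ | 3 / 4 < s.re} := by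
    show 3 / 4 < (pt t).re
    unfold pt
    norm_num
  have h1 : ∀ᶠ s in 𝓝[{s : ℂ | 1 < s.re}] (pt t),
      Complex.exp (LSeries (chn π m) s + hol π m s) = (s - pt t) ^ (-k) * f s := by
    filter_upwards [hL, hgf.filter_mono (nhdsWithin_pt t), self_mem_nhdsWithin] with s h2 h3 h4
    have h5 := (factor_hasProd hπ m h4).unique h2
    rw [h5, h3, smul_eq_mul]
  have h2 := eventually_eventually_nhdsWithin.2 h1
  have h3 : ∀ᶠ s in 𝓝[{s : ℂ | 1 < s.re}] (pt t), AnalyticAt ℂ f s :=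
    han.eventually_analyticAt.filter_mono nhdsWithin_le_nhds
  have h4 : ∀ᶠ s in 𝓝[{s : ℂ | 1 < s.re}] (pt t), f s ≠ 0 :=
    (han.continuousAt.eventually_ne hf0).filter_mono nhdsWithin_le_nhds
  have hdh : DifferentiableOn ℂ (deriv (hol π m)) {s : ℂ | 3 / 4 < s.re} :=
    (hol_differentiable hπ m).deriv hopen'
  have hlim : Tendsto (fun s => deriv (hol π m) s - deriv f s / f s) (𝓝 (pt t))
      (𝓝 (deriv (hol π m) (pt t) - deriv f (pt t) / f (pt t))) := by
    refine Tendsto.sub ?_ (Tendsto.div ?_ ?_ hf0)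
    · exact ((hdh _ hpt).differentiableAt (hopen'.mem_nhds hpt)).continuousAt
    · exact han.deriv.continuousAt
    · exact han.continuousAt
  refine ⟨_, (hlim.mono_left nhdsWithin_le_nhds).congr' ?_⟩
  filter_upwards [h2, h3, h4, nhdsWithin_pt t self_mem_nhdsWithin, self_mem_nhdsWithin]
    with s h5 h6 h7 h8 h9
  rw [hopen.nhdsWithin_eq h9] at h5
  have h9' : 1 < s.re := h9
  have hs : s ∈ {s : ℂ | 3 / 4 < s.re} := by
    show 3 / 4 < s.re
    linarith
  have h10 := (show (fun s => Complex.exp (LSeries (chn π m) s + hol π m s)) =ᶠ[𝓝 s]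
    fun s => (s - pt t) ^ (-k) * f s from h5).deriv_eq
  have h11 := h5.self_of_nhds
  have hne : s - pt t ≠ 0 := sub_ne_zero.2 h8
  have hd1 : HasDerivAt (fun s => Complex.exp (LSeries (chn π m) s + hol π m s))
      (Complex.exp (LSeries (chn π m) s + hol π m s) *
        (-LSeries (logMul (chn π m)) s + deriv (hol π m) s)) s :=
    ((chn_hasDerivAt hπ m h9').add
      (((hol_differentiable hπ m) _ hs).differentiableAt (hopen'.mem_nhds hs)).hasDerivAt).cexp
  have hd2 : HasDerivAt (fun s => (s - pt t) ^ (-k)) (((-k : ℤ) : ℂ) * (s - pt t) ^ (-k - 1)) s := by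
    have h12 := (hasDerivAt_zpow (-k) (s - pt t) (Or.inl hne)).comp s
      ((hasDerivAt_id s).sub_const (pt t))
    simpa [Function.comp_def] using h12
  have hd3 := hd2.mul h6.differentiableAt.hasDerivAt
  rw [hd1.deriv] at h10
  have h13 : deriv (fun s => (s - pt t) ^ (-k) * f s) s = ((-k : ℤ) : ℂ) * (s - pt t) ^ (-k - 1) * f s +
      (s - pt t) ^ (-k) * deriv f s := hd3.deriv
  rw [h13, h11, zpow_sub_one₀ hne] at h10
  have hz : (s - pt t) ^ (-k) ≠ 0 := zpow_ne_zero _ hne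
  push_cast at h10
  field_simp at h10 ⊢
  linear_combination h10

end Pool.Agent.EEA520

namespace Pool.Agent.EEA520

open Filter Topology Pool.Agent.EEAG1 LSeries

variable {n : ℕ}

theorem pt_zero' : pt 0 = 1 := by
  unfold pt
  simp

/-- The Riemann zeta function has a simple pole at `1`. -/
theorem poleOrder_zeta_one (π : GSys n) : PoleOrder π (Finsupp.single 0 1) (pt 0) 1 := by
  classical
  rw [pt_zero']
  set f : ℂ → ℂ := Function.update (fun s => (s - 1) * riemannZeta s) 1 1 with hf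
  have hne : ∀ s : ℂ, s ≠ 1 → f s = (s - 1) * riemannZeta s := fun s hs =>
    Function.update_of_ne hs _ _
  have han : AnalyticAt ℂ f 1 := by
    refine Complex.analyticAt_of_differentiable_on_punctured_nhds_of_continuousAt ?_ ?_
    · filter_upwards [self_mem_nhdsWithin] with s hs
      have hs' : s ≠ 1 := hs
      have h1 : DifferentiableAt ℂ (fun s => (s - 1) * riemannZeta s) s :=
        (differentiableAt_id.sub_const 1).mul (differentiableAt_riemannZeta hs')
      refine h1.congr_of_eventuallyEq ?_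
      filter_upwards [isOpen_compl_singleton.mem_nhds hs'] with z hz
      exact hne z hz
    · rw [hf, continuousAt_update_same]
      exact riemannZeta_residue_one
  have hf1 : f 1 = 1 := Function.update_self _ _ _
  have heq : riemannZeta =ᶠ[𝓝[≠] 1] fun s => (s - 1) ^ (-1 : ℤ) • f s := by
    filter_upwards [self_mem_nhdsWithin] with s hs
    have hs' : s ≠ 1 := hs
    rw [hne s hs', zpow_neg_one, smul_eq_mul, inv_mul_cancel_left₀ (sub_ne_zero.2 hs')]
  have hmero : MeromorphicAt riemannZeta 1 := by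
    refine MeromorphicAt.congr ?_ heq.symm
    exact (((MeromorphicAt.id (1 : ℂ)).sub (MeromorphicAt.const (1 : ℂ) (1 : ℂ))).zpow (-1)).smul
      han.meromorphicAt
  refine ⟨riemannZeta, hmero, ?_, ?_⟩
  · refine (meromorphicOrderAt_eq_int_iff hmero).2 ⟨f, han, by rw [hf1]; exact one_ne_zero, heq⟩
  · unfold IsL
    filter_upwards [self_mem_nhdsWithin] with s hs
    have h1 := riemannZeta_eulerProduct_hasProd (s := s) hs
    simp only [factor_one]
    exact h1

theorem chn_one (π : GSys n) (k : ℕ) :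
    chn π (Finsupp.single 0 1) k = if k.Prime then 1 else 0 := by
  unfold chn
  split_ifs with h
  · unfold tcx
    rw [Finsupp.sum_single_index (by simp)]
    have h1 : (π ⟨k, h⟩).ev 0 = 1 := by
      unfold Torus.ev
      simp
    rw [h1]
    simp
  · rfl

/-- The nonnegative coefficients. -/
noncomputable def wf (π : GSys n) (m : Wt n →₀ ℤ) (k : ℕ) : ℝ :=
  if k.Prime then (mnorm m + (chn π m k).re) * Real.log k else 0

theorem wf_nonneg {π : GSys n} (hπ : Tempered π) (m : Wt n →₀ ℤ) (k : ℕ) : 0 ≤ wf π m k := by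
  unfold wf
  split_ifs with h
  · refine mul_nonneg ?_ (Real.log_natCast_nonneg k)
    have h1 := (abs_le.1 ((Complex.abs_re_le_norm _).trans (chn_le hπ m k))).1
    linarith
  · exact le_rfl

theorem wf_le {π : GSys n} (hπ : Tempered π) (m : Wt n →₀ ℤ) (x : ℝ) (hx : 0 ≤ x) :
    sfn (wf π m) x ≤ (2 * mnorm m * Real.log 4) * x := by
  have h1 : sfn (wf π m) x ≤ 2 * mnorm m * Chebyshev.theta x := by
    unfold sfn Chebyshev.theta
    rw [Finset.mul_sum, Finset.sum_filter]
    have h0 : Finset.Icc 1 ⌊x⌋₊ = Finset.Ioc 0 ⌊x⌋₊ := by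
      ext k
      rw [Finset.mem_Icc, Finset.mem_Ioc]
      omega
    rw [h0]
    refine Finset.sum_le_sum fun k _ => ?_
    unfold wf
    split_ifs with h
    · refine mul_le_mul_of_nonneg_right ?_ (Real.log_natCast_nonneg k)
      have h1 := (abs_le.1 ((Complex.abs_re_le_norm _).trans (chn_le hπ m k))).2
      linarith
    · exact le_rfl
  refine h1.trans ?_
  have h2 := Chebyshev.theta_le_log4_mul_x hx
  have h3 := mul_le_mul_of_nonneg_left h2 (mul_nonneg (by norm_num : (0 : ℝ) ≤ 2) (mnorm_nonneg m))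
  calc 2 * mnorm m * Chebyshev.theta x ≤ 2 * mnorm m * (Real.log 4 * x) := h3
    _ = _ := by ring

theorem conj_LSeries (F : ℕ → ℂ) (s : ℂ) :
    LSeries (fun k => (starRingEnd ℂ) (F k)) s =
      (starRingEnd ℂ) (LSeries F ((starRingEnd ℂ) s)) := by
  unfold LSeries
  rw [Complex.conj_tsum]
  refine tsum_congr fun k => ?_
  by_cases hk : k = 0
  · rw [hk, term_zero, term_zero, map_zero]
  · rw [term_of_ne_zero hk, term_of_ne_zero hk, map_div₀]
    congr 1
    have h1 := Complex.cpow_conj (k : ℂ) s (by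
      rw [Complex.natCast_arg]
      exact Real.pi_pos.ne)
    rw [h1, Complex.conj_conj, Complex.conj_natCast]

theorem wf_LSeries {π : GSys n} (hπ : Tempered π) (m : Wt n →₀ ℤ) {s : ℂ} (hs : 1 < s.re) :
    LSeries (fun k => ((wf π m k : ℝ) : ℂ)) s =
      mnorm m * LSeries (logMul (chn π (Finsupp.single 0 1))) s +
        (1 / 2 * LSeries (logMul (chn π m)) s +
        1 / 2 * (starRingEnd ℂ) (LSeries (logMul (chn π m)) ((starRingEnd ℂ) s))) := by
  have hs' : 1 < ((starRingEnd ℂ) s).re := by rw [Complex.conj_re]; exact hs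
  have h1 : LSeriesSummable (logMul (chn π (Finsupp.single 0 1))) s :=
    LSeriesSummable_logMul_of_lt_re (chn_abscissa hπ _ hs)
  have h2 : LSeriesSummable (logMul (chn π m)) s :=
    LSeriesSummable_logMul_of_lt_re (chn_abscissa hπ _ hs)
  have h3 : LSeriesSummable (fun k => (starRingEnd ℂ) (logMul (chn π m) k)) s := by
    have h4 : LSeriesSummable (logMul (chn π m)) ((starRingEnd ℂ) s) :=
      LSeriesSummable_logMul_of_lt_re (chn_abscissa hπ _ hs')
    refine h2.norm.of_norm_bounded fun k => ?_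
    by_cases hk : k = 0
    · rw [hk, term_zero, term_zero]
    · rw [term_of_ne_zero hk, term_of_ne_zero hk, norm_div, norm_div, Complex.norm_conj]
  have h4 := h2.smul (1 / 2)
  have h5 := h3.smul (1 / 2)
  have h6 := h1.smul (mnorm m : ℂ)
  rw [← conj_LSeries, ← LSeries_smul, ← LSeries_smul, ← LSeries_smul, ← LSeries_add h4 h5,
    ← LSeries_add h6 (h4.add h5)]
  · congr 1
    funext k
    simp only [Pi.add_apply, Pi.smul_apply, smul_eq_mul, logMul, map_mul]
    unfold wf
    rw [chn_one]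
    have hlog : (starRingEnd ℂ) (Complex.log k) = Complex.log k := by
      rw [← Complex.natCast_log, Complex.conj_ofReal]
    rw [hlog]
    split_ifs with h
    · push_cast
      have h5 := Complex.add_conj (chn π m k)
      push_cast at h5
      linear_combination (-(1 / 2) * Complex.log (k : ℂ)) * h5
    · have h6 : chn π m k = 0 := by rw [chn, dif_neg h]
      rw [h6]
      simp

end Pool.Agent.EEA520

namespace Pool.Agent.EEA520

open Filter Topology Pool.Agent.EEAG1

theorem nsum_add (f g : Pr → ℝ) (N : ℕ) : nsum (fun p => f p + g p) N = nsum f N + nsum g N := by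
  unfold nsum
  rw [← Finset.sum_add_distrib]
  refine Finset.sum_congr rfl fun k _ => ?_
  split_ifs <;> simp

theorem nsum_const_mul (r : ℝ) (f : Pr → ℝ) (N : ℕ) : nsum (fun p => r * f p) N = r * nsum f N := by
  unfold nsum
  rw [Finset.mul_sum]
  refine Finset.sum_congr rfl fun k _ => ?_
  split_ifs <;> simp

/-- `Nat.primeCounting`, `Nat.primeCounting'`, `Nat.count_eq_card_filter_range`. -/
theorem nsum_one (N : ℕ) : nsum (fun _ => 1) N = (Nat.primeCounting N : ℝ) := by
  unfold nsum Nat.primeCounting Nat.primeCounting'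
  rw [Nat.count_eq_card_filter_range, Finset.card_filter]
  push_cast
  refine Finset.sum_congr rfl fun k _ => ?_
  split_ifs <;> rfl

theorem abs_nsum_le {f : Pr → ℝ} {C : ℝ} (hf : ∀ p, |f p| ≤ C) (N : ℕ) :
    |nsum f N| ≤ C * (Nat.primeCounting N : ℝ) := by
  rw [← nsum_one, ← nsum_const_mul]
  unfold nsum
  refine (Finset.abs_sum_le_sum_abs _ _).trans (Finset.sum_le_sum fun k _ => ?_)
  split_ifs with h
  · rw [mul_one]
    exact hf _
  · rw [abs_zero]

theorem NatMean_pos {N : ℕ} (hN : 2 ≤ N) : (0 : ℝ) < Nat.primeCounting N := by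
  have h1 : Nat.primeCounting 2 ≤ Nat.primeCounting N := Nat.monotone_primeCounting hN
  have h2 : Nat.primeCounting 2 = 1 := by decide
  have h3 : 0 < Nat.primeCounting N := by omega
  exact_mod_cast h3

theorem NMean.one : NMean (fun _ => 1) 1 := by
  refine Tendsto.congr' ?_ tendsto_const_nhds
  filter_upwards [eventually_ge_atTop 2] with N hN
  rw [nsum_one, div_self (NatMean_pos hN).ne']

theorem NMean.add {f g : Pr → ℝ} {L M : ℝ} (h : NMean f L) (h' : NMean g M) :
    NMean (fun p => f p + g p) (L + M) := by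
  refine Tendsto.congr (fun N => ?_) (Tendsto.add h h')
  rw [nsum_add, add_div]

theorem NMean.const_mul {f : Pr → ℝ} {L : ℝ} (h : NMean f L) (r : ℝ) :
    NMean (fun p => r * f p) (r * L) := by
  refine Tendsto.congr (fun N => ?_) (Tendsto.const_mul r h)
  rw [nsum_const_mul, mul_div_assoc]

/-- `f` has a mean value in both senses, and they agree. -/
def Good (f : Pr → ℝ) : Prop := BdP f ∧ ∃ L : ℝ, MeanP f L ∧ NMean f L

theorem Good.one : Good fun _ => 1 :=
  ⟨⟨1, fun _ => by rw [abs_one]⟩, 1, MeanP.one, NMean.one⟩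

theorem Good.add {f g : Pr → ℝ} (hf : Good f) (hg : Good g) : Good fun p => f p + g p := by
  obtain ⟨hf1, L, hL, hL'⟩ := hf
  obtain ⟨hg1, M, hM, hM'⟩ := hg
  exact ⟨hf1.add hg1, L + M, MeanP.add hf1 hg1 hL hM, hL'.add hM'⟩

theorem Good.const_mul {f : Pr → ℝ} (hf : Good f) (r : ℝ) : Good fun p => r * f p := by
  obtain ⟨hf1, L, hL, hL'⟩ := hf
  exact ⟨hf1.const_mul r, r * L, hL.const_mul r, hL'.const_mul r⟩

theorem Good.sum {ι : Type*} (t : Finset ι) {F : ι → Pr → ℝ} (hF : ∀ i ∈ t, Good (F i)) :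
    Good fun p => ∑ i ∈ t, F i p := by
  classical
  induction t using Finset.induction_on with
  | empty =>
    have h1 := Good.one.const_mul 0
    simpa using h1
  | insert i t hi ih =>
    have h1 := (hF i (Finset.mem_insert_self i t)).add
      (ih fun j hj => hF j (Finset.mem_insert_of_mem hj))
    have h2 : (fun p => ∑ j ∈ insert i t, F j p) = fun p => F i p + ∑ j ∈ t, F j p := by
      funext p
      rw [Finset.sum_insert hi]
    rw [h2]
    exact h1

theorem NatMean_close {f g : Pr → ℝ} (hf : BdP f) (hg : BdP g) {L M ε : ℝ} (hL : MeanP f L)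
    (hM : MeanP g M) (h : ∀ p, |f p - g p| ≤ ε) : |M - L| ≤ ε := by
  have hε : BdP fun _ : Pr => ε * 1 := ⟨|ε * 1|, fun _ => le_rfl⟩
  have h1 := MeanP.add hε (hf.add (hg.const_mul (-1))) (MeanP.one.const_mul ε)
    (MeanP.add hf (hg.const_mul (-1)) hL (hM.const_mul (-1)))
  have h2 := MeanP.add hε (hg.add (hf.const_mul (-1))) (MeanP.one.const_mul ε)
    (MeanP.add hg (hf.const_mul (-1)) hM (hL.const_mul (-1)))
  have h3 := h1.nonneg fun p => by
    have := abs_le.1 (h p)
    linarith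
  have h4 := h2.nonneg fun p => by
    have := abs_le.1 (h p)
    linarith
  rw [abs_le]
  constructor <;> linarith

/-- Uniform limits. Let `MeanP f L` and let `f` be within `ε` of a good `g` (with mean value `M`), for
every `ε`. Then `|L - M| ≤ ε` (`MeanP.nonneg` for `ε ± (f - g)`), and `|nsum f N / π(N) - L| ≤ ε +
|nsum g N / π(N) - M| + |M - L| ≤ 3 ε` for large `N` (`abs_nsum_le`). -/
theorem nmean_of_approx {f : Pr → ℝ} (hf : BdP f) {L : ℝ} (hL : MeanP f L)
    (h : ∀ ε > 0, ∃ g : Pr → ℝ, Good g ∧ ∀ p, |f p - g p| ≤ ε) : NMean f L := by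
  refine Metric.tendsto_nhds.2 fun ε hε => ?_
  obtain ⟨g, ⟨hg, M, hM, hM'⟩, hfg⟩ := h (ε / 4) (by positivity)
  have hLM := NatMean_close hf hg hL hM hfg
  filter_upwards [eventually_ge_atTop 2, Metric.tendsto_nhds.1 hM' (ε / 4) (by positivity)]
    with N hN h1
  have hpos := NatMean_pos hN
  have h2 : |nsum f N / Nat.primeCounting N - nsum g N / Nat.primeCounting N| ≤ ε / 4 := by
    have h3 : nsum (fun p => f p + (-1) * g p) N = nsum f N - nsum g N := by
      rw [nsum_add, nsum_const_mul]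
      ring
    rw [← sub_div, ← h3, abs_div, abs_of_pos hpos, div_le_iff₀ hpos]
    refine abs_nsum_le (fun p => ?_) N
    have h4 : f p + (-1) * g p = f p - g p := by ring
    rw [h4]
    exact hfg p
  rw [Real.dist_eq] at h1 ⊢
  have h4 : nsum f N / Nat.primeCounting N - L =
      (nsum f N / Nat.primeCounting N - nsum g N / Nat.primeCounting N) +
      (nsum g N / Nat.primeCounting N - M) + (M - L) := by ring
  rw [h4]
  have h5 := abs_add_three (nsum f N / Nat.primeCounting N - nsum g N / Nat.primeCounting N)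
    (nsum g N / Nat.primeCounting N - M) (M - L)
  linarith

theorem NatMean_re {z : ℂ} (hz : ‖z‖ = 1) : |2 * z.re| ≤ 2 := by
  have h := (Complex.abs_re_le_norm z).trans hz.le
  rw [abs_mul, abs_two]
  linarith

theorem NatMean_rec {z : ℂ} (hz : ‖z‖ = 1) (k : ℤ) :
    (2 * z.re) * (2 * (z ^ k).re) = 2 * (z ^ (k + 1)).re + 2 * (z ^ (k - 1)).re := by
  have h0 : z ≠ 0 := by
    rintro rfl
    simp at hz
  have h1 : z + z⁻¹ = ((2 * z.re : ℝ) : ℂ) := by
    rw [Complex.inv_eq_conj hz, Complex.add_conj]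
  have h2 : z ^ (k + 1) + z ^ (k - 1) = z ^ k * ((2 * z.re : ℝ) : ℂ) := by
    rw [← h1, zpow_add_one₀ h0, zpow_sub_one₀ h0, mul_add]
  have h3 := congrArg Complex.re h2
  rw [Complex.add_re, Complex.re_mul_ofReal] at h3
  linarith

/-- The monomials: by induction on `j`, for all `k`; on the unit circle
`2 Re z * 2 Re z ^ k = 2 Re z ^ (k + 1) + 2 Re z ^ (k - 1)` (`A6_rec` in `W_eea520_g1/A6.lean`). -/
theorem good_monomial {a : Pr → ℂ} (ha : ∀ p, ‖a p‖ = 1)
    (h : ∀ k : ℤ, Good fun p => 2 * ((a p) ^ k).re) (j : ℕ) :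
    ∀ k : ℤ, Good fun p => (2 * (a p).re) ^ j * (2 * ((a p) ^ k).re) := by
  induction j with
  | zero =>
    intro k
    simp only [pow_zero, one_mul]
    exact h k
  | succ j ih =>
    intro k
    have h1 := (ih (k + 1)).add (ih (k - 1))
    have h2 : (fun p => (2 * (a p).re) ^ (j + 1) * (2 * ((a p) ^ k).re)) = fun p =>
        (2 * (a p).re) ^ j * (2 * ((a p) ^ (k + 1)).re) +
          (2 * (a p).re) ^ j * (2 * ((a p) ^ (k - 1)).re) := by
      funext p
      rw [← mul_add, ← NatMean_rec (ha p) k]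
      ring
    rw [h2]
    exact h1

/-- Continuous functions of `2 Re a_p` with a mean value in the sense of Dirichlet density have the same
mean value in the sense of natural density. Weierstrass: `exists_polynomial_near_of_continuousOn`,
`nmean_of_approx`, `good_monomial` with `k = 0` (`2 * 1`), `Good.sum`, `Good.const_mul`,
`Polynomial.eval_eq_sum_range`. -/
theorem nmean_of_meanP {a : Pr → ℂ} (ha : ∀ p, ‖a p‖ = 1)
    (h : ∀ k : ℤ, Good fun p => 2 * ((a p) ^ k).re) {F : ℝ → ℝ} (hF : ContinuousOn F (Set.Icc (-2) 2))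
    {L : ℝ} (hL : MeanP (fun p => F (2 * (a p).re)) L) : NMean (fun p => F (2 * (a p).re)) L := by
  have hre : ∀ p, 2 * (a p).re ∈ Set.Icc (-2 : ℝ) 2 := fun p => by
    have h1 := abs_le.1 (NatMean_re (ha p))
    exact ⟨h1.1, h1.2⟩
  obtain ⟨C, hC⟩ := isCompact_Icc.exists_bound_of_continuousOn hF
  refine nmean_of_approx ⟨C, fun p => hC _ (hre p)⟩ hL fun ε hε => ?_
  obtain ⟨P, hP⟩ := exists_polynomial_near_of_continuousOn (-2) 2 F hF _ hε
  refine ⟨fun p => P.eval (2 * (a p).re), ?_, fun p => ?_⟩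
  · have h1 : (fun p => P.eval (2 * (a p).re)) = fun p => ∑ i ∈ Finset.range (P.natDegree + 1),
        (P.coeff i / 2) * ((2 * (a p).re) ^ i * (2 * ((a p) ^ (0 : ℤ)).re)) := by
      funext p
      rw [Polynomial.eval_eq_sum_range]
      refine Finset.sum_congr rfl fun i _ => ?_
      rw [zpow_zero, Complex.one_re]
      ring
    rw [h1]
    exact Good.sum _ fun i _ => (good_monomial ha h i 0).const_mul _
  · rw [abs_sub_comm]
    exact (hP _ (hre p)).le

end Pool.Agent.EEA520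

namespace Pool.Agent.EEA520

open Filter Topology Pool.Agent.EEAG1 LSeries

variable {n : ℕ}

theorem pt_sub_ne {t : ℝ} (ht : t ≠ 0) : pt t - 1 ≠ 0 := sub_ne_zero.2 (pt_ne_one ht)

/-- The boundary behaviour, with the polar part at `1`. -/
theorem bdry_one {π : GSys n} (hπ : Tempered π) {m : Wt n →₀ ℤ} {a : ℤ}
    (h0 : PoleOrder π m (pt 0) a) (h : ∀ t : ℝ, t ≠ 0 → PoleOrder π m (pt t) 0) (y : ℝ) :
    ∃ L : ℂ, Tendsto (fun s => LSeries (logMul (chn π m)) s - a / (s - 1))
      (𝓝[{s | 1 < s.re}] (pt y)) (𝓝 L) := by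
  by_cases hy : y = 0
  · subst hy
    have h1 := bdry hπ h0
    rw [pt_zero'] at h1 ⊢
    exact h1
  · obtain ⟨L, hL⟩ := bdry hπ (h y hy)
    have h2 : ContinuousAt (fun s : ℂ => (a : ℂ) / (s - 1)) (pt y) :=
      ContinuousAt.div continuousAt_const (by fun_prop) (pt_sub_ne hy)
    have h3 := hL.sub (h2.tendsto.mono_left nhdsWithin_le_nhds)
    refine ⟨_, h3.congr fun s => ?_⟩
    simp

theorem conj_pt (y : ℝ) : (starRingEnd ℂ) (pt y) = pt (-y) := by
  unfold pt
  simp

theorem tendsto_conj_pt (y : ℝ) : Tendsto (starRingEnd ℂ) (𝓝[{s | 1 < s.re}] (pt y))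
    (𝓝[{s | 1 < s.re}] (pt (-y))) := by
  refine tendsto_nhdsWithin_iff.2 ⟨?_, ?_⟩
  · have h1 := (Complex.continuous_conj.tendsto (pt y)).mono_left
      (nhdsWithin_le_nhds (s := {s : ℂ | 1 < s.re}))
    rw [conj_pt] at h1
    exact h1
  · filter_upwards [self_mem_nhdsWithin] with s hs
    show 1 < ((starRingEnd ℂ) s).re
    rw [Complex.conj_re]
    exact hs

/-- The hypothesis of the theorem of Wiener and Ikehara. -/
theorem wf_bdry {π : GSys n} (hπ : Tempered π) {m : Wt n →₀ ℤ} {a : ℤ}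
    (h0 : PoleOrder π m (pt 0) a) (h : ∀ t : ℝ, t ≠ 0 → PoleOrder π m (pt t) 0) (y : ℝ) :
    ∃ L : ℂ, Tendsto (fun s => LSeries (fun k => ((wf π m k : ℝ) : ℂ)) s -
      ((mnorm m + a : ℝ) : ℂ) / (s - 1)) (𝓝[{s | 1 < s.re}] (1 + y * Complex.I)) (𝓝 L) := by
  obtain ⟨L1, hL1⟩ := bdry_one hπ (poleOrder_zeta_one π) (fun t ht => poleOrder_zeta π ht) y
  obtain ⟨L2, hL2⟩ := bdry_one hπ h0 h y
  obtain ⟨L3, hL3⟩ := bdry_one hπ h0 h (-y)
  have h4 := (Complex.continuous_conj.tendsto L3).comp (hL3.comp (tendsto_conj_pt y))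
  have h5 := (hL1.const_mul (mnorm m : ℂ)).add ((hL2.const_mul (1 / 2 : ℂ)).add
    (h4.const_mul (1 / 2 : ℂ)))
  refine ⟨_, Tendsto.congr' ?_ h5⟩
  have hpt : (1 + (y : ℂ) * Complex.I) = pt y := rfl
  filter_upwards [self_mem_nhdsWithin] with s hs
  have hs' : 1 < s.re := hs
  have hs1 : s - 1 ≠ 0 := by
    intro h6
    have h7 : s = 1 := sub_eq_zero.1 h6
    rw [h7] at hs'
    simp at hs'
  rw [wf_LSeries hπ m hs']
  simp only [Function.comp_apply, map_sub, map_div₀, Complex.conj_conj, map_one, map_intCast]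
  push_cast
  field_simp
  ring

/-- The weighted sums. -/
theorem wf_tendsto {π : GSys n} (hπ : Tempered π) {m : Wt n →₀ ℤ} {a : ℤ}
    (h0 : PoleOrder π m (pt 0) a) (h : ∀ t : ℝ, t ≠ 0 → PoleOrder π m (pt t) 0) :
    Tendsto (fun x : ℝ => sfn (wf π m) x / x) atTop (𝓝 (mnorm m + a)) :=
  wiener_ikehara (wf_nonneg hπ m) (wf_le hπ m) (wf_bdry hπ h0 h)

/-- The sum with the weights `log p`. -/
noncomputable def lsum (f : Pr → ℝ) (N : ℕ) : ℝ := nsum (fun p => f p * Real.log ((p : ℕ) : ℝ)) N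

theorem lsum_one (N : ℕ) : lsum (fun _ => 1) N = Chebyshev.theta N := by
  unfold lsum nsum
  rw [Chebyshev.theta_eq_sum_Icc, Finset.sum_filter, Nat.floor_natCast]
  have h1 : Finset.range (N + 1) = Finset.Icc 0 N := by
    ext k
    rw [Finset.mem_range, Finset.mem_Icc]
    omega
  rw [h1]
  refine Finset.sum_congr rfl fun k _ => ?_
  split_ifs with h
  · simp
  · rfl

theorem sfn_eq (π : GSys n) (m : Wt n →₀ ℤ) (N : ℕ) :
    sfn (wf π m) N = mnorm m * Chebyshev.theta N + lsum (tre π m 0) N := by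
  have h1 : lsum (fun p => mnorm m * 1 + tre π m 0 p) N =
      mnorm m * Chebyshev.theta N + lsum (tre π m 0) N := by
    rw [← lsum_one]
    unfold lsum
    rw [← nsum_const_mul, ← nsum_add]
    congr 1
    funext p
    ring
  rw [← h1]
  unfold sfn lsum nsum
  rw [Nat.floor_natCast, Finset.range_eq_Ico, Finset.sum_eq_sum_Ico_succ_bot (by omega)]
  rw [dif_neg Nat.not_prime_zero, zero_add]
  have h2 : Finset.Ico (0 + 1) (N + 1) = Finset.Icc 1 N := by
    ext k
    rw [Finset.mem_Ico, Finset.mem_Icc]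
    omega
  rw [h2]
  refine Finset.sum_congr rfl fun k _ => ?_
  unfold wf
  split_ifs with h
  · have h3 : ∀ p : Pr, (mnorm m + (tcx π m p).re) * Real.log ((p : ℕ) : ℝ) =
        (mnorm m * 1 + tre π m 0 p) * Real.log ((p : ℕ) : ℝ) := by
      intro p
      rw [tre_eq]
      simp
    rw [chn, dif_pos h]
    exact h3 ⟨k, h⟩
  · rfl

/-- The average with the weights `log p`. -/
theorem lsum_tendsto {π : GSys n} (hπ : Tempered π) {m : Wt n →₀ ℤ} {a : ℤ}
    (h0 : PoleOrder π m (pt 0) a) (h : ∀ t : ℝ, t ≠ 0 → PoleOrder π m (pt t) 0) :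
    Tendsto (fun N : ℕ => lsum (tre π m 0) N / (N : ℝ)) atTop (𝓝 a) := by
  have h1 := (wf_tendsto hπ h0 h).comp tendsto_natCast_atTop_atTop
  have h2 := (Pool.Agent.W_pnt_h80.theta_tendsto.comp tendsto_natCast_atTop_atTop).const_mul
    (mnorm m)
  have h3 := h1.sub h2
  rw [mul_one, add_sub_cancel_left] at h3
  refine h3.congr fun N => ?_
  simp only [Function.comp_apply]
  rw [sfn_eq]
  ring

/-- Partial summation. -/
theorem nsum_sub_le {f : Pr → ℝ} {C : ℝ} (hf : ∀ p, |f p| ≤ C) {N : ℕ} (hN : 2 ≤ N) :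
    |nsum f N - lsum f N / Real.log N| ≤
      C * ((Nat.primeCounting N : ℝ) - Chebyshev.theta N / Real.log N) := by
  have hC : 0 ≤ C := (abs_nonneg _).trans (hf ⟨2, Nat.prime_two⟩)
  have hlog : 0 < Real.log N := Real.log_pos (by exact_mod_cast hN)
  rw [← nsum_one, ← lsum_one]
  unfold lsum nsum
  rw [Finset.sum_div, Finset.sum_div, ← Finset.sum_sub_distrib, ← Finset.sum_sub_distrib,
    Finset.mul_sum]
  refine (Finset.abs_sum_le_sum_abs _ _).trans (Finset.sum_le_sum fun k hk => ?_)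
  split_ifs with h
  · have h1 : (k : ℝ) ≤ N := by
      have := Finset.mem_range.1 hk
      exact_mod_cast Nat.lt_succ_iff.1 this
    have h2 : Real.log k ≤ Real.log N :=
      Real.log_le_log (by exact_mod_cast h.pos) h1
    have h3 : 0 ≤ 1 - Real.log k / Real.log N := by
      rw [sub_nonneg, div_le_one hlog]
      exact h2
    have h4 : f ⟨k, h⟩ - f ⟨k, h⟩ * Real.log k / Real.log N =
        f ⟨k, h⟩ * (1 - Real.log k / Real.log N) := by ring
    show |f ⟨k, h⟩ - f ⟨k, h⟩ * Real.log k / Real.log N| ≤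
      C * (1 - 1 * Real.log k / Real.log N)
    rw [h4, abs_mul, abs_of_nonneg h3, one_mul]
    exact mul_le_mul_of_nonneg_right (hf _) h3
  · simp

/-- Natural density from the weights `log p`. -/
theorem nmean_of_lsum {f : Pr → ℝ} (hf : BdP f) {L : ℝ}
    (h : Tendsto (fun N : ℕ => lsum f N / (N : ℝ)) atTop (𝓝 L)) : NMean f L := by
  obtain ⟨C, hC⟩ := hf
  have hθ := Pool.Agent.W_pnt_h80.theta_tendsto.comp tendsto_natCast_atTop_atTop
  have hπ' := Pool.Agent.W_pnt_h80.pi_tendsto.comp tendsto_natCast_atTop_atTop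
  have hπ : Tendsto (fun N : ℕ => (Nat.primeCounting N : ℝ) * Real.log N / N) atTop (𝓝 1) := by
    refine hπ'.congr fun N => ?_
    simp only [Function.comp_apply]
    rw [Nat.floor_natCast]
  have h1 : Tendsto (fun N : ℕ => lsum f N / (N : ℝ) /
      ((Nat.primeCounting N : ℝ) * Real.log N / N)) atTop (𝓝 (L / 1)) :=
    h.div hπ one_ne_zero
  have h2 : Tendsto (fun N : ℕ => C * (1 - Chebyshev.theta N / (N : ℝ) /
      ((Nat.primeCounting N : ℝ) * Real.log N / N))) atTop (𝓝 (C * (1 - 1 / 1))) :=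
    (tendsto_const_nhds.sub (hθ.div hπ one_ne_zero)).const_mul C
  rw [div_one] at h1
  rw [div_one, sub_self, mul_zero] at h2
  have h3 : Tendsto (fun N : ℕ => nsum f N / (Nat.primeCounting N : ℝ) - lsum f N / (N : ℝ) /
      ((Nat.primeCounting N : ℝ) * Real.log N / N)) atTop (𝓝 0) := by
    refine squeeze_zero_norm' ?_ h2
    filter_upwards [eventually_ge_atTop 2] with N hN
    have hlog : 0 < Real.log N := Real.log_pos (by exact_mod_cast hN)
    have hN0 : (0 : ℝ) < N := by exact_mod_cast (by omega : 0 < N)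
    have hpi : (0 : ℝ) < Nat.primeCounting N := by
      have h4 : 0 < Nat.primeCounting N := by
        refine lt_of_lt_of_le ?_ (Nat.monotone_primeCounting hN)
        decide
      exact_mod_cast h4
    have h4 := nsum_sub_le hC hN
    have h5 : nsum f N / (Nat.primeCounting N : ℝ) - lsum f N / (N : ℝ) /
        ((Nat.primeCounting N : ℝ) * Real.log N / N) =
        (nsum f N - lsum f N / Real.log N) / (Nat.primeCounting N : ℝ) := by
      field_simp
    have h6 : C * (1 - Chebyshev.theta N / (N : ℝ) /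
        ((Nat.primeCounting N : ℝ) * Real.log N / N)) =
        (C * ((Nat.primeCounting N : ℝ) - Chebyshev.theta N / Real.log N)) /
          (Nat.primeCounting N : ℝ) := by
      field_simp
    rw [h5, h6, Real.norm_eq_abs, abs_div, abs_of_pos hpi]
    exact div_le_div_of_nonneg_right h4 hpi.le
  have h4 := h3.add h1
  rw [zero_add] at h4
  refine h4.congr fun N => ?_
  ring

/-- The mean value of the traces in the sense of natural density. -/
theorem nmean_of_poleOrder {π : GSys n} (hπ : Tempered π) {m : Wt n →₀ ℤ} {a : ℤ}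
    (h0 : PoleOrder π m (pt 0) a) (h : ∀ t : ℝ, t ≠ 0 → PoleOrder π m (pt t) 0) :
    NMean (tre π m 0) a :=
  nmean_of_lsum (bdP_tre hπ m 0) (lsum_tendsto hπ h0 h)

end Pool.Agent.EEA520
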