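import Pool.Agent.W_eea520_G.E
import Pool.Agent.W_eea520_G.N2

/-!
# The line (MP_eea520_nt, edge theorem)
-/

set_option autoImplicit false

namespace Pool.Agent.EEA520

open scoped InnerProductSpace

/-- Bessel's identity for orthogonal vectors of norm `√2`. -/
theorem bessel_two {H : Type*} [NormedAddCommGroup H] [InnerProductSpace ℝ H] {ι : Type*}
    [DecidableEq ι] (F : Finset ι) (e : ι → H)
    (he : ∀ i ∈ F, ∀ j ∈ F, ⟪e i, e j⟫_ℝ = if i = j then 2 else 0) (x : H) :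
    ‖x - ∑ i ∈ F, (⟪x, e i⟫_ℝ / 2) • e i‖ ^ 2 = ‖x‖ ^ 2 - (∑ i ∈ F, ⟪x, e i⟫_ℝ ^ 2) / 2 := by
  have h1 : ⟪x, ∑ i ∈ F, (⟪x, e i⟫_ℝ / 2) • e i⟫_ℝ = (∑ i ∈ F, ⟪x, e i⟫_ℝ ^ 2) / 2 := by
    rw [inner_sum, Finset.sum_div]
    refine Finset.sum_congr rfl fun i _ => ?_
    rw [real_inner_smul_right]
    ring
  have h2 : ⟪∑ i ∈ F, (⟪x, e i⟫_ℝ / 2) • e i, ∑ i ∈ F, (⟪x, e i⟫_ℝ / 2) • e i⟫_ℝ =
      (∑ i ∈ F, ⟪x, e i⟫_ℝ ^ 2) / 2 := by
    rw [sum_inner, Finset.sum_div]
    refine Finset.sum_congr rfl fun i hi => ?_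
    rw [inner_sum, Finset.sum_eq_single i]
    · rw [real_inner_smul_left, real_inner_smul_right, he i hi i hi, if_pos rfl]
      ring
    · intro j hj hji
      rw [real_inner_smul_left, real_inner_smul_right, he i hi j hj, if_neg hji.symm]
      ring
    · intro h
      exact absurd hi h
  rw [norm_sub_sq_real, h1, ← real_inner_self_eq_norm_sq (∑ i ∈ F, (⟪x, e i⟫_ℝ / 2) • e i), h2]
  ring

theorem rig_smul {E : AddSubgroup ℝ} {t : E} (ht : t ≠ 0) (i : ℤ) : i • t = 0 ↔ i = 0 := by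
  constructor
  · intro h
    have h1 := congrArg (fun s : E => (s : ℝ)) h
    simp only [AddSubgroup.coe_zsmul, zsmul_eq_mul, AddSubgroup.coe_zero, mul_eq_zero] at h1
    rcases h1 with h1 | h1
    · exact_mod_cast h1
    · exact absurd (Subtype.ext h1) ht
  · rintro rfl
    exact zero_smul ℤ t

section rig
variable {E : AddSubgroup ℝ} {H : Type*} [NormedAddCommGroup H] [InnerProductSpace ℝ H]
  {V : ℤ × E → H} {c : ℤ × E → ℤ}

theorem rig_symm (hV : ∀ g h, ⟪V g, V h⟫_ℝ = c (g - h)) (g : ℤ × E) : c (-g) = c g := by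
  have h1 := hV 0 g
  have h2 := hV g 0
  rw [real_inner_comm, h2, sub_zero, zero_sub] at h1
  exact_mod_cast h1.symm

theorem rig_G (hV : ∀ g h, ⟪V g, V h⟫_ℝ = c (g - h)) (t : E) (a b i j : ℤ) :
    ⟪V (a, i • t), V (b, j • t)⟫_ℝ = c (a - b, (i - j) • t) := by
  rw [hV, Prod.mk_sub_mk, sub_smul]

theorem rig_c0 (h0 : ∀ t, c (0, t) = if t = 0 then 2 else 0) {t : E} (ht : t ≠ 0) (i : ℤ) :
    c (0, i • t) = if i = 0 then 2 else 0 := by
  rw [h0]
  by_cases h : i = 0
  · rw [if_pos h, if_pos ((rig_smul ht i).2 h)]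
  · rw [if_neg h, if_neg (fun h' => h ((rig_smul ht i).1 h'))]

theorem rig_bessel (hV : ∀ g h, ⟪V g, V h⟫_ℝ = c (g - h))
    (h0 : ∀ t, c (0, t) = if t = 0 then 2 else 0) (hs : ∀ k t, c (k, -t) = c (k, t)) (k : ℤ) {t : E}
    (ht : t ≠ 0) (S : Finset ℤ) :
    ‖V (k, 0) - ∑ i ∈ S, ((c (k, i • t) : ℝ) / 2) • V (0, i • t)‖ ^ 2 =
      2 - (∑ i ∈ S, (c (k, i • t) : ℝ) ^ 2) / 2 := by
  have hx : ∀ i : ℤ, ⟪V (k, 0), V (0, i • t)⟫_ℝ = c (k, i • t) := by
    intro i
    rw [hV, Prod.mk_sub_mk, sub_zero, zero_sub, hs]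
  have h1 := bessel_two S (fun i : ℤ => V (0, i • t)) (by
    intro i _ j _
    rw [rig_G hV, sub_zero, rig_c0 h0 ht]
    by_cases h : i = j
    · rw [if_pos h, if_pos (sub_eq_zero.2 h)]
      norm_num
    · rw [if_neg h, if_neg (fun h' => h (sub_eq_zero.1 h'))]
      norm_num) (V (k, 0))
  simp only [hx] at h1
  rw [h1]
  congr 1
  rw [← real_inner_self_eq_norm_sq, hV, sub_self]
  have := h0 0
  rw [if_pos rfl] at this
  rw [show (0 : ℤ × E) = (0, 0) by rfl, this]
  norm_num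

theorem rig_four (hV : ∀ g h, ⟪V g, V h⟫_ℝ = c (g - h))
    (h0 : ∀ t, c (0, t) = if t = 0 then 2 else 0) (hs : ∀ k t, c (k, -t) = c (k, t)) (k : ℤ) {t : E}
    (ht : t ≠ 0) (S : Finset ℤ) : ∑ i ∈ S, c (k, i • t) ^ 2 ≤ 4 := by
  have h1 := rig_bessel hV h0 hs k ht S
  have h2 : (0 : ℝ) ≤ 2 - (∑ i ∈ S, (c (k, i • t) : ℝ) ^ 2) / 2 := by
    rw [← h1]
    positivity
  have h3 : (∑ i ∈ S, (c (k, i • t) : ℝ) ^ 2) ≤ 4 := by linarith
  exact_mod_cast h3

theorem rig_neg (hs : ∀ k t, c (k, -t) = c (k, t)) (k : ℤ) (t : E) (i : ℤ) :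
    c (k, (-i) • t) = c (k, i • t) := by
  rw [neg_smul, hs]

theorem rig_sq {a : ℤ} (h : a ≠ 0) : 1 ≤ a ^ 2 := by
  have : 0 < a ^ 2 := by positivity
  omega

theorem rig_A (hV : ∀ g h, ⟪V g, V h⟫_ℝ = c (g - h))
    (h0 : ∀ t, c (0, t) = if t = 0 then 2 else 0) (hs : ∀ k t, c (k, -t) = c (k, t)) (k : ℤ) {t : E}
    (ht : t ≠ 0) (hk : c (k, 0) ^ 2 = 1) : c (k, t) = 0 := by
  by_contra hne
  have h1 := rig_sq hne
  have e0 : c (k, (0 : ℤ) • t) = c (k, 0) := by rw [zero_smul]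
  have e1 : c (k, (1 : ℤ) • t) = c (k, t) := by rw [one_smul]
  have h2 := rig_four hV h0 hs k ht {0, 1, -1}
  rw [Finset.sum_insert (by decide), Finset.sum_insert (by decide), Finset.sum_singleton, rig_neg hs,
    e0, e1, hk] at h2
  have h3 := rig_four hV h0 hs k ht {0, 1, -1, 2, -2}
  rw [Finset.sum_insert (by decide), Finset.sum_insert (by decide), Finset.sum_insert (by decide),
    Finset.sum_insert (by decide), Finset.sum_singleton, rig_neg hs, rig_neg hs, e0, e1, hk] at h3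
  have h4 : c (k, t) ^ 2 = 1 := by omega
  have h5 : c (k, (2 : ℤ) • t) = 0 := by
    by_contra h
    have := rig_sq h
    omega
  have hc : ∀ i : ℤ, c (0 - k, i • t) = c (k, i • t) := by
    intro i
    rw [zero_sub, ← rig_symm hV, Prod.neg_mk, neg_neg, hs]
  set δ : ℝ := (c (k, 0) : ℝ) * c (k, t) with hδ
  have hkr : ((c (k, 0) : ℤ) : ℝ) ^ 2 = 1 := by exact_mod_cast hk
  have htr : ((c (k, t) : ℤ) : ℝ) ^ 2 = 1 := by exact_mod_cast h4
  have hδ2 : δ ^ 2 = 1 := by rw [hδ, mul_pow, hkr, htr, one_mul]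
  have hδε : δ * c (k, t) = c (k, 0) := by
    rw [hδ, mul_assoc, ← pow_two, htr, mul_one]
  have n1 : ∀ a : ℤ, ⟪V (a, (0 : ℤ) • t) + δ • V (a, (1 : ℤ) • t) + V (a, (2 : ℤ) • t),
      V (a, (0 : ℤ) • t) + δ • V (a, (1 : ℤ) • t) + V (a, (2 : ℤ) • t)⟫_ℝ = 6 := by
    intro a
    simp only [inner_add_left, inner_add_right, real_inner_smul_left, real_inner_smul_right,
      rig_G hV, sub_self, rig_c0 h0 ht]
    norm_num
    linear_combination 2 * hδ2
  have n2 : ⟪V (k, (0 : ℤ) • t) + δ • V (k, (1 : ℤ) • t) + V (k, (2 : ℤ) • t),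
      V (0, (0 : ℤ) • t) + δ • V (0, (1 : ℤ) • t) + V (0, (2 : ℤ) • t)⟫_ℝ = 7 * c (k, 0) := by
    have e2 : c (k, (-1 : ℤ) • t) = c (k, t) := by rw [rig_neg hs, e1]
    have e3 : c (k, (-2 : ℤ) • t) = 0 := by rw [rig_neg hs, h5]
    simp only [inner_add_left, inner_add_right, real_inner_smul_left, real_inner_smul_right,
      rig_G hV, sub_zero, sub_self, e0, e1, h5, show (0 : ℤ) - 1 = -1 by norm_num,
      show (0 : ℤ) - 2 = -2 by norm_num, show (1 : ℤ) - 2 = -1 by norm_num,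
      show (2 : ℤ) - 1 = 1 by norm_num, e2, e3, Int.cast_zero]
    linear_combination 4 * hδε + (c (k, 0) : ℝ) * hδ2
  have h6 := real_inner_mul_inner_self_le
    (V (k, (0 : ℤ) • t) + δ • V (k, (1 : ℤ) • t) + V (k, (2 : ℤ) • t))
    (V (0, (0 : ℤ) • t) + δ • V (0, (1 : ℤ) • t) + V (0, (2 : ℤ) • t))
  rw [n2, n1, n1] at h6
  nlinarith

/-- Case B, first step. -/
theorem rig_B {U : ℤ × E → H ≃ₗᵢ[ℝ] H} (hT : ∀ a g, U a (V g) = V (a + g))
    (hV : ∀ g h, ⟪V g, V h⟫_ℝ = c (g - h))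
    (h0 : ∀ t, c (0, t) = if t = 0 then 2 else 0) (hs : ∀ k t, c (k, -t) = c (k, t)) (k : ℤ) {t : E}
    (ht : t ≠ 0) (hne : c (k, t) ≠ 0) (d : ℤ) (hd : d ≤ -2 ∨ 2 ≤ d) :
    c (k, d • t) = 0 := by
  by_contra hd0
  have h1 := rig_sq hne
  have h2 := rig_sq hd0
  have e1 : c (k, (1 : ℤ) • t) = c (k, t) := by rw [one_smul]
  have m1 : (1 : ℤ) ∉ ({-1, d, -d} : Finset ℤ) := by
    simp only [Finset.mem_insert, Finset.mem_singleton]
    omega
  have m2 : (-1 : ℤ) ∉ ({d, -d} : Finset ℤ) := by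
    simp only [Finset.mem_insert, Finset.mem_singleton]
    omega
  have m3 : (d : ℤ) ∉ ({-d} : Finset ℤ) := by
    simp only [Finset.mem_singleton]
    omega
  have h3 := rig_four hV h0 hs k ht {1, -1, d, -d}
  have hsum : ∑ i ∈ ({1, -1, d, -d} : Finset ℤ), c (k, i • t) ^ 2 =
      2 * c (k, t) ^ 2 + 2 * c (k, d • t) ^ 2 := by
    rw [Finset.sum_insert m1, Finset.sum_insert m2, Finset.sum_insert m3, Finset.sum_singleton,
      rig_neg hs, rig_neg hs, e1]
    ring
  rw [hsum] at h3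
  have h4 : c (k, t) ^ 2 = 1 := by omega
  have h5 : c (k, d • t) ^ 2 = 1 := by omega
  have hout : ∀ j : ℤ, j ≠ 1 → j ≠ -1 → j ≠ d → j ≠ -d → c (k, j • t) = 0 := by
    intro j j1 j2 j3 j4
    by_contra hj
    have h6 := rig_sq hj
    have h7 := rig_four hV h0 hs k ht (insert j {1, -1, d, -d})
    rw [Finset.sum_insert (by simp only [Finset.mem_insert, Finset.mem_singleton]; omega), hsum] at h7
    omega
  have h6 := rig_bessel hV h0 hs k ht {1, -1, d, -d}
  have h7 : (∑ i ∈ ({1, -1, d, -d} : Finset ℤ), ((c (k, i • t) : ℤ) : ℝ) ^ 2) = 4 := by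
    have h8 : ∑ i ∈ ({1, -1, d, -d} : Finset ℤ), c (k, i • t) ^ 2 = 4 := by
      rw [hsum, h4, h5]
      norm_num
    exact_mod_cast h8
  rw [h7] at h6
  have h8 : V (k, 0) = ∑ i ∈ ({1, -1, d, -d} : Finset ℤ), ((c (k, i • t) : ℝ) / 2) • V (0, i • t) := by
    rw [← sub_eq_zero, ← norm_eq_zero]
    have : ‖V (k, 0) - ∑ i ∈ ({1, -1, d, -d} : Finset ℤ), ((c (k, i • t) : ℝ) / 2) •
        V (0, i • t)‖ ^ 2 = 0 := by
      rw [h6]
      norm_num
    exact pow_eq_zero_iff (by norm_num) |>.1 this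
  have h9 := congrArg (fun y => ⟪U (k, 0) y, V (0, (2 * d) • t)⟫_ℝ) h8
  simp only [map_sum, map_smul, hT, sum_inner, real_inner_smul_left, Prod.mk_add_mk, zero_add,
    add_zero] at h9
  rw [Finset.sum_insert m1, Finset.sum_insert m2, Finset.sum_insert m3, Finset.sum_singleton] at h9
  simp only [rig_G hV, sub_zero] at h9
  rw [hout (1 - 2 * d) (by omega) (by omega) (by omega) (by omega),
    hout (-1 - 2 * d) (by omega) (by omega) (by omega) (by omega),
    hout (-d - 2 * d) (by omega) (by omega) (by omega) (by omega),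
    show d - 2 * d = -d by ring, hV] at h9
  simp only [rig_neg hs] at h9
  have h10 : ((c (k, d • t) : ℤ) : ℝ) ^ 2 = 1 := by exact_mod_cast h5
  have h11 : (2 : ℝ) * ((c ((k + k, 0) - (0, (2 * d) • t)) : ℤ) : ℝ) = 1 := by
    rw [h9]
    push_cast
    linear_combination h10
  have h12 : (2 : ℤ) * c ((k + k, 0) - (0, (2 * d) • t)) = 1 := by exact_mod_cast h11
  omega

end rig

/-- The Gram matrix of the chain. -/
def rigK (d : ℤ) : ℝ := if d = 0 then 2 else if d = 1 ∨ d = -1 then -1 else 0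

theorem rig_K0 : rigK 0 = 2 := by simp [rigK]

theorem rig_K1 : rigK 1 = -1 := by simp [rigK]

theorem rig_Km : rigK (-1) = -1 := by simp [rigK]

theorem rig_Kout {d : ℤ} (h0 : d ≠ 0) (h1 : d ≠ 1) (h2 : d ≠ -1) : rigK d = 0 := by
  unfold rigK
  rw [if_neg h0, if_neg (by omega)]

/-- Row sums. -/
theorem rig_row (i : ℤ) (m : ℤ) :
    ∑ j ∈ Finset.Icc (-m) m, rigK (i - j) =
      (if -m ≤ i ∧ i ≤ m then 2 else 0) - (if -m ≤ i - 1 ∧ i - 1 ≤ m then 1 else 0) -
        (if -m ≤ i + 1 ∧ i + 1 ≤ m then 1 else 0) := by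
  have h1 : ∀ j : ℤ, rigK (i - j) = (if j = i then 2 else 0) - (if j = i - 1 then 1 else 0) -
      (if j = i + 1 then 1 else 0) := by
    intro j
    by_cases a : j = i
    · rw [a, sub_self, rig_K0, if_pos rfl, if_neg (by omega), if_neg (by omega)]
      norm_num
    · by_cases b : j = i - 1
      · rw [b, show i - (i - 1) = 1 by ring, rig_K1, if_neg (by omega), if_pos rfl, if_neg (by omega)]
        norm_num
      · by_cases d : j = i + 1
        · rw [d, show i - (i + 1) = -1 by ring, rig_Km, if_neg (by omega), if_neg (by omega),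
            if_pos rfl]
          norm_num
        · rw [rig_Kout (by omega) (by omega) (by omega), if_neg a, if_neg b, if_neg d]
          norm_num
  simp only [h1, Finset.sum_sub_distrib, Finset.sum_ite_eq', Finset.mem_Icc]

theorem rig_gram {H : Type*} [NormedAddCommGroup H] [InnerProductSpace ℝ H] (z : ℤ → H)
    (hz : ∀ i j, ⟪z i, z j⟫_ℝ = rigK (i - j)) (n m : ℕ) :
    ⟪∑ i ∈ Finset.Icc (-(n : ℤ)) n, z i, ∑ j ∈ Finset.Icc (-(m : ℤ)) m, z j⟫_ℝ =
      if n = m then 2 else 0 := by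
  have key : ∀ n m : ℕ, n ≤ m →
      ⟪∑ i ∈ Finset.Icc (-(n : ℤ)) n, z i, ∑ j ∈ Finset.Icc (-(m : ℤ)) m, z j⟫_ℝ =
        if n = m then 2 else 0 := by
    intro n m hnm
    rw [sum_inner]
    simp only [inner_sum, hz, rig_row]
    have h1 : ∀ i ∈ Finset.Icc (-(n : ℤ)) n,
        ((if -(m : ℤ) ≤ i ∧ i ≤ m then (2 : ℝ) else 0) - (if -(m : ℤ) ≤ i - 1 ∧ i - 1 ≤ m then 1 else 0) -
          (if -(m : ℤ) ≤ i + 1 ∧ i + 1 ≤ m then 1 else 0)) =
          (if i = -(m : ℤ) then 1 else 0) + (if i = (m : ℤ) then 1 else 0) := by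
      intro i hi
      rw [Finset.mem_Icc] at hi
      rw [if_pos (by omega)]
      by_cases a : i = -(m : ℤ)
      · rw [if_neg (by omega), if_pos a]
        by_cases b : i = (m : ℤ)
        · rw [if_neg (by omega), if_pos b]
          norm_num
        · rw [if_pos (by omega), if_neg b]
          norm_num
      · rw [if_pos (by omega), if_neg a]
        by_cases b : i = (m : ℤ)
        · rw [if_neg (by omega), if_pos b]
          norm_num
        · rw [if_pos (by omega), if_neg b]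
          norm_num
    rw [Finset.sum_congr rfl h1, Finset.sum_add_distrib, Finset.sum_ite_eq', Finset.sum_ite_eq']
    simp only [Finset.mem_Icc]
    by_cases h : n = m
    · subst h
      rw [if_pos (by omega), if_pos (by omega), if_pos rfl]
      norm_num
    · rw [if_neg (by omega), if_neg (by omega), if_neg h]
      norm_num
  rcases le_total n m with h | h
  · exact key n m h
  · rw [real_inner_comm, key m n h]
    by_cases e : n = m
    · rw [if_pos e, if_pos e.symm]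
    · rw [if_neg e, if_neg (fun h' => e h'.symm)]

/-- Symmetric sums with even nonzero terms vanishing are odd. -/
theorem rig_oddsum (a : ℤ → ℤ) (h0 : a 0 = -1) (hs : ∀ i, a (-i) = a i) (n : ℕ) :
    (∑ i ∈ Finset.Icc (-(n : ℤ)) n, a i) % 2 = 1 := by
  induction n with
  | zero => simp [h0]
  | succ n ih =>
    have h1 : Finset.Icc (-((n + 1 : ℕ) : ℤ)) ((n + 1 : ℕ) : ℤ) =
        insert (-((n : ℤ) + 1)) (insert ((n : ℤ) + 1) (Finset.Icc (-(n : ℤ)) n)) := by
      ext i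
      simp only [Finset.mem_Icc, Finset.mem_insert]
      push_cast
      omega
    rw [h1, Finset.sum_insert, Finset.sum_insert, hs]
    · omega
    · simp only [Finset.mem_Icc]
      omega
    · simp only [Finset.mem_insert, Finset.mem_Icc]
      omega

/-- Let `U` be an orthogonal representation of `ℤ × E` (`E` a group of real numbers), `v` a vector with
`⟨U g v, v⟩ = c g ∈ ℤ`, `c (0, t) = 2` if `t = 0` and `0` otherwise, `c (k, -t) = c (k, t)`, and suppose
that `c (m, 0) = -1` for some `m`. Then `c (k, t) = 0` for all `k` and all `t ≠ 0`.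

Proof. Write `V g = U g v`, so `⟨V g, V h⟩ = c (g - h)` and `c (-g) = c g`. For a fixed `a` the vectors
`V (a, t)`, `t ∈ E`, are orthogonal, of norm `√2`. `bessel_two` with `x = V (k, 0)` gives
`∑_{t ∈ F} c (k, t) ^ 2 ≤ 4` for every finite set `F` (1). Suppose `c (k, t) ≠ 0`, `t ≠ 0`; then
`c (k, -t) = c (k, t) =: ε = ±1` by (1) and `c (k, 0) ∈ {0, 1, -1}` (as `c (k, 0) ^ 2 + 2 ≤ 4`).

Case A: `c (k, 0) = c0 = ±1`. By (1) `c (k, s) = 0` for `s ≠ 0, ± t`. Put `δ = c0 ε` and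
`u = V (0, 0) + δ V (0, t) + V (0, 2 t)`, `‖u‖ ^ 2 = 6`, and
`⟨U (k, 0) u, u⟩ = 3 c0 + 4 δ ε + 2 c (k, 2 t) = 3 c0 + 4 c0 = 7 c0` (`δ ε = c0`), which contradicts
`|⟨U (k, 0) u, u⟩| ≤ ‖u‖ ^ 2`.

Case B: `c (k, 0) = 0`. First, `c (k, 3 t) = c (k, 5 t) = c (k, 7 t) = 0`: let `t' = j t`, `j = 3, 5, 7`,
and `ε' = c (k, t') = c (k, -t') ≠ 0`. Then by (1) `ε' = ±1` and equality holds in (1) for
`F = {t, -t, t', -t'}`, so by `bessel_two` `V (k, 0) = (ε V (0, t) + ε V (0, -t) + ε' V (0, t') +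
ε' V (0, -t')) / 2`. Apply `U (k, 0)` and take the inner product with `V (0, 2 t')`:
`c (2 k, - 2 t') = (ε c (k, t - 2 t') + ε c (k, - t - 2 t') + ε' c (k, - t') + ε' c (k, - 3 t')) / 2`
and `c (k, s) = 0` for `s ∉ F`, so the right side is `ε' ^ 2 / 2 = 1 / 2`, not an integer (with `t' = j t`
the numbers `t - 2 t'`, `- t - 2 t'`, `- 3 t'` are not in `F`).
Now let `z_i = V (0, i t)` if `i` is even and `z_i = -ε V (k, i t)` if `i` is odd, `|i| ≤ 4`. Then
`⟨z_i, z_j⟩ = 2, -1, 0` for `i = j`, `|i - j| = 1`, `|i - j| > 1` (for odd `|i - j| ≥ 3` by the first step).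
Hence `y_n = ∑_{|i| ≤ n} z_i`, `n = 0, …, 4`, are orthogonal with `‖y_n‖ ^ 2 = 2`. Let `x = V (m, 0)`. Then
`⟨x, z_i⟩ = c (m, - i t)` for even `i`, which is `-1` for `i = 0` and `0` for `i ≠ 0` by case A applied to
`m` instead of `k` (`c (m, 0) = -1`), and `⟨x, z_i⟩ = -ε c (m - k, - i t) = -ε b_i` for odd `i`, where
`b_{-i} = b_i`. So `⟨x, y_n⟩ = -1 - 2 ε (b_1 + b_3 + …)` is an odd integer, its square is at least `1`,
`∑_{n ≤ 4} ⟨x, y_n⟩ ^ 2 ≥ 5`, which contradicts `bessel_two` (`∑ ⟨x, y_n⟩ ^ 2 ≤ 2 ‖x‖ ^ 2 = 4`). -/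
theorem line_rigid {E : AddSubgroup ℝ} {H : Type*} [NormedAddCommGroup H] [InnerProductSpace ℝ H]
    {U : ℤ × E → H ≃ₗᵢ[ℝ] H} (hU : ∀ a b x, U (a + b) x = U a (U b x)) {v : H} {c : ℤ × E → ℤ}
    (hv : ∀ g, ⟪U g v, v⟫_ℝ = c g) (h0 : ∀ t, c (0, t) = if t = 0 then 2 else 0)
    (hs : ∀ k t, c (k, -t) = c (k, t)) {m : ℤ} (hm : c (m, 0) = -1) (k : ℤ) {t : E} (ht : t ≠ 0) :
    c (k, t) = 0 := by
  by_contra hne
  set V : ℤ × E → H := fun g => U g v with hVdef
  have hT : ∀ a g, U a (V g) = V (a + g) := fun a g => (hU a g v).symm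
  have hV : ∀ g h, ⟪V g, V h⟫_ℝ = c (g - h) := by
    intro g h
    have h1 : V g = U h (U (g - h) v) := by
      rw [← hU, add_sub_cancel]
    rw [h1]
    change ⟪U h (U (g - h) v), U h v⟫_ℝ = _
    rw [LinearIsometryEquiv.inner_map_map, hv]
  have h1 := rig_sq hne
  have e0 : c (k, (0 : ℤ) • t) = c (k, 0) := by rw [zero_smul]
  have e1 : c (k, (1 : ℤ) • t) = c (k, t) := by rw [one_smul]
  have h2 := rig_four hV h0 hs k ht {0, 1, -1}
  rw [Finset.sum_insert (by decide), Finset.sum_insert (by decide), Finset.sum_singleton, rig_neg hs,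
    e0, e1] at h2
  have hk0 : c (k, 0) = 0 := by
    by_contra h
    have h3 := rig_sq h
    have h4 : c (k, 0) ^ 2 = 1 := by
      have : c (k, 0) ^ 2 ≤ 2 := by omega
      rcases (show c (k, 0) ^ 2 = 1 ∨ c (k, 0) ^ 2 = 2 by omega) with h5 | h5
      · exact h5
      · exfalso
        have h6 : c (k, 0) ≤ 1 := by nlinarith
        have h7 : -1 ≤ c (k, 0) := by nlinarith
        have h8 : c (k, 0) = -1 ∨ c (k, 0) = 0 ∨ c (k, 0) = 1 := by omega
        rcases h8 with h8 | h8 | h8 <;> rw [h8] at h5 <;> norm_num at h5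
    exact hne (rig_A hV h0 hs k ht h4)
  have hε : c (k, t) ^ 2 = 1 := by
    rw [hk0] at h2
    rcases (show c (k, t) ^ 2 = 1 ∨ c (k, t) ^ 2 = 2 by omega) with h5 | h5
    · exact h5
    · exfalso
      have h6 : c (k, t) ≤ 1 := by nlinarith
      have h7 : -1 ≤ c (k, t) := by nlinarith
      have h8 : c (k, t) = -1 ∨ c (k, t) = 0 ∨ c (k, t) = 1 := by omega
      rcases h8 with h8 | h8 | h8 <;> rw [h8] at h5 <;> norm_num at h5
  have hεr : ((c (k, t) : ℤ) : ℝ) ^ 2 = 1 := by exact_mod_cast hε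
  have hB := rig_B hT hV h0 hs k ht hne
  -- values at odd multiples
  have hodd : ∀ d : ℤ, ¬ Even d → -((c (k, t) : ℤ) : ℝ) * ((c (k, d • t) : ℤ) : ℝ) = rigK d := by
    intro d hd
    rw [Int.not_even_iff_odd, Int.odd_iff] at hd
    by_cases a : d = 1
    · rw [a, e1, rig_K1]
      linear_combination -hεr
    · by_cases b : d = -1
      · rw [b, rig_neg hs, e1, rig_Km]
        linear_combination -hεr
      · rw [hB d (by omega), rig_Kout (by omega) a b]
        norm_num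
  have heven : ∀ d : ℤ, Even d → ((c (0, d • t) : ℤ) : ℝ) = rigK d := by
    intro d hd
    rw [Int.even_iff] at hd
    rw [rig_c0 h0 ht]
    by_cases a : d = 0
    · rw [if_pos a, a, rig_K0]
      norm_num
    · rw [if_neg a, rig_Kout a (by omega) (by omega)]
      norm_num
  have hck : ∀ i : ℤ, c (0 - k, i • t) = c (k, i • t) := by
    intro i
    rw [zero_sub, ← rig_symm hV, Prod.neg_mk, neg_neg, hs]
  set z : ℤ → H := fun i => if Even i then V (0, i • t) else (-((c (k, t) : ℤ) : ℝ)) • V (k, i • t)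
    with hzdef
  have hz : ∀ i j, ⟪z i, z j⟫_ℝ = rigK (i - j) := by
    intro i j
    by_cases a : Even i <;> by_cases b : Even j
    · simp only [hzdef, if_pos a, if_pos b]
      rw [rig_G hV, sub_zero]
      exact heven _ (a.sub b)
    · simp only [hzdef, if_pos a, if_neg b]
      rw [real_inner_smul_right, rig_G hV, hck]
      refine hodd _ ?_
      rw [Int.even_sub]
      tauto
    · simp only [hzdef, if_neg a, if_pos b]
      rw [real_inner_smul_left, rig_G hV, sub_zero]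
      refine hodd _ ?_
      rw [Int.even_sub]
      tauto
    · simp only [hzdef, if_neg a, if_neg b]
      rw [real_inner_smul_left, real_inner_smul_right, rig_G hV, sub_self, ← mul_assoc]
      have h3 : -((c (k, t) : ℤ) : ℝ) * -((c (k, t) : ℤ) : ℝ) = 1 := by
        linear_combination hεr
      rw [h3, one_mul]
      refine heven _ ?_
      rw [Int.even_sub]
      tauto
  -- inner products with `V (m, 0)`
  set a : ℤ → ℤ := fun i => if Even i then c (m, i • t) else -c (k, t) * c (m - k, i • t) with hadef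
  have ha : ∀ i, ⟪V (m, 0), z i⟫_ℝ = a i := by
    intro i
    by_cases b : Even i
    · simp only [hzdef, hadef, if_pos b]
      rw [hV, Prod.mk_sub_mk, sub_zero, zero_sub, hs]
    · simp only [hzdef, hadef, if_neg b]
      rw [real_inner_smul_right, hV, Prod.mk_sub_mk, zero_sub, hs]
      push_cast
      ring
  have ha0 : a 0 = -1 := by
    simp only [hadef, if_pos (show Even (0 : ℤ) by decide)]
    rw [zero_smul, hm]
  have has : ∀ i, a (-i) = a i := by
    intro i
    simp only [hadef, even_neg, rig_neg hs]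
  have h3 := bessel_two (Finset.range 5) (fun n : ℕ => ∑ i ∈ Finset.Icc (-(n : ℤ)) n, z i)
    (fun i _ j _ => rig_gram z hz i j) (V (m, 0))
  have h4 : ∀ n : ℕ, ⟪V (m, 0), ∑ i ∈ Finset.Icc (-(n : ℤ)) n, z i⟫_ℝ =
      ((∑ i ∈ Finset.Icc (-(n : ℤ)) n, a i : ℤ) : ℝ) := by
    intro n
    rw [inner_sum, Int.cast_sum]
    exact Finset.sum_congr rfl fun i _ => ha i
  have h5 : ∀ n ∈ Finset.range 5, (1 : ℝ) ≤ ⟪V (m, 0), ∑ i ∈ Finset.Icc (-(n : ℤ)) n, z i⟫_ℝ ^ 2 := by
    intro n _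
    rw [h4]
    have h6 := rig_oddsum a ha0 has n
    have h7 : (∑ i ∈ Finset.Icc (-(n : ℤ)) n, a i) ≠ 0 := by
      intro h
      rw [h] at h6
      norm_num at h6
    exact_mod_cast rig_sq h7
  have h6 := Finset.sum_le_sum h5
  rw [Finset.sum_const, Finset.card_range, nsmul_eq_mul] at h6
  have h7 : ‖V (m, 0)‖ ^ 2 = 2 := by
    rw [← real_inner_self_eq_norm_sq, hV, sub_self, show (0 : ℤ × E) = (0, 0) by rfl, h0 0,
      if_pos rfl]
    norm_num
  have h8 := sq_nonneg ‖V (m, 0) - ∑ i ∈ Finset.range 5,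
    (⟪V (m, 0), ∑ j ∈ Finset.Icc (-(i : ℤ)) i, z j⟫_ℝ / 2) • ∑ j ∈ Finset.Icc (-(i : ℤ)) i, z j‖
  rw [h3, h7] at h8
  push_cast at h6
  linarith

end Pool.Agent.EEA520

namespace Pool.Agent.EEA520

open Filter Topology Pool.Agent.EEAG1 MeasureTheory
open scoped InnerProductSpace

section

variable {π : GSys 1} {E : AddSubgroup ℝ} {c : Wt 1 × E → ℤ}

/-- The function of the pole orders is even. -/
theorem ord_neg (hπ : Tempered π) (hc : IsOrd π E c) (x : Wt 1 × E) : c (-x) = c x := by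
  have h1 := (posDefG_ord hπ hc).1 x
  exact_mod_cast h1

theorem ord_sym (hπ : Tempered π) (hc : IsOrd π E c) (k : ℤ) (t : E) :
    c (w1 0 k, -t) = c (w1 0 k, t) := by
  have h1 := ord_neg hπ hc (w1 0 (-k), t)
  have h2 : -((w1 0 (-k), t) : Wt 1 × E) = (w1 0 k, -t) := by
    refine Prod.ext ?_ rfl
    show -(w1 0 (-k)) = w1 0 k
    unfold w1
    refine Prod.ext neg_zero ?_
    funext i
    exact neg_neg k
  rw [h2] at h1
  rw [h1]
  have h3 := ord_reflect hπ hc 0 k t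
  rw [zero_sub] at h3
  exact h3

/-- The orders if the central character is trivial. -/
theorem mean_nut (hπ : Tempered π) (hnu : ∀ p, (π p).nu = 1) (hc : IsOrd π E c) (k m : ℤ) (t : E) :
    MeanP (fun p => (((((π p).c : ℂ) ^ (k - 2 * m)) + (((π p).c : ℂ) ^ (-(k - 2 * m)))) *
      (((p : ℕ) : ℂ) ^ (-(((t : ℝ) : ℂ) * Complex.I)))).re) (c (w1 k m, t)) := by
  have h1 : MeanP (fun p => ∑ g : WG 1, zre π (act g (w1 k m)) (t : ℝ) p)
      (c (w1 k m, t)) := hc.mean hπ (w1 k m, t)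
  refine h1.congr fun s => ?_
  congr 2
  funext p
  rw [orb_sum_one k m fun w => zre π w (t : ℝ) p]
  have hnu1 : (π p).c ^ 2 * (π p).x 0 = 1 := by
    have h2 := hnu p
    unfold Torus.nu at h2
    simpa using h2
  have hxc : (π p).x 0 = (π p).c ^ (-2 : ℤ) := by
    rw [zpow_neg, eq_inv_iff_mul_eq_one, mul_comm]
    exact_mod_cast hnu1
  have h2 : ∀ i j : ℤ, zre π (w1 i j) (t : ℝ) p = ((((π p).c : ℂ) ^ (i - 2 * j)) *
      (((p : ℕ) : ℂ) ^ (-(((t : ℝ) : ℂ) * Complex.I)))).re := by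
    intro i j
    unfold zre Torus.ev w1
    have h3 : (π p).c ^ i * (π p).x 0 ^ j = (π p).c ^ (i - 2 * j) := by
      rw [hxc, ← zpow_mul, ← zpow_add]
      congr 1
      ring
    have h4 : (π p).c ^ i * ∏ l : Fin 1, (π p).x l ^ j = (π p).c ^ (i - 2 * j) := by
      rw [Fin.prod_univ_one, h3]
    simp only [h4]
    rw [Units.val_zpow_eq_zpow_val]
  rw [h2, h2, show k - 2 * (k - m) = -(k - 2 * m) by ring, add_mul, Complex.add_re]

theorem ord_nut (hπ : Tempered π) (hnu : ∀ p, (π p).nu = 1) (hc : IsOrd π E c) (k : ℤ) (t : E) :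
    c (w1 (-k) 0, t) = c (w1 k 0, t) := by
  have h1 := mean_nut hπ hnu hc k 0 t
  have h2 := mean_nut hπ hnu hc (-k) 0 t
  have h3 : MeanP (fun p => (((((π p).c : ℂ) ^ (k - 2 * 0)) + (((π p).c : ℂ) ^ (-(k - 2 * 0)))) *
      (((p : ℕ) : ℂ) ^ (-(((t : ℝ) : ℂ) * Complex.I)))).re) (c (w1 (-k) 0, t)) := by
    refine h2.congr fun s => ?_
    congr 2
    funext p
    simp only [mul_zero, sub_zero, neg_neg]
    rw [add_comm]
  exact_mod_cast MeanP.unique h3 h1

theorem ord_nut2 (hπ : Tempered π) (hnu : ∀ p, (π p).nu = 1) (hc : IsOrd π E c) (k m : ℤ) (t : E) :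
    c (w1 k m, t) = c (w1 (k - 2 * m) 0, t) := by
  have h1 := mean_nut hπ hnu hc k m t
  have h2 := mean_nut hπ hnu hc (k - 2 * m) 0 t
  rw [mul_zero, sub_zero] at h2
  exact_mod_cast MeanP.unique h1 h2

theorem ord_base (hπ : Tempered π) (hc : IsOrd π E c) (t : E) :
    c (0, t) = if t = 0 then 2 else 0 := by
  rw [ord_zero hπ hc t, card_WG]
  norm_num

/-- The powers of `x` do not correlate with `p ^ (i t)`. -/
theorem ord_line (hπ : Tempered π) (hc : IsOrd π E c) (had : c (w1 0 1, 0) = -1) (k : ℤ) {t : E}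
    (ht : t ≠ 0) : c (w1 0 k, t) = 0 := by
  obtain ⟨H, i1, i2, i3, U, v, hU, hU0, hv⟩ := exists_gnsG (posDefG_ord hπ hc)
  have h1 : ∀ a b : ℤ × E, ((w1 0 (a + b).1, (a + b).2) : Wt 1 × E) =
      (w1 0 a.1, a.2) + (w1 0 b.1, b.2) := by
    intro a b
    refine Prod.ext ?_ rfl
    show w1 0 (a.1 + b.1) = w1 0 a.1 + w1 0 b.1
    rw [w1_add, add_zero]
  exact line_rigid (E := E) (U := fun g => U (w1 0 g.1, g.2)) (v := v)
    (c := fun g => c (w1 0 g.1, g.2)) (fun a b x => by rw [h1, hU])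
    (fun g => hv _) (fun t => ord_base hπ hc t) (fun k t => ord_sym hπ hc k t) (m := 1) had k ht

/-- The powers of `c` do not correlate with `p ^ (i t)`, if the central character is trivial. -/
theorem ord_line_nu (hπ : Tempered π) (hnu : ∀ p, (π p).nu = 1) (hc : IsOrd π E c)
    (had : c (w1 0 1, 0) = -1) (k : ℤ) {t : E} (ht : t ≠ 0) : c (w1 k 0, t) = 0 := by
  obtain ⟨H, i1, i2, i3, U, v, hU, hU0, hv⟩ := exists_gnsG (posDefG_ord hπ hc)
  have h1 : ∀ a b : ℤ × E, ((w1 (a + b).1 0, (a + b).2) : Wt 1 × E) =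
      (w1 a.1 0, a.2) + (w1 b.1 0, b.2) := by
    intro a b
    refine Prod.ext ?_ rfl
    show w1 (a.1 + b.1) 0 = w1 a.1 0 + w1 b.1 0
    rw [w1_add, add_zero]
  have h2 : c (w1 (-2) 0, 0) = -1 := by
    have h3 := ord_nut2 hπ hnu hc 0 1 0
    rw [had] at h3
    rw [h3]
    norm_num
  have h3 : ∀ (k : ℤ) (t : E), c (w1 k 0, -t) = c (w1 k 0, t) := by
    intro k t
    have h4 := ord_neg hπ hc (w1 (-k) 0, t)
    have h5 : -((w1 (-k) 0, t) : Wt 1 × E) = (w1 k 0, -t) := by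
      refine Prod.ext ?_ rfl
      show -(w1 (-k) 0) = w1 k 0
      unfold w1
      refine Prod.ext (neg_neg k) ?_
      funext i
      exact neg_zero
    rw [h5, ord_nut hπ hnu hc k t] at h4
    exact h4
  exact line_rigid (E := E) (U := fun g => U (w1 g.1 0, g.2)) (v := v)
    (c := fun g => c (w1 g.1 0, g.2)) (fun a b x => by rw [h1, hU])
    (fun g => hv _) (fun t => ord_base hπ hc t) h3 (m := -2) h2 k ht

end

/-- An orbit sum without poles and zeros off the real axis has natural density mean values. -/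
theorem good_orb {n : ℕ} {π : GSys n} (hπ : Tempered π) {c : Wt n × (⊤ : AddSubgroup ℝ) → ℤ}
    (hc : IsOrd π ⊤ c) {w : Wt n} (h : ∀ t : (⊤ : AddSubgroup ℝ), t ≠ 0 → c (w, t) = 0) :
    Good (tre π (orb w) 0) := by
  have h0 : PoleOrder π (orb w) (pt 0) (c (w, 0)) := by
    have h1 := hc w 0
    rw [AddSubgroup.coe_zero] at h1
    exact h1
  refine ⟨bdP_tre hπ _ _, c (w, 0), mean_of_poleOrder hπ h0, nmean_of_poleOrder hπ h0 ?_⟩
  intro t ht
  have h1 := hc w ⟨t, AddSubgroup.mem_top t⟩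
  rw [h ⟨t, AddSubgroup.mem_top t⟩ (fun h2 => ht (congrArg Subtype.val h2))] at h1
  exact h1

theorem good_x {π : GSys 1} (hπ : Tempered π) {c : Wt 1 × (⊤ : AddSubgroup ℝ) → ℤ}
    (hc : IsOrd π ⊤ c) (had : c (w1 0 1, 0) = -1) (k : ℤ) :
    Good fun p => 2 * (((π p).x 0 : ℂ) ^ k).re := by
  have h1 := good_orb hπ hc (w := w1 0 k) fun t ht => ord_line hπ hc had k ht
  have h2 : tre π (orb (w1 0 k)) 0 = fun p => 2 * (((π p).x 0 : ℂ) ^ k).re := by
    funext p
    rw [tre_orb, orb_sum_one 0 k fun w => zre π w 0 p]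
    have hx : ‖((π p).x 0 : ℂ)‖ = 1 := (hπ p).2 0
    have h2 : ∀ j : ℤ, zre π (w1 0 j) 0 p = (((π p).x 0 : ℂ) ^ j).re := by
      intro j
      unfold zre Torus.ev w1
      simp
    rw [h2, h2, zero_sub, A5_re hx]
    ring
  rw [← h2]
  exact h1

theorem good_c {π : GSys 1} (hπ : Tempered π) (hnu : ∀ p, (π p).nu = 1)
    {c : Wt 1 × (⊤ : AddSubgroup ℝ) → ℤ}
    (hc : IsOrd π ⊤ c) (had : c (w1 0 1, 0) = -1) (k : ℤ) :
    Good fun p => 2 * (((π p).c : ℂ) ^ k).re := by
  have h1 := good_orb hπ hc (w := w1 k 0) fun t ht => ord_line_nu hπ hnu hc had k ht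
  have h2 : tre π (orb (w1 k 0)) 0 = fun p => 2 * (((π p).c : ℂ) ^ k).re := by
    funext p
    rw [tre_orb, orb_sum_one k 0 fun w => zre π w 0 p]
    have hx : ‖((π p).c : ℂ)‖ = 1 := (hπ p).1
    have hnu1 : (π p).c ^ 2 * (π p).x 0 = 1 := by
      have h2 := hnu p
      unfold Torus.nu at h2
      simpa using h2
    have hxc : (π p).x 0 = (π p).c ^ (-2 : ℤ) := by
      rw [zpow_neg, eq_inv_iff_mul_eq_one, mul_comm]
      exact_mod_cast hnu1
    have h2 : ∀ i j : ℤ, zre π (w1 i j) 0 p = (((π p).c : ℂ) ^ (i - 2 * j)).re := by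
      intro i j
      unfold zre Torus.ev w1
      have h3 : (π p).c ^ i * (π p).x 0 ^ j = (π p).c ^ (i - 2 * j) := by
        rw [hxc, ← zpow_mul, ← zpow_add]
        congr 1
        ring
      have h4 : (π p).c ^ i * ∏ l : Fin 1, (π p).x l ^ j = (π p).c ^ (i - 2 * j) := by
        rw [Fin.prod_univ_one, h3]
      simp only [h4]
      simp
    rw [h2, h2, mul_zero, sub_zero, show k - 2 * k = -k by ring, A5_re hx]
    ring
  rw [← h2]
  exact h1

/-- Laws in the sense of Dirichlet density are laws in the sense of natural density. -/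
theorem natLaw_of_traceLaw {π : GSys 1} (hπ : Tempered π)
    (h : ∀ m, IsCharacter m → ∀ t : ℝ, MeroAt π m (pt t))
    (had : PoleOrder π (symdet 2 (-1)) 1 0) {Λ : (ℝ → ℝ) → ℝ} (hΛ : TraceLaw π Λ) :
    NatLaw π Λ := by
  obtain ⟨c, hc⟩ := exists_isOrd (E := ⊤) hπ fun m hm t _ => h m hm t
  have had' := had_of hπ hc had
  have hx : ∀ p, ‖((π p).x 0 : ℂ)‖ = 1 := fun p => (hπ p).2 0
  have hcn : ∀ p, ‖((π p).c : ℂ)‖ = 1 := fun p => (hπ p).1
  refine ⟨fun f hf => ?_, fun hnu f hf => ?_⟩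
  · have h1 : MeanP (fun p => f ‖lam π p‖) (Λ fun y => f |y|) := hΛ.1 f hf
    have hF : ContinuousOn (fun t : ℝ => f (Real.sqrt (2 + t))) (Set.Icc (-2) 2) := by
      refine hf.comp (by fun_prop) fun t ht => ?_
      refine ⟨Real.sqrt_nonneg _, ?_⟩
      rw [Real.sqrt_le_left (by norm_num)]
      linarith [ht.2]
    have h2 : (fun p => f ‖lam π p‖) =
        fun p => (fun t : ℝ => f (Real.sqrt (2 + t))) (2 * ((π p).x 0 : ℂ).re) := by
      funext p
      have h6 : ‖lam π p‖ ^ 2 = 2 + 2 * ((π p).x 0 : ℂ).re := by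
        have h7 : lam π p = ((π p).c : ℂ) * (1 + (π p).x 0) := by
          unfold lam
          ring
        rw [h7, norm_mul, hcn, one_mul, ← Complex.normSq_eq_norm_sq, Complex.normSq_add]
        have h8 : Complex.normSq ((π p).x 0 : ℂ) = 1 := by
          rw [Complex.normSq_eq_norm_sq, hx, one_pow]
        rw [h8]
        simp
        ring
      dsimp only
      rw [← h6, Real.sqrt_sq (norm_nonneg _)]
    rw [h2] at h1 ⊢
    exact nmean_of_meanP hx (good_x hπ hc had') hF h1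
  · have h1 : MeanP (fun p => f (lam π p).re) (Λ f) := hΛ.2 hnu f hf
    have h2 : (fun p => f (lam π p).re) = fun p => f (2 * ((π p).c : ℂ).re) := by
      funext p
      have hnu1 : (π p).c ^ 2 * (π p).x 0 = 1 := by
        have h2 := hnu p
        unfold Torus.nu at h2
        simpa using h2
      have hxc : (π p).c * (π p).x 0 = ((π p).c)⁻¹ := by
        rw [eq_inv_iff_mul_eq_one, mul_comm, ← mul_assoc, ← pow_two]
        exact hnu1
      unfold lam
      rw [← Units.val_mul, hxc, Units.val_inv_eq_inv_val, Complex.inv_eq_conj (hcn p),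
        Complex.add_re, Complex.conj_re]
      congr 1
      ring
    rw [h2] at h1 ⊢
    exact nmean_of_meanP hcn (good_c hπ hnu hc had') hf h1

end Pool.Agent.EEA520

namespace Pool.Agent.EEA520

open Filter Topology Pool.Agent.EEAG1

variable {n : ℕ}

theorem Gen2_ne {t : Torus n} (ht : ∀ w, ‖(t.ev w : ℂ)‖ = 1) {q : ℂ} (hq : ‖q‖ < 1) (w : Wt n) :
    1 - (t.ev w : ℂ) * q ≠ 0 := by
  intro h
  have h1 : (t.ev w : ℂ) * q = 1 := (sub_eq_zero.1 h).symm
  have h2 : ‖(t.ev w : ℂ) * q‖ = 1 := by rw [h1, norm_one]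
  rw [norm_mul, ht, one_mul] at h2
  linarith

theorem Gen2_factor_add {t : Torus n} (ht : ∀ w, ‖(t.ev w : ℂ)‖ = 1) {q : ℂ} (hq : ‖q‖ < 1)
    (m m' : Wt n →₀ ℤ) : t.factor (m + m') q = t.factor m q * t.factor m' q := by
  classical
  unfold Torus.factor
  refine Finsupp.prod_add_index' (fun w => by simp) fun w a b => ?_
  rw [neg_add, zpow_add₀ (Gen2_ne ht hq w)]

theorem Gen2_norm {s : ℂ} (hs : 1 < s.re) (p : Pr) : ‖(((p : ℕ) : ℂ) ^ (-s))‖ < 1 := by
  have := hol_le (s := s) (by linarith) p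
  linarith

theorem Gen2_mem (t : ℝ) : ∀ᶠ s in 𝓝[{s : ℂ | 1 < s.re}] (pt t), 1 < s.re :=
  eventually_mem_nhdsWithin

/-- For `Re s > 1` the Euler product is `exp (LSeries (chn π m) s + hol π m s)` (`factor_hasProd`), and the
exponent is additive in `m`. -/
theorem MeroAt.add {n : ℕ} {π : GSys n} (hπ : Tempered π) {m m' : Wt n →₀ ℤ} {t : ℝ}
    (h : MeroAt π m (pt t)) (h' : MeroAt π m' (pt t)) : MeroAt π (m + m') (pt t) := by
  obtain ⟨g, hg, hL⟩ := h
  obtain ⟨g', hg', hL'⟩ := h'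
  refine ⟨g * g', hg.mul hg', ?_⟩
  filter_upwards [hL, hL', Gen2_mem t] with s h1 h2 hs
  have h3 := h1.mul h2
  refine h3.congr_fun fun p => ?_
  exact Gen2_factor_add (fun w => norm_ev hπ p w) (Gen2_norm hs p) m m'

theorem MeroAt.neg {n : ℕ} {π : GSys n} (hπ : Tempered π) {m : Wt n →₀ ℤ} {t : ℝ}
    (h : MeroAt π m (pt t)) : MeroAt π (-m) (pt t) := by
  obtain ⟨g, hg, hL⟩ := h
  refine ⟨g⁻¹, hg.inv, ?_⟩
  filter_upwards [hL, Gen2_mem t] with s h1 hs
  have h2 := factor_hasProd hπ (-m) hs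
  have h3 := h1.mul h2
  have h4 : HasProd (fun _ : Pr => (1 : ℂ)) (g s * Complex.exp (LSeries (chn π (-m)) s +
      hol π (-m) s)) := by
    refine h3.congr_fun fun p => ?_
    rw [← Gen2_factor_add (fun w => norm_ev hπ p w) (Gen2_norm hs p) m (-m), add_neg_cancel]
    unfold Torus.factor
    rw [Finsupp.prod_zero_index]
  have h5 := h4.unique hasProd_one
  have h6 : (g⁻¹) s = Complex.exp (LSeries (chn π (-m)) s + hol π (-m) s) := by
    rw [Pi.inv_apply]
    exact inv_eq_of_mul_eq_one_right h5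
  rw [h6]
  exact h2

/-- The characters for which the Euler product is meromorphic at the point. -/
def Gen2_S {π : GSys 1} (hπ : Tempered π) {t : ℝ} (h : MeroAt π (symdet 0 0) (pt t)) :
    AddSubgroup (Wt 1 →₀ ℤ) where
  carrier := {m | MeroAt π m (pt t)}
  add_mem' ha hb := MeroAt.add hπ ha hb
  zero_mem' := by
    have := MeroAt.add hπ h (MeroAt.neg hπ h)
    rwa [add_neg_cancel] at this
  neg_mem' ha := MeroAt.neg hπ ha

open Classical in
/-- The sum of the orbit. -/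
noncomputable def Gen2_O (w : Wt 1) : Wt 1 →₀ ℤ :=
  Finsupp.single w 1 + if 2 * w.2 0 = w.1 then 0 else
    Finsupp.single (w1 w.1 (w.1 - w.2 0)) 1

theorem Gen2_w1 (w : Wt 1) : w1 w.1 (w.2 0) = w := by
  refine Prod.ext rfl ?_
  funext l
  have hl : l = 0 := Subsingleton.elim _ _
  subst hl
  rfl

theorem Gen2_O_mem {π : GSys 1} (hπ : Tempered π) {t : ℝ}
    (h : ∀ (k : ℕ) (j : ℤ), MeroAt π (symdet k j) (pt t)) {w : Wt 1} (hw : 2 * w.2 0 ≤ w.1) :
    Gen2_O w ∈ Gen2_S hπ (h 0 0) := by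
  classical
  have hmem : ∀ (k : ℕ) (j : ℤ), symdet k j ∈ Gen2_S hπ (h 0 0) := h
  obtain ⟨K, M, rfl⟩ : ∃ K M, w = w1 K M := ⟨w.1, w.2 0, (Gen2_w1 w).symm⟩
  have hw' : 2 * M ≤ K := hw
  unfold Gen2_O
  show Finsupp.single (w1 K M) 1 + (if 2 * M = K then 0 else
    Finsupp.single (w1 K (K - M)) 1) ∈ _
  obtain ⟨k, hk⟩ : ∃ k : ℕ, K = k + 2 * M := ⟨(K - 2 * M).toNat, by omega⟩
  subst hk
  rcases k with _ | _ | l
  · rw [if_pos (by push_cast; ring), add_zero]
    have := hmem 0 M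
    unfold symdet at this
    rw [Finset.sum_range_one] at this
    simpa using this
  · rw [if_neg (by push_cast; omega)]
    have := hmem 1 M
    unfold symdet at this
    rw [Finset.sum_range_succ, Finset.sum_range_one] at this
    have e1 : ((0 + 1 : ℕ) : ℤ) + 2 * M - M = ((1 : ℕ) : ℤ) + M := by push_cast; ring
    rw [e1]
    simpa using this
  · rw [if_neg (by push_cast; omega)]
    have h1 := hmem (l + 2) M
    have h2 := hmem l (M + 1)
    have h3 := AddSubgroup.sub_mem _ h1 h2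
    have e : symdet (l + 2) M - symdet l (M + 1) =
        Finsupp.single (w1 (((l + 1 + 1 : ℕ) : ℤ) + 2 * M) M) 1 +
          Finsupp.single (w1 (((l + 1 + 1 : ℕ) : ℤ) + 2 * M)
            (((l + 1 + 1 : ℕ) : ℤ) + 2 * M - M)) 1 := by
      unfold symdet
      rw [Finset.sum_range_succ, Finset.sum_range_succ']
      have e2 : ∀ i ∈ Finset.range (l + 1),
          (Finsupp.single (w1 (((l + 2 : ℕ) : ℤ) + 2 * M) (((i + 1 : ℕ) : ℤ) + M)) 1 : Wt 1 →₀ ℤ) =
            Finsupp.single (w1 ((l : ℤ) + 2 * (M + 1)) ((i : ℤ) + (M + 1))) 1 := by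
        intro i _
        congr 2
        · push_cast
          ring
        · push_cast
          ring
      rw [Finset.sum_congr rfl e2]
      have e3 : (((l + 2 : ℕ) : ℤ) + M) = ((l + 1 + 1 : ℕ) : ℤ) + 2 * M - M := by
        push_cast
        ring
      rw [e3, Nat.cast_zero, zero_add]
      abel
    rw [e] at h3
    exact h3

/-- Every virtual character of `GL_2` is a linear combination of the `symdet k j`: the sum of the orbit of
`w1 K M` is `symdet k j - symdet (k - 2) (j + 1)` for `j = min M (K - M)`, `k = |K - 2 M| ≥ 2` (for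
`k = 1` it is `symdet 1 j`, and `w1 K M = symdet 0 j` for `k = 0`). -/
theorem mero_of_symdet {π : GSys 1} (hπ : Tempered π) {t : ℝ}
    (h : ∀ (k : ℕ) (j : ℤ), MeroAt π (symdet k j) (pt t)) {m : Wt 1 →₀ ℤ} (hm : IsCharacter m) :
    MeroAt π m (pt t) := by
  classical
  have hrefl : ∀ K M : ℤ, m (w1 K (K - M)) = m (w1 K M) := by
    intro K M
    have h1 := hm.2 0 K (fun _ => M)
    refine Eq.trans ?_ h1
    congr 1
    refine Prod.ext rfl ?_
    funext l
    have hl : l = 0 := Subsingleton.elim _ _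
    subst hl
    show K - M = Function.update (fun _ => M) 0 (K - M) 0
    rw [Function.update_self]
  have key : m = ∑ w ∈ m.support.filter (fun w => 2 * w.2 0 ≤ w.1), m w • Gen2_O w := by
    ext u
    rw [Finsupp.finsetSum_apply]
    have hO : ∀ w : Wt 1, (m w • Gen2_O w) u = m w * ((if w = u then 1 else 0) +
        if 2 * w.2 0 = w.1 then 0 else if w1 w.1 (w.1 - w.2 0) = u then 1 else 0) := by
      intro w
      unfold Gen2_O
      rw [Finsupp.smul_apply, smul_eq_mul, Finsupp.add_apply, Finsupp.single_apply]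
      congr 2
      split_ifs with h1 h2
      · rfl
      · rw [Finsupp.single_apply, if_pos h2]
      · rw [Finsupp.single_apply, if_neg h2]
    rw [Finset.sum_congr rfl fun w _ => hO w]
    by_cases hu : 2 * u.2 0 ≤ u.1
    · have h1 : ∀ w ∈ m.support.filter (fun w => 2 * w.2 0 ≤ w.1), m w * ((if w = u then 1 else 0) +
          if 2 * w.2 0 = w.1 then 0 else if w1 w.1 (w.1 - w.2 0) = u then 1 else 0) =
          if w = u then m w else 0 := by
        intro w hw
        rw [Finset.mem_filter] at hw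
        have h2 : (if 2 * w.2 0 = w.1 then 0 else if w1 w.1 (w.1 - w.2 0) = u then (1 : ℤ) else 0)
            = 0 := by
          split_ifs with h3 h4
          · rfl
          · exfalso
            rw [← h4] at hu
            have h5 : 2 * (w.1 - w.2 0) ≤ w.1 := hu
            omega
          · rfl
        rw [h2, add_zero]
        split_ifs <;> simp
      rw [Finset.sum_congr rfl h1, Finset.sum_ite_eq']
      split_ifs with h2
      · rfl
      · by_contra h3
        exact h2 (Finset.mem_filter.2 ⟨Finsupp.mem_support_iff.2 h3, hu⟩)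
    · have h1 : ∀ w ∈ m.support.filter (fun w => 2 * w.2 0 ≤ w.1), m w * ((if w = u then 1 else 0) +
          if 2 * w.2 0 = w.1 then 0 else if w1 w.1 (w.1 - w.2 0) = u then 1 else 0) =
          if w = w1 u.1 (u.1 - u.2 0) then m w else 0 := by
        intro w hw
        rw [Finset.mem_filter] at hw
        have h2 : w ≠ u := by
          rintro rfl
          exact hu hw.2
        rw [if_neg h2, zero_add]
        by_cases h3 : w = w1 u.1 (u.1 - u.2 0)
        · rw [if_pos h3, h3]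
          have h4 : ¬ (2 * (w1 u.1 (u.1 - u.2 0)).2 0 = (w1 u.1 (u.1 - u.2 0)).1) := by
            show ¬ (2 * (u.1 - u.2 0) = u.1)
            omega
          rw [if_neg h4, if_pos, mul_one]
          show w1 u.1 (u.1 - (u.1 - u.2 0)) = u
          rw [sub_sub_cancel]
          exact Gen2_w1 u
        · rw [if_neg h3]
          split_ifs with h4 h5
          · rw [mul_zero]
          · exfalso
            apply h3
            rw [← h5]
            show w = w1 w.1 (w.1 - (w.1 - w.2 0))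
            rw [sub_sub_cancel]
            exact (Gen2_w1 w).symm
          · rw [mul_zero]
      rw [Finset.sum_congr rfl h1, Finset.sum_ite_eq']
      have h2 : m u = m (w1 u.1 (u.1 - u.2 0)) := by
        rw [hrefl, Gen2_w1]
      split_ifs with h3
      · exact h2
      · rw [h2]
        by_contra h4
        refine h3 (Finset.mem_filter.2 ⟨Finsupp.mem_support_iff.2 h4, ?_⟩)
        show 2 * (u.1 - u.2 0) ≤ u.1
        omega
  have hfin : m ∈ Gen2_S hπ (h 0 0) := by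
    rw [key]
    refine AddSubgroup.sum_mem _ fun w hw => AddSubgroup.zsmul_mem _ ?_ _
    rw [Finset.mem_filter] at hw
    exact Gen2_O_mem hπ h hw.2
  exact hfin

end Pool.Agent.EEA520
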