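import Pool.Agent.W_eea520_G.C2

/-!
# The sequences of the list are positive definite, 1 (MP_eea520_nt, edge theorem)
-/

set_option autoImplicit false

namespace Pool.Agent.EEAG1

open Filter Topology MeasureTheory

/-- Sums of a periodic function over a period. -/
theorem A7c_shift {g : ℤ → ℝ} {r : ℕ} (hg : ∀ k, g (k + r) = g k) (i : ℤ) :
    ∑ l ∈ Finset.range r, g (l + i) = ∑ l ∈ Finset.range r, g l := by
  have hstep : ∀ i : ℤ, ∑ l ∈ Finset.range r, g (l + (i + 1)) = ∑ l ∈ Finset.range r, g (l + i) := by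
    intro i
    have h1 := Finset.sum_range_succ (fun l : ℕ => g (l + i)) r
    have h2 := Finset.sum_range_succ' (fun l : ℕ => g (l + i)) r
    have h3 : g ((r : ℤ) + i) = g (((0 : ℕ) : ℤ) + i) := by
      rw [add_comm, hg, Nat.cast_zero, zero_add]
    have h4 : ∑ l ∈ Finset.range r, g (((l + 1 : ℕ) : ℤ) + i) =
        ∑ l ∈ Finset.range r, g (l + (i + 1)) := by
      refine Finset.sum_congr rfl fun l _ => ?_
      congr 1
      push_cast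
      ring
    rw [h1, h3, h4] at h2
    linarith
  induction i using Int.induction_on with
  | zero => simp
  | succ k ih => rw [hstep, ih]
  | pred k ih =>
    rw [← ih]
    have h := hstep (-(k : ℤ) - 1)
    rw [sub_add_cancel] at h
    exact h.symm

/-- The orthogonality relation. -/
theorem A7c_cos {r : ℕ} (hr : 0 < r) (n : ℤ) :
    ∑ j ∈ Finset.range r, Real.cos (n * (2 * Real.pi * j / r)) = if (r : ℤ) ∣ n then (r : ℝ) else 0 := by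
  have hr0 : (r : ℂ) ≠ 0 := by exact_mod_cast hr.ne'
  have hr1 : (r : ℝ) ≠ 0 := by exact_mod_cast hr.ne'
  set ζ : ℂ := Complex.exp (2 * Real.pi * Complex.I * n / r) with hζ
  have h1 : ∀ j : ℕ, Real.cos (n * (2 * Real.pi * j / r)) = (ζ ^ j).re := by
    intro j
    rw [hζ, ← Complex.exp_nat_mul, ← Complex.exp_ofReal_mul_I_re]
    congr 2
    push_cast
    ring
  have h2 : ζ ^ r = 1 := by
    rw [hζ, ← Complex.exp_nat_mul, mul_div_cancel₀ _ hr0,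
      show 2 * (Real.pi : ℂ) * Complex.I * n = n * (2 * Real.pi * Complex.I) by ring,
      Complex.exp_int_mul_two_pi_mul_I]
  by_cases hd : (r : ℤ) ∣ n
  · rw [if_pos hd]
    obtain ⟨m, rfl⟩ := hd
    have h3 : ∀ j ∈ Finset.range r, Real.cos (((r * m : ℤ) : ℝ) * (2 * Real.pi * j / r)) = 1 := by
      intro j _
      have h4 : ((r * m : ℤ) : ℝ) * (2 * Real.pi * j / r) = ((m * j : ℤ) : ℝ) * (2 * Real.pi) := by
        push_cast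
        field_simp
      rw [h4, Real.cos_int_mul_two_pi]
    rw [Finset.sum_congr rfl h3, Finset.sum_const, Finset.card_range, nsmul_eq_mul, mul_one]
  · rw [if_neg hd]
    have h3 : ζ ≠ 1 := by
      intro h
      rw [hζ, Complex.exp_eq_one_iff] at h
      obtain ⟨m, hm⟩ := h
      apply hd
      refine ⟨m, ?_⟩
      have h4 : (2 * Real.pi * Complex.I) ≠ 0 := Complex.two_pi_I_ne_zero
      have h5 : (n : ℂ) = r * m := by
        rw [div_eq_iff hr0] at hm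
        have h6 : (2 * Real.pi * Complex.I) * (n : ℂ) = (2 * Real.pi * Complex.I) * (r * m) := by
          rw [hm]
          ring
        exact mul_left_cancel₀ h4 h6
      exact_mod_cast h5
    rw [Finset.sum_congr rfl fun j _ => h1 j, ← Complex.re_sum, geom_sum_eq h3, h2, sub_self,
      zero_div, Complex.zero_re]

/-- Positive semidefinite sums over an interval. -/
theorem A7c_nonneg {c : ℤ → ℝ} (hc : PosDef c) (a : ℕ → ℝ) (r : ℕ) :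
    0 ≤ ∑ i ∈ Finset.range r, ∑ j ∈ Finset.range r, a i * a j * c (i - j) := by
  have h := hc.nonneg (∑ i ∈ Finset.range r, Finsupp.single (i : ℤ) (a i))
  rw [← Finsupp.sum_finsetSum_index] at h
  · refine h.trans_eq (Finset.sum_congr rfl fun i _ => ?_)
    rw [Finsupp.sum_single_index]
    · rw [← Finsupp.sum_finsetSum_index]
      · refine Finset.sum_congr rfl fun j _ => ?_
        rw [Finsupp.sum_single_index]
        simp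
      · simp
      · intro k b₁ b₂
        ring
    · simp
  · simp
  · intro k b₁ b₂
    rw [← Finsupp.sum_add]
    refine Finsupp.sum_congr fun j _ => ?_
    ring

/-- The weights of a periodic positive definite sequence: `w_j = (∑_{l < r} c_l cos (2 π j l / r)) / (2 r)`. They
are nonnegative by `hc.nonneg` for `x_i = cos (2 π j i / r)` and `x_i = sin (2 π j i / r)`, `0 ≤ i < r`:
`∑_{i, i'} cos (2 π j (i - i') / r) c (i - i') = r ∑_l cos (2 π j l / r) c_l` by periodicity; and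
`∑_j w_j 2 cos (2 π j k / r) = (c_k + c_{-k}) / 2 = c_k` by the orthogonality relations. -/
theorem exists_weights {c : ℤ → ℝ} (hc : PosDef c) {r : ℕ} (hr : 0 < r)
    (hper : ∀ k, c (k + r) = c k) : ∃ w : Fin r → ℝ, (∀ j, 0 ≤ w j) ∧
      ∀ k : ℤ, ∑ j, w j * (2 * Real.cos (k * (2 * Real.pi * j / r))) = c k := by
  have hr1 : (r : ℝ) ≠ 0 := by exact_mod_cast hr.ne'
  have hrp : (0 : ℝ) < r := by exact_mod_cast hr
  have hcosper : ∀ (j : ℕ) (l : ℤ), Real.cos (((l + r : ℤ) : ℝ) * (2 * Real.pi * j / r)) =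
      Real.cos (l * (2 * Real.pi * j / r)) := by
    intro j l
    have h1 : ((l + r : ℤ) : ℝ) * (2 * Real.pi * j / r) =
        l * (2 * Real.pi * j / r) + j * (2 * Real.pi) := by
      push_cast
      field_simp
    rw [h1, Real.cos_add_nat_mul_two_pi]
  refine ⟨fun j => (∑ l ∈ Finset.range r, c l * Real.cos (l * (2 * Real.pi * j / r))) / (2 * r),
    fun j => ?_, fun k => ?_⟩
  · refine div_nonneg ?_ (by positivity)
    have h1 := A7c_nonneg hc (fun i => Real.cos (i * (2 * Real.pi * (j : ℕ) / r))) r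
    have h2 := A7c_nonneg hc (fun i => Real.sin (i * (2 * Real.pi * (j : ℕ) / r))) r
    have h3 : (r : ℝ) * ∑ l ∈ Finset.range r, c l * Real.cos (l * (2 * Real.pi * (j : ℕ) / r)) =
        (∑ i ∈ Finset.range r, ∑ i' ∈ Finset.range r, Real.cos (i * (2 * Real.pi * (j : ℕ) / r)) *
          Real.cos (i' * (2 * Real.pi * (j : ℕ) / r)) * c (i - i')) +
        ∑ i ∈ Finset.range r, ∑ i' ∈ Finset.range r, Real.sin (i * (2 * Real.pi * (j : ℕ) / r)) *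
          Real.sin (i' * (2 * Real.pi * (j : ℕ) / r)) * c (i - i') := by
      rw [← Finset.sum_add_distrib]
      have h4 : ∀ i ∈ Finset.range r, (∑ i' ∈ Finset.range r,
            Real.cos (i * (2 * Real.pi * (j : ℕ) / r)) *
            Real.cos (i' * (2 * Real.pi * (j : ℕ) / r)) * c (i - i')) +
          ∑ i' ∈ Finset.range r, Real.sin (i * (2 * Real.pi * (j : ℕ) / r)) *
          Real.sin (i' * (2 * Real.pi * (j : ℕ) / r)) * c (i - i') =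
          ∑ l ∈ Finset.range r, c l * Real.cos (l * (2 * Real.pi * (j : ℕ) / r)) := by
        intro i _
        rw [← Finset.sum_add_distrib]
        have h5 := A7c_shift (g := fun l : ℤ => c l * Real.cos (l * (2 * Real.pi * (j : ℕ) / r)))
          (r := r) (fun l => by rw [hper, hcosper]) (-(i : ℤ))
        have h6 : ∀ l : ℕ, ((l : ℤ) : ℝ) = (l : ℝ) := fun l => Int.cast_natCast l
        simp only [h6] at h5
        rw [← h5]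
        refine Finset.sum_congr rfl fun i' _ => ?_
        have h7 : c ((i : ℤ) - i') = c ((i' : ℤ) + -i) := by
          rw [← hc.symm]
          congr 1
          ring
        have h8 : Real.cos ((((i' : ℤ) + -(i : ℤ) : ℤ) : ℝ) * (2 * Real.pi * (j : ℕ) / r)) =
            Real.cos (i * (2 * Real.pi * (j : ℕ) / r)) * Real.cos (i' * (2 * Real.pi * (j : ℕ) / r)) +
            Real.sin (i * (2 * Real.pi * (j : ℕ) / r)) * Real.sin (i' * (2 * Real.pi * (j : ℕ) / r)) := by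
          rw [← Real.cos_sub, ← Real.cos_neg]
          congr 1
          push_cast
          ring
        rw [h7, h8]
        ring
      rw [Finset.sum_congr rfl h4, Finset.sum_const, Finset.card_range, nsmul_eq_mul]
    have h9 : 0 ≤ (r : ℝ) * ∑ l ∈ Finset.range r, c l * Real.cos (l * (2 * Real.pi * (j : ℕ) / r)) := by
      rw [h3]
      exact add_nonneg h1 h2
    exact nonneg_of_mul_nonneg_right h9 hrp
  · rw [Fin.sum_univ_eq_sum_range (fun j : ℕ => (∑ l ∈ Finset.range r, c l *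
      Real.cos (l * (2 * Real.pi * j / r))) / (2 * r) * (2 * Real.cos (k * (2 * Real.pi * j / r)))) r]
    have h1 : ∀ n : ℤ, ∑ l ∈ Finset.range r, c l * (if (r : ℤ) ∣ (l : ℤ) - n then (r : ℝ) else 0) =
        r * c n := by
      intro n
      have h2 := A7c_shift (g := fun l : ℤ => c l * (if (r : ℤ) ∣ l - n then (r : ℝ) else 0))
          (r := r) (fun l => by
            rw [hper]
            congr 1
            have h3 : (r : ℤ) ∣ l + r - n ↔ (r : ℤ) ∣ l - n := by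
              rw [add_sub_right_comm]
              exact dvd_add_self_right
            simp only [h3]) n
      rw [← h2]
      obtain ⟨r', rfl⟩ : ∃ r', r = r' + 1 := ⟨r - 1, by omega⟩
      rw [Finset.sum_range_succ', Finset.sum_eq_zero, zero_add]
      · rw [Nat.cast_zero, zero_add, sub_self, if_pos (dvd_zero _), mul_comm]
      · intro l hl
        rw [add_sub_cancel_right, if_neg, mul_zero]
        intro h3
        have h4 : r' + 1 ∣ l + 1 := by exact_mod_cast h3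
        have h5 := Nat.le_of_dvd (Nat.succ_pos l) h4
        have h6 := Finset.mem_range.1 hl
        omega
    have h2 : ∀ n : ℤ, ∑ j ∈ Finset.range r, ∑ l ∈ Finset.range r,
        c l * Real.cos (((l - n : ℤ) : ℝ) * (2 * Real.pi * j / r)) = r * c n := by
      intro n
      rw [Finset.sum_comm, ← h1]
      refine Finset.sum_congr rfl fun l _ => ?_
      rw [← Finset.mul_sum, A7c_cos hr]
    have h3 : ∀ j : ℕ, (∑ l ∈ Finset.range r, c l * Real.cos (l * (2 * Real.pi * j / r))) / (2 * r) *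
        (2 * Real.cos (k * (2 * Real.pi * j / r))) = (2 * r : ℝ)⁻¹ *
        ((∑ l ∈ Finset.range r, c l * Real.cos (((l - k : ℤ) : ℝ) * (2 * Real.pi * j / r))) +
        ∑ l ∈ Finset.range r, c l * Real.cos (((l - -k : ℤ) : ℝ) * (2 * Real.pi * j / r))) := by
      intro j
      rw [← Finset.sum_add_distrib, Finset.sum_div, Finset.sum_mul, Finset.mul_sum]
      refine Finset.sum_congr rfl fun l _ => ?_
      have h4 : (((l : ℤ) - k : ℤ) : ℝ) * (2 * Real.pi * j / r) =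
          l * (2 * Real.pi * j / r) - k * (2 * Real.pi * j / r) := by
        push_cast
        ring
      have h5 : (((l : ℤ) - -k : ℤ) : ℝ) * (2 * Real.pi * j / r) =
          l * (2 * Real.pi * j / r) + k * (2 * Real.pi * j / r) := by
        push_cast
        ring
      rw [h4, h5, Real.cos_sub, Real.cos_add]
      field_simp
      ring
    rw [Finset.sum_congr rfl fun j _ => h3 j, ← Finset.mul_sum, Finset.sum_add_distrib, h2, h2,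
      hc.symm]
    field_simp
    ring

end Pool.Agent.EEAG1

namespace Pool.Agent.EEAG1

open Filter Topology MeasureTheory

/-- The measure `∑_j w_j δ_{2 π j / r}`. -/
theorem exists_fin {r : ℕ} (w : Fin r → ℝ) (hw : ∀ j, 0 ≤ w j) : ∃ μ : Measure ℝ,
    IsFiniteMeasure μ ∧ ∀ F : ℝ → ℝ, ∫ θ, F θ ∂μ = ∑ j, w j * F (2 * Real.pi * j / r) := by
  refine ⟨∑ j : Fin r, ENNReal.ofReal (w j) • Measure.dirac (2 * Real.pi * j / r), ⟨?_⟩, ?_⟩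
  · rw [Measure.finsetSum_apply]
    refine ENNReal.sum_lt_top.2 fun j _ => ?_
    rw [Measure.smul_apply, measure_univ, smul_eq_mul, mul_one]
    exact ENNReal.ofReal_lt_top
  · intro F
    have hint : ∀ j ∈ (Finset.univ : Finset (Fin r)),
        Integrable F (ENNReal.ofReal (w j) • Measure.dirac (2 * Real.pi * (j : ℝ) / r)) := by
      intro j _
      refine Integrable.smul_measure ?_ ENNReal.ofReal_ne_top
      exact integrable_dirac (by simp)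
    rw [integral_finsetSum_measure hint]
    refine Finset.sum_congr rfl fun j _ => ?_
    rw [integral_smul_measure, integral_dirac, ENNReal.toReal_ofReal (hw j), smul_eq_mul]

end Pool.Agent.EEAG1

namespace Pool.Agent.EEA520

open Filter Topology Pool.Agent.EEAG1 MeasureTheory

/-- The Gram sequence of a list of vectors with nonnegative weights. -/
theorem posDef_of_list {c : ℤ → ℝ} (L : List (ℝ × (ℤ → ℝ))) (hL : ∀ t ∈ L, 0 ≤ t.1)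
    (h : ∀ i j : ℤ, c (i - j) = (L.map fun t => t.1 * (t.2 i * t.2 j)).sum) : PosDef c := by
  refine ⟨fun k => ?_, fun x => ?_⟩
  · have h1 := h 0 k
    have h2 := h k 0
    rw [zero_sub] at h1
    rw [sub_zero] at h2
    rw [h1, h2]
    congr 1
    refine List.map_congr_left fun t _ => ?_
    ring
  · have h1 : (x.sum fun i a => x.sum fun j b => a * b * c (i - j)) =
        x.sum fun i a => x.sum fun j b => (L.map fun t => a * b * (t.1 * (t.2 i * t.2 j))).sum := by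
      refine Finsupp.sum_congr fun i _ => Finsupp.sum_congr fun j _ => ?_
      rw [h, List.sum_map_mul_left]
    rw [h1]
    clear h h1
    induction L with
    | nil => simp
    | cons t L ih =>
      have h2 := ih fun s hs => hL s (List.mem_cons_of_mem _ hs)
      have h3 : (x.sum fun i a => x.sum fun j b =>
          ((t :: L).map fun t => a * b * (t.1 * (t.2 i * t.2 j))).sum) =
          (x.sum fun i a => x.sum fun j b => a * b * (t.1 * (t.2 i * t.2 j))) +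
          x.sum fun i a => x.sum fun j b => (L.map fun t => a * b * (t.1 * (t.2 i * t.2 j))).sum := by
        simp only [List.map_cons, List.sum_cons, Finsupp.sum_add]
      rw [h3]
      refine add_nonneg ?_ h2
      have h4 : (x.sum fun i a => x.sum fun j b => a * b * (t.1 * (t.2 i * t.2 j))) =
          t.1 * ((x.sum fun i a => a * t.2 i) * (x.sum fun i a => a * t.2 i)) := by
        rw [Finsupp.sum_mul, Finsupp.mul_sum]
        refine Finsupp.sum_congr fun i _ => ?_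
        rw [Finsupp.mul_sum, Finsupp.mul_sum]
        refine Finsupp.sum_congr fun j _ => ?_
        ring
      rw [h4]
      exact mul_nonneg (hL t List.mem_cons_self) (mul_self_nonneg _)

/-- The vectors of `comb`. -/
def cvec (N : ℕ) (η : ℤ) (l : ℕ) (k : ℤ) : ℝ := if k % N = l then (η : ℝ) ^ (k / N).natAbs else 0

theorem pow_natAbs_sub {η : ℤ} (hη : η = 1 ∨ η = -1) (a b : ℤ) :
    (η : ℝ) ^ a.natAbs * (η : ℝ) ^ b.natAbs = (η : ℝ) ^ (a - b).natAbs := by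
  rcases hη with rfl | rfl
  · simp
  · push_cast
    have h1 : ∀ a : ℤ, ((-1 : ℝ)) ^ a.natAbs = if Even a then 1 else -1 := by
      intro a
      by_cases h : Even a
      · rw [if_pos h, (Int.natAbs_even.2 h).neg_one_pow]
      · rw [if_neg h, (Nat.not_even_iff_odd.1 (mt Int.natAbs_even.1 h)).neg_one_pow]
    rw [h1, h1, h1]
    by_cases ha : Even a <;> by_cases hb : Even b <;> simp [ha, hb, Int.even_sub]

theorem comb_gram {N : ℕ} (hN : 0 < N) {η : ℤ} (hη : η = 1 ∨ η = -1) (i j : ℤ) :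
    ((comb N η (i - j) : ℤ) : ℝ) =
      ∑ l ∈ Finset.range N, cvec N η l i * cvec N η l j := by
  have hN0 : (N : ℤ) ≠ 0 := by exact_mod_cast hN.ne'
  have hNp : (0 : ℤ) < N := by exact_mod_cast hN
  have hmem : (i % N).toNat ∈ Finset.range N := by
    rw [Finset.mem_range]
    have h1 := Int.emod_lt_of_pos i hNp
    have h2 := Int.emod_nonneg i hN0
    omega
  have hi : ((i % N).toNat : ℤ) = i % N := Int.toNat_of_nonneg (Int.emod_nonneg i hN0)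
  rw [Finset.sum_eq_single (i % N).toNat]
  · unfold cvec comb
    rw [if_pos hi.symm, hi]
    by_cases h : (N : ℤ) ∣ i - j
    · rw [if_pos h]
      have h1 : j % N = i % N := by
        rw [Int.emod_emod_of_dvd _ dvd_rfl |>.symm]
        have := Int.emod_emod_of_dvd i (dvd_refl (N : ℤ))
        exact (Int.emod_emod_of_dvd j (dvd_refl (N : ℤ))).trans
          ((Int.emod_eq_emod_iff_emod_sub_eq_zero.2
            (by rw [Int.emod_eq_zero_of_dvd h])).symm)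
      rw [if_pos h1]
      have h2 : (i - j) / N = i / N - j / N := by
        obtain ⟨q, hq⟩ := h
        have h3 : i = j + N * q := by linarith
        rw [hq, Int.mul_ediv_cancel_left _ hN0, h3, Int.add_mul_ediv_left _ _ hN0]
        ring
      rw [h2, pow_natAbs_sub hη]
      push_cast
      rfl
    · rw [if_neg h, if_neg, mul_zero, Int.cast_zero]
      intro h1
      exact h (Int.ModEq.dvd h1)
  · intro l _ hl
    unfold cvec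
    rw [if_neg, zero_mul]
    intro h
    apply hl
    omega
  · intro h
    exact absurd hmem h

theorem posDef_famA {N : ℕ} (hN : 0 < N) {η : ℤ} (hη : η = 1 ∨ η = -1) :
    PosDef fun k => (famA N η k : ℝ) := by
  refine posDef_of_list ((List.range N).map fun l =>
    ((1 : ℝ), fun k : ℤ => cvec N η l k - cvec N η l (k + 1))) ?_ fun i j => ?_
  · intro t ht
    rw [List.mem_map] at ht
    obtain ⟨l, -, rfl⟩ := ht
    norm_num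
  · rw [List.map_map]
    have h0 : ∀ f : ℕ → ℝ, ((List.range N).map f).sum = ∑ l ∈ Finset.range N, f l := by
      intro f
      rw [Finset.sum_range, ← List.sum_ofFn]
      congr 1
      apply List.ext_getElem <;> simp
    rw [h0]
    unfold famA
    push_cast
    have e1 : i - j - 1 = i - (j + 1) := by ring
    have e2 : i - j + 1 = (i + 1) - j := by ring
    have e3 : comb N η (i - j) = comb N η ((i + 1) - (j + 1)) := by
      congr 1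
      ring
    have h1 := comb_gram hN hη i j
    have h2 := comb_gram hN hη i (j + 1)
    have h3 := comb_gram hN hη (i + 1) j
    have h4 := comb_gram hN hη (i + 1) (j + 1)
    rw [← e1] at h2
    rw [← e2] at h3
    rw [← e3] at h4
    rw [two_mul]
    nth_rewrite 1 [h1]
    rw [h4, h2, h3, ← Finset.sum_add_distrib, ← Finset.sum_sub_distrib, ← Finset.sum_sub_distrib]
    refine Finset.sum_congr rfl fun l _ => ?_
    simp only [Function.comp]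
    ring

theorem posDef_famD {N : ℕ} (hN : 0 < N) {η : ℤ} (hη : η = 1 ∨ η = -1) :
    PosDef fun k => (famD N η k : ℝ) := by
  refine posDef_of_list (((1 : ℝ), fun k : ℤ => ((-1 : ℝ)) ^ k.natAbs) :: (List.range N).map fun l =>
    ((1 : ℝ), fun k : ℤ => cvec N η l k)) ?_ fun i j => ?_
  · intro t ht
    rw [List.mem_cons, List.mem_map] at ht
    rcases ht with rfl | ⟨l, -, rfl⟩ <;> norm_num
  · rw [List.map_cons, List.sum_cons, List.map_map]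
    have h0 : ∀ f : ℕ → ℝ, ((List.range N).map f).sum = ∑ l ∈ Finset.range N, f l := by
      intro f
      rw [Finset.sum_range, ← List.sum_ofFn]
      congr 1
      apply List.ext_getElem <;> simp
    rw [h0]
    unfold famD
    push_cast
    have h1 := comb_gram hN hη i j
    have h2 := pow_natAbs_sub (Or.inr rfl : (-1 : ℤ) = 1 ∨ (-1 : ℤ) = -1) i j
    push_cast at h2
    rw [h1, one_mul, h2]
    congr 1
    refine Finset.sum_congr rfl fun l _ => ?_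
    simp only [Function.comp]
    ring

/-- The probability measure of a periodic positive definite sequence with `c 0 = 2`. -/
theorem exists_prob_per {c : ℤ → ℤ} (hc : PosDef fun k => (c k : ℝ)) {r : ℕ} (hr : 0 < r)
    (hper : ∀ k, c (k + r) = c k) (h0 : c 0 = 2) :
    ∃ μ : Measure ℝ, IsProbabilityMeasure μ ∧ ∀ k : ℤ, ∫ x, 2 * Real.cos (k * x) ∂μ = c k := by
  obtain ⟨w, hw0, hw⟩ := exists_weights hc hr (fun k => by exact_mod_cast hper k)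
  obtain ⟨μ, hμ, hint⟩ := exists_fin w hw0
  have h1 : ∀ k : ℤ, ∫ x, 2 * Real.cos (k * x) ∂μ = c k := fun k => by
    rw [hint fun x => 2 * Real.cos (k * x)]
    exact hw k
  refine ⟨μ, ⟨?_⟩, h1⟩
  have h2 := h1 0
  simp only [Int.cast_zero, zero_mul, Real.cos_zero, mul_one, integral_const, smul_eq_mul, h0]
    at h2
  have h3 : μ.real Set.univ = 1 := by
    push_cast at h2
    linarith
  have h4 : (μ Set.univ).toReal = 1 := h3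
  rw [← ENNReal.toReal_eq_one_iff]
  exact h4

/-- The image of a measure under the multiplication by `2`. -/
theorem exists_prob_map {μ : Measure ℝ} [IsFiniteMeasure μ] {c : ℤ → ℤ} (h0 : c 0 = 2)
    (h : ∀ k : ℤ, ∫ x, 2 * Real.cos ((2 * k : ℤ) * x) ∂μ = c k) :
    ∃ ν : Measure ℝ, IsProbabilityMeasure ν ∧ ∀ k : ℤ, ∫ x, 2 * Real.cos (k * x) ∂ν = c k := by
  have hm : Measurable fun x : ℝ => 2 * x := by fun_prop
  have h1 : ∀ k : ℤ, ∫ x, 2 * Real.cos (k * x) ∂(μ.map fun x => 2 * x) = c k := by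
    intro k
    rw [integral_map hm.aemeasurable
      (Continuous.aestronglyMeasurable (by fun_prop)), ← h k]
    refine integral_congr_ae (Eventually.of_forall fun x => ?_)
    dsimp only
    push_cast
    congr 2
    ring
  refine ⟨μ.map fun x => 2 * x, ⟨?_⟩, h1⟩
  have h2 := h1 0
  simp only [Int.cast_zero, zero_mul, Real.cos_zero, mul_one, integral_const, smul_eq_mul, h0]
    at h2
  have h3 : (μ.map fun x => 2 * x).real Set.univ = 1 := by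
    push_cast at h2
    linarith
  have h4 : ((μ.map fun x => 2 * x) Set.univ).toReal = 1 := h3
  rw [← ENNReal.toReal_eq_one_iff]
  exact h4

theorem exists_prob_st : ∃ ν : Measure ℝ, IsProbabilityMeasure ν ∧
    ∀ k : ℤ, ∫ x, 2 * Real.cos (k * x) ∂ν = stSeq k := by
  obtain ⟨μ, hμ, -, h⟩ := exists_st
  refine exists_prob_map (by rfl) (c := stSeq) (μ := μ) fun k => ?_
  rw [h (2 * k)]
  unfold stSeq
  by_cases h0 : k = 0
  · simp [h0]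
  · by_cases h1 : k = 1 ∨ k = -1
    · rw [if_neg (by omega), if_pos (by omega), if_neg h0, if_pos h1]
      norm_num
    · rw [if_neg (by omega), if_neg (by omega), if_neg h0, if_neg h1]
      norm_num

theorem exists_prob_cm : ∃ ν : Measure ℝ, IsProbabilityMeasure ν ∧
    ∀ k : ℤ, ∫ x, 2 * Real.cos (k * x) ∂ν = cmSeq k := by
  obtain ⟨μ, hμ, -, h, -⟩ := exists_cm
  refine exists_prob_map (by rfl) (c := cmSeq) (μ := μ) fun k => ?_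
  rw [h k]
  unfold cmSeq
  by_cases h0 : k = 0
  · simp [h0]
    norm_num
  · rw [if_neg h0, if_neg h0]
    push_cast
    ring

end Pool.Agent.EEA520

namespace Pool.Agent.EEA520

open Filter Topology Pool.Agent.EEAG1 MeasureTheory

/-- The value of a Gram sequence. -/
def gramV (C : List (ℕ × List ℤ)) (i j : ℕ) : ℤ :=
  (C.map fun t => (t.1 : ℤ) * (t.2.getD i 0 * t.2.getD j 0)).sum

/-- The check of a certificate. -/
def gramCheck (l : List ℤ) (C : ℕ × List (ℕ × List ℤ)) : Bool :=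
  decide (0 < C.1) && (List.range l.length).all fun i => (List.range l.length).all fun j =>
    decide ((C.1 : ℤ) * per l ((i : ℤ) - j) = gramV C.2 i j)

theorem posDef_of_check {l : List ℤ} {C : ℕ × List (ℕ × List ℤ)} (hl : l ≠ [])
    (h : gramCheck l C = true) : PosDef fun k => (per l k : ℝ) := by
  unfold gramCheck at h
  rw [Bool.and_eq_true, decide_eq_true_eq, List.all_eq_true] at h
  obtain ⟨hM, h⟩ := h
  have hlen : 0 < l.length := List.length_pos_iff.2 hl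
  have hN0 : (l.length : ℤ) ≠ 0 := by exact_mod_cast hlen.ne'
  have hNp : (0 : ℤ) < l.length := by exact_mod_cast hlen
  have hM' : (0 : ℝ) < C.1 := by exact_mod_cast hM
  refine posDef_of_list (C.2.map fun t => (((t.1 : ℝ) / C.1),
    fun k : ℤ => ((t.2.getD (k % l.length).toNat 0 : ℤ) : ℝ))) ?_ fun i j => ?_
  · intro t ht
    rw [List.mem_map] at ht
    obtain ⟨s, -, rfl⟩ := ht
    positivity
  · have h1 : ∀ k : ℤ, (k % l.length).toNat < l.length ∧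
        (((k % l.length).toNat : ℤ)) = k % l.length := by
      intro k
      have h1 := Int.emod_lt_of_pos k hNp
      have h2 := Int.emod_nonneg k hN0
      omega
    have h2 := h _ (List.mem_range.2 (h1 i).1)
    rw [List.all_eq_true] at h2
    have h3 := h2 _ (List.mem_range.2 (h1 j).1)
    rw [decide_eq_true_eq, (h1 i).2, (h1 j).2] at h3
    have h4 : per l (i % l.length - j % l.length) = per l (i - j) := by
      unfold per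
      rw [← Int.sub_emod]
    rw [h4] at h3
    rw [List.map_map]
    have h5 : (per l (i - j) : ℝ) = (gramV C.2 (i % l.length).toNat (j % l.length).toNat : ℝ) / C.1 := by
      rw [← h3]
      push_cast
      field_simp
    rw [h5]
    unfold gramV
    clear h h2 h3 h4 h5
    generalize C.2 = L
    induction L with
    | nil => simp
    | cons t L ih =>
      simp only [List.map_cons, List.sum_cons] at ih ⊢
      push_cast at ih ⊢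
      rw [add_div, ih]
      congr 1
      simp only [Function.comp]
      push_cast
      ring

/-- The certificates. -/
def excCert : List (ℕ × List (ℕ × List ℤ)) := [
   (6, [(3, [2,-1,0,1,0,-1]),
     (1, [0,3,-2,1,2,-1]),
     (2, [0,0,2,-1,1,1]),
     (6, [0,0,0,1,-1,1])]),
   (12, [(6, [2,-1,1,0,0,1,-1]),
     (2, [0,3,-1,2,0,1,1]),
     (1, [0,0,4,-2,3,-1,2]),
     (3, [0,0,0,2,-1,1,0]),
     (3, [0,0,0,0,2,-1,1]),
     (1, [0,0,0,0,0,3,-1]),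
     (8, [0,0,0,0,0,0,1])]),
   (12, [(6, [2,-1,0,1,-1,1,0,-1]),
     (2, [0,3,-2,1,1,-1,2,-1]),
     (1, [0,0,4,-2,1,2,-1,2]),
     (3, [0,0,0,2,-1,0,1,0]),
     (3, [0,0,0,0,2,-1,0,1]),
     (1, [0,0,0,0,0,3,-2,1]),
     (2, [0,0,0,0,0,0,2,-1]),
     (6, [0,0,0,0,0,0,0,1])]),
   (12, [(6, [2,-1,1,0,0,0,1,-1]),
     (2, [0,3,-1,2,0,0,1,1]),
     (1, [0,0,4,-2,3,0,-1,2]),
     (3, [0,0,0,2,-1,2,-1,0]),
     (3, [0,0,0,0,2,-1,2,-1]),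
     (9, [0,0,0,0,0,1,0,1])]),
   (60, [(30, [2,-1,1,-1,0,0,-1,1,-1]),
     (10, [0,3,-1,1,-2,0,-1,-1,1]),
     (5, [0,0,4,-1,2,-3,1,-2,-1]),
     (3, [0,0,0,5,-2,3,-5,2,-3]),
     (3, [0,0,0,0,4,-1,0,-4,1]),
     (45, [0,0,0,0,0,1,0,0,-1])]),
   (12, [(6, [2,-1,1,0,0,1,0,0,1,-1]),
     (2, [0,3,-1,2,0,1,2,0,1,1]),
     (1, [0,0,4,-2,3,-1,1,3,-1,2]),
     (3, [0,0,0,2,-1,1,-1,1,1,0]),
     (3, [0,0,0,0,2,-1,1,-1,1,1]),
     (9, [0,0,0,0,0,1,-1,1,-1,1])]),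
   (60, [(30, [2,-1,0,0,1,-1,1,-1,1,0,0,-1]),
     (10, [0,3,-2,0,1,1,-1,1,-1,2,0,-1]),
     (5, [0,0,4,-3,1,1,2,-2,2,-1,3,-1]),
     (3, [0,0,0,5,-3,1,2,2,-2,3,-1,3]),
     (3, [0,0,0,0,4,-3,-1,4,1,-4,3,1]),
     (45, [0,0,0,0,0,1,-1,0,1,0,-1,1])]),
   (12, [(6, [2,-1,0,1,-1,0,0,0,-1,1,0,-1]),
     (2, [0,3,-2,1,1,-2,0,0,-1,-1,2,-1]),
     (1, [0,0,4,-2,1,1,-3,0,-1,-1,-1,2]),
     (3, [0,0,0,2,-1,1,1,-2,1,-1,-1,0]),
     (3, [0,0,0,0,2,-1,1,1,-2,1,-1,-1]),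
     (9, [0,0,0,0,0,1,-1,1,0,-1,1,-1])]),
   (60, [(30, [2,-1,1,-1,0,0,0,0,0,-1,1,-1]),
     (10, [0,3,-1,1,-2,0,0,0,0,-1,-1,1]),
     (5, [0,0,4,-1,2,-3,0,0,0,1,-2,-1]),
     (3, [0,0,0,5,-2,3,-4,0,0,-1,2,-3]),
     (3, [0,0,0,0,4,-1,3,-5,0,-3,1,1]),
     (5, [0,0,0,0,0,3,-1,3,-4,1,-3,1]),
     (40, [0,0,0,0,0,0,1,0,1,-1,0,-1])]),
   (6, [(3, [2,-1,1,0,-1,1,-2,1,-1,0,1,-1]),
     (1, [0,3,-1,2,-1,-1,0,-3,1,-2,1,1]),
     (2, [0,0,2,-1,2,-1,0,0,-2,1,-2,1]),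
     (6, [0,0,0,1,0,1,0,0,0,-1,0,-1])]),
   (12, [(6, [2,-1,1,0,0,0,0,0,0,0,1,-1]),
     (2, [0,3,-1,2,0,0,0,0,0,0,1,1]),
     (1, [0,0,4,-2,3,0,0,0,0,0,-1,2]),
     (3, [0,0,0,2,-1,2,0,0,0,0,-1,0]),
     (3, [0,0,0,0,2,-1,2,0,0,0,0,-1]),
     (1, [0,0,0,0,0,3,-2,4,0,0,2,-1]),
     (2, [0,0,0,0,0,0,2,-1,3,0,1,1]),
     (6, [0,0,0,0,0,0,0,1,-1,2,-1,1])]),
   (12, [(6, [2,-1,1,0,0,1,-1,1,0,0,1,-1]),
     (2, [0,3,-1,2,0,1,1,-1,2,0,1,1]),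
     (1, [0,0,4,-2,3,-1,2,1,-2,3,-1,2]),
     (3, [0,0,0,2,-1,1,0,1,0,-1,1,0]),
     (3, [0,0,0,0,2,-1,1,0,1,0,-1,1]),
     (1, [0,0,0,0,0,3,-1,2,-1,2,-1,-1]),
     (2, [0,0,0,0,0,0,2,-1,2,-1,2,-1]),
     (6, [0,0,0,0,0,0,0,1,0,1,0,1])]),
   (60, [(30, [2,-1,0,0,1,-1,0,1,0,-1,1,0,0,-1]),
     (10, [0,3,-2,0,1,1,-2,1,2,-1,-1,2,0,-1]),
     (5, [0,0,4,-3,1,1,1,-2,2,2,-1,-1,3,-1]),
     (3, [0,0,0,5,-3,1,1,2,-2,2,3,-1,-1,3]),
     (3, [0,0,0,0,4,-3,2,-1,1,-1,1,3,-2,1]),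
     (5, [0,0,0,0,0,3,-2,1,-1,1,-1,1,2,-1]),
     (10, [0,0,0,0,0,0,2,-1,1,-1,1,-1,1,1]),
     (30, [0,0,0,0,0,0,0,1,-1,1,-1,1,-1,1])]),
   (12, [(6, [2,-1,0,1,-1,0,1,-2,1,0,-1,1,0,-1]),
     (2, [0,3,-2,1,1,-2,1,0,-3,2,-1,-1,2,-1]),
     (1, [0,0,4,-2,1,1,-2,0,0,-4,2,-1,-1,2]),
     (3, [0,0,0,2,-1,1,0,0,0,0,-2,1,-1,0]),
     (3, [0,0,0,0,2,-1,1,0,0,0,0,-2,1,-1]),
     (1, [0,0,0,0,0,3,-1,0,0,0,0,0,-3,1]),
     (8, [0,0,0,0,0,0,1,0,0,0,0,0,0,-1])]),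
   (60, [(30, [2,-1,1,-1,0,0,0,1,0,0,0,-1,1,-1]),
     (10, [0,3,-1,1,-2,0,0,1,2,0,0,-1,-1,1]),
     (5, [0,0,4,-1,2,-3,0,-1,1,3,0,1,-2,-1]),
     (3, [0,0,0,5,-2,3,-4,1,-1,1,4,-1,2,-3]),
     (3, [0,0,0,0,4,-1,3,-2,2,-2,2,2,1,1]),
     (5, [0,0,0,0,0,3,-1,2,-2,2,-2,2,1,1]),
     (10, [0,0,0,0,0,0,2,-1,1,-1,1,-1,1,1]),
     (30, [0,0,0,0,0,0,0,1,-1,1,-1,1,-1,1])]),
   (12, [(6, [2,-1,0,1,-1,1,0,0,0,0,1,-1,1,0,-1]),
     (2, [0,3,-2,1,1,-1,2,0,0,0,1,1,-1,2,-1]),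
     (1, [0,0,4,-2,1,2,-1,3,0,0,1,1,2,-1,2]),
     (3, [0,0,0,2,-1,0,1,-1,2,0,-1,1,0,1,0]),
     (3, [0,0,0,0,2,-1,0,1,-1,2,0,-1,1,0,1]),
     (1, [0,0,0,0,0,3,-2,-1,3,-2,2,1,-3,2,1]),
     (8, [0,0,0,0,0,0,1,-1,0,1,-1,1,0,-1,1])]),
   (420, [(210, [2,-1,1,-1,1,-1,0,0,0,0,-1,1,-1,1,-1]),
     (70, [0,3,-1,1,-1,1,-2,0,0,0,-1,-1,1,-1,1]),
     (35, [0,0,4,-1,1,-1,2,-3,0,0,1,-2,-1,1,-1]),
     (21, [0,0,0,5,-1,1,-2,3,-4,0,-1,2,-3,-1,1]),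
     (14, [0,0,0,0,6,-1,2,-3,4,-5,1,-2,3,-4,-1]),
     (10, [0,0,0,0,0,7,-2,3,-4,5,-7,2,-3,4,-5]),
     (15, [0,0,0,0,0,0,4,1,1,-3,0,-4,-1,-1,3]),
     (105, [0,0,0,0,0,0,0,1,1,1,0,0,-1,-1,-1])]),
   (60, [(30, [2,-1,0,0,1,-1,0,0,1,-2,1,0,0,-1,1,0,0,-1]),
     (10, [0,3,-2,0,1,1,-2,0,1,0,-3,2,0,-1,-1,2,0,-1]),
     (5, [0,0,4,-3,1,1,1,-3,1,0,0,-4,3,-1,-1,-1,3,-1]),
     (3, [0,0,0,5,-3,1,1,1,-3,0,0,0,-5,3,-1,-1,-1,3]),
     (3, [0,0,0,0,4,-3,2,2,-1,0,0,0,0,-4,3,-2,-2,1]),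
     (5, [0,0,0,0,0,3,-2,2,1,0,0,0,0,0,-3,2,-2,-1]),
     (40, [0,0,0,0,0,0,1,-1,1,0,0,0,0,0,0,-1,1,-1])]),
   (12, [(6, [2,-1,0,1,-1,1,-1,0,1,-2,1,0,-1,1,-1,1,0,-1]),
     (2, [0,3,-2,1,1,-1,1,-2,1,0,-3,2,-1,-1,1,-1,2,-1]),
     (1, [0,0,4,-2,1,2,-2,1,-2,0,0,-4,2,-1,-2,2,-1,2]),
     (3, [0,0,0,2,-1,0,2,-1,0,0,0,0,-2,1,0,-2,1,0]),
     (3, [0,0,0,0,2,-1,0,2,-1,0,0,0,0,-2,1,0,-2,1]),
     (9, [0,0,0,0,0,1,0,0,1,0,0,0,0,0,-1,0,0,-1])]),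
   (60, [(30, [2,-1,1,-1,1,0,0,0,0,1,0,0,0,0,1,-1,1,-1]),
     (10, [0,3,-1,1,-1,2,0,0,0,1,2,0,0,0,1,1,-1,1]),
     (5, [0,0,4,-1,1,-2,3,0,0,-1,1,3,0,0,-1,2,1,-1]),
     (3, [0,0,0,5,-1,2,-3,4,0,1,-1,1,4,0,1,-2,3,1]),
     (2, [0,0,0,0,6,-2,3,-4,5,-1,1,-1,1,5,-1,2,-3,4]),
     (10, [0,0,0,0,0,2,0,1,-2,1,-1,1,-1,1,1,1,0,-1]),
     (30, [0,0,0,0,0,0,1,0,1,-1,1,-1,1,-1,1,0,1,0]),
     (30, [0,0,0,0,0,0,0,1,0,1,-1,1,-1,1,-1,1,0,1])]),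
   (12, [(6, [2,-1,1,0,0,0,0,-1,1,-2,1,-1,0,0,0,0,1,-1]),
     (2, [0,3,-1,2,0,0,0,-1,-1,0,-3,1,-2,0,0,0,1,1]),
     (1, [0,0,4,-2,3,0,0,1,-2,0,0,-4,2,-3,0,0,-1,2]),
     (3, [0,0,0,2,-1,2,0,1,0,0,0,0,-2,1,-2,0,-1,0]),
     (3, [0,0,0,0,2,-1,2,0,1,0,0,0,0,-2,1,-2,0,-1]),
     (1, [0,0,0,0,0,3,-2,2,1,0,0,0,0,0,-3,2,-2,-1]),
     (8, [0,0,0,0,0,0,1,-1,1,0,0,0,0,0,0,-1,1,-1])]),
   (60, [(30, [2,-1,0,0,0,1,-1,0,1,-1,1,-1,1,0,-1,1,0,0,0,-1]),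
     (10, [0,3,-2,0,0,1,1,-2,1,1,-1,1,-1,2,-1,-1,2,0,0,-1]),
     (5, [0,0,4,-3,0,1,1,1,-2,1,2,-2,2,-1,2,-1,-1,3,0,-1]),
     (3, [0,0,0,5,-4,1,1,1,2,-3,2,2,-2,3,-2,3,-1,-1,4,-1]),
     (2, [0,0,0,0,6,-4,1,1,2,2,-3,2,3,-2,3,-2,4,-1,-1,4]),
     (10, [0,0,0,0,0,2,-2,1,-1,2,0,-1,0,1,0,1,-2,2,-1,1]),
     (30, [0,0,0,0,0,0,1,-1,0,0,1,0,-1,0,1,0,0,-1,1,0]),
     (30, [0,0,0,0,0,0,0,1,-1,0,0,1,0,-1,0,1,0,0,-1,1])]),
   (12, [(6, [2,-1,0,1,-1,0,1,-1,0,1,-2,1,0,-1,1,0,-1,1,0,-1]),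
     (2, [0,3,-2,1,1,-2,1,1,-2,1,0,-3,2,-1,-1,2,-1,-1,2,-1]),
     (1, [0,0,4,-2,1,1,-2,1,1,-2,0,0,-4,2,-1,-1,2,-1,-1,2]),
     (3, [0,0,0,2,-1,1,0,-1,1,0,0,0,0,-2,1,-1,0,1,-1,0]),
     (3, [0,0,0,0,2,-1,1,0,-1,1,0,0,0,0,-2,1,-1,0,1,-1]),
     (1, [0,0,0,0,0,3,-1,2,-1,-1,0,0,0,0,0,-3,1,-2,1,1]),
     (2, [0,0,0,0,0,0,2,-1,2,-1,0,0,0,0,0,0,-2,1,-2,1]),
     (6, [0,0,0,0,0,0,0,1,0,1,0,0,0,0,0,0,0,-1,0,-1])]),
   (60, [(30, [2,-1,1,-1,0,0,0,1,-1,1,-2,1,-1,1,0,0,0,-1,1,-1]),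
     (10, [0,3,-1,1,-2,0,0,1,1,-1,0,-3,1,-1,2,0,0,-1,-1,1]),
     (5, [0,0,4,-1,2,-3,0,-1,2,1,0,0,-4,1,-2,3,0,1,-2,-1]),
     (3, [0,0,0,5,-2,3,-4,1,-2,3,0,0,0,-5,2,-3,4,-1,2,-3]),
     (3, [0,0,0,0,4,-1,3,-2,-1,-1,0,0,0,0,-4,1,-3,2,1,1]),
     (5, [0,0,0,0,0,3,-1,2,-1,-1,0,0,0,0,0,-3,1,-2,1,1]),
     (10, [0,0,0,0,0,0,2,-1,2,-1,0,0,0,0,0,0,-2,1,-2,1]),
     (30, [0,0,0,0,0,0,0,1,0,1,0,0,0,0,0,0,0,-1,0,-1])]),
   (12, [(6, [2,-1,1,0,0,0,0,0,-1,1,-2,1,-1,0,0,0,0,0,1,-1]),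
     (2, [0,3,-1,2,0,0,0,0,-1,-1,0,-3,1,-2,0,0,0,0,1,1]),
     (1, [0,0,4,-2,3,0,0,0,1,-2,0,0,-4,2,-3,0,0,0,-1,2]),
     (3, [0,0,0,2,-1,2,0,0,1,0,0,0,0,-2,1,-2,0,0,-1,0]),
     (3, [0,0,0,0,2,-1,2,0,0,1,0,0,0,0,-2,1,-2,0,0,-1]),
     (1, [0,0,0,0,0,3,-2,4,-2,1,0,0,0,0,0,-3,2,-4,2,-1]),
     (2, [0,0,0,0,0,0,2,-1,2,-1,0,0,0,0,0,0,-2,1,-2,1]),
     (6, [0,0,0,0,0,0,0,1,0,1,0,0,0,0,0,0,0,-1,0,-1])]),
   (60, [(30, [2,-1,0,0,1,-1,0,1,-1,0,0,1,-2,1,0,0,-1,1,0,-1,1,0,0,-1]),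
     (10, [0,3,-2,0,1,1,-2,1,1,-2,0,1,0,-3,2,0,-1,-1,2,-1,-1,2,0,-1]),
     (5, [0,0,4,-3,1,1,1,-2,1,1,-3,1,0,0,-4,3,-1,-1,-1,2,-1,-1,3,-1]),
     (3, [0,0,0,5,-3,1,1,2,-3,1,1,-3,0,0,0,-5,3,-1,-1,-2,3,-1,-1,3]),
     (3, [0,0,0,0,4,-3,2,-1,4,-3,2,-1,0,0,0,0,-4,3,-2,1,-4,3,-2,1]),
     (5, [0,0,0,0,0,3,-2,1,0,3,-2,1,0,0,0,0,0,-3,2,-1,0,-3,2,-1]),
     (10, [0,0,0,0,0,0,2,-1,0,0,2,-1,0,0,0,0,0,0,-2,1,0,0,-2,1]),
     (30, [0,0,0,0,0,0,0,1,0,0,0,1,0,0,0,0,0,0,0,-1,0,0,0,-1])]),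
   (12, [(6, [2,-1,0,1,-1,0,1,-1,1,0,0,0,0,0,0,0,1,-1,1,0,-1,1,0,-1]),
     (2, [0,3,-2,1,1,-2,1,1,-1,2,0,0,0,0,0,0,1,1,-1,2,-1,-1,2,-1]),
     (1, [0,0,4,-2,1,1,-2,1,2,-1,3,0,0,0,0,0,1,1,2,-1,2,-1,-1,2]),
     (3, [0,0,0,2,-1,1,0,-1,0,1,-1,2,0,0,0,0,-1,1,0,1,0,1,-1,0]),
     (3, [0,0,0,0,2,-1,1,0,-1,0,1,-1,2,0,0,0,0,-1,1,0,1,0,1,-1]),
     (1, [0,0,0,0,0,3,-1,2,1,-2,1,1,-2,4,0,0,2,-1,-1,2,-1,2,1,1]),
     (2, [0,0,0,0,0,0,2,-1,1,1,-2,1,1,-2,3,0,-1,2,-1,-1,2,-1,1,1]),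
     (6, [0,0,0,0,0,0,0,1,-1,1,0,-1,1,0,-1,2,-1,0,1,-1,0,1,-1,1])]),
   (60, [(30, [2,-1,1,-1,1,0,0,0,-1,1,-1,1,-2,1,-1,1,-1,0,0,0,1,-1,1,-1]),
     (10, [0,3,-1,1,-1,2,0,0,-1,-1,1,-1,0,-3,1,-1,1,-2,0,0,1,1,-1,1]),
     (5, [0,0,4,-1,1,-2,3,0,1,-2,-1,1,0,0,-4,1,-1,2,-3,0,-1,2,1,-1]),
     (3, [0,0,0,5,-1,2,-3,4,-1,2,-3,-1,0,0,0,-5,1,-2,3,-4,1,-2,3,1]),
     (2, [0,0,0,0,6,-2,3,-4,6,-2,3,-4,0,0,0,0,-6,2,-3,4,-6,2,-3,4]),
     (10, [0,0,0,0,0,2,0,1,0,2,0,1,0,0,0,0,0,-2,0,-1,0,-2,0,-1]),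
     (30, [0,0,0,0,0,0,1,0,0,0,1,0,0,0,0,0,0,0,-1,0,0,0,-1,0]),
     (30, [0,0,0,0,0,0,0,1,0,0,0,1,0,0,0,0,0,0,0,-1,0,0,0,-1])]),
   (420, [(210, [2,-1,0,0,0,0,1,-1,0,0,1,-1,1,-1,0,1,0,-1,1,-1,1,0,0,-1,1,0,0,0,0,-1]),
     (70, [0,3,-2,0,0,0,1,1,-2,0,1,1,-1,1,-2,1,2,-1,-1,1,-1,2,0,-1,-1,2,0,0,0,-1]),
     (35, [0,0,4,-3,0,0,1,1,1,-3,1,1,2,-2,1,-2,2,2,-1,-2,2,-1,3,-1,-1,-1,3,0,0,-1]),
     (21, [0,0,0,5,-4,0,1,1,1,1,-3,1,2,2,-3,2,-2,2,3,-2,-2,3,-1,3,-1,-1,-1,4,0,-1]),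
     (14, [0,0,0,0,6,-5,1,1,1,1,2,-4,2,2,2,-3,3,-3,3,3,-2,-2,4,-2,4,-1,-1,-1,5,-1]),
     (10, [0,0,0,0,0,7,-5,1,1,1,2,2,-4,2,2,3,-3,3,-3,3,4,-2,-2,4,-2,5,-1,-1,-1,5]),
     (15, [0,0,0,0,0,0,4,-5,2,2,-3,4,-1,-3,4,-1,1,-1,1,-1,1,3,-4,1,3,-4,5,-2,-2,3]),
     (105, [0,0,0,0,0,0,0,1,-2,2,-1,0,1,-1,0,1,-1,1,-1,1,-1,1,0,-1,1,0,-1,2,-2,1])]),
   (60, [(30, [2,-1,0,0,0,1,-1,0,0,1,-1,0,0,0,1,-2,1,0,0,0,-1,1,0,0,-1,1,0,0,0,-1]),
     (10, [0,3,-2,0,0,1,1,-2,0,1,1,-2,0,0,1,0,-3,2,0,0,-1,-1,2,0,-1,-1,2,0,0,-1]),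
     (5, [0,0,4,-3,0,1,1,1,-3,1,1,1,-3,0,1,0,0,-4,3,0,-1,-1,-1,3,-1,-1,-1,3,0,-1]),
     (3, [0,0,0,5,-4,1,1,1,1,-3,1,1,1,-4,1,0,0,0,-5,4,-1,-1,-1,-1,3,-1,-1,-1,4,-1]),
     (2, [0,0,0,0,6,-4,1,1,1,2,-4,1,1,1,-4,0,0,0,0,-6,4,-1,-1,-1,-2,4,-1,-1,-1,4]),
     (10, [0,0,0,0,0,2,-2,1,1,-1,2,-2,1,1,-1,0,0,0,0,0,-2,2,-1,-1,1,-2,2,-1,-1,1]),
     (30, [0,0,0,0,0,0,1,-1,1,0,0,1,-1,1,0,0,0,0,0,0,0,-1,1,-1,0,0,-1,1,-1,0]),
     (30, [0,0,0,0,0,0,0,1,-1,1,0,0,1,-1,1,0,0,0,0,0,0,0,-1,1,-1,0,0,-1,1,-1])]),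
   (12, [(6, [2,-1,0,1,-1,1,0,-1,1,0,-1,1,-1,0,1,-2,1,0,-1,1,-1,0,1,-1,0,1,-1,1,0,-1]),
     (2, [0,3,-2,1,1,-1,2,-1,-1,2,-1,-1,1,-2,1,0,-3,2,-1,-1,1,-2,1,1,-2,1,1,-1,2,-1]),
     (1, [0,0,4,-2,1,2,-1,2,-1,-1,2,-1,-2,1,-2,0,0,-4,2,-1,-2,1,-2,1,1,-2,1,2,-1,2]),
     (3, [0,0,0,2,-1,0,1,0,1,-1,0,1,0,-1,0,0,0,0,-2,1,0,-1,0,-1,1,0,-1,0,1,0]),
     (3, [0,0,0,0,2,-1,0,1,0,1,-1,0,1,0,-1,0,0,0,0,-2,1,0,-1,0,-1,1,0,-1,0,1]),
     (1, [0,0,0,0,0,3,-2,1,2,-1,3,-2,1,2,-1,0,0,0,0,0,-3,2,-1,-2,1,-3,2,-1,-2,1]),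
     (2, [0,0,0,0,0,0,2,-1,1,1,0,2,-1,1,1,0,0,0,0,0,0,-2,1,-1,-1,0,-2,1,-1,-1]),
     (6, [0,0,0,0,0,0,0,1,-1,1,0,0,1,-1,1,0,0,0,0,0,0,0,-1,1,-1,0,0,-1,1,-1])]),
   (12, [(6, [2,-1,1,0,0,1,-1,1,-1,1,-1,0,0,-1,1,-2,1,-1,0,0,-1,1,-1,1,-1,1,0,0,1,-1]),
     (2, [0,3,-1,2,0,1,1,-1,1,-1,1,-2,0,-1,-1,0,-3,1,-2,0,-1,-1,1,-1,1,-1,2,0,1,1]),
     (1, [0,0,4,-2,3,-1,2,1,-1,1,-1,2,-3,1,-2,0,0,-4,2,-3,1,-2,-1,1,-1,1,-2,3,-1,2]),
     (3, [0,0,0,2,-1,1,0,1,1,-1,1,0,1,-1,0,0,0,0,-2,1,-1,0,-1,-1,1,-1,0,-1,1,0]),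
     (3, [0,0,0,0,2,-1,1,0,1,1,-1,1,0,1,-1,0,0,0,0,-2,1,-1,0,-1,-1,1,-1,0,-1,1]),
     (1, [0,0,0,0,0,3,-1,2,1,1,3,-1,2,1,1,0,0,0,0,0,-3,1,-2,-1,-1,-3,1,-2,-1,-1]),
     (2, [0,0,0,0,0,0,2,-1,1,1,0,2,-1,1,1,0,0,0,0,0,0,-2,1,-1,-1,0,-2,1,-1,-1]),
     (6, [0,0,0,0,0,0,0,1,-1,1,0,0,1,-1,1,0,0,0,0,0,0,0,-1,1,-1,0,0,-1,1,-1])])]

end Pool.Agent.EEA520
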