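import Pool.Agent.W_eea520_G.N3
import Pool.Agent.W_eea520_G.C2

/-!
# `GL_2`: the theorem (MP_eea520_nt, edge theorem)
-/

set_option autoImplicit false

namespace Pool.Agent.EEA520

open Filter Topology Pool.Agent.EEAG1 MeasureTheory

theorem tre_ad {π : GSys 1} (hπ : Tempered π) (a : ℕ) (p : Pr) :
    tre π (symdet (2 * a) (-a)) 0 p =
      ∑ i ∈ Finset.range (2 * a + 1), (((π p).x 0 : ℂ) ^ ((i : ℤ) - a)).re := by
  classical
  unfold tre symdet
  rw [← Finsupp.sum_finsetSum_index (by intro w; simp) (by intro w b d; push_cast; ring)]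
  refine Finset.sum_congr rfl fun i _ => ?_
  rw [Finsupp.sum_single_index (by simp)]
  have h0 : ((2 * a : ℕ) : ℤ) + 2 * -(a : ℤ) = 0 := by push_cast; ring
  rw [h0]
  unfold zre Torus.ev w1
  simp [sub_eq_add_neg]

theorem tre_ad_succ {π : GSys 1} (hπ : Tempered π) (a : ℕ) (p : Pr) :
    2 * (((π p).x 0 : ℂ) ^ ((a + 1 : ℕ) : ℤ)).re =
      tre π (symdet (2 * (a + 1)) (-((a + 1 : ℕ) : ℤ))) 0 p - tre π (symdet (2 * a) (-a)) 0 p := by
  have hx : ‖((π p).x 0 : ℂ)‖ = 1 := (hπ p).2 0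
  have h1 := tre_ad hπ (a + 1) p
  have h2 := tre_ad hπ a p
  rw [h1, h2, show 2 * (a + 1) + 1 = (2 * a + 1) + 1 + 1 by ring, Finset.sum_range_succ,
    Finset.sum_range_succ']
  have e1 : ∀ i ∈ Finset.range (2 * a + 1),
      (((π p).x 0 : ℂ) ^ (((i + 1 : ℕ) : ℤ) - ((a + 1 : ℕ) : ℤ))).re =
      (((π p).x 0 : ℂ) ^ ((i : ℤ) - a)).re := by
    intro i _
    congr 2
    push_cast
    ring
  rw [Finset.sum_congr rfl e1]
  have e2 : ((0 : ℕ) : ℤ) - ((a + 1 : ℕ) : ℤ) = -((a + 1 : ℕ) : ℤ) := by push_cast; ring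
  have e3 : ((2 * a + 1 + 1 : ℕ) : ℤ) - ((a + 1 : ℕ) : ℤ) = ((a + 1 : ℕ) : ℤ) := by push_cast; ring
  rw [e2, e3, A5_re hx]
  ring

theorem pt_zeroF : pt 0 = 1 := by
  unfold pt
  simp

/-- The moments of the ratios from the orders of the poles. -/
theorem mean_ad {π : GSys 1} (hπ : Tempered π) {M : ℕ} {N : ℕ → ℤ}
    (hN : ∀ a ≤ M, PoleOrder π (symdet (2 * a) (-a)) 1 (N a)) (k : ℕ) (hk : k ≤ M) :
    Mean (fun p => ((π p).x 0 : ℂ)) (fun z => 2 * (z ^ (k : ℤ)).re)
      ((if k = 0 then 2 else N k - N (k - 1) : ℤ) : ℝ) := by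
  have hx : ∀ p, ‖((π p).x 0 : ℂ)‖ = 1 := fun p => (hπ p).2 0
  cases k with
  | zero =>
    have h1 := (Mean.one (a := fun p => ((π p).x 0 : ℂ))).const_mul 2
    refine (Mean.congr hx ?_ fun z _ => rfl)
    rw [if_pos rfl]
    push_cast
    simpa using h1
  | succ a =>
    rw [if_neg (Nat.succ_ne_zero a), Nat.add_sub_cancel]
    have h1 := mean_of_poleOrder (t := 0) hπ (by rw [pt_zeroF]; exact hN (a + 1) hk)
    have h2 := mean_of_poleOrder (t := 0) hπ (by rw [pt_zeroF]; exact hN a (by omega))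
    have h3 := MeanP.add (bdP_tre hπ _ _) ((bdP_tre hπ _ _).const_mul (-1)) h1 (h2.const_mul (-1))
    have e : ((N (a + 1) : ℤ) : ℝ) + -1 * (N a : ℤ) = ((N (a + 1) - N a : ℤ) : ℝ) := by
      push_cast
      ring
    rw [e] at h3
    refine h3.congr fun s => ?_
    congr 1
    unfold psm psum
    refine tsum_congr fun p => ?_
    congr 1
    show _ = 2 * (((π p).x 0 : ℂ) ^ ((a + 1 : ℕ) : ℤ)).re
    rw [tre_ad_succ hπ]
    ring

/-- The finite level theorem. -/
theorem gl2_finite {π : GSys 1} (hπ : Tempered π) {M : ℕ} (hM : 9 ≤ M)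
    (h : ∀ a : ℕ, a ≤ M → MeroAt π (symdet (2 * a) (-a)) 1)
    (had : PoleOrder π (symdet 2 (-1)) 1 0) :
    (∀ a : ℕ, 1 ≤ a → a < M → PoleOrder π (symdet (2 * a) (-a)) 1 0) ∨
    (∀ a : ℕ, 1 ≤ a → a < M → PoleOrder π (symdet (2 * a) (-a)) 1 (if Even a then 1 else 0)) ∨
    ∃ L : Law, L.ok = true ∧
      ∀ k : ℤ, Mean (fun p => ((π p).x 0 : ℂ)) (fun z => 2 * (z ^ k).re) (L.val k) := by
  classical
  have hex : ∀ a : ℕ, ∃ k : ℤ, a ≤ M → PoleOrder π (symdet (2 * a) (-a)) 1 k := by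
    intro a
    by_cases ha : a ≤ M
    · obtain ⟨k, hk⟩ := exists_poleOrder (t := 0) hπ (by rw [pt_zeroF]; exact h a ha)
      rw [pt_zeroF] at hk
      exact ⟨k, fun _ => hk⟩
    · exact ⟨0, fun h => absurd h ha⟩
  choose N hN using hex
  have hx : ∀ p, ‖((π p).x 0 : ℂ)‖ = 1 := fun p => (hπ p).2 0
  -- uniqueness of the order
  have huniq : ∀ (m : Wt 1 →₀ ℤ) (k l : ℤ), PoleOrder π m 1 k → PoleOrder π m 1 l → k = l := by
    intro m k l h1 h2
    rw [← pt_zeroF] at h1 h2
    have := MeanP.unique (mean_of_poleOrder hπ h1) (mean_of_poleOrder hπ h2)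
    exact_mod_cast this
  have hN0 : N 0 = 1 := by
    have h1 := mean_of_poleOrder (t := 0) hπ (by rw [pt_zeroF]; exact hN 0 (by omega))
    have h2 : MeanP (tre π (symdet (2 * 0) (-((0 : ℕ) : ℤ))) 0) 1 := by
      have h3 := MeanP.one
      refine h3.congr fun s => ?_
      congr 2
      funext p
      rw [tre_ad hπ]
      simp
    have h4 := MeanP.unique h1 h2
    exact_mod_cast h4
  have hN1 : N 1 = 0 := by
    refine huniq _ _ _ (hN 1 (by omega)) ?_
    exact had
  set P : ℕ → ℤ := fun k => if k = 0 then 2 else N k - N (k - 1) with hPdef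
  have hP0 : P 0 = 2 := by simp [hPdef]
  have hP1 : P 1 = -1 := by simp [hPdef, hN0, hN1]
  have hsum : ∀ a : ℕ, N a = 1 + ∑ i ∈ Finset.range a, P (i + 1) := by
    intro a
    have h1 : ∀ i ∈ Finset.range a, P (i + 1) = N (i + 1) - N i := by
      intro i _
      simp [hPdef]
    rw [Finset.sum_congr rfl h1, Finset.sum_range_sub, hN0]
    ring
  rcases finite_level hM hP0 hP1 with h1 | h1 | ⟨L, hL, h1⟩
  · left
    intro a ha1 haM
    have h2 := hN a (by omega)
    have h3 : N a = 0 := by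
      obtain ⟨b, rfl⟩ : ∃ b, a = b + 1 := ⟨a - 1, by omega⟩
      rw [hsum, Finset.sum_range_succ', hP1, Finset.sum_eq_zero]
      · norm_num
      · intro i hi
        rw [Finset.mem_range] at hi
        exact h1 _ (by omega) (by omega)
    rwa [h3] at h2
  · right
    left
    intro a ha1 haM
    have h2 := hN a (by omega)
    have h3 : N a = if Even a then 1 else 0 := by
      rw [hsum]
      have h4 : ∀ i ∈ Finset.range a, P (i + 1) = -(-1) ^ i := by
        intro i hi
        rw [Finset.mem_range] at hi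
        rw [h1 _ (by omega) (by omega), pow_succ]
        ring
      rw [Finset.sum_congr rfl h4, Finset.sum_neg_distrib, neg_one_geom_sum]
      split_ifs <;> norm_num
    rwa [h3] at h2
  · right
    right
    exact ⟨L, hL, fun k => mean_of_level hx h1 (fun j hj => mean_ad hπ hN j hj) k⟩

end Pool.Agent.EEA520

namespace Pool.Agent.EEA520

open Filter Topology Pool.Agent.EEAG1 MeasureTheory

/-- The three cases. -/
theorem gl2_cases {π : GSys 1} (hπ : Tempered π) {E : AddSubgroup ℝ}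
    (h : ∀ m, IsCharacter m → ∀ t ∈ E, MeroAt π m (pt t))
    (had : PoleOrder π (symdet 2 (-1)) 1 0) :
    ((∀ k : ℕ, 1 ≤ k → ∀ (j : ℤ), ∀ t ∈ E, PoleOrder π (symdet k j) (pt t) 0) ∧
      TraceLaw π satoTate) ∨
    ((∀ k : ℕ, Odd k → ∀ (j : ℤ), ∀ t ∈ E, PoleOrder π (symdet k j) (pt t) 0) ∧
      (∀ a : ℕ, ∀ t ∈ E, PoleOrder π (symdet (2 * a) (-a)) (pt t)
        (if t = 0 ∧ Even a then 1 else 0)) ∧
      TraceLaw π cmLaw) ∨
    ∃ r : ℕ, 0 < r ∧ Even r ∧
      Mean (fun p => ((π p).x 0 : ℂ)) (fun z => 2 * (z ^ (r : ℤ)).re) 2 := by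
  classical
  obtain ⟨c, hc⟩ := exists_isOrd hπ h
  have had' := had_of hπ hc had
  -- the orders of the symmetric powers
  have hord : ∀ (k : ℕ) (j : ℤ) (t : ℝ) (ht : t ∈ E) (o : ℤ),
      2 * o = ∑ i ∈ Finset.range (k + 1), c (w1 (k + 2 * j) (i + j), ⟨t, ht⟩) →
      PoleOrder π (symdet k j) (pt t) o := by
    intro k j t ht o ho
    obtain ⟨o', ho'⟩ := exists_poleOrder hπ (h _ (symdet_isCharacter k j) t ht)
    have h1 := order_symdet (t := ⟨t, ht⟩) hπ hc ho'
    have h2 : o = o' := by linarith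
    rw [h2]
    exact ho'
  rcases one_cases hπ hc had' with ⟨r, h1, h2, h3⟩ | ⟨r, s, h1, h2, h3, h4, h5, h6⟩ | ⟨r, hr, h1⟩
  · left
    refine ⟨fun k hk j t ht => hord k j t ht 0 ?_, ?_⟩
    · set f : ℕ → ℤ := fun i => r (k + 2 * j) ⟨t, ht⟩ (i + j) - r (k + 2 * j) ⟨t, ht⟩ (i + j - 1)
        with hf
      have e1 : ∀ i ∈ Finset.range (k + 1), c (w1 (k + 2 * j) (i + j), ⟨t, ht⟩) = f i - f (i + 1) := by
        intro i _
        rw [h1, hf]
        push_cast
        have e2 : (i : ℤ) + 1 + j = i + j + 1 := by ring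
        have e3 : (i : ℤ) + j + 1 - 1 = i + j := by ring
        rw [e2, e3]
        ring
      rw [Finset.sum_congr rfl e1, telescope]
      have hz : ∀ M : ℤ, 2 * M ≠ k + 2 * j → r (k + 2 * j) ⟨t, ht⟩ M = 0 := by
        intro M hM
        by_contra hne
        exact hM (h2 _ _ _ hne)
      rw [hf]
      push_cast
      rw [hz _ (by push_cast; omega), hz _ (by push_cast; omega), hz _ (by push_cast; omega),
        hz _ (by push_cast; omega)]
      ring
    · obtain ⟨μ, hμ, hμ1, hμ2⟩ := exists_st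
      have hx : ∀ k : ℤ, (c (w1 0 k, 0) : ℝ) =
          if k = 0 then 2 else if k = 1 ∨ k = -1 then -1 else 0 := by
        intro k
        rw [h1, h3, h3, h3]
        by_cases hk0 : k = 0
        · subst hk0
          norm_num
        · rw [if_neg hk0, if_neg hk0]
          by_cases hk1 : k = 1
          · subst hk1
            norm_num
          · by_cases hk2 : k = -1
            · subst hk2
              norm_num
            · rw [if_neg (by omega), if_neg (by omega), if_neg (by omega)]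
              norm_num
      have h7 := traceLaw_of_moments hπ hc μ (fun k => by
        rw [hμ2, hx]
        by_cases hk0 : k = 0
        · subst hk0
          norm_num
        · rw [if_neg (by omega), if_neg hk0]
          by_cases hk1 : k = 1 ∨ k = -1
          · rw [if_pos (by omega), if_pos hk1]
          · rw [if_neg (by omega), if_neg hk1]) (fun hnu k => by
        rcases Int.even_or_odd' k with ⟨i, rfl | rfl⟩
        · rw [ord_nu hπ hnu hc, hx, hμ2]
          by_cases hk0 : i = 0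
          · subst hk0
            norm_num
          · rw [if_neg (by omega), if_neg hk0]
            by_cases hk1 : i = 1 ∨ i = -1
            · rw [if_pos (by omega), if_pos hk1]
            · rw [if_neg (by omega), if_neg hk1]
        · have hz : ∀ M : ℤ, r (2 * i + 1) 0 M = 0 := by
            intro M
            by_contra hne
            have := h2 _ _ _ hne
            omega
          rw [h1, hz, hz, hz, hμ2, if_neg (by omega), if_neg (by omega)]
          norm_num)
      simp only [hμ1] at h7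
      exact h7
  · right
    left
    have hr0 : ∀ K t M, 2 * M ≠ K → r K t M = 0 := by
      intro K t M hM
      by_contra hne
      exact hM (h2 _ _ _ hne)
    refine ⟨fun k hk j t ht => hord k j t ht 0 ?_, fun a t ht => hord _ _ t ht _ ?_, ?_⟩
    · rw [Finset.sum_eq_zero, mul_zero]
      intro i _
      have hodd : Odd ((k : ℤ) + 2 * j) := by
        have : Odd (k : ℤ) := by exact_mod_cast hk
        exact this.add_even (even_two_mul j)
      rw [h1, h3 _ _ hodd, hr0, mul_zero, add_zero]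
      intro h7
      rw [← h7] at hodd
      exact (Int.not_odd_iff_even.2 (even_two_mul _)) hodd
    · have e0 : ((2 * a : ℕ) : ℤ) + 2 * -(a : ℤ) = 0 := by push_cast; ring
      rw [e0]
      by_cases ht0 : t = 0
      · subst ht0
        have e1 : ∀ i ∈ Finset.range (2 * a + 1), c (w1 0 (i + -(a : ℤ)), ⟨0, ht⟩) =
            (if i = a then 1 else 0) + (-1) ^ ((i : ℤ) + -(a : ℤ)).natAbs := by
          intro i _
          have e2 : (⟨0, ht⟩ : E) = 0 := rfl
          rw [e2, h1, h5, h6, mul_one]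
          congr 1
          refine if_congr ?_ rfl rfl
          omega
        rw [Finset.sum_congr rfl e1, Finset.sum_add_distrib, sum_alt, Finset.sum_ite_eq',
          if_pos (Finset.mem_range.2 (by omega))]
        by_cases ha : Even a
        · rw [if_pos ⟨rfl, ha⟩, ha.neg_one_pow]
          norm_num
        · rw [if_neg (fun h7 => ha h7.2), (Nat.not_even_iff_odd.1 ha).neg_one_pow]
          norm_num
      · rw [if_neg (fun h7 => ht0 h7.1), mul_zero, Finset.sum_eq_zero]
        intro i _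
        have e2 : (⟨t, ht⟩ : E) ≠ 0 := fun h7 => ht0 (congrArg Subtype.val h7)
        obtain ⟨h7, h8⟩ := h4 _ e2
        rw [h1, h7, h8]
        ring
    · obtain ⟨μ, hμ, hμ1, hμ2, hμ3⟩ := exists_cm
      have hx : ∀ k : ℤ, (c (w1 0 k, 0) : ℝ) = (if k = 0 then 1 else 0) + (-1) ^ k.natAbs := by
        intro k
        rw [h1, h5, h6]
        push_cast
        ring
      have h7 := traceLaw_of_moments hπ hc μ (fun k => by rw [hμ2, hx]) (fun hnu k => by
        rcases Int.even_or_odd' k with ⟨i, rfl | rfl⟩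
        · rw [ord_nu hπ hnu hc, hx, hμ2]
        · rw [h1, hr0 _ _ _ (by omega), h3 _ _ ⟨i, rfl⟩, hμ3]
          norm_num)
      refine ⟨fun f hf => ?_, fun hnu f hf => ?_⟩
      · have h8 := h7.1 f hf
        have h9 : ContinuousOn (fun y : ℝ => f |y|) (Set.Icc (-2) 2) := by
          refine hf.comp (by fun_prop) fun y hy => ⟨abs_nonneg _, abs_le.2 hy⟩
        rw [← hμ1 _ h9]
        exact h8
      · have h8 := h7.2 hnu f hf
        rw [← hμ1 f hf]
        exact h8
  · right
    right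
    refine ⟨r + r, by omega, Even.add_self r, ?_⟩
    have h2 := mean_x hπ hc ((r + r : ℕ) : ℤ)
    have h3 : c (w1 0 ((r + r : ℕ) : ℤ), 0) = 2 := by
      have h4 := h1 0
      have h6 := h1 (w1 0 r, 0)
      have h7 : ((w1 0 r, (0 : E)) + (w1 0 r, 0) : Wt 1 × E) = (w1 0 ((r + r : ℕ) : ℤ), 0) := by
        show (w1 0 r + w1 0 r, (0 : E) + 0) = _
        rw [w1_add, add_zero, add_zero]
        push_cast
        rfl
      rw [zero_add] at h4
      rw [← h7, h6, h4]
      have h5 := ord_base hπ hc 0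
      rw [if_pos rfl] at h5
      exact h5
    rw [h3] at h2
    exact_mod_cast h2

theorem adOrder_st (a : ℕ) : adOrder stSeq a = if a = 0 then 1 else 0 := by
  unfold adOrder
  cases a with
  | zero => simp
  | succ a =>
    rw [Finset.sum_range_succ', if_neg (Nat.succ_ne_zero a), Finset.sum_eq_zero]
    · simp [stSeq]
    · intro i _
      unfold stSeq
      rw [if_neg (by push_cast; omega), if_neg (by push_cast; omega)]

theorem adOrder_cm (a : ℕ) : adOrder cmSeq a = if Even a then 1 else 0 := by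
  unfold adOrder
  have h1 : ∀ i ∈ Finset.range a, cmSeq ((i : ℤ) + 1) = -(-1) ^ i := by
    intro i _
    unfold cmSeq
    rw [if_neg (by omega), show ((i : ℤ) + 1).natAbs = i + 1 by omega, pow_succ]
    ring
  rw [Finset.sum_congr rfl h1, Finset.sum_neg_distrib, neg_one_geom_sum]
  split_ifs <;> norm_num

/-- Uniqueness of the order. -/
theorem order_unique {n : ℕ} {π : GSys n} (hπ : Tempered π) {m : Wt n →₀ ℤ} {t : ℝ} {k l : ℤ}
    (h1 : PoleOrder π m (pt t) k) (h2 : PoleOrder π m (pt t) l) : k = l := by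
  have := MeanP.unique (mean_of_poleOrder hπ h1) (mean_of_poleOrder hπ h2)
  exact_mod_cast this

/-- The order of `Sym^(2 a) ⊗ det^(-a)` at `1`, from the mean values. -/
theorem order_of_moments {π : GSys 1} (hπ : Tempered π) {c : ℤ → ℤ}
    (hc : ∀ k : ℤ, Mean (fun p => ((π p).x 0 : ℂ)) (fun z => 2 * (z ^ k).re) (c k)) {a : ℕ} {o : ℤ}
    (ho : PoleOrder π (symdet (2 * a) (-a)) (pt 0) o) : o = adOrder c a := by
  have hx : ∀ p, ‖((π p).x 0 : ℂ)‖ = 1 := fun p => (hπ p).2 0
  have h1 := mean_of_poleOrder hπ ho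
  have key : ∀ a : ℕ, MeanP (tre π (symdet (2 * a) (-a)) 0) (adOrder c a : ℤ) := by
    intro a
    induction a with
    | zero =>
      have h3 := MeanP.one
      have e : ((adOrder c 0 : ℤ) : ℝ) = 1 := by simp [adOrder]
      rw [e]
      refine h3.congr fun s => ?_
      congr 2
      funext p
      rw [tre_ad hπ]
      simp
    | succ a ih =>
      have h2 : MeanP (fun p => 2 * (((π p).x 0 : ℂ) ^ ((a + 1 : ℕ) : ℤ)).re) (c ((a + 1 : ℕ) : ℤ)) :=
        hc _
      have hb : BdP fun p => 2 * (((π p).x 0 : ℂ) ^ ((a + 1 : ℕ) : ℤ)).re := by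
        obtain ⟨C, hC⟩ := A5_re_bd ((a + 1 : ℕ) : ℤ)
        exact ⟨C, fun p => hC _ (hx p)⟩
      have h3 := MeanP.add (bdP_tre hπ _ _) hb ih h2
      have e : ((adOrder c (a + 1) : ℤ) : ℝ) = (adOrder c a : ℤ) + (c ((a + 1 : ℕ) : ℤ) : ℝ) := by
        unfold adOrder
        rw [Finset.sum_range_succ]
        push_cast
        ring
      rw [e]
      refine h3.congr fun s => ?_
      congr 2
      funext p
      rw [tre_ad_succ hπ]
      ring
  have h4 := MeanP.unique h1 (key a)
  exact_mod_cast h4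

theorem stSeq_neg (k : ℤ) : stSeq (-k) = stSeq k := by
  unfold stSeq
  simp only [neg_eq_zero]
  congr 1
  refine if_congr ?_ rfl rfl
  omega

theorem cmSeq_neg (k : ℤ) : cmSeq (-k) = cmSeq k := by
  unfold cmSeq
  simp only [neg_eq_zero, Int.natAbs_neg]

/-- All levels. -/
theorem all_levels {P : ℕ → ℤ} (h0 : P 0 = 2) (h1 : P 1 = -1) :
    (∀ k : ℕ, P k = stSeq k) ∨ (∀ k : ℕ, P k = cmSeq k) ∨
      ∃ (M : ℕ) (L : Law), L.ok = true ∧ ∀ c : ℤ → ℝ, PosDef c → (∀ k : ℕ, k ≤ M → c k = P k) →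
        ∀ k, c k = L.val k := by
  by_cases hM : ∃ (M : ℕ) (L : Law), L.ok = true ∧ ∀ c : ℤ → ℝ, PosDef c →
      (∀ k : ℕ, k ≤ M → c k = P k) → ∀ k, c k = L.val k
  · exact Or.inr (Or.inr hM)
  · have h2 : ∀ M : ℕ, 9 ≤ M → (∀ k, 2 ≤ k → k < M → P k = 0) ∨
        (∀ k, 1 ≤ k → k < M → P k = (-1) ^ k) := by
      intro M h9
      rcases finite_level h9 h0 h1 with h | h | h
      · exact Or.inl h
      · exact Or.inr h
      · exact absurd ⟨M, h⟩ hM
    by_cases hz : P 2 = 0
    · left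
      intro k
      unfold stSeq
      by_cases hk0 : k = 0
      · subst hk0
        simpa using h0
      · by_cases hk1 : k = 1
        · subst hk1
          simpa using h1
        · rw [if_neg (by omega), if_neg (by omega)]
          rcases h2 (k + 9) (by omega) with h | h
          · exact h k (by omega) (by omega)
          · have := h 2 (by omega) (by omega)
            rw [hz] at this
            norm_num at this
    · right
      left
      intro k
      unfold cmSeq
      by_cases hk0 : k = 0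
      · subst hk0
        simpa using h0
      · rw [if_neg (by omega), Int.natAbs_natCast]
        rcases h2 (k + 9) (by omega) with h | h
        · exact absurd (h 2 (by omega) (by omega)) hz
        · exact h k (by omega) (by omega)

end Pool.Agent.EEA520

namespace Pool.Agent.EEA520

open Filter Topology Pool.Agent.EEAG1 MeasureTheory

theorem moments_of {π : GSys 1} {c : ℤ → ℤ}
    (h : ∀ k : ℤ, Mean (fun p => ((π p).x 0 : ℂ)) (fun z => 2 * (z ^ k).re) (c k)) : Moments π c :=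
  h

theorem order_ad_zero {π : GSys 1} (hπ : Tempered π) {t : ℝ}
    (h : MeroAt π (symdet (2 * 0) (-((0 : ℕ) : ℤ))) (pt t)) :
    PoleOrder π (symdet (2 * 0) (-((0 : ℕ) : ℤ))) (pt t) (if t = 0 then 1 else 0) := by
  obtain ⟨k, hk⟩ := exists_poleOrder hπ h
  have h1 : symdet (2 * 0) (-((0 : ℕ) : ℤ)) = Finsupp.single 0 1 := by
    unfold symdet
    simp
    rfl
  have h2 := hk
  rw [h1] at h2
  have h3 := order_one hπ h2
  rw [← h3]
  exact hk

/-- Finitely many `L`-functions. -/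
theorem finiteA {π : GSys 1} (hπ : Tempered π) (had : PoleOrder π (symdet 2 (-1)) 1 0) {M : ℕ}
    (hM : 9 ≤ M) (h : ∀ a : ℕ, a ≤ M → MeroAt π (symdet (2 * a) (-a)) 1) :
    ∃ c : ℤ → ℤ, (c = stSeq ∨ c = cmSeq ∨ (FinType c ∧ Moments π c)) ∧
      ∀ a : ℕ, a < M → PoleOrder π (symdet (2 * a) (-a)) 1 (adOrder c a) := by
  have h00 : PoleOrder π (symdet (2 * 0) (-((0 : ℕ) : ℤ))) 1 1 := by
    have h1 := order_ad_zero (t := 0) hπ (by rw [pt_zeroF]; exact h 0 (by omega))
    rw [pt_zeroF, if_pos rfl] at h1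
    exact h1
  rcases gl2_finite hπ hM h had with h1 | h1 | ⟨L, hL, h1⟩
  · refine ⟨stSeq, Or.inl rfl, fun a ha => ?_⟩
    rw [adOrder_st]
    by_cases ha0 : a = 0
    · subst ha0
      rw [if_pos rfl]
      exact h00
    · rw [if_neg ha0]
      exact h1 a (by omega) ha
  · refine ⟨cmSeq, Or.inr (Or.inl rfl), fun a ha => ?_⟩
    rw [adOrder_cm]
    by_cases ha0 : a = 0
    · subst ha0
      rw [if_pos Even.zero]
      exact h00
    · exact h1 a (by omega) ha
  · refine ⟨L.val, Or.inr (Or.inr ⟨finType_val hL, h1⟩), fun a ha => ?_⟩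
    obtain ⟨o, ho⟩ := exists_poleOrder (t := 0) hπ (by rw [pt_zeroF]; exact h a (by omega))
    have h2 := order_of_moments hπ h1 ho
    rw [pt_zeroF, h2] at ho
    exact ho

/-- All levels, on the line. -/
theorem lineB {π : GSys 1} (hπ : Tempered π) (had : PoleOrder π (symdet 2 (-1)) 1 0)
    {E : AddSubgroup ℝ} (h : ∀ (k : ℕ) (j : ℤ), ∀ t ∈ E, MeroAt π (symdet k j) (pt t)) :
    ∃ c : ℤ → ℤ, (c = stSeq ∨ c = cmSeq ∨ FinType c) ∧
      (∀ a : ℕ, ∀ t ∈ E,
        PoleOrder π (symdet (2 * a) (-a)) (pt t) (if t = 0 then adOrder c a else 0)) ∧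
      Moments π c ∧ (E = ⊤ → NatMoments π c) ∧
      (c = stSeq → (∀ k : ℕ, 1 ≤ k → ∀ (j : ℤ), ∀ t ∈ E, PoleOrder π (symdet k j) (pt t) 0) ∧
        TraceLaw π satoTate ∧ (E = ⊤ → NatLaw π satoTate)) ∧
      (c = cmSeq → (∀ k : ℕ, Odd k → ∀ (j : ℤ), ∀ t ∈ E, PoleOrder π (symdet k j) (pt t) 0) ∧
        TraceLaw π cmLaw ∧ (E = ⊤ → NatLaw π cmLaw)) := by
  classical
  have hall : ∀ m, IsCharacter m → ∀ t ∈ E, MeroAt π m (pt t) := fun m hm t ht =>
    mero_of_symdet hπ (fun k j => h k j t ht) hm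
  have hx : ∀ p, ‖((π p).x 0 : ℂ)‖ = 1 := fun p => (hπ p).2 0
  -- the orders at `1`
  have hex : ∀ a : ℕ, ∃ k : ℤ, PoleOrder π (symdet (2 * a) (-a)) 1 k := by
    intro a
    obtain ⟨k, hk⟩ := exists_poleOrder (t := 0) hπ (h (2 * a) (-a) 0 E.zero_mem)
    rw [pt_zeroF] at hk
    exact ⟨k, hk⟩
  choose N hN using hex
  have hN0 : N 0 = 1 := by
    have h1 := order_ad_zero (t := 0) hπ (h _ _ 0 E.zero_mem)
    rw [if_pos rfl] at h1
    have h2 := hN 0
    rw [← pt_zeroF] at h2
    exact order_unique hπ h2 h1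
  have hN1 : N 1 = 0 := by
    have h2 := hN 1
    have h3 : PoleOrder π (symdet (2 * 1) (-((1 : ℕ) : ℤ))) 1 0 := had
    rw [← pt_zeroF] at h2 h3
    exact order_unique hπ h2 h3
  set P : ℕ → ℤ := fun k => if k = 0 then 2 else N k - N (k - 1) with hPdef
  have hP0 : P 0 = 2 := by simp [hPdef]
  have hP1 : P 1 = -1 := by simp [hPdef, hN0, hN1]
  have hmean : ∀ k : ℕ, Mean (fun p => ((π p).x 0 : ℂ)) (fun z => 2 * (z ^ (k : ℤ)).re) (P k) :=
    fun k => mean_ad hπ (M := k) (fun a _ => hN a) k le_rfl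
  have hsymm : ∀ (k : ℕ) (v : ℝ), Mean (fun p => ((π p).x 0 : ℂ)) (fun z => 2 * (z ^ (k : ℤ)).re) v →
      Mean (fun p => ((π p).x 0 : ℂ)) (fun z => 2 * (z ^ (-(k : ℤ))).re) v := by
    intro k v h1
    refine Mean.congr hx h1 fun z hz => ?_
    rw [A5_re hz]
  have hmc : ∀ c : ℤ → ℤ, (∀ k, c (-k) = c k) → (∀ k : ℕ, P k = c k) →
      ∀ k : ℤ, Mean (fun p => ((π p).x 0 : ℂ)) (fun z => 2 * (z ^ k).re) (c k) := by
    intro c hc1 hc2 k
    rcases Int.natAbs_eq k with hk | hk
    · rw [hk, ← hc2]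
      exact hmean _
    · rw [hk, hc1, ← hc2]
      exact hsymm _ _ (hmean _)
  -- the sequence
  obtain ⟨c, hcT, hcm⟩ : ∃ c : ℤ → ℤ, (c = stSeq ∨ c = cmSeq ∨ FinType c) ∧
      ∀ k : ℤ, Mean (fun p => ((π p).x 0 : ℂ)) (fun z => 2 * (z ^ k).re) (c k) := by
    rcases all_levels hP0 hP1 with h1 | h1 | ⟨M, L, hL, h1⟩
    · exact ⟨stSeq, Or.inl rfl, hmc _ stSeq_neg h1⟩
    · exact ⟨cmSeq, Or.inr (Or.inl rfl), hmc _ cmSeq_neg h1⟩
    · exact ⟨L.val, Or.inr (Or.inr (finType_val hL)),
        fun k => mean_of_level hx h1 (fun j _ => hmean j) k⟩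
  have hex2 : ∀ a : ℕ, ∀ t ∈ E,
      PoleOrder π (symdet (2 * a) (-a)) (pt t) (if t = 0 then adOrder c a else 0) := by
    obtain ⟨cc, hcc⟩ := exists_isOrd hπ hall
    have had' := had_of hπ hcc had
    intro a t ht
    by_cases ht0 : t = 0
    · subst ht0
      rw [if_pos rfl]
      have h1 := hN a
      rw [← pt_zeroF] at h1
      have h2 := order_of_moments hπ hcm h1
      rw [← h2]
      exact h1
    · rw [if_neg ht0]
      obtain ⟨o, ho⟩ := exists_poleOrder hπ (h (2 * a) (-a) t ht)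
      have h1 := order_symdet (t := ⟨t, ht⟩) hπ hcc ho
      have e0 : ((2 * a : ℕ) : ℤ) + 2 * -(a : ℤ) = 0 := by push_cast; ring
      rw [e0, Finset.sum_eq_zero fun i _ =>
        ord_line hπ hcc had' _ (fun h2 => ht0 (congrArg Subtype.val h2))] at h1
      have h2 : o = 0 := by linarith
      rw [h2] at ho
      exact ho
  refine ⟨c, hcT, hex2, moments_of hcm, ?_, ?_, ?_⟩
  · rintro rfl k
    obtain ⟨cc, hcc⟩ := exists_isOrd hπ hall
    obtain ⟨_, L, hL1, hL2⟩ := good_x hπ hcc (had_of hπ hcc had) k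
    have h1 : L = c k := MeanP.unique hL1 (hcm k)
    rw [← h1]
    exact hL2
  · rintro rfl
    rcases gl2_cases hπ hall had with ⟨h1, h2⟩ | ⟨_, h2, _⟩ | ⟨r, hr, _, h2⟩
    · refine ⟨h1, h2, ?_⟩
      rintro rfl
      exact natLaw_of_traceLaw hπ (fun m hm t => hall m hm t trivial) had h2
    · exfalso
      have h3 := h2 2 0 E.zero_mem
      have h4 := hex2 2 0 E.zero_mem
      have h5 := order_unique hπ h3 h4
      rw [if_pos rfl, if_pos ⟨rfl, even_two⟩, adOrder_st] at h5
      norm_num at h5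
    · exfalso
      have h3 := tendsto_nhds_unique (hcm r) h2
      unfold stSeq at h3
      rw [if_neg (by omega)] at h3
      split_ifs at h3 <;> norm_num at h3
  · rintro rfl
    rcases gl2_cases hπ hall had with ⟨h1, _⟩ | ⟨h1, _, h2⟩ | ⟨r, hr, hre, h2⟩
    · exfalso
      have h3 := h1 4 (by norm_num) (-2) 0 E.zero_mem
      have h4 : PoleOrder π (symdet 4 (-2)) (pt 0) (if (0 : ℝ) = 0 then adOrder cmSeq 2 else 0) :=
        hex2 2 0 E.zero_mem
      have h5 := order_unique hπ h3 h4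
      rw [if_pos rfl, adOrder_cm, if_pos even_two] at h5
      norm_num at h5
    · refine ⟨h1, h2, ?_⟩
      rintro rfl
      exact natLaw_of_traceLaw hπ (fun m hm t => hall m hm t trivial) had h2
    · exfalso
      have h3 := tendsto_nhds_unique (hcm r) h2
      unfold cmSeq at h3
      rw [if_neg (by omega), Int.natAbs_natCast, hre.neg_one_pow] at h3
      norm_num at h3

end Pool.Agent.EEA520
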